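import Pool.Agent.Lib.MP_4f1247_co.NL.Stmts14

/-!
# Limits of large neighborly polyhedra: the azimuth lemma and the half space lemma (rows N5, N6)
-/

set_option autoImplicit false

open MeasureTheory Filter Topology
open scoped ENNReal

namespace NPL

namespace Az23

/-- pair trick -/
theorem pair_trick {Ω : Type*} [MeasurableSpace Ω] (μ : Measure Ω) [IsFiniteMeasure μ]
    (A : Set Ω) (R Z : Set (Ω × Ω)) (hA : MeasurableSet A) (hR : MeasurableSet R)
    (hZ : MeasurableSet Z) (hn : ∀ a ∈ A, μ {x | (a, x) ∈ R} = 0)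
    (hd : ∀ a ∈ A, ∀ a' ∈ A, (a, a') ∈ R ∨ (a', a) ∈ R ∨ (a, a') ∈ Z) :
    ∀ᵐ a ∂μ, a ∈ A → 0 < μ {x | (a, x) ∈ Z} := by
  by_cases h0 : μ A = 0
  · have : ∀ᵐ a ∂μ, a ∉ A := measure_eq_zero_iff_ae_notMem.1 h0
    filter_upwards [this] with a ha hA'
    exact absurd hA' ha
  · set S : Set (Ω × Ω) := (A ×ˢ A) ∩ R with hS
    have hSm : MeasurableSet S := (hA.prod hA).inter hR
    have hS0 : (μ.prod μ) S = 0 := by
      rw [Measure.measure_prod_null hSm]
      refine Filter.Eventually.of_forall fun a => ?_
      by_cases ha : a ∈ A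
      · refine measure_mono_null ?_ (hn a ha)
        intro x hx
        exact hx.2
      · have : Prod.mk a ⁻¹' S = ∅ := by
          ext x
          simp [hS, ha]
        simp [this]
    have hS1 : (μ.prod μ) (Prod.swap ⁻¹' S) = 0 := by
      have h := Measure.prod_swap (μ := μ) (ν := μ)
      rw [← h, Measure.map_apply measurable_swap (measurable_swap hSm)]
      rw [← Set.preimage_comp]
      simpa using hS0
    have hT : (μ.prod μ) ((A ×ˢ A) \ Z) = 0 := by
      refine measure_mono_null (t := S ∪ Prod.swap ⁻¹' S) ?_ (measure_union_null hS0 hS1)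
      rintro ⟨a, a'⟩ ⟨⟨ha, ha'⟩, hz⟩
      rcases hd a ha a' ha' with h | h | h
      · exact Or.inl ⟨⟨ha, ha'⟩, h⟩
      · exact Or.inr ⟨⟨ha', ha⟩, h⟩
      · exact absurd h hz
    rw [Measure.measure_prod_null ((hA.prod hA).diff hZ)] at hT
    filter_upwards [hT] with a ha hA'
    have h1 : μ A ≤ μ {x | (a, x) ∈ Z} + μ (Prod.mk a ⁻¹' ((A ×ˢ A) \ Z)) := by
      refine le_trans (measure_mono ?_) (measure_union_le _ _)
      intro x hx
      by_cases hz : (a, x) ∈ Z
      · exact Or.inl hz
      · exact Or.inr ⟨⟨hA', hx⟩, hz⟩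
    have ha' : μ (Prod.mk a ⁻¹' ((A ×ˢ A) \ Z)) = 0 := ha
    rw [ha', add_zero] at h1
    exact lt_of_lt_of_le (pos_iff_ne_zero.2 h0) h1

/-- explicit form of the determinant -/
theorem det4_eq (u v w x : E4) : det4 u v w x =
    u 0 * (v 1 * (w 2 * x 3 - w 3 * x 2) - v 2 * (w 1 * x 3 - w 3 * x 1)
      + v 3 * (w 1 * x 2 - w 2 * x 1))
    - u 1 * (v 0 * (w 2 * x 3 - w 3 * x 2) - v 2 * (w 0 * x 3 - w 3 * x 0)
      + v 3 * (w 0 * x 2 - w 2 * x 0))
    + u 2 * (v 0 * (w 1 * x 3 - w 3 * x 1) - v 1 * (w 0 * x 3 - w 3 * x 0)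
      + v 3 * (w 0 * x 1 - w 1 * x 0))
    - u 3 * (v 0 * (w 1 * x 2 - w 2 * x 1) - v 1 * (w 0 * x 2 - w 2 * x 0)
      + v 2 * (w 0 * x 1 - w 1 * x 0)) := by
  unfold det4
  simp [Matrix.det_succ_row_zero, Fin.sum_univ_succ, Fin.succAbove]
  ring

theorem cont4 {X : Type*} [TopologicalSpace X] {f g h k : X → E4} (hf : Continuous f)
    (hg : Continuous g) (hh : Continuous h) (hk : Continuous k) :
    Continuous fun x => det4 (f x) (g x) (h x) (k x) := by
  simp only [det4_eq]
  fun_prop

theorem swap23 (u e a x : E4) : det4 u e x a = - det4 u e a x := by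
  rw [det4_eq, det4_eq]
  ring

theorem swapA (u e a x : E4) : det4 u a x e = - det4 u x a e := by
  rw [det4_eq, det4_eq]
  ring

theorem rotE (u e a x : E4) : det4 u a x e = det4 u e a x := by
  rw [det4_eq, det4_eq]
  ring

/-- one half space -/
theorem half (μ : Measure E4) [IsFiniteMeasure μ] (u e : E4) (s : ℝ) :
    ∀ᵐ a ∂μ, 0 < μ {x | det4 u e a x = 0} ∨ s = 0 ∨ 0 < μ {x | 0 < s * det4 u e a x} := by
  set R : Set (E4 × E4) := {t | 0 < s * det4 u e t.1 t.2} with hR
  set Z : Set (E4 × E4) := {t | det4 u e t.1 t.2 = 0} with hZ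
  have hc : Continuous fun t : E4 × E4 => det4 u e t.1 t.2 :=
    cont4 continuous_const continuous_const continuous_fst continuous_snd
  have hRm : MeasurableSet R :=
    (isOpen_lt continuous_const (continuous_const.mul hc)).measurableSet
  have hZm : MeasurableSet Z := (isClosed_eq hc continuous_const).measurableSet
  set A : Set E4 := {a | μ {x | (a, x) ∈ R} = 0} with hA
  have hAm : MeasurableSet A := by
    have h := measurable_measure_prodMk_left (ν := μ) hRm
    exact h (measurableSet_singleton 0)
  by_cases hs : s = 0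
  · exact Filter.Eventually.of_forall fun a => Or.inr (Or.inl hs)
  have h := pair_trick μ A R Z hAm hRm hZm (fun a ha => ha) (by
    intro a _ a' _
    rcases lt_trichotomy 0 (s * det4 u e a a') with h1 | h1 | h1
    · exact Or.inl h1
    · right; right
      rcases mul_eq_zero.1 h1.symm with h2 | h2
      · exact absurd h2 hs
      · exact h2
    · right; left
      change 0 < s * det4 u e a' a
      rw [swap23 u e a a']
      linarith)
  filter_upwards [h] with a ha
  by_cases hA' : a ∈ A
  · exact Or.inl (ha hA')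
  · right; right
    exact pos_iff_ne_zero.2 hA'

/-- Plücker relation -/
theorem plucker (u e a q x b : E4) : det4 u a q e * det4 u x b e =
    det4 u x q e * det4 u a b e + det4 u a x e * det4 u q b e := by
  simp only [det4_eq]
  ring

/-- one rational vector -/
theorem cone (μ : Measure E4) [IsFiniteMeasure μ] (u e q : E4) (s : ℝ) :
    ∀ᵐ a ∂μ, 0 < μ {x | det4 u e a x = 0} ∨ s = 0 ∨ ¬ 0 < s * det4 u a q e ∨
      0 < μ {x | 0 < s * det4 u x q e ∧ 0 < s * det4 u a x e} := by
  set R : Set (E4 × E4) := {t | 0 < s * det4 u t.2 q e ∧ 0 < s * det4 u t.1 t.2 e} with hR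
  set Z : Set (E4 × E4) := {t | det4 u e t.1 t.2 = 0} with hZ
  have hc : Continuous fun t : E4 × E4 => det4 u e t.1 t.2 :=
    cont4 continuous_const continuous_const continuous_fst continuous_snd
  have hc1 : Continuous fun t : E4 × E4 => s * det4 u t.2 q e :=
    continuous_const.mul (cont4 continuous_const continuous_snd continuous_const continuous_const)
  have hc2 : Continuous fun t : E4 × E4 => s * det4 u t.1 t.2 e :=
    continuous_const.mul (cont4 continuous_const continuous_fst continuous_snd continuous_const)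
  have hRm : MeasurableSet R :=
    ((isOpen_lt continuous_const hc1).measurableSet).inter
      ((isOpen_lt continuous_const hc2).measurableSet)
  have hZm : MeasurableSet Z := (isClosed_eq hc continuous_const).measurableSet
  have hc3 : Continuous fun a : E4 => s * det4 u a q e :=
    continuous_const.mul (cont4 continuous_const continuous_id continuous_const continuous_const)
  set A : Set E4 := {a | 0 < s * det4 u a q e ∧ μ {x | (a, x) ∈ R} = 0} with hA
  have hAm : MeasurableSet A := by
    have h := measurable_measure_prodMk_left (ν := μ) hRm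
    exact ((isOpen_lt continuous_const hc3).measurableSet).inter (h (measurableSet_singleton 0))
  by_cases hs : s = 0
  · exact Filter.Eventually.of_forall fun a => Or.inr (Or.inl hs)
  have h := pair_trick μ A R Z hAm hRm hZm (fun a ha => ha.2) (by
    intro a ha a' ha'
    rcases lt_trichotomy 0 (s * det4 u a a' e) with h1 | h1 | h1
    · exact Or.inl ⟨ha'.1, h1⟩
    · right; right
      rcases mul_eq_zero.1 h1.symm with h2 | h2
      · exact absurd h2 hs
      · change det4 u e a a' = 0
        rw [← rotE]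
        exact h2
    · right; left
      refine ⟨ha.1, ?_⟩
      change 0 < s * det4 u a' a e
      rw [swapA u e a' a]
      linarith)
  filter_upwards [h] with a ha
  by_cases hA' : a ∈ A
  · exact Or.inl (ha hA')
  · right; right
    by_cases h1 : 0 < s * det4 u a q e
    · right
      refine pos_iff_ne_zero.2 fun h2 => hA' ⟨h1, h2⟩
    · exact Or.inl h1

end Az23

/-- row N6 -/
theorem hp_23 : StHp := by
  intro μ _ u e _
  filter_upwards [Az23.half μ u e 1, Az23.half μ u e (-1)] with a h1 h2
  rcases h1 with h1 | h1 | h1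
  · exact Or.inl h1
  · norm_num at h1
  · rcases h2 with h2 | h2 | h2
    · exact Or.inl h2
    · norm_num at h2
    · refine Or.inr ⟨?_, ?_⟩
      · simpa using h1
      · simpa using h2

/-- row N5 -/
theorem az_23 : StAz := by
  intro μ _ u e _
  obtain ⟨Q, hQc, hQd⟩ := TopologicalSpace.exists_countable_dense E4
  have h1 : ∀ᵐ a ∂μ, ∀ q ∈ Q, 0 < μ {x | det4 u e a x = 0} ∨ (1 : ℝ) = 0 ∨
      ¬ 0 < 1 * det4 u a q e ∨ 0 < μ {x | 0 < 1 * det4 u x q e ∧ 0 < 1 * det4 u a x e} :=
    (ae_ball_iff hQc).2 fun q _ => Az23.cone μ u e q 1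
  have h2 : ∀ᵐ a ∂μ, ∀ q ∈ Q, 0 < μ {x | det4 u e a x = 0} ∨ (-1 : ℝ) = 0 ∨
      ¬ 0 < (-1) * det4 u a q e ∨
      0 < μ {x | 0 < (-1) * det4 u x q e ∧ 0 < (-1) * det4 u a x e} :=
    (ae_ball_iff hQc).2 fun q _ => Az23.cone μ u e q (-1)
  filter_upwards [h1, h2] with a h1 h2
  by_cases h0 : 0 < μ {x | det4 u e a x = 0}
  · exact Or.inl h0
  right
  intro b hb
  -- one sign
  have key : ∀ s : ℝ, (∀ q ∈ Q, 0 < μ {x | det4 u e a x = 0} ∨ s = 0 ∨
      ¬ 0 < s * det4 u a q e ∨ 0 < μ {x | 0 < s * det4 u x q e ∧ 0 < s * det4 u a x e}) →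
      0 < s * det4 u a b e → s ≠ 0 →
      0 < μ {x | 0 < s * det4 u x b e ∧ 0 < s * det4 u a x e} := by
    intro s hs hsb hs0
    have ho1 : IsOpen {q : E4 | 0 < s * det4 u q b e} :=
      isOpen_lt continuous_const (continuous_const.mul
        (Az23.cont4 continuous_const continuous_id continuous_const continuous_const))
    have ho2 : IsOpen {q : E4 | 0 < s * det4 u a q e} :=
      isOpen_lt continuous_const (continuous_const.mul
        (Az23.cont4 continuous_const continuous_const continuous_id continuous_const))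
    have hne : ({q : E4 | 0 < s * det4 u q b e} ∩ {q : E4 | 0 < s * det4 u a q e}).Nonempty := by
      refine ⟨a + b, ?_, ?_⟩
      · have : det4 u (a + b) b e = det4 u a b e := by
          simp only [Az23.det4_eq, PiLp.add_apply]
          ring
        change 0 < s * det4 u (a + b) b e
        rw [this]
        exact hsb
      · have : det4 u a (a + b) e = det4 u a b e := by
          simp only [Az23.det4_eq, PiLp.add_apply]
          ring
        change 0 < s * det4 u a (a + b) e
        rw [this]
        exact hsb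
    obtain ⟨q, ⟨hq1, hq2⟩, hqQ⟩ := hQd.inter_open_nonempty _ (ho1.inter ho2) hne
    rcases hs q hqQ with h | h | h | h
    · exact absurd h h0
    · exact absurd h hs0
    · exact absurd hq2 h
    · refine lt_of_lt_of_le h (measure_mono ?_)
      rintro x ⟨hx1, hx2⟩
      refine ⟨?_, hx2⟩
      have hp := Az23.plucker u e a q x b
      have hq1' : 0 < s * det4 u q b e := hq1
      have hq2' : 0 < s * det4 u a q e := hq2
      have h3 : 0 < (s * det4 u x q e) * (s * det4 u a b e) +
          (s * det4 u a x e) * (s * det4 u q b e) :=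
        add_pos (mul_pos hx1 hsb) (mul_pos hx2 hq1')
      have h4 : (s * det4 u a q e) * (s * det4 u x b e) =
          (s * det4 u x q e) * (s * det4 u a b e) +
          (s * det4 u a x e) * (s * det4 u q b e) := by
        linear_combination s ^ 2 * hp
      rw [← h4] at h3
      exact (pos_iff_pos_of_mul_pos h3).1 hq2'
  rcases lt_or_gt_of_ne hb with hb' | hb'
  · have h := key (-1) h2 (by linarith) (by norm_num)
    refine lt_of_lt_of_le h (measure_mono ?_)
    rintro x ⟨hx1, hx2⟩
    exact ⟨by nlinarith, by nlinarith⟩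
  · have h := key 1 h1 (by linarith) (by norm_num)
    refine lt_of_lt_of_le h (measure_mono ?_)
    rintro x ⟨hx1, hx2⟩
    exact ⟨by nlinarith, by nlinarith⟩

end NPL
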