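import Pool.Agent.Lib.MP_4f1247_co.NL.Stmts14

/-!
Rows N8 (three concurrent lines) and N9 (Ceva).
-/

set_option autoImplicit false

namespace NPL

namespace Conc7

theorem li_iff (u v w x : E4) : LinearIndependent ℝ ![u, v, w, x] ↔ det4 u v w x ≠ 0 := by
  have h1 : LinearIndependent ℝ ((WithLp.linearEquiv 2 ℝ (Fin 4 → ℝ)).toLinearMap ∘ ![u, v, w, x])
      ↔ LinearIndependent ℝ ![u, v, w, x] :=
    LinearMap.linearIndependent_iff _ (LinearEquiv.ker _)
  rw [← h1]
  have h2 : ((WithLp.linearEquiv 2 ℝ (Fin 4 → ℝ)).toLinearMap ∘ ![u, v, w, x])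
      = (Matrix.of fun i j : Fin 4 => (![u, v, w, x] i) j).row := by
    funext i
    rfl
  rw [h2, Matrix.linearIndependent_rows_iff_isUnit, Matrix.isUnit_iff_isUnit_det,
    isUnit_iff_ne_zero]
  rfl

theorem det4_swap (u v w x : E4) : det4 v u w x = - det4 u v w x := by
  unfold det4
  simp only [Matrix.det_succ_row_zero, Fin.sum_univ_succ, Matrix.of_apply, Matrix.cons_val_zero,
    Matrix.submatrix_apply, Matrix.det_fin_zero]
  simp [Fin.succAbove, Fin.lt_def]
  ring

theorem det4_rot (u v w x : E4) : det4 x u v w = - det4 u v w x := by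
  unfold det4
  simp only [Matrix.det_succ_row_zero, Fin.sum_univ_succ, Matrix.of_apply, Matrix.cons_val_zero,
    Matrix.submatrix_apply, Matrix.det_fin_zero]
  simp [Fin.succAbove, Fin.lt_def]
  ring

theorem dep {p q r x : E4} (h : LinearIndependent ℝ ![p, q, r]) (hd : det4 x p q r = 0) :
    ∃ α β γ : ℝ, x = α • p + β • q + γ • r := by
  have h1 : ¬ LinearIndependent ℝ ![x, p, q, r] := by
    rw [li_iff]
    simpa using hd
  have h2 : x ∈ Submodule.span ℝ (Set.range ![p, q, r]) := by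
    by_contra h3
    exact h1 (linearIndependent_finCons.2 ⟨h, h3⟩)
  rw [Submodule.mem_span_range_iff_exists_fun] at h2
  obtain ⟨c, hc⟩ := h2
  refine ⟨c 0, c 1, c 2, ?_⟩
  rw [← hc, Fin.sum_univ_three]
  rfl

theorem li4 {p q r s : E4} (h : LinearIndependent ℝ ![p, q, r, s]) {α β γ δ : ℝ}
    (h0 : α • p + β • q + γ • r + δ • s = 0) : α = 0 ∧ β = 0 ∧ γ = 0 ∧ δ = 0 := by
  rw [Fintype.linearIndependent_iff] at h
  have h1 := h ![α, β, γ, δ] (by
    rw [Fin.sum_univ_four]
    exact h0)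
  exact ⟨h1 0, h1 1, h1 2, h1 3⟩

theorem li3 {p q r : E4} (h : LinearIndependent ℝ ![p, q, r]) {α β γ : ℝ}
    (h0 : α • p + β • q + γ • r = 0) : α = 0 ∧ β = 0 ∧ γ = 0 := by
  rw [Fintype.linearIndependent_iff] at h
  have h1 := h ![α, β, γ] (by
    rw [Fin.sum_univ_three]
    exact h0)
  exact ⟨h1 0, h1 1, h1 2⟩

end Conc7

open Conc7 in
/-- N8 -/
theorem conc : StConc := by
  intro a ea b eb u eu h3 hb hu hab hua hub hne
  have h4 : LinearIndependent ℝ ![a, ea, b, u] := (li_iff _ _ _ _).2 hne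
  obtain ⟨x, y, z, hxyz⟩ := dep (x := eb) h3 (by rw [det4_rot, hab, neg_zero])
  have hua3 : LinearIndependent ℝ ![u, a, ea] := by
    rw [Fintype.linearIndependent_iff]
    intro g hg
    rw [Fin.sum_univ_three] at hg
    have h5 : g 1 • a + g 2 • ea + (0 : ℝ) • b + g 0 • u = 0 := by
      rw [← hg]
      simp
      module
    obtain ⟨e1, e2, -, e3⟩ := li4 h4 h5
    intro i
    fin_cases i
    · exact e3
    · exact e1
    · exact e2
  have hub3 : LinearIndependent ℝ ![u, b, eb] := by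
    rw [Fintype.linearIndependent_iff]
    intro g hg
    rw [Fin.sum_univ_three] at hg
    have hg' : g 0 • u + g 1 • b + g 2 • eb = 0 := hg
    have h5 : (g 2 * x) • a + (g 2 * y) • ea + (g 1 + g 2 * z) • b + g 0 • u = 0 := by
      rw [← hg', hxyz]
      module
    obtain ⟨-, -, -, e3⟩ := li4 h4 h5
    rw [e3, zero_smul, zero_add] at hg'
    rw [LinearIndependent.pair_iff] at hb
    obtain ⟨e4, e5⟩ := hb _ _ hg'
    intro i
    fin_cases i
    · exact e3
    · exact e4
    · exact e5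
  obtain ⟨c, p, q, h6⟩ := dep (x := eu) hua3 (by rw [det4_swap, hua, neg_zero])
  obtain ⟨c', r, s, h7⟩ := dep (x := eu) hub3 (by rw [det4_swap, hub, neg_zero])
  have h8 : (p - s * x) • a + (q - s * y) • ea + (-(r + s * z)) • b + (c - c') • u = 0 := by
    have e1 : (c • u + p • a + q • ea) - (c' • u + r • b + s • (x • a + y • ea + z • b)) = 0 := by
      rw [← h6, ← hxyz, ← h7, sub_self]
    rw [← e1]
    module
  obtain ⟨-, -, -, h9⟩ := li4 h4 h8
  have hcc : c = c' := by linarith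
  refine ⟨eu - c • u, ?_, ?_, ?_, ?_⟩
  · intro h0
    rw [LinearIndependent.pair_iff] at hu
    have := (hu (-c) 1 (by rw [← h0]; module)).2
    exact one_ne_zero this
  · rw [Submodule.mem_span_pair]
    exact ⟨p, q, by rw [h6]; module⟩
  · rw [Submodule.mem_span_pair]
    exact ⟨r, s, by rw [h7, hcc]; module⟩
  · rw [Submodule.mem_span_pair]
    exact ⟨-c, 1, by module⟩

open Conc7 in
/-- N9 -/
theorem ceva : StCeva := by
  intro x ex y ey z ez O h3 hx hy hz hd hO hOx hOy hOz hyx hzx hxy hzy hxz hyz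
  obtain ⟨c, s, t, hex⟩ := dep (x := ex) h3 (by rw [det4_rot, hd, neg_zero])
  rw [Submodule.mem_span_pair] at hOx hOy hOz
  obtain ⟨p, q, h1⟩ := hOx
  obtain ⟨p', q', h2⟩ := hOy
  obtain ⟨p'', q'', h4⟩ := hOz
  have hq : q ≠ 0 := by
    rintro rfl
    rw [zero_smul, add_zero] at h1
    have hp : p ≠ 0 := by
      rintro rfl
      exact hO (by rw [← h1, zero_smul])
    apply hxy
    rw [Submodule.mem_span_pair]
    refine ⟨p⁻¹ * p', p⁻¹ * q', ?_⟩
    have : x = p⁻¹ • O := by rw [← h1, smul_smul, inv_mul_cancel₀ hp, one_smul]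
    rw [this, ← h2]
    module
  have hq' : q' ≠ 0 := by
    rintro rfl
    rw [zero_smul, add_zero] at h2
    have hp : p' ≠ 0 := by
      rintro rfl
      exact hO (by rw [← h2, zero_smul])
    apply hyx
    rw [Submodule.mem_span_pair]
    refine ⟨p'⁻¹ * p, p'⁻¹ * q, ?_⟩
    have : y = p'⁻¹ • O := by rw [← h2, smul_smul, inv_mul_cancel₀ hp, one_smul]
    rw [this, ← h1]
    module
  have hq'' : q'' ≠ 0 := by
    rintro rfl
    rw [zero_smul, add_zero] at h4
    have hp : p'' ≠ 0 := by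
      rintro rfl
      exact hO (by rw [← h4, zero_smul])
    apply hzx
    rw [Submodule.mem_span_pair]
    refine ⟨p''⁻¹ * p, p''⁻¹ * q, ?_⟩
    have : z = p''⁻¹ • O := by rw [← h4, smul_smul, inv_mul_cancel₀ hp, one_smul]
    rw [this, ← h1]
    module
  -- the coordinates of `O`
  have hOc : O = (p + q * c) • x + (q * s) • y + (q * t) • z := by
    rw [← h1, hex]
    module
  set α : ℝ := p + q * c with hα
  have hs : s ≠ 0 := by
    rintro rfl
    rw [zero_smul, add_zero] at hex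
    have ht : t ≠ 0 := by
      rintro rfl
      rw [zero_smul, add_zero] at hex
      rw [LinearIndependent.pair_iff] at hx
      have := (hx (-c) 1 (by rw [hex]; module)).2
      exact one_ne_zero this
    apply hzx
    rw [Submodule.mem_span_pair]
    refine ⟨-(t⁻¹ * c), t⁻¹, ?_⟩
    rw [hex]
    have : t⁻¹ * t = 1 := inv_mul_cancel₀ ht
    calc -(t⁻¹ * c) • x + t⁻¹ • (c • x + t • z) = (t⁻¹ * t) • z := by module
      _ = z := by rw [this, one_smul]
  have ht : t ≠ 0 := by
    rintro rfl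
    rw [zero_smul, add_zero] at hex
    apply hyx
    rw [Submodule.mem_span_pair]
    refine ⟨-(s⁻¹ * c), s⁻¹, ?_⟩
    rw [hex]
    have : s⁻¹ * s = 1 := inv_mul_cancel₀ hs
    calc -(s⁻¹ * c) • x + s⁻¹ • (c • x + s • y) = (s⁻¹ * s) • y := by module
      _ = y := by rw [this, one_smul]
  have hey : ey = (q'⁻¹ * ((q * s) - p')) • y + (q'⁻¹ * (q * t)) • z + (q'⁻¹ * α) • x := by
    have e1 : q' • ey = O - p' • y := by rw [← h2]; module
    have e2 : ey = q'⁻¹ • (O - p' • y) := by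
      rw [← e1, smul_smul, inv_mul_cancel₀ hq', one_smul]
    rw [e2, hOc]
    module
  have hez : ez = (q''⁻¹ * ((q * t) - p'')) • z + (q''⁻¹ * α) • x + (q''⁻¹ * (q * s)) • y := by
    have e1 : q'' • ez = O - p'' • z := by rw [← h4]; module
    have e2 : ez = q''⁻¹ • (O - p'' • z) := by
      rw [← e1, smul_smul, inv_mul_cancel₀ hq'', one_smul]
    rw [e2, hOc]
    module
  have hα0 : α ≠ 0 := by
    intro h0
    rw [h0, mul_zero, zero_smul, add_zero] at hey
    have hk : q'⁻¹ * (q * t) ≠ 0 := mul_ne_zero (inv_ne_zero hq') (mul_ne_zero hq ht)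
    apply hzy
    rw [Submodule.mem_span_pair]
    refine ⟨-((q'⁻¹ * (q * t))⁻¹ * (q'⁻¹ * ((q * s) - p'))), (q'⁻¹ * (q * t))⁻¹, ?_⟩
    rw [hey]
    have : (q'⁻¹ * (q * t))⁻¹ * (q'⁻¹ * (q * t)) = 1 := inv_mul_cancel₀ hk
    generalize q'⁻¹ * (q * t) = k at *
    calc _ = (k⁻¹ * k) • z := by module
      _ = z := by rw [this, one_smul]
  have hqs : q * s ≠ 0 := mul_ne_zero hq hs
  have hqt : q * t ≠ 0 := mul_ne_zero hq ht
  by_cases h5 : 0 < (q * s) * (q * t)
  · left
    refine ⟨c, s, t, ?_, hex⟩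
    have : (q * s) * (q * t) = q ^ 2 * (s * t) := by ring
    rw [this] at h5
    exact (pos_iff_pos_of_mul_pos h5).1 (by positivity)
  · right
    have h6 : (q * s) * (q * t) < 0 := lt_of_le_of_ne (not_lt.1 h5) (mul_ne_zero hqs hqt)
    by_cases h7 : 0 < (q * t) * α
    · left
      refine ⟨_, _, _, ?_, hey⟩
      have h8 : q'⁻¹ * (q * t) * (q'⁻¹ * α) = q'⁻¹ ^ 2 * ((q * t) * α) := by ring
      rw [h8]
      have := inv_ne_zero hq'
      positivity
    · right
      have h8 : (q * t) * α < 0 := lt_of_le_of_ne (not_lt.1 h7) (mul_ne_zero hqt hα0)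
      refine ⟨_, _, _, ?_, hez⟩
      have h9 : q''⁻¹ * α * (q''⁻¹ * (q * s)) = q''⁻¹ ^ 2 * (α * (q * s)) := by ring
      rw [h9]
      have h10 : 0 < α * (q * s) := by
        have h11 : 0 < ((q * s) * (q * t)) * ((q * t) * α) := mul_pos_of_neg_of_neg h6 h8
        have h12 : ((q * s) * (q * t)) * ((q * t) * α) = (q * t) ^ 2 * (α * (q * s)) := by ring
        rw [h12] at h11
        exact (pos_iff_pos_of_mul_pos h11).1 (by positivity)
      have := inv_ne_zero hq''
      positivity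

end NPL
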