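import Pool.Agent.Lib.MP_4f1247_co.NL.FrG14
import Pool.Agent.Lib.MP_4f1247_co.NL.Slab19

/-!
# N19: a charged line or a heavy plane, in every projective position
-/

set_option autoImplicit false

open MeasureTheory Filter Topology
open scoped ENNReal

namespace NPL
namespace Dich14

open Slab19

theorem mem_of_infDist {W : Submodule ℝ E4} {x : E4} {r : ℝ} (h : Metric.infDist x W < r) :
    ∃ w ∈ W, dist x w < r := by
  have hne : (W : Set E4).Nonempty := ⟨0, W.zero_mem⟩
  obtain ⟨w, hw, h⟩ := (Metric.infDist_lt_iff hne).1 h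
  exact ⟨w, hw, h⟩

/-- the distance to a subspace after a linear map -/
theorem infDist_map (g : E4 ≃ₗ[ℝ] E4) : ∃ K : ℝ, 0 < K ∧ ∀ (W : Submodule ℝ E4) (a : E4) (r : ℝ),
    ‖a‖ = 1 → 0 < r → Metric.infDist (‖g a‖⁻¹ • g a) W < r →
    Metric.infDist a (W.map (g.symm : E4 →ₗ[ℝ] E4)) ≤ K * r := by
  set g' : E4 →L[ℝ] E4 := LinearMap.toContinuousLinearMap (g : E4 →ₗ[ℝ] E4) with hg'
  set h' : E4 →L[ℝ] E4 := LinearMap.toContinuousLinearMap (g.symm : E4 →ₗ[ℝ] E4) with hh'
  refine ⟨‖h'‖ * ‖g'‖ + 1, by positivity, ?_⟩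
  intro W a r ha hr h
  obtain ⟨w, hw, hd⟩ := mem_of_infDist h
  have hga : 0 < ‖g a‖ := by
    rw [norm_pos_iff]
    intro h0
    rw [LinearEquiv.map_eq_zero_iff] at h0
    rw [h0, norm_zero] at ha
    exact zero_ne_one ha
  have hle : ‖g a‖ ≤ ‖g'‖ := by
    have := g'.le_opNorm a
    rw [ha, mul_one] at this
    exact this
  have hmem : ‖g a‖ • g.symm w ∈ W.map (g.symm : E4 →ₗ[ℝ] E4) :=
    Submodule.smul_mem _ _ (Submodule.mem_map_of_mem hw)
  have h1 : a - ‖g a‖ • g.symm w = h' (‖g a‖ • (‖g a‖⁻¹ • g a - w)) := by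
    have h2 : h' (‖g a‖ • (‖g a‖⁻¹ • g a - w)) = g.symm (‖g a‖ • (‖g a‖⁻¹ • g a - w)) := rfl
    rw [h2, smul_sub, smul_smul, mul_inv_cancel₀ hga.ne', one_smul, map_sub,
      LinearEquiv.symm_apply_apply, map_smul]
  have h3 : dist a (‖g a‖ • g.symm w) ≤ ‖h'‖ * (‖g'‖ * r) := by
    rw [dist_eq_norm, h1]
    refine (h'.le_opNorm _).trans (mul_le_mul_of_nonneg_left ?_ (norm_nonneg _))
    rw [norm_smul, norm_norm]
    rw [dist_eq_norm] at hd
    exact mul_le_mul hle hd.le (norm_nonneg _) (norm_nonneg _)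
  refine (Metric.infDist_le_dist_of_mem hmem).trans (h3.trans ?_)
  nlinarith

theorem noLine {N : ℕ → ℕ} (𝒰 : Ultrafilter ℕ) (F F' : ∀ k, Fr (N k))
    (G : ∀ k, Finset (Fin (N k))) (X : Lim)
    (hX : ∀ (U : Set (S3 × Bool)) (c : ℝ), IsOpen U →
        (∀ᶠ k in (𝒰 : Filter ℕ),
          ({i | ((F' k).pt i, decide (i ∈ G k)) ∈ U}.ncard : ℝ) ≤ c * N k) →
        X.ν {m | (m.1, m.2.2) ∈ U} ≤ ENNReal.ofReal c)
    (g : E4 ≃ₗ[ℝ] E4)
    (hF : ∀ k i, (F' k).a i = ‖g ((F k).a i)‖⁻¹ • g ((F k).a i))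
    (ω : ℝ → ℝ) (hω : Tendsto ω (𝓝[>] 0) (𝓝 0))
    (hs : ∀ k (W : Submodule ℝ E4) (r : ℝ), Module.finrank ℝ W = 2 → 0 < r →
      ({i | i ∈ G k ∧ Metric.infDist ((F k).a i) W ≤ r}.ncard : ℝ) ≤ ω r * N k) :
    NoLine X.mu := by
  obtain ⟨K, hK, hKg⟩ := infDist_map g
  intro W hW
  have hWm : MeasurableSet (W : Set E4) := (Submodule.closed_of_finiteDimensional W).measurableSet
  have hW' : Module.finrank ℝ (W.map (g.symm : E4 →ₗ[ℝ] E4)) = 2 := by
    rw [← hW]
    exact LinearEquiv.finrank_map_eq g.symm W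
  have hopen : ∀ r : ℝ, IsOpen {z : S3 × Bool | Metric.infDist (z.1 : E4) W < r ∧ z.2 = true} := by
    intro r
    apply IsOpen.inter
    · exact isOpen_lt ((Metric.continuous_infDist_pt _).comp
        (continuous_subtype_val.comp continuous_fst)) continuous_const
    · exact (isOpen_discrete ({true} : Set Bool)).preimage continuous_snd
  have hle : ∀ r : ℝ, 0 < r → X.mu W ≤ ENNReal.ofReal (ω (K * r)) := by
    intro r hr
    refine (mu_le X _ hWm {z : S3 × Bool | Metric.infDist (z.1 : E4) W < r ∧ z.2 = true} ?_).trans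
      (hX _ _ (hopen r) (Eventually.of_forall fun k => le_trans ?_
        (hs k (W.map (g.symm : E4 →ₗ[ℝ] E4)) (K * r) hW' (by positivity))))
    · intro x hx
      refine ⟨?_, rfl⟩
      have : Metric.infDist (x : E4) (W : Set E4) = 0 := Metric.infDist_zero_of_mem hx
      simp only [this]
      exact hr
    · norm_cast
      apply Set.ncard_le_ncard _ (Set.toFinite _)
      rintro i ⟨h1, h2⟩
      simp only [decide_eq_true_eq] at h2
      refine ⟨h2, hKg W _ r ((F k).unit i) hr ?_⟩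
      rw [← hF]
      exact h1
  have hK0 : Tendsto (fun r : ℝ => K * r) (𝓝[>] 0) (𝓝[>] 0) := by
    apply tendsto_nhdsWithin_iff.2
    refine ⟨?_, ?_⟩
    · have : Tendsto (fun r : ℝ => K * r) (𝓝 0) (𝓝 (K * 0)) :=
        (continuous_const.mul continuous_id).tendsto 0
      rw [mul_zero] at this
      exact this.mono_left nhdsWithin_le_nhds
    · filter_upwards [self_mem_nhdsWithin] with r hr
      exact mul_pos hK hr
  have ht : Tendsto (fun r => ENNReal.ofReal (ω (K * r))) (𝓝[>] 0) (𝓝 (ENNReal.ofReal 0)) :=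
    ENNReal.tendsto_ofReal (hω.comp hK0)
  rw [ENNReal.ofReal_zero] at ht
  have := ge_of_tendsto ht (eventually_nhdsWithin_of_forall (fun r hr => hle r hr))
  exact le_antisymm this bot_le

/-- a subspace of dimension at most `2` is in one of dimension `2` -/
theorem exists_two (W : Submodule ℝ E4) (hW : Module.finrank ℝ W ≤ 2) :
    ∃ V : Submodule ℝ E4, W ≤ V ∧ Module.finrank ℝ V = 2 := by
  have h4 : Module.finrank ℝ E4 = 4 := by simp
  have key : ∀ d : ℕ, ∀ W : Submodule ℝ E4, Module.finrank ℝ W + d = 2 →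
      ∃ V : Submodule ℝ E4, W ≤ V ∧ Module.finrank ℝ V = 2 := by
    intro d
    induction d with
    | zero => exact fun W h => ⟨W, le_rfl, h⟩
    | succ d ih =>
      intro W h
      have hlt : W < ⊤ := by
        rw [lt_top_iff_ne_top]
        rintro rfl
        rw [finrank_top, h4] at h
        omega
      obtain ⟨v, -, hv⟩ := SetLike.exists_of_lt hlt
      have h1 : Module.finrank ℝ (W ⊔ Submodule.span ℝ {v} : Submodule ℝ E4) =
          Module.finrank ℝ W + 1 := by
        have h2 := Submodule.finrank_sup_add_finrank_inf_eq W (Submodule.span ℝ {v})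
        have h3 : W ⊓ Submodule.span ℝ {v} = ⊥ := by
          rw [eq_bot_iff]
          rintro x ⟨hx1, hx2⟩
          obtain ⟨c, rfl⟩ := Submodule.mem_span_singleton.1 hx2
          by_cases hc : c = 0
          · simp [hc]
          · exfalso
            apply hv
            have := Submodule.smul_mem W c⁻¹ hx1
            rwa [smul_smul, inv_mul_cancel₀ hc, one_smul] at this
        have hv0 : v ≠ 0 := by
          rintro rfl
          exact hv W.zero_mem
        rw [h3, finrank_bot, finrank_span_singleton hv0] at h2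
        omega
      obtain ⟨V, hV, hV2⟩ := ih (W ⊔ Submodule.span ℝ {v}) (by omega)
      exact ⟨V, le_sup_left.trans hV, hV2⟩
  exact key (2 - Module.finrank ℝ W) W (by omega)

theorem nu_le_two (X : Lim) (h : NoLine X.mu)
    (c : ℝ) (hc : X.ν {m | m.2.2 = false} ≤ ENNReal.ofReal c)
    (W : Submodule ℝ E4) (hW : Module.finrank ℝ W ≤ 2) :
    (X.ν.map (fun m => (m.1 : E4))) W ≤ ENNReal.ofReal c := by
  have hWm : MeasurableSet (W : Set E4) := (Submodule.closed_of_finiteDimensional W).measurableSet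
  rw [Measure.map_apply (by fun_prop) hWm]
  obtain ⟨V, hWV, hV⟩ := exists_two W hW
  have h1 : X.mu W = 0 := measure_mono_null hWV (h V hV)
  rw [mu_apply X _ hWm] at h1
  have h2 : (fun m : Mk => (m.1 : E4)) ⁻¹' (W : Set E4) ⊆
      {m | (m.1 : E4) ∈ (W : Set E4) ∧ m.2.2 = true} ∪ {m | m.2.2 = false} := by
    rintro ⟨a, b, c⟩ hm
    cases c
    · right
      rfl
    · left
      exact ⟨hm, rfl⟩
  calc X.ν ((fun m : Mk => (m.1 : E4)) ⁻¹' (W : Set E4))
      ≤ X.ν ({m | (m.1 : E4) ∈ (W : Set E4) ∧ m.2.2 = true} ∪ {m | m.2.2 = false}) :=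
        measure_mono h2
    _ ≤ X.ν {m | (m.1 : E4) ∈ (W : Set E4) ∧ m.2.2 = true} + X.ν {m | m.2.2 = false} :=
        measure_union_le _ _
    _ ≤ ENNReal.ofReal c := by
        rw [h1, zero_add]
        exact hc

end Dich14

open Slab19 Dich14

/-- N19 -/
theorem stDich_14 (hL : StLimit) (hT : StLimThm) (hFo : StForster) : StDich := by
  obtain ⟨c₁, hc₁, hT⟩ := hT
  refine ⟨min c₁ (1 / 8), lt_min hc₁ (by norm_num), ?_⟩
  intro ω hω δ hδ θ hθ
  by_contra hcon
  push Not at hcon
  choose N hN F G hG hs hpl using hcon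
  set 𝒰 : Ultrafilter ℕ := hyperfilter ℕ with h𝒰
  have hNt : Tendsto N (𝒰 : Filter ℕ) atTop := by
    have h1 : Tendsto N atTop atTop := tendsto_atTop_mono hN tendsto_id
    exact h1.mono_left Nat.hyperfilter_le_atTop
  have hlim : ∀ (g : E4 ≃ₗ[ℝ] E4) (F' : ∀ k, Fr (N k)),
      (∀ k i, (F' k).a i = ‖g ((F k).a i)‖⁻¹ • g ((F k).a i)) → ∃ X : Lim,
      (∀ (U : Set (S3 × Bool)) (c : ℝ), IsOpen U →
        (∀ᶠ k in (𝒰 : Filter ℕ),
          ({i | ((F' k).pt i, decide (i ∈ G k)) ∈ U}.ncard : ℝ) ≤ c * N k) →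
        X.ν {m | (m.1, m.2.2) ∈ U} ≤ ENNReal.ofReal c) ∧
      (∀ (f : S3 × Bool → ℝ) (c : ℝ), Continuous f →
        (∀ᶠ k in (𝒰 : Filter ℕ), ∑ i, f ((F' k).pt i, decide (i ∈ G k)) ≤ c * N k) →
        ∫ m, f (m.1, m.2.2) ∂X.ν ≤ c) ∧
      NoLine X.mu ∧
      X.ν {m | m.2.2 = false} ≤ ENNReal.ofReal (min c₁ (1 / 8)) := by
    intro g F' hF'
    obtain ⟨X, hX1, hX2⟩ := hL 𝒰 N F' G hNt
    refine ⟨X, hX1, hX2, noLine 𝒰 F F' G X hX1 g hF' ω hω hs, ?_⟩
    refine hX1 {z | z.2 = false} _ ((isOpen_discrete ({false} : Set Bool)).preimage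
      continuous_snd) (Eventually.of_forall fun k => ?_)
    have h1 : {i | ((F' k).pt i, decide (i ∈ G k)) ∈ {z : S3 × Bool | z.2 = false}} =
        (((G k)ᶜ : Finset (Fin (N k))) : Set (Fin (N k))) := by
      ext i
      simp
    rw [h1, Set.ncard_coe_finset, Finset.card_compl, Fintype.card_fin,
      Nat.cast_sub (by simpa using Finset.card_le_univ (G k))]
    have := hG k
    linarith
  obtain ⟨X, hX1, hX2, hX3, hX4⟩ := hlim (LinearEquiv.refl ℝ E4) F (by
    intro k i
    simp only [LinearEquiv.refl_apply, (F k).unit, inv_one, one_smul])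
  have := X.prob
  have : IsProbabilityMeasure (X.ν.map (fun m : Mk => (m.1 : E4))) :=
    Measure.isProbabilityMeasure_map (by fun_prop)
  obtain ⟨g, hg⟩ := hFo (X.ν.map (fun m : Mk => (m.1 : E4))) (by
    rw [ae_map_iff (by fun_prop) (measurableSet_eq_fun (by fun_prop) (by fun_prop))]
    filter_upwards with m
    simp) (by
    intro W hW
    by_cases hW0 : W = ⊥
    · right
      exact hW0
    · left
      have h1 : 1 ≤ Module.finrank ℝ W := by
        rw [Nat.one_le_iff_ne_zero]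
        intro h0
        exact hW0 (Submodule.finrank_eq_zero.1 h0)
      have h2 : (1 : ℝ) ≤ Module.finrank ℝ W := by exact_mod_cast h1
      by_cases hW2 : Module.finrank ℝ W ≤ 2
      · refine (nu_le_two X hX3 _ hX4 W hW2).trans_lt ?_
        have h3 : min c₁ (1 / 8) ≤ (1 / 8 : ℝ) := min_le_right _ _
        apply (ENNReal.ofReal_lt_ofReal_iff (by positivity)).2
        linarith
      · have hW3 : Module.finrank ℝ W = 3 := by omega
        have hWm : MeasurableSet (W : Set E4) :=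
          (Submodule.closed_of_finiteDimensional W).measurableSet
        have h5 : (X.ν.map (fun m : Mk => (m.1 : E4))) W ≤ ENNReal.ofReal θ := by
          rw [Measure.map_apply (by fun_prop) hWm]
          refine (measure_mono ?_).trans (hX1 {z | Metric.infDist (z.1 : E4) W < δ} θ ?_
            (Eventually.of_forall fun k => le_trans ?_ (hpl k W hW3)))
          · intro m hm
            have : Metric.infDist (m.1 : E4) (W : Set E4) = 0 := Metric.infDist_zero_of_mem hm
            change Metric.infDist (m.1 : E4) (W : Set E4) < δ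
            rw [this]
            exact hδ
          · exact isOpen_lt ((Metric.continuous_infDist_pt _).comp
              (continuous_subtype_val.comp continuous_fst)) continuous_const
          · norm_cast
            apply Set.ncard_le_ncard _ (Set.toFinite _)
            intro i hi
            have hi' : Metric.infDist ((F k).a i) (W : Set E4) < δ := hi
            exact hi'.le
        refine h5.trans_lt ?_
        rw [hW3]
        apply (ENNReal.ofReal_lt_ofReal_iff (by norm_num)).2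
        push_cast
        exact hθ)
  have hF' : ∀ k, ∃ F' : Fr (N k), ∀ i, F'.a i = ‖g ((F k).a i)‖⁻¹ • g ((F k).a i) :=
    fun k => (F k).comp g
  choose F' hFa' using hF'
  obtain ⟨Y, hY1, hY2, hY3, hY4⟩ := hlim g F' hFa'
  have := Y.prob
  have hgc : Continuous g := (LinearMap.toContinuousLinearMap (g : E4 →ₗ[ℝ] E4)).continuous
  have hgne : ∀ x : S3, ‖g (x : E4)‖ ≠ 0 := by
    intro x h
    rw [norm_eq_zero, LinearEquiv.map_eq_zero_iff] at h
    have := x.2
    rw [h] at this
    simp at this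
  -- transfer of averages
  have htr : ∀ h h' : S3 → ℝ, Continuous h → Continuous h' →
      (∀ k i, h' ((F' k).pt i) = h ((F k).pt i)) → ∫ m, h' m.1 ∂Y.ν ≤ ∫ m, h m.1 ∂X.ν := by
    intro h h' hc hc' he
    apply le_of_forall_pos_le_add
    intro ε hε
    have key : ∀ᶠ k in (𝒰 : Filter ℕ), ∑ i, h ((F k).pt i) ≤
        (∫ m, h m.1 ∂X.ν + ε) * N k := by
      by_contra hne
      have hne' := Ultrafilter.eventually_not.2 hne
      have h3 := hX2 (fun z => - h z.1) (-(∫ m, h m.1 ∂X.ν + ε)) (by fun_prop)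
        (hne'.mono (fun k hk => by
          push Not at hk
          rw [Finset.sum_neg_distrib]
          linarith))
      rw [integral_neg] at h3
      linarith
    exact hY2 (fun z => h' z.1) _ (by fun_prop) (key.mono (fun k hk => by simpa [he] using hk))
  have hpt : ∀ k i, ((F' k).pt i : E4) = ‖g ((F k).pt i : E4)‖⁻¹ • g ((F k).pt i : E4) :=
    fun k i => hFa' k i
  have hiso : ∀ v : E4, ∫ m, (inner ℝ v (m.1 : E4) : ℝ) ^ 2 ∂Y.ν = ‖v‖ ^ 2 / 4 := by
    intro v
    have hh : Continuous (fun x : S3 => (inner ℝ v (‖g (x : E4)‖⁻¹ • g (x : E4)) : ℝ) ^ 2) := by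
      have h1 : Continuous (fun x : S3 => g (x : E4)) := hgc.comp continuous_subtype_val
      have h2 : Continuous (fun x : S3 => ‖g (x : E4)‖⁻¹) := h1.norm.inv₀ hgne
      exact (continuous_const.inner (h2.smul h1)).pow 2
    have hh' : Continuous (fun x : S3 => (inner ℝ v (x : E4) : ℝ) ^ 2) := by fun_prop
    have hI : ∫ m, (inner ℝ v (‖g (m.1 : E4)‖⁻¹ • g (m.1 : E4)) : ℝ) ^ 2 ∂X.ν = ‖v‖ ^ 2 / 4 := by
      rw [← hg v, integral_map (by fun_prop)]
      have h1 : Measurable (fun x : E4 => ‖g x‖⁻¹) := hgc.norm.measurable.inv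
      exact ((measurable_const.inner (h1.smul hgc.measurable)).pow_const 2).aestronglyMeasurable
    apply le_antisymm
    · rw [← hI]
      exact htr _ _ hh hh' (fun k i => by simp only [hpt])
    · rw [← hI]
      have h3 := htr (fun x => -((inner ℝ v (‖g (x : E4)‖⁻¹ • g (x : E4)) : ℝ) ^ 2))
        (fun x => -((inner ℝ v (x : E4) : ℝ) ^ 2)) hh.neg hh'.neg (fun k i => by simp only [hpt])
      rw [integral_neg, integral_neg] at h3
      linarith
  exact hT Y hiso (hY4.trans (ENNReal.ofReal_le_ofReal (min_le_left _ _))) hY3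

end NPL
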