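import Pool.Agent.Lib.MP_4f1247_co.NL.FatC52

/-!
# N12: almost every fat face with chosen vertices is in a charged plane
-/

set_option autoImplicit false

open MeasureTheory Filter Topology Set
open scoped ENNReal

namespace NPL

instance om2_52 : OpensMeasurableSpace (Mk × Mk) := inferInstance
instance sc2_52 : SecondCountableTopology (Mk × Mk) := inferInstance
instance om3_52 : OpensMeasurableSpace (Mk × Mk × Mk) := Prod.opensMeasurableSpace
instance om4_52 : OpensMeasurableSpace ((Mk × Mk × Mk) × E4) := Prod.opensMeasurableSpace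

namespace Lim

variable (X : Lim)

/-- fat faces with chosen vertices not in a charged plane -/
def F52 : Set (Mk × Mk × Mk) :=
  {t | ch52 t.1 ∧ ch52 t.2.1 ∧ ch52 t.2.2 ∧
    LinearIndependent ℝ ![ps52 t.1, ps52 t.2.1, ps52 t.2.2] ∧
    X.mu {w | det4 (ps52 t.1) (ps52 t.2.1) (ps52 t.2.2) w = 0} = 0}

theorem F_swap52 {t : Mk × Mk × Mk} (h : t ∈ X.F52) : (t.2.1, t.1, t.2.2) ∈ X.F52 := by
  obtain ⟨h1, h2, h3, h4, h5⟩ := h
  refine ⟨h2, h1, h3, li_swap12_52 h4, ?_⟩
  refine measure_mono_null ?_ h5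
  intro w hw
  have hw' : det4 (ps52 t.2.1) (ps52 t.1) (ps52 t.2.2) w = 0 := hw
  rw [det_swap12_52] at hw'
  exact neg_eq_zero.1 hw'

theorem F_rot52 {t : Mk × Mk × Mk} (h : t ∈ X.F52) : (t.2.1, t.2.2, t.1) ∈ X.F52 := by
  obtain ⟨h1, h2, h3, h4, h5⟩ := h
  refine ⟨h2, h3, h1, li_rot52 h4, ?_⟩
  refine measure_mono_null ?_ h5
  intro w hw
  have hw' : det4 (ps52 t.2.1) (ps52 t.2.2) (ps52 t.1) w = 0 := hw
  have : det4 (ps52 t.2.1) (ps52 t.2.2) (ps52 t.1) w =
      det4 (ps52 t.1) (ps52 t.2.1) (ps52 t.2.2) w := by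
    simp only [det4_exp52]; ring
  rwa [this] at hw'

theorem meas_F52 : MeasurableSet X.F52 := by
  have c1 : Continuous fun t : Mk × Mk × Mk => ps52 t.1 := cont_ps52.comp continuous_fst
  have c2 : Continuous fun t : Mk × Mk × Mk => ps52 t.2.1 :=
    cont_ps52.comp (continuous_fst.comp continuous_snd)
  have c3 : Continuous fun t : Mk × Mk × Mk => ps52 t.2.2 :=
    cont_ps52.comp (continuous_snd.comp continuous_snd)
  have m1 : MeasurableSet {t : Mk × Mk × Mk | ch52 t.1} := measurable_fst meas_ch52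
  have m2 : MeasurableSet {t : Mk × Mk × Mk | ch52 t.2.1} :=
    (measurable_fst.comp measurable_snd) meas_ch52
  have m3 : MeasurableSet {t : Mk × Mk × Mk | ch52 t.2.2} :=
    (measurable_snd.comp measurable_snd) meas_ch52
  have m4 : MeasurableSet {t : Mk × Mk × Mk |
      LinearIndependent ℝ ![ps52 t.1, ps52 t.2.1, ps52 t.2.2]} := by
    have hc : Continuous fun t : Mk × Mk × Mk => ![ps52 t.1, ps52 t.2.1, ps52 t.2.2] := by
      refine continuous_pi fun i => ?_
      fin_cases i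
      · exact c1
      · exact c2
      · exact c3
    exact (isOpen_setOfPred_linearIndependent.preimage hc).measurableSet
  have m5 : MeasurableSet {t : Mk × Mk × Mk |
      X.mu {w | det4 (ps52 t.1) (ps52 t.2.1) (ps52 t.2.2) w = 0} = 0} := by
    have hS : MeasurableSet {z : (Mk × Mk × Mk) × E4 |
        det4 (ps52 z.1.1) (ps52 z.1.2.1) (ps52 z.1.2.2) z.2 = 0} :=
      (isClosed_eq (cont_det4_52 (c1.comp continuous_fst) (c2.comp continuous_fst)
        (c3.comp continuous_fst) continuous_snd) continuous_const).measurableSet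
    exact (measurable_measure_prodMk_left (ν := X.mu) hS) (measurableSet_singleton 0)
  exact m1.inter (m2.inter (m3.inter (m4.inter m5)))

theorem meas_li52 : MeasurableSet {p : Mk × Mk |
    LinearIndependent ℝ ![ps52 p.1, ed52 p.1, ps52 p.2]} := by
  have hc : Continuous fun p : Mk × Mk => ![ps52 p.1, ed52 p.1, ps52 p.2] := by
    refine continuous_pi fun i => ?_
    fin_cases i
    · exact cont_ps52.comp continuous_fst
    · exact cont_ed52.comp continuous_fst
    · exact cont_ps52.comp continuous_snd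
  exact (isOpen_setOfPred_linearIndependent.preimage hc).measurableSet

theorem ae_li52 (hN : NoLine X.mu) : ∀ᵐ p ∂X.ν.prod X.ν, ch52 p.2 →
    LinearIndependent ℝ ![ps52 p.1, ed52 p.1, ps52 p.2] := by
  have hm : MeasurableSet {p : Mk × Mk | ch52 p.2 →
      LinearIndependent ℝ ![ps52 p.1, ed52 p.1, ps52 p.2]} := by
    have h1 : MeasurableSet {p : Mk × Mk | ch52 p.2} := measurable_snd meas_ch52
    have : {p : Mk × Mk | ch52 p.2 → LinearIndependent ℝ ![ps52 p.1, ed52 p.1, ps52 p.2]} =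
        {p : Mk × Mk | ch52 p.2}ᶜ ∪
          {p | LinearIndependent ℝ ![ps52 p.1, ed52 p.1, ps52 p.2]} := by
      ext p
      simp only [mem_ofPred_eq, mem_union, mem_compl_iff]
      exact imp_iff_not_or
    rw [this]
    exact h1.compl.union meas_li52
  rw [Measure.ae_prod_iff_ae_ae hm]
  filter_upwards [X.ae_orth52] with m hm1
  filter_upwards [X.noline_ae52 hN (fin_span52 hm1)] with m' hm' hc
  have h2 : range ![ps52 m, ed52 m] = {ps52 m, ed52 m} := by simp [Set.pair_comm]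
  have h4 : LinearIndependent ℝ (Fin.snoc ![ps52 m, ed52 m] (ps52 m') : Fin 3 → E4) := by
    refine linearIndependent_finSnoc.2 ⟨hm1, ?_⟩
    rw [h2]; exact hm' hc
  have he : (Fin.snoc ![ps52 m, ed52 m] (ps52 m') : Fin 3 → E4) =
      ![ps52 m, ed52 m, ps52 m'] := by
    ext i j
    fin_cases i <;> rfl
  rwa [he] at h4

/-- properties of the pairs of vertices of these faces -/
def G52 (p : Mk × Mk) : Prop :=
  ch52 p.1 ∧ ch52 p.2 ∧ inner ℝ (ps52 p.1) (ed52 p.1) = 0 ∧ inner ℝ (ps52 p.2) (ed52 p.2) = 0 ∧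
    det4 (ps52 p.1) (ed52 p.1) (ps52 p.2) (ed52 p.2) = 0 ∧
    LinearIndependent ℝ ![ps52 p.1, ed52 p.1, ps52 p.2] ∧
    X.mu {w | det4 (ps52 p.1) (ed52 p.1) (ps52 p.2) w = 0} = 0

theorem meas_G52 : MeasurableSet {p | X.G52 p} := by
  have c1 : Continuous fun p : Mk × Mk => ps52 p.1 := cont_ps52.comp continuous_fst
  have c2 : Continuous fun p : Mk × Mk => ps52 p.2 := cont_ps52.comp continuous_snd
  have e1 : Continuous fun p : Mk × Mk => ed52 p.1 := cont_ed52.comp continuous_fst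
  have e2 : Continuous fun p : Mk × Mk => ed52 p.2 := cont_ed52.comp continuous_snd
  have m1 : MeasurableSet {p : Mk × Mk | ch52 p.1} := measurable_fst meas_ch52
  have m2 : MeasurableSet {p : Mk × Mk | ch52 p.2} := measurable_snd meas_ch52
  have m3 : MeasurableSet {p : Mk × Mk | inner ℝ (ps52 p.1) (ed52 p.1) = 0} :=
    (isClosed_eq (c1.inner e1) continuous_const).measurableSet
  have m4 : MeasurableSet {p : Mk × Mk | inner ℝ (ps52 p.2) (ed52 p.2) = 0} :=
    (isClosed_eq (c2.inner e2) continuous_const).measurableSet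
  have m5 : MeasurableSet {p : Mk × Mk |
      det4 (ps52 p.1) (ed52 p.1) (ps52 p.2) (ed52 p.2) = 0} :=
    (isClosed_eq (cont_det4_52 c1 e1 c2 e2) continuous_const).measurableSet
  have m7 : MeasurableSet {p : Mk × Mk |
      X.mu {w | det4 (ps52 p.1) (ed52 p.1) (ps52 p.2) w = 0} = 0} := by
    have hS : MeasurableSet {z : (Mk × Mk) × E4 |
        det4 (ps52 z.1.1) (ed52 z.1.1) (ps52 z.1.2) z.2 = 0} :=
      (isClosed_eq (cont_det4_52 (c1.comp continuous_fst) (e1.comp continuous_fst)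
        (c2.comp continuous_fst) continuous_snd) continuous_const).measurableSet
    exact (measurable_measure_prodMk_left (ν := X.mu) hS) (measurableSet_singleton 0)
  exact m1.inter (m2.inter (m3.inter (m4.inter (m5.inter (meas_li52.inter m7)))))

theorem ae_G52 (hAz : StAz) (hPl : StPlanes) (hN : NoLine X.mu) :
    ∀ᵐ t ∂X.Λ, t ∈ X.F52 → X.G52 (t.1, t.2.1) := by
  have k0 := X.flat52 hAz hPl hN
  have k1 := X.ae_swap52 k0
  have k2 := X.ae_fst52 X.orth
  have k3 := X.ae_swap52 k2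
  have k4 := X.ae_pair52 (X.ae_li52 hN)
  filter_upwards [k0, k1, k2, k3, k4] with t h0 h1 h2 h3 h4 hF
  obtain ⟨d1, d2, d3, d4, d5⟩ := id hF
  have hz1 := h0 d1 d2 d3 d5
  have hz2 := h1 d2 d1 d3 (X.F_swap52 hF).2.2.2.2
  have hli := h4 d2
  obtain ⟨α, β, γ, he⟩ := comb52 d4 hz1
  have hz2' : det4 (ps52 t.1) (ps52 t.2.1) (ps52 t.2.2) (ed52 t.2.1) = 0 := by
    rw [det_swap12_52] at hz2
    exact neg_eq_zero.1 hz2
  obtain ⟨α', β', γ', he'⟩ := comb52 d4 hz2'
  have hdet : ∀ w, det4 (ps52 t.1) (ed52 t.1) (ps52 t.2.1) w =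
      -γ * det4 (ps52 t.1) (ps52 t.2.1) (ps52 t.2.2) w := by
    intro w
    rw [he]
    simp only [det4_exp52, PiLp.add_apply, PiLp.smul_apply, smul_eq_mul]; ring
  have hγ : γ ≠ 0 := by
    rintro rfl
    obtain ⟨w, hw⟩ := ex_w52 hli
    apply hw
    rw [hdet]; ring
  refine ⟨d1, d2, h2, h3, ?_, hli, ?_⟩
  · change det4 (ps52 t.1) (ed52 t.1) (ps52 t.2.1) (ed52 t.2.1) = 0
    rw [hdet, hz2']; ring
  · refine measure_mono_null ?_ d5
    intro w hw
    have hw' : det4 (ps52 t.1) (ed52 t.1) (ps52 t.2.1) w = 0 := hw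
    rw [hdet] at hw'
    rcases mul_eq_zero.1 hw' with h | h
    · exact absurd (neg_eq_zero.1 h) hγ
    · exact h

/-- the set of pairs of positive density -/
theorem exE52 (hAz : StAz) (hPl : StPlanes) (hN : NoLine X.mu) :
    ∃ E : Set (Mk × Mk), MeasurableSet E ∧ (∀ᵐ t ∂X.Λ, t ∈ X.F52 → (t.1, t.2.1) ∈ E) ∧
      ∀ᵐ p ∂X.ν.prod X.ν, p ∈ E → X.G52 p := by
  have hpm : Measurable fun t : Mk × Mk × Mk => (t.1, t.2.1) := by fun_prop
  set ρ := (X.Λ.restrict X.F52).map (fun t => (t.1, t.2.1)) with hρ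
  have hle : ρ ≤ X.ν.prod X.ν := by
    rw [← X.pair, hρ]
    exact Measure.map_mono Measure.restrict_le_self hpm
  have hac : ρ ≪ X.ν.prod X.ν := Measure.absolutelyContinuous_of_le hle
  have hfρ : IsFiniteMeasure ρ := by rw [hρ]; infer_instance
  have hfp : IsFiniteMeasure (X.ν.prod X.ν) := inferInstance
  have hdec : ρ.HaveLebesgueDecomposition (X.ν.prod X.ν) :=
    Measure.haveLebesgueDecomposition_of_sigmaFinite ρ (X.ν.prod X.ν)
  set g := ρ.rnDeriv (X.ν.prod X.ν) with hg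
  have hgm : Measurable g := Measure.measurable_rnDeriv _ _
  have hwd : (X.ν.prod X.ν).withDensity g = ρ := Measure.withDensity_rnDeriv_eq _ _ hac
  refine ⟨{p | g p ≠ 0}, ?_, ?_, ?_⟩
  · exact (hgm (measurableSet_singleton 0)).compl
  · have h1 : ∀ᵐ p ∂ρ, g p ≠ 0 := by
      rw [← hwd, ae_withDensity_iff hgm]
      exact Filter.Eventually.of_forall fun _ h => h
    rw [hρ] at h1
    have h2 := ae_of_ae_map hpm.aemeasurable h1
    exact (ae_restrict_iff' X.meas_F52).1 h2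
  · have h3 : ∀ᵐ p ∂ρ, X.G52 p := by
      rw [hρ, ae_map_iff hpm.aemeasurable X.meas_G52]
      exact (ae_restrict_iff' X.meas_F52).2 (X.ae_G52 hAz hPl hN)
    rw [← hwd, ae_withDensity_iff hgm] at h3
    exact h3

/-- the classes cut out the triangles -/
theorem null52 (hCo : StConc) (hN : NoLine X.mu) {E : Set (Mk × Mk)} (hEm : MeasurableSet E)
    (hE : ∀ᵐ p ∂X.ν.prod X.ν, p ∈ E → X.G52 p) :
    (X.ν.prod (X.ν.prod X.ν)) {t | (t.1, t.2.1) ∈ E ∩ (⋃ L ∈ X.K52, C52 L ×ˢ C52 L)ᶜ ∧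
      (t.1, t.2.2) ∈ E ∧ (t.2.1, t.2.2) ∈ E} = 0 := by
  have hU : MeasurableSet (⋃ L ∈ X.K52, C52 L ×ˢ C52 L) :=
    MeasurableSet.biUnion (X.K_countable52 hN) fun L hL =>
      (meas_C52 hL.1).prod (meas_C52 hL.1)
  have m12 : Measurable fun t : Mk × Mk × Mk => (t.1, t.2.1) := by fun_prop
  have m13 : Measurable fun t : Mk × Mk × Mk => (t.1, t.2.2) := by fun_prop
  have m23 : Measurable fun t : Mk × Mk × Mk => (t.2.1, t.2.2) := by fun_prop
  have hTm : MeasurableSet {t : Mk × Mk × Mk |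
      (t.1, t.2.1) ∈ E ∩ (⋃ L ∈ X.K52, C52 L ×ˢ C52 L)ᶜ ∧
      (t.1, t.2.2) ∈ E ∧ (t.2.1, t.2.2) ∈ E} :=
    (m12 (hEm.inter hU.compl)).inter ((m13 hEm).inter (m23 hEm))
  rw [Measure.prod_apply_symm hTm, lintegral_eq_zero_iff' (measurable_measure_prodMk_right hTm).aemeasurable]
  -- generic second and third vertex
  have hs : ∀ᵐ p ∂X.ν.prod X.ν, p.swap ∈ E → X.G52 p.swap := by
    have := Measure.measurePreserving_swap (μ := X.ν) (ν := X.ν)
    exact this.quasiMeasurePreserving.ae hE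
  have ha : ∀ᵐ a ∂X.ν, ∀ᵐ u ∂X.ν, (u, a) ∈ E → X.G52 (u, a) := Measure.ae_ae_of_ae_prod hs
  have ha1 : ∀ᵐ p ∂X.ν.prod X.ν, ∀ᵐ u ∂X.ν, (u, p.1) ∈ E → X.G52 (u, p.1) :=
    Measure.quasiMeasurePreserving_fst.ae ha
  have ha2 : ∀ᵐ p ∂X.ν.prod X.ν, ∀ᵐ u ∂X.ν, (u, p.2) ∈ E → X.G52 (u, p.2) :=
    Measure.quasiMeasurePreserving_snd.ae ha
  filter_upwards [hE, ha1, ha2] with p hp h1 h2
  change X.ν ((fun u => (u, p)) ⁻¹' _) = 0
  rw [measure_eq_zero_iff_ae_notMem]
  by_cases hpE : p ∈ E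
  · obtain ⟨ca, cb, oa, ob, hd, hli, hpl⟩ := hp hpE
    set L : Submodule ℝ E4 := Submodule.span ℝ {ps52 p.1, ed52 p.1} ⊓
      Submodule.span ℝ {ps52 p.2, ed52 p.2} with hL
    -- almost every `u` is off the plane
    have hoff : ∀ᵐ u ∂X.ν, ch52 u → det4 (ps52 p.1) (ed52 p.1) (ps52 p.2) (ps52 u) ≠ 0 := by
      have hm : MeasurableSet {w | det4 (ps52 p.1) (ed52 p.1) (ps52 p.2) w = 0} :=
        (isClosed_eq (cont_det4_52 continuous_const continuous_const continuous_const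
          continuous_id) continuous_const).measurableSet
      rw [X.mu_app52 hm, measure_eq_zero_iff_ae_notMem] at hpl
      filter_upwards [hpl] with u hu hc h0
      exact hu ⟨hc, h0⟩
    have hbn : ps52 p.2 ∉ Submodule.span ℝ {ps52 p.1, ed52 p.1} := by
      have he : (Fin.snoc ![ps52 p.1, ed52 p.1] (ps52 p.2) : Fin 3 → E4) =
          ![ps52 p.1, ed52 p.1, ps52 p.2] := by
        ext i j
        fin_cases i <;> rfl
      rw [← he] at hli
      have h3 := (linearIndependent_finSnoc.1 hli).2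
      have h4 : range ![ps52 p.1, ed52 p.1] = {ps52 p.1, ed52 p.1} := by simp [Set.pair_comm]
      rwa [h4] at h3
    have hLle : Module.finrank ℝ L ≤ 1 := by
      have hlt : L < Submodule.span ℝ {ps52 p.2, ed52 p.2} := by
        refine lt_of_le_of_ne inf_le_right ?_
        intro heq
        apply hbn
        have : ps52 p.2 ∈ L := by
          rw [heq]; exact Submodule.subset_span (by simp)
        exact this.1
      have := Submodule.finrank_lt_finrank_of_lt hlt
      rw [fin_span52 (pair_li52 (norm_ps52 p.2) (norm_ed52 p.2) ob)] at this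
      omega
    -- the third vertex is in the class of `L`
    have hcl : ∀ᵐ u ∂X.ν, (u, p.1) ∈ E → (u, p.2) ∈ E →
        Module.finrank ℝ L = 1 ∧ u ∈ C52 L := by
      filter_upwards [h1, h2, hoff] with u hu1 hu2 hu3 e1 e2
      obtain ⟨cu, _, ou, _, du1, _, _⟩ := hu1 e1
      obtain ⟨_, _, _, _, du2, _, _⟩ := hu2 e2
      obtain ⟨O, hO, hOa, hOb, hOu⟩ := hCo (ps52 p.1) (ed52 p.1) (ps52 p.2) (ed52 p.2)
        (ps52 u) (ed52 u) hli (pair_li52 (norm_ps52 p.2) (norm_ed52 p.2) ob)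
        (pair_li52 (norm_ps52 u) (norm_ed52 u) ou) hd du1 du2 (hu3 cu)
      have hOL : O ∈ L := ⟨hOa, hOb⟩
      have hspan : Submodule.span ℝ {O} ≤ L := by
        rw [Submodule.span_singleton_le_iff_mem]; exact hOL
      have hge := Submodule.finrank_mono hspan
      rw [finrank_span_singleton hO] at hge
      have h11 : Module.finrank ℝ L = 1 := le_antisymm hLle hge
      refine ⟨h11, cu, ou, ?_⟩
      have heq : Submodule.span ℝ {O} = L :=
        Submodule.eq_of_le_of_finrank_eq hspan (by rw [finrank_span_singleton hO, h11])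
      rw [← heq, Submodule.span_singleton_le_iff_mem]
      exact hOu
    by_cases hK : L ∈ X.K52
    · filter_upwards [hcl] with u hu hmem
      obtain ⟨⟨g1, g2⟩, g3, _⟩ := hmem
      apply g2
      have hu2 := hu g1 g3
      refine mem_biUnion hK ?_
      exact ⟨hu2.2, ca, oa, inf_le_left⟩
    · by_cases h11 : Module.finrank ℝ L = 1
      · have h0 : X.ν (C52 L) = 0 := by
          by_contra hcon
          exact hK ⟨h11, pos_iff_ne_zero.2 hcon⟩
        filter_upwards [hcl, measure_eq_zero_iff_ae_notMem.1 h0] with u hu hu0 hmem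
        obtain ⟨⟨g1, _⟩, g3, _⟩ := hmem
        exact hu0 (hu g1 g3).2
      · filter_upwards [hcl] with u hu hmem
        obtain ⟨⟨g1, _⟩, g3, _⟩ := hmem
        exact h11 (hu g1 g3).1
  · exact Filter.Eventually.of_forall fun u hmem => hpE hmem.2.2

end Lim

theorem fat52 (hAz : StAz) (hHp : StHp) (hRem : StRem) (hCo : StConc) (hCe : StCeva)
    (hPl : StPlanes) : StFat := by
  intro X hN
  obtain ⟨E, hEm, hE1, hE2⟩ := X.exE52 hAz hPl hN
  have hU : MeasurableSet (⋃ L ∈ X.K52, C52 L ×ˢ C52 L) :=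
    MeasurableSet.biUnion (X.K_countable52 hN) fun L hL =>
      (meas_C52 hL.1).prod (meas_C52 hL.1)
  -- all pairs of the faces are in `E`
  have f12 : ∀ᵐ t ∂X.Λ, t ∈ X.F52 → (t.1, t.2.1) ∈ E := hE1
  have f23 : ∀ᵐ t ∂X.Λ, t ∈ X.F52 → (t.2.1, t.2.2) ∈ E := by
    filter_upwards [X.ae_rot52 hE1] with t ht hF
    exact ht (X.F_rot52 hF)
  have f13 : ∀ᵐ t ∂X.Λ, t ∈ X.F52 → (t.1, t.2.2) ∈ E := by
    filter_upwards [X.ae_swap23_52 hE1] with t ht hF
    refine ht ?_
    exact X.F_rot52 (X.F_swap52 hF)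
  -- removal lemma
  have hrem := hRem Mk X.ν (X.Λ.restrict X.F52) (E ∩ (⋃ L ∈ X.K52, C52 L ×ˢ C52 L)ᶜ) E E
    (hEm.inter hU.compl) hEm hEm ?_ ?_ ?_ (X.null52 hCo hN hEm hE2)
  · -- the pairs are in a common charged class
    have g12 : ∀ᵐ t ∂X.Λ, t ∈ X.F52 → (t.1, t.2.1) ∈ ⋃ L ∈ X.K52, C52 L ×ˢ C52 L := by
      rw [measure_eq_zero_iff_ae_notMem] at hrem
      have h3 := (ae_restrict_iff' X.meas_F52).1 hrem
      filter_upwards [h3, f12, f13, f23] with t ht h12 h13 h23 hF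
      by_contra hcon
      exact ht hF ⟨⟨h12 hF, hcon⟩, h13 hF, h23 hF⟩
    have g23 : ∀ᵐ t ∂X.Λ, t ∈ X.F52 → (t.2.1, t.2.2) ∈ ⋃ L ∈ X.K52, C52 L ×ˢ C52 L := by
      filter_upwards [X.ae_rot52 g12] with t ht hF
      exact ht (X.F_rot52 hF)
    have hu := X.ae_swap52 (X.ae_fst52 (X.K_uniq52 hN))
    have li12 := X.ae_pair52 (X.ae_li52 hN)
    have li13 := X.ae_swap23_52 li12
    have li21 := X.ae_swap52 li12
    have li23 := X.ae_rot52 li12
    have li31 := X.ae_rot52 li23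
    have li32 := X.ae_rot52 li21
    have e1 := X.noent52 hHp
    have e2 := X.ae_rot52 e1
    have e3 := X.ae_rot52 e2
    have fl := X.flat52 hAz hPl hN
    filter_upwards [g12, g23, hu, li12, li13, li21, li23, li31, li32, e1, e2, e3, fl] with
      t g1 g2 hu l12 l13 l21 l23 l31 l32 e1 e2 e3 fl c1 c2 c3 hli
    by_contra hcon
    have h0 : X.mu {w | det4 (ps52 t.1) (ps52 t.2.1) (ps52 t.2.2) w = 0} = 0 := by
      by_contra h
      exact hcon (pos_iff_ne_zero.2 h)
    have hF : t ∈ X.F52 := ⟨c1, c2, c3, hli, h0⟩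
    obtain ⟨L, hL, hL1, hL2⟩ := mem_iUnion₂.1 (g1 hF)
    obtain ⟨L', hL', hL3, hL4⟩ := mem_iUnion₂.1 (g2 hF)
    have heq : L = L' := hu L hL L' hL' hL2 hL3
    subst heq
    obtain ⟨O, hO, hLO⟩ := gen52 hL.1
    have hOL : O ∈ L := by rw [hLO]; exact Submodule.mem_span_singleton_self O
    have hnot : ∀ {a b c : E4}, LinearIndependent ℝ ![a, b, c] →
        c ∉ Submodule.span ℝ {a, b} := by
      intro a b c h
      have he : (Fin.snoc ![a, b] c : Fin 3 → E4) = ![a, b, c] := by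
        ext i j
        fin_cases i <;> rfl
      rw [← he] at h
      have h3 := (linearIndependent_finSnoc.1 h).2
      have h4 : range ![a, b] = {a, b} := by simp [Set.pair_comm]
      rwa [h4] at h3
    have hce := hCe (ps52 t.1) (ed52 t.1) (ps52 t.2.1) (ed52 t.2.1) (ps52 t.2.2) (ed52 t.2.2) O
      hli (pair_li52 (norm_ps52 _) (norm_ed52 _) hL1.2.1)
      (pair_li52 (norm_ps52 _) (norm_ed52 _) hL2.2.1)
      (pair_li52 (norm_ps52 _) (norm_ed52 _) hL4.2.1) (fl c1 c2 c3 h0) hO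
      (hL1.2.2 hOL) (hL2.2.2 hOL) (hL4.2.2 hOL) (hnot (l12 c2)) (hnot (l13 c3))
      (hnot (l21 c1)) (hnot (l23 c3)) (hnot (l31 c1)) (hnot (l32 c2))
    rcases hce with h | h | h
    · exact e1 c1 c2 c3 h0 h
    · exact e2 c2 c3 c1 (X.F_rot52 hF).2.2.2.2 h
    · exact e3 c3 c1 c2 (X.F_rot52 (X.F_rot52 hF)).2.2.2.2 h
  · rw [← X.pair]
    exact Measure.map_mono Measure.restrict_le_self (by fun_prop)
  · have h13 : X.Λ.map (fun t => (t.1, t.2.2)) = X.ν.prod X.ν := by
      rw [← X.pair]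
      conv_rhs => rw [← X.rot, ← X.swap]
      rw [Measure.map_map (by fun_prop) (by fun_prop), Measure.map_map (by fun_prop) (by fun_prop)]
      rfl
    rw [← h13]
    exact Measure.map_mono Measure.restrict_le_self (by fun_prop)
  · have h23 : X.Λ.map (fun t => (t.2.1, t.2.2)) = X.ν.prod X.ν := by
      rw [← X.pair]
      conv_rhs => rw [← X.rot]
      rw [Measure.map_map (by fun_prop) (by fun_prop)]
      rfl
    rw [← h23]
    exact Measure.map_mono Measure.restrict_le_self (by fun_prop)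

end NPL
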