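import Pool.Agent.Lib.MP_4f1247_co.NL.Stmts14

/-!
# Isotropic position of a measure on the sphere (row N16)

The functional `Psi h = ∫ log ‖h x‖ ^ 2 - log (det h ^ 2) / 4` has a minimum over the invertible
maps `h`, and the first order condition for rank one perturbations is isotropy.
-/

set_option autoImplicit false

open MeasureTheory Filter Topology
open scoped ENNReal

namespace NPL

namespace Fo97

/-- partial sums of squares -/
noncomputable def ps (u : Fin 4 → E4) (j : Fin 3) (x : E4) : ℝ :=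
  ∑ i : Fin 4, if (i : ℕ) ≤ (j : ℕ) then (inner ℝ (u i) x : ℝ) ^ 2 else 0

theorem ps_nonneg (u : Fin 4 → E4) (j : Fin 3) (x : E4) : 0 ≤ ps u j x := by
  unfold ps
  refine Finset.sum_nonneg fun i _ => ?_
  split_ifs
  · positivity
  · exact le_rfl

theorem ps_cont (u : Fin 4 → E4) (j : Fin 3) : Continuous (ps u j) := by
  unfold ps
  refine continuous_finsetSum _ fun i _ => ?_
  by_cases h : (i : ℕ) ≤ (j : ℕ)
  · simp only [h, if_true]
    fun_prop
  · simp only [h, if_false]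
    exact continuous_const

theorem ps_close (u v : Fin 4 → E4) (j : Fin 3) (x : E4) (η : ℝ) (hx : ‖x‖ = 1)
    (hu : ∀ i, ‖u i‖ = 1) (hv : ∀ i, ‖v i‖ = 1) (h : ∀ i, ‖u i - v i‖ ≤ η) :
    ps v j x ≤ ps u j x + 8 * η := by
  have hη : 0 ≤ η := (norm_nonneg _).trans (h 0)
  have key : ∀ i : Fin 4, (if (i : ℕ) ≤ (j : ℕ) then (inner ℝ (v i) x : ℝ) ^ 2 else 0) ≤
      (if (i : ℕ) ≤ (j : ℕ) then (inner ℝ (u i) x : ℝ) ^ 2 else 0) + 2 * η := by
    intro i
    split_ifs
    · have h1 : |(inner ℝ (u i) x : ℝ)| ≤ 1 := by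
        have := abs_real_inner_le_norm (u i) x
        rwa [hu i, hx, one_mul] at this
      have h2 : |(inner ℝ (v i) x : ℝ)| ≤ 1 := by
        have := abs_real_inner_le_norm (v i) x
        rwa [hv i, hx, one_mul] at this
      have h3 : |(inner ℝ (u i) x : ℝ) - inner ℝ (v i) x| ≤ η := by
        rw [← inner_sub_left]
        have := abs_real_inner_le_norm (u i - v i) x
        rw [hx, mul_one] at this
        exact this.trans (h i)
      rw [abs_le] at h1 h2 h3
      nlinarith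
    · linarith
  unfold ps
  calc _ ≤ ∑ i : Fin 4, ((if (i : ℕ) ≤ (j : ℕ) then (inner ℝ (u i) x : ℝ) ^ 2 else 0) + 2 * η) :=
        Finset.sum_le_sum fun i _ => key i
    _ = _ := by
        rw [Finset.sum_add_distrib]
        simp
        ring

/-- the subspace orthogonal to the first `j + 1` vectors -/
theorem ps_zero (u : Fin 4 → E4) (hu : Orthonormal ℝ u) (j : Fin 3) :
    ∃ W : Submodule ℝ E4, Module.finrank ℝ W = 3 - (j : ℕ) ∧ ∀ x, ps u j x = 0 → x ∈ W := by
  classical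
  let f : {i : Fin 4 // (i : ℕ) ≤ (j : ℕ)} → E4 := fun i => u i
  have hf : LinearIndependent ℝ f := hu.linearIndependent.comp _ Subtype.val_injective
  refine ⟨(Submodule.span ℝ (Set.range f))ᗮ, ?_, ?_⟩
  · have h1 := Submodule.finrank_add_finrank_orthogonal (Submodule.span ℝ (Set.range f))
    rw [finrank_span_eq_card hf] at h1
    have h2 : Fintype.card {i : Fin 4 // (i : ℕ) ≤ (j : ℕ)} = (j : ℕ) + 1 := by
      fin_cases j <;> decide
    have h3 : Module.finrank ℝ E4 = 4 := by simp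
    rw [h2, h3] at h1
    omega
  · intro x hx
    rw [Submodule.mem_orthogonal']
    intro y hy
    have h0 : ∀ i : Fin 4, (i : ℕ) ≤ (j : ℕ) → (inner ℝ (u i) x : ℝ) = 0 := by
      intro i hi
      unfold ps at hx
      rw [Finset.sum_eq_zero_iff_of_nonneg] at hx
      · have := hx i (Finset.mem_univ _)
        rw [if_pos hi] at this
        exact pow_eq_zero_iff (two_ne_zero) |>.1 this
      · intro i _
        split_ifs
        · positivity
        · exact le_rfl
    induction hy using Submodule.span_induction with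
    | mem y hy =>
      obtain ⟨i, rfl⟩ := hy
      rw [real_inner_comm]
      exact h0 i.1 i.2
    | zero => simp
    | add y z _ _ h1 h2 => rw [inner_add_right, h1, h2, add_zero]
    | smul c y _ h1 => rw [inner_smul_right, h1, mul_zero]

theorem gap (μ : Measure E4) [IsProbabilityMeasure μ] (h1 : ∀ᵐ x ∂μ, ‖x‖ = 1)
    (hW : ∀ W : Submodule ℝ E4, Module.finrank ℝ W < 4 →
      μ W < ENNReal.ofReal (Module.finrank ℝ W / 4) ∨ W = ⊥) :
    ∃ δ ε : ℝ, 0 < δ ∧ δ ≤ 1 ∧ 0 < ε ∧ ∀ u : Fin 4 → E4, Orthonormal ℝ u → ∀ j : Fin 3,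
      μ.real {x | ps u j x < δ ^ 2} ≤ (3 - (j : ℝ)) / 4 - ε := by
  by_contra hcon
  push Not at hcon
  have hn : ∀ n : ℕ, 0 < 1 / ((n : ℝ) + 1) := fun n => Nat.one_div_pos_of_nat
  have hn1 : ∀ n : ℕ, 1 / ((n : ℝ) + 1) ≤ 1 := by
    intro n
    rw [div_le_one (by positivity)]
    linarith [Nat.cast_nonneg (α := ℝ) n]
  choose u hu j hj using fun n : ℕ => hcon (1 / ((n : ℝ) + 1)) (1 / ((n : ℝ) + 1)) (hn n)
    (hn1 n) (hn n)
  let 𝒰 : Ultrafilter ℕ := Filter.hyperfilter ℕ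
  have hn𝒰 : Tendsto (fun n : ℕ => 1 / ((n : ℝ) + 1)) 𝒰 (𝓝 0) :=
    tendsto_one_div_add_atTop_nhds_zero_nat.mono_left Nat.hyperfilter_le_atTop
  obtain ⟨j0, -, hj0⟩ := (isCompact_univ (X := Fin 3)).ultrafilter_le_nhds' (𝒰.map j)
    Filter.univ_mem
  have hj1 : ∀ᶠ n in (𝒰 : Filter ℕ), j n = j0 := by
    have : Tendsto j 𝒰 (𝓝 j0) := hj0
    rw [nhds_discrete] at this
    exact this (Set.mem_singleton j0)
  have hb : ∀ n, u n ∈ Metric.closedBall (0 : Fin 4 → E4) 1 := by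
    intro n
    rw [mem_closedBall_zero_iff, pi_norm_le_iff_of_nonneg zero_le_one]
    intro i
    exact ((hu n).norm_eq_one i).le
  obtain ⟨U, -, hU⟩ := (isCompact_closedBall (0 : Fin 4 → E4) 1).ultrafilter_le_nhds' (𝒰.map u)
    (Filter.mem_map.2 (Filter.univ_mem' hb))
  have hU' : Tendsto u 𝒰 (𝓝 U) := hU
  have hUi : ∀ i, Tendsto (fun n => u n i) 𝒰 (𝓝 (U i)) := fun i => (tendsto_pi_nhds.1 hU') i
  have hUo : Orthonormal ℝ U := by
    rw [orthonormal_iff_ite]
    intro a b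
    have h2 : Tendsto (fun n => (inner ℝ (u n a) (u n b) : ℝ)) 𝒰 (𝓝 (inner ℝ (U a) (U b))) :=
      (hUi a).inner (hUi b)
    have h3 : ∀ n, (inner ℝ (u n a) (u n b) : ℝ) = if a = b then 1 else 0 := fun n =>
      orthonormal_iff_ite.1 (hu n) a b
    simp_rw [h3] at h2
    exact tendsto_nhds_unique h2 tendsto_const_nhds |>.symm ▸ rfl
  obtain ⟨W, hW1, hW2⟩ := ps_zero U hUo j0
  have hj3 : (j0 : ℕ) < 3 := j0.2
  have hWm : μ W < ENNReal.ofReal ((3 - (j0 : ℝ)) / 4) := by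
    have h4 := hW W (by omega)
    rcases h4 with h4 | h4
    · rw [hW1, Nat.cast_sub (by omega)] at h4
      exact_mod_cast h4
    · rw [h4, finrank_bot] at hW1
      omega
  -- sets shrinking to `W`
  let S : ℕ → Set E4 := fun m => {x | ps U j0 x ≤ 1 / ((m : ℝ) + 1)}
  have hS : Tendsto (μ ∘ S) atTop (𝓝 (μ (⋂ m, S m))) := by
    apply tendsto_measure_iInter_atTop
    · intro m
      exact (measurableSet_le (ps_cont U j0).measurable measurable_const).nullMeasurableSet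
    · intro a b hab x hx
      refine le_trans (show ps U j0 x ≤ _ from hx) ?_
      exact Nat.one_div_le_one_div hab
    · exact ⟨0, measure_ne_top _ _⟩
  have hS2 : (⋂ m, S m) ⊆ (W : Set E4) := by
    intro x hx
    apply hW2
    refine le_antisymm ?_ (ps_nonneg _ _ _)
    refine ge_of_tendsto' tendsto_one_div_add_atTop_nhds_zero_nat fun m => ?_
    exact Set.mem_iInter.1 hx m
  have hS3 : μ (⋂ m, S m) < ENNReal.ofReal ((3 - (j0 : ℝ)) / 4) :=
    (measure_mono hS2).trans_lt hWm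
  obtain ⟨m, hm⟩ := (hS.eventually (gt_mem_nhds hS3)).exists
  have hm' : μ.real (S m) < (3 - (j0 : ℝ)) / 4 := by
    have h5 : (0 : ℝ) < (3 - (j0 : ℝ)) / 4 := by
      have : (j0 : ℝ) < 3 := by exact_mod_cast hj3
      linarith
    rw [measureReal_def]
    exact (ENNReal.lt_ofReal_iff_toReal_lt (measure_ne_top _ _)).1 hm
  -- compare
  set η : ℝ := 1 / ((m : ℝ) + 1) with hη
  have hηp : 0 < η := hn m
  have e1 : ∀ᶠ n in (𝒰 : Filter ℕ), ∀ i, ‖u n i - U i‖ ≤ η / 16 := by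
    rw [Filter.eventually_all]
    intro i
    have h6 : Tendsto (fun n => ‖u n i - U i‖) 𝒰 (𝓝 0) := by
      have := ((hUi i).sub_const (U i)).norm
      simpa using this
    exact (h6.eventually (gt_mem_nhds (show (0:ℝ) < η / 16 by positivity))).mono
      fun n hn => hn.le
  have e2 : ∀ᶠ n : ℕ in (𝒰 : Filter ℕ), 1 / ((n : ℝ) + 1) < η / 2 :=
    hn𝒰.eventually (gt_mem_nhds (by positivity))
  have e3 : ∀ᶠ n : ℕ in (𝒰 : Filter ℕ),
      1 / ((n : ℝ) + 1) < (3 - (j0 : ℝ)) / 4 - μ.real (S m) :=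
    hn𝒰.eventually (gt_mem_nhds (by linarith))
  obtain ⟨n, hn1', hn2, hn3, hn4⟩ := (e1.and (e2.and (e3.and hj1))).exists
  have h7 := hj n
  rw [hn4] at h7
  have h8 : μ.real {x | ps (u n) j0 x < (1 / ((n : ℝ) + 1)) ^ 2} ≤ μ.real (S m) := by
    rw [measureReal_def, measureReal_def]
    refine ENNReal.toReal_mono (measure_ne_top _ _) ?_
    refine measure_mono_ae ?_
    filter_upwards [h1] with x hx hx2
    have h9 : ps U j0 x ≤ ps (u n) j0 x + 8 * (η / 16) :=
      ps_close _ _ _ _ _ hx (fun i => (hu n).norm_eq_one i) (fun i => hUo.norm_eq_one i) hn1'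
    have h10 : ps (u n) j0 x < (1 / ((n : ℝ) + 1)) ^ 2 := hx2
    have h11 : (1 / ((n : ℝ) + 1)) ^ 2 ≤ 1 / ((n : ℝ) + 1) := by
      have a1 := hn n
      have a2 := hn1 n
      nlinarith
    show ps U j0 x ≤ η
    linarith
  linarith


theorem ptw (l q : Fin 4 → ℝ) (hl : ∀ i, 0 < l i) (ha : Antitone l) (hq : ∀ i, 0 ≤ q i)
    (hs : q 0 + q 1 + q 2 + q 3 = 1) (δ : ℝ) (hδ : 0 < δ) (hδ1 : δ ≤ 1) (a b c : ℝ)
    (ha1 : 0 ≤ a) (hb1 : 0 ≤ b) (hc1 : 0 ≤ c) (hax : q 0 < δ ^ 2 → 1 ≤ a)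
    (hbx : q 0 + q 1 < δ ^ 2 → 1 ≤ b) (hcx : q 0 + q 1 + q 2 < δ ^ 2 → 1 ≤ c) :
    2 * Real.log δ + Real.log (l 0) - (Real.log (l 0) - Real.log (l 1)) * a -
      (Real.log (l 1) - Real.log (l 2)) * b - (Real.log (l 2) - Real.log (l 3)) * c ≤
      Real.log (l 0 * q 0 + l 1 * q 1 + l 2 * q 2 + l 3 * q 3) := by
  have l01 : l 1 ≤ l 0 := ha (by decide)
  have l12 : l 2 ≤ l 1 := ha (by decide)
  have l23 : l 3 ≤ l 2 := ha (by decide)
  have L01 : Real.log (l 1) ≤ Real.log (l 0) := Real.log_le_log (hl 1) l01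
  have L12 : Real.log (l 2) ≤ Real.log (l 1) := Real.log_le_log (hl 2) l12
  have L23 : Real.log (l 3) ≤ Real.log (l 2) := Real.log_le_log (hl 3) l23
  have q0 := hq 0
  have q1 := hq 1
  have q2 := hq 2
  have q3 := hq 3
  have p0 := hl 0
  have p1 := hl 1
  have p2 := hl 2
  have p3 := hl 3
  have hδ2 : 0 < δ ^ 2 := by positivity
  have hδ21 : δ ^ 2 ≤ 1 := by nlinarith
  have hlog : ∀ t : ℝ, 0 < t → 2 * Real.log δ + Real.log t = Real.log (t * δ ^ 2) := by
    intro t ht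
    rw [Real.log_mul ht.ne' hδ2.ne', Real.log_pow]
    push_cast
    ring
  have m1 : 0 ≤ (Real.log (l 0) - Real.log (l 1)) * a := mul_nonneg (by linarith) ha1
  have m2 : 0 ≤ (Real.log (l 1) - Real.log (l 2)) * b := mul_nonneg (by linarith) hb1
  have m3 : 0 ≤ (Real.log (l 2) - Real.log (l 3)) * c := mul_nonneg (by linarith) hc1
  by_cases h0 : q 0 < δ ^ 2
  · have n1 : Real.log (l 0) - Real.log (l 1) ≤ (Real.log (l 0) - Real.log (l 1)) * a :=
      le_mul_of_one_le_right (by linarith) (hax h0)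
    by_cases h1 : q 0 + q 1 < δ ^ 2
    · have n2 : Real.log (l 1) - Real.log (l 2) ≤ (Real.log (l 1) - Real.log (l 2)) * b :=
        le_mul_of_one_le_right (by linarith) (hbx h1)
      by_cases h2 : q 0 + q 1 + q 2 < δ ^ 2
      · have n3 : Real.log (l 2) - Real.log (l 3) ≤ (Real.log (l 2) - Real.log (l 3)) * c :=
          le_mul_of_one_le_right (by linarith) (hcx h2)
        have : Real.log (l 3 * δ ^ 2) ≤
            Real.log (l 0 * q 0 + l 1 * q 1 + l 2 * q 2 + l 3 * q 3) := by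
          refine Real.log_le_log (by positivity) ?_
          nlinarith [mul_nonneg (sub_nonneg.2 l23) q2,
            mul_nonneg (sub_nonneg.2 (l23.trans l12)) q1,
            mul_nonneg (sub_nonneg.2 ((l23.trans l12).trans l01)) q0]
        rw [← hlog _ p3] at this
        linarith
      · have : Real.log (l 2 * δ ^ 2) ≤
            Real.log (l 0 * q 0 + l 1 * q 1 + l 2 * q 2 + l 3 * q 3) := by
          refine Real.log_le_log (by positivity) ?_
          nlinarith [mul_nonneg (sub_nonneg.2 l12) q1,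
            mul_nonneg (sub_nonneg.2 (l12.trans l01)) q0, mul_nonneg p3.le q3,
            mul_le_mul_of_nonneg_left (not_lt.1 h2) p2.le]
        rw [← hlog _ p2] at this
        linarith
    · have : Real.log (l 1 * δ ^ 2) ≤
          Real.log (l 0 * q 0 + l 1 * q 1 + l 2 * q 2 + l 3 * q 3) := by
        refine Real.log_le_log (by positivity) ?_
        nlinarith [mul_nonneg (sub_nonneg.2 l01) q0, mul_nonneg p3.le q3, mul_nonneg p2.le q2,
          mul_le_mul_of_nonneg_left (not_lt.1 h1) p1.le]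
      rw [← hlog _ p1] at this
      linarith
  · have : Real.log (l 0 * δ ^ 2) ≤
        Real.log (l 0 * q 0 + l 1 * q 1 + l 2 * q 2 + l 3 * q 3) := by
      refine Real.log_le_log (by positivity) ?_
      nlinarith [mul_nonneg p3.le q3, mul_nonneg p2.le q2, mul_nonneg p1.le q1,
        mul_le_mul_of_nonneg_left (not_lt.1 h0) p0.le]
    rw [← hlog _ p0] at this
    linarith

theorem coer (μ : Measure E4) [IsProbabilityMeasure μ] (h1 : ∀ᵐ x ∂μ, ‖x‖ = 1) (δ ε : ℝ)
    (hδ : 0 < δ) (hδ1 : δ ≤ 1) (hgap : ∀ u : Fin 4 → E4, Orthonormal ℝ u → ∀ j : Fin 3,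
      μ.real {x | ps u j x < δ ^ 2} ≤ (3 - (j : ℝ)) / 4 - ε)
    (b : OrthonormalBasis (Fin 4) ℝ E4) (l : Fin 4 → ℝ) (hl : ∀ i, 0 < l i) (ha : Antitone l) :
    2 * Real.log δ + (Real.log (l 0) + Real.log (l 1) + Real.log (l 2) + Real.log (l 3)) / 4 +
      ε * (Real.log (l 0) - Real.log (l 3)) ≤
      ∫ x, Real.log (∑ i, l i * (inner ℝ (b i) x : ℝ) ^ 2) ∂μ := by
  have l01 : l 1 ≤ l 0 := ha (by decide)
  have l12 : l 2 ≤ l 1 := ha (by decide)
  have l23 : l 3 ≤ l 2 := ha (by decide)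
  have L01 : Real.log (l 1) ≤ Real.log (l 0) := Real.log_le_log (hl 1) l01
  have L12 : Real.log (l 2) ≤ Real.log (l 1) := Real.log_le_log (hl 2) l12
  have L23 : Real.log (l 3) ≤ Real.log (l 2) := Real.log_le_log (hl 3) l23
  have hmeas : ∀ j, MeasurableSet {x | ps b j x < δ ^ 2} := fun j =>
    measurableSet_lt (ps_cont b j).measurable measurable_const
  have hsum : ∀ x : E4, ‖x‖ = 1 → (inner ℝ (b 0) x : ℝ) ^ 2 + (inner ℝ (b 1) x : ℝ) ^ 2 +
      (inner ℝ (b 2) x : ℝ) ^ 2 + (inner ℝ (b 3) x : ℝ) ^ 2 = 1 := by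
    intro x hx
    have := b.sum_sq_norm_inner_right x
    simp only [Fin.sum_univ_four, Real.norm_eq_abs, sq_abs, hx, one_pow] at this
    linarith
  have hcont : Continuous fun x : E4 => ∑ i, l i * (inner ℝ (b i) x : ℝ) ^ 2 := by fun_prop
  have hbd : ∀ x : E4, ‖x‖ = 1 → l 3 ≤ ∑ i, l i * (inner ℝ (b i) x : ℝ) ^ 2 ∧
      ∑ i, l i * (inner ℝ (b i) x : ℝ) ^ 2 ≤ l 0 := by
    intro x hx
    have h2 := hsum x hx
    have q0 := sq_nonneg (inner ℝ (b 0) x : ℝ)
    have q1 := sq_nonneg (inner ℝ (b 1) x : ℝ)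
    have q2 := sq_nonneg (inner ℝ (b 2) x : ℝ)
    have q3 := sq_nonneg (inner ℝ (b 3) x : ℝ)
    rw [Fin.sum_univ_four]
    have e3 := congrArg (fun t => l 3 * t) h2
    have e0 := congrArg (fun t => l 0 * t) h2
    simp only [mul_one] at e3 e0
    constructor
    · linarith [mul_nonneg (sub_nonneg.2 l23) q2,
        mul_nonneg (sub_nonneg.2 (l23.trans l12)) q1,
        mul_nonneg (sub_nonneg.2 ((l23.trans l12).trans l01)) q0]
    · linarith [mul_nonneg (sub_nonneg.2 l01) q1,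
        mul_nonneg (sub_nonneg.2 (l12.trans l01)) q2,
        mul_nonneg (sub_nonneg.2 ((l23.trans l12).trans l01)) q3]
  have hint : Integrable (fun x : E4 => Real.log (∑ i, l i * (inner ℝ (b i) x : ℝ) ^ 2)) μ := by
    refine Integrable.of_bound (C := |Real.log (l 3)| + |Real.log (l 0)|)
      (Real.measurable_log.comp hcont.measurable).aestronglyMeasurable ?_
    filter_upwards [h1] with x hx
    have h3 := hbd x hx
    have h4 := Real.log_le_log (hl 3) h3.1
    have h5 := Real.log_le_log ((hl 3).trans_le h3.1) h3.2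
    rw [Real.norm_eq_abs, abs_le]
    constructor
    · linarith [neg_abs_le (Real.log (l 3)), abs_nonneg (Real.log (l 0))]
    · linarith [le_abs_self (Real.log (l 0)), abs_nonneg (Real.log (l 3))]
  let I : Fin 3 → E4 → ℝ := fun j => {x | ps b j x < δ ^ 2}.indicator fun _ => (1 : ℝ)
  have hI : ∀ j, Integrable (I j) μ := fun j =>
    (integrable_const (1 : ℝ)).indicator (hmeas j)
  have hI2 : ∀ j, ∫ x, I j x ∂μ = μ.real {x | ps b j x < δ ^ 2} := by
    intro j
    rw [integral_indicator_const (1 : ℝ) (hmeas j)]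
    simp
  have hle : ∫ x, (2 * Real.log δ + Real.log (l 0) -
      (Real.log (l 0) - Real.log (l 1)) * I 0 x - (Real.log (l 1) - Real.log (l 2)) * I 1 x -
      (Real.log (l 2) - Real.log (l 3)) * I 2 x) ∂μ ≤
      ∫ x, Real.log (∑ i, l i * (inner ℝ (b i) x : ℝ) ^ 2) ∂μ := by
    refine integral_mono_ae ?_ hint ?_
    · exact (((integrable_const _).sub ((hI 0).const_mul _)).sub ((hI 1).const_mul _)).sub
        ((hI 2).const_mul _)
    · filter_upwards [h1] with x hx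
      have hnn : ∀ j, 0 ≤ I j x := fun j => Set.indicator_nonneg (fun _ _ => zero_le_one) x
      have hI1 : ∀ j, ps b j x < δ ^ 2 → 1 ≤ I j x := by
        intro j hj
        show 1 ≤ Set.indicator _ _ x
        rw [Set.indicator_of_mem (show x ∈ {x | ps b j x < δ ^ 2} from hj)]
      have e0 : ps b 0 x = (inner ℝ (b 0) x : ℝ) ^ 2 := by
        unfold ps
        simp
      have e1 : ps b 1 x = (inner ℝ (b 0) x : ℝ) ^ 2 + (inner ℝ (b 1) x : ℝ) ^ 2 := by
        unfold ps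
        simp [Fin.sum_univ_four]
      have e2 : ps b 2 x = (inner ℝ (b 0) x : ℝ) ^ 2 + (inner ℝ (b 1) x : ℝ) ^ 2 +
          (inner ℝ (b 2) x : ℝ) ^ 2 := by
        unfold ps
        rw [Fin.sum_univ_four]
        simp
      have h6 := ptw l (fun i => (inner ℝ (b i) x : ℝ) ^ 2) hl ha (fun i => sq_nonneg _)
        (hsum x hx) δ hδ hδ1 (I 0 x) (I 1 x) (I 2 x) (hnn 0) (hnn 1) (hnn 2)
        (fun h => hI1 0 (e0 ▸ h)) (fun h => hI1 1 (e1 ▸ h)) (fun h => hI1 2 (e2 ▸ h))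
      show _ ≤ Real.log (∑ i, l i * (inner ℝ (b i) x : ℝ) ^ 2)
      rw [Fin.sum_univ_four]
      exact h6
  refine le_trans ?_ hle
  have i0 : Integrable (fun x : E4 => 2 * Real.log δ + Real.log (l 0) -
      (Real.log (l 0) - Real.log (l 1)) * I 0 x) μ :=
    (integrable_const _).sub ((hI 0).const_mul _)
  have i1 : Integrable (fun x : E4 => 2 * Real.log δ + Real.log (l 0) -
      (Real.log (l 0) - Real.log (l 1)) * I 0 x - (Real.log (l 1) - Real.log (l 2)) * I 1 x) μ :=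
    i0.sub ((hI 1).const_mul _)
  rw [integral_sub i1 ((hI 2).const_mul _), integral_sub i0 ((hI 1).const_mul _),
    integral_sub (integrable_const _) ((hI 0).const_mul _), integral_const,
    integral_const_mul, integral_const_mul, integral_const_mul, hI2, hI2, hI2]
  have g0 := hgap b b.orthonormal 0
  have g1 := hgap b b.orthonormal 1
  have g2 := hgap b b.orthonormal 2
  simp only [Fin.isValue, Fin.val_zero, Fin.val_one, Fin.val_two, Nat.cast_zero, Nat.cast_one,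
    Nat.cast_ofNat] at g0 g1 g2
  simp only [probReal_univ, smul_eq_mul, one_mul]
  have k0 := mul_le_mul_of_nonneg_left g0 (sub_nonneg.2 L01)
  have k1 := mul_le_mul_of_nonneg_left g1 (sub_nonneg.2 L12)
  have k2 := mul_le_mul_of_nonneg_left g2 (sub_nonneg.2 L23)
  linarith


theorem det_adj (h : E4 →ₗ[ℝ] E4) : LinearMap.det (LinearMap.adjoint h) = LinearMap.det h := by
  let b := EuclideanSpace.basisFun (Fin 4) ℝ
  rw [← LinearMap.det_toMatrix b.toBasis, ← LinearMap.det_toMatrix b.toBasis,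
    LinearMap.toMatrix_adjoint b b h, Matrix.det_conjTranspose]
  simp

theorem eig (h : E4 →L[ℝ] E4) (hd : h.det ≠ 0) :
    ∃ (b : OrthonormalBasis (Fin 4) ℝ E4) (l : Fin 4 → ℝ), (∀ i, 0 < l i) ∧ Antitone l ∧
      (∀ x, ‖h x‖ ^ 2 = ∑ i, l i * (inner ℝ (b i) x : ℝ) ^ 2) ∧ h.det ^ 2 = ∏ i, l i := by
  let h' : E4 →ₗ[ℝ] E4 := h
  have hT := h'.isSymmetric_adjoint_comp_self
  have hn : Module.finrank ℝ E4 = 4 := by simp
  have hnorm : ∀ x, ‖h x‖ ^ 2 = ∑ i, hT.eigenvalues hn i *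
      (inner ℝ (hT.eigenvectorBasis hn i) x : ℝ) ^ 2 := by
    intro x
    have e1 : ‖h x‖ ^ 2 = inner ℝ x ((LinearMap.adjoint h' ∘ₗ h') x) := by
      rw [LinearMap.comp_apply, LinearMap.adjoint_inner_right, real_inner_self_eq_norm_sq]
      rfl
    rw [e1, ← (hT.eigenvectorBasis hn).sum_inner_mul_inner]
    refine Finset.sum_congr rfl fun i _ => ?_
    have e2 := hT.eigenvectorBasis_apply_self_apply hn x i
    rw [OrthonormalBasis.repr_apply_apply, OrthonormalBasis.repr_apply_apply] at e2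
    rw [e2, real_inner_comm]
    simp
    ring
  have hinj : ∀ x, h x = 0 → x = 0 := by
    intro x hx
    have hu : IsUnit (LinearMap.det h') := isUnit_iff_ne_zero.2 hd
    have hk := (LinearMap.bot_lt_ker_of_det_eq_zero (f := h')).mt
    have := (LinearMap.equivOfDetNeZero h' hd).injective
    apply this
    rw [map_zero]
    exact hx
  refine ⟨hT.eigenvectorBasis hn, hT.eigenvalues hn, ?_, hT.eigenvalues_antitone hn, hnorm, ?_⟩
  · intro i
    have e3 := hnorm (hT.eigenvectorBasis hn i)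
    have e4 : ∀ j, (inner ℝ (hT.eigenvectorBasis hn j) (hT.eigenvectorBasis hn i) : ℝ) =
        if j = i then 1 else 0 := fun j =>
      orthonormal_iff_ite.1 (hT.eigenvectorBasis hn).orthonormal j i
    simp only [e4, ite_pow, one_pow, ne_eq, OfNat.ofNat_ne_zero, not_false_eq_true, zero_pow,
      mul_ite, mul_one, mul_zero, Finset.sum_ite_eq', Finset.mem_univ, if_true] at e3
    rw [← e3]
    have e5 : h (hT.eigenvectorBasis hn i) ≠ 0 := by
      intro h0
      have := hinj _ h0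
      have e6 := (hT.eigenvectorBasis hn).orthonormal.norm_eq_one i
      rw [this, norm_zero] at e6
      exact zero_ne_one e6
    positivity
  · have e7 := hT.det_eq_prod_eigenvalues hn
    rw [LinearMap.det_comp, det_adj] at e7
    have e8 : h.det = LinearMap.det h' := rfl
    rw [e8, sq, e7]
    simp

/-- the functional -/
noncomputable def Psi (μ : Measure E4) (h : E4 →L[ℝ] E4) : ℝ :=
  ∫ x, Real.log (‖h x‖ ^ 2) ∂μ - Real.log (h.det ^ 2) / 4

theorem bds (h : E4 →L[ℝ] E4) (b : OrthonormalBasis (Fin 4) ℝ E4) (l : Fin 4 → ℝ)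
    (ha : Antitone l) (hh : ∀ x, ‖h x‖ ^ 2 = ∑ i, l i * (inner ℝ (b i) x : ℝ) ^ 2) (x : E4) :
    l 3 * ‖x‖ ^ 2 ≤ ‖h x‖ ^ 2 ∧ ‖h x‖ ^ 2 ≤ l 0 * ‖x‖ ^ 2 := by
  have l01 : l 1 ≤ l 0 := ha (by decide)
  have l12 : l 2 ≤ l 1 := ha (by decide)
  have l23 : l 3 ≤ l 2 := ha (by decide)
  have h2 := b.sum_sq_norm_inner_right x
  simp only [Fin.sum_univ_four, Real.norm_eq_abs, sq_abs] at h2
  have q0 := sq_nonneg (inner ℝ (b 0) x : ℝ)
  have q1 := sq_nonneg (inner ℝ (b 1) x : ℝ)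
  have q2 := sq_nonneg (inner ℝ (b 2) x : ℝ)
  have q3 := sq_nonneg (inner ℝ (b 3) x : ℝ)
  rw [hh x, Fin.sum_univ_four, ← h2]
  constructor
  · linarith [mul_nonneg (sub_nonneg.2 l23) q2,
      mul_nonneg (sub_nonneg.2 (l23.trans l12)) q1,
      mul_nonneg (sub_nonneg.2 ((l23.trans l12).trans l01)) q0]
  · linarith [mul_nonneg (sub_nonneg.2 l01) q1,
      mul_nonneg (sub_nonneg.2 (l12.trans l01)) q2,
      mul_nonneg (sub_nonneg.2 ((l23.trans l12).trans l01)) q3]

theorem int_log (μ : Measure E4) [IsProbabilityMeasure μ] (h1 : ∀ᵐ x ∂μ, ‖x‖ = 1)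
    (h : E4 →L[ℝ] E4) (hd : h.det ≠ 0) : Integrable (fun x => Real.log (‖h x‖ ^ 2)) μ := by
  obtain ⟨b, l, hl, ha, hh, -⟩ := eig h hd
  have hc : Continuous fun x => ‖h x‖ ^ 2 := by fun_prop
  refine Integrable.of_bound (C := |Real.log (l 3)| + |Real.log (l 0)|)
    (Real.measurable_log.comp hc.measurable).aestronglyMeasurable ?_
  filter_upwards [h1] with x hx
  have h3 := bds h b l ha hh x
  rw [hx, one_pow, mul_one, mul_one] at h3
  have h4 := Real.log_le_log (hl 3) h3.1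
  have h5 := Real.log_le_log ((hl 3).trans_le h3.1) h3.2
  rw [Real.norm_eq_abs, abs_le]
  constructor
  · linarith [neg_abs_le (Real.log (l 3)), abs_nonneg (Real.log (l 0))]
  · linarith [le_abs_self (Real.log (l 0)), abs_nonneg (Real.log (l 3))]

theorem low (μ : Measure E4) [IsProbabilityMeasure μ] (h1 : ∀ᵐ x ∂μ, ‖x‖ = 1) (δ ε : ℝ)
    (hδ : 0 < δ) (hδ1 : δ ≤ 1) (hgap : ∀ u : Fin 4 → E4, Orthonormal ℝ u → ∀ j : Fin 3,
      μ.real {x | ps u j x < δ ^ 2} ≤ (3 - (j : ℝ)) / 4 - ε)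
    (h : E4 →L[ℝ] E4) (hd : h.det ≠ 0) :
    ∃ L M : ℝ, 0 < L ∧ 0 < M ∧ (∀ x, M * ‖x‖ ^ 2 ≤ ‖h x‖ ^ 2) ∧
      (∀ x, ‖h x‖ ^ 2 ≤ L * ‖x‖ ^ 2) ∧
      2 * Real.log δ + ε * (Real.log L - Real.log M) ≤ Psi μ h := by
  obtain ⟨b, l, hl, ha, hh, hdet⟩ := eig h hd
  refine ⟨l 0, l 3, hl 0, hl 3, fun x => (bds h b l ha hh x).1,
    fun x => (bds h b l ha hh x).2, ?_⟩
  have h2 := coer μ h1 δ ε hδ hδ1 hgap b l hl ha
  have h3 : Psi μ h = ∫ x, Real.log (∑ i, l i * (inner ℝ (b i) x : ℝ) ^ 2) ∂μ -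
      (Real.log (l 0) + Real.log (l 1) + Real.log (l 2) + Real.log (l 3)) / 4 := by
    unfold Psi
    rw [hdet, Fin.prod_univ_four, Real.log_mul (by have := hl 0; have := hl 1; have := hl 2; positivity)
      (hl 3).ne', Real.log_mul (by have := hl 0; have := hl 1; positivity) (hl 2).ne',
      Real.log_mul (hl 0).ne' (hl 1).ne']
    simp only [hh]
  rw [h3]
  linarith

theorem det_ne (h : E4 →L[ℝ] E4) (c : ℝ) (hc : 0 < c) (hh : ∀ x, c * ‖x‖ ≤ ‖h x‖) :
    h.det ≠ 0 := by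
  intro h0
  have h1 : LinearMap.det (h : E4 →ₗ[ℝ] E4) = 0 := h0
  have h2 := LinearMap.bot_lt_ker_of_det_eq_zero h1
  obtain ⟨x, hx, hx0⟩ := (Submodule.ne_bot_iff _).1 h2.ne'
  have h3 : h x = 0 := hx
  have h4 := hh x
  rw [h3, norm_zero] at h4
  have : 0 < ‖x‖ := norm_pos_iff.2 hx0
  nlinarith

theorem psi_smul (μ : Measure E4) [IsProbabilityMeasure μ] (h1 : ∀ᵐ x ∂μ, ‖x‖ = 1)
    (h : E4 →L[ℝ] E4) (hd : h.det ≠ 0) (t : ℝ) (ht : 0 < t) :
    Psi μ (t • h) = Psi μ h := by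
  have e1 : (t • h).det = t ^ 4 * h.det := by
    have : (t • h).det = LinearMap.det (t • (h : E4 →ₗ[ℝ] E4)) := rfl
    rw [this, LinearMap.det_smul]
    simp
  have e2 : ∫ x, Real.log (‖(t • h) x‖ ^ 2) ∂μ =
      2 * Real.log t + ∫ x, Real.log (‖h x‖ ^ 2) ∂μ := by
    have e3 : ∫ x, Real.log (‖(t • h) x‖ ^ 2) ∂μ =
        ∫ x, (2 * Real.log t + Real.log (‖h x‖ ^ 2)) ∂μ := by
      refine integral_congr_ae ?_
      filter_upwards [h1] with x hx
      obtain ⟨b, l, hl, ha, hh, -⟩ := eig h hd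
      have h3 := (bds h b l ha hh x).1
      rw [hx, one_pow, mul_one] at h3
      have h4 := (hl 3).trans_le h3
      rw [smul_apply, norm_smul, Real.norm_eq_abs, abs_of_pos ht, mul_pow,
        Real.log_mul (by positivity) h4.ne', Real.log_pow]
      push_cast
      ring
    rw [e3, integral_add (integrable_const _) (int_log μ h1 h hd), integral_const]
    simp
  unfold Psi
  rw [e1, e2, mul_pow, Real.log_mul (by positivity) (by positivity), ← pow_mul, Real.log_pow]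
  push_cast
  ring

theorem exists_min (μ : Measure E4) [IsProbabilityMeasure μ] (h1 : ∀ᵐ x ∂μ, ‖x‖ = 1)
    (hW : ∀ W : Submodule ℝ E4, Module.finrank ℝ W < 4 →
      μ W < ENNReal.ofReal (Module.finrank ℝ W / 4) ∨ W = ⊥) :
    ∃ h0 : E4 →L[ℝ] E4, h0.det ≠ 0 ∧ ∀ h : E4 →L[ℝ] E4, h.det ≠ 0 → Psi μ h0 ≤ Psi μ h := by
  obtain ⟨δ, ε, hδ, hδ1, hε, hgap⟩ := gap μ h1 hW
  have : ProperSpace (E4 →L[ℝ] E4) := FiniteDimensional.proper_real _
  set c : ℝ := Real.exp (Real.log δ / ε) with hc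
  have hc0 : 0 < c := Real.exp_pos _
  have hlδ : Real.log δ ≤ 0 := Real.log_nonpos hδ.le hδ1
  have hc1 : c ≤ 1 := Real.exp_le_one_iff.2 (div_nonpos_of_nonpos_of_nonneg hlδ hε.le)
  let K : Set (E4 →L[ℝ] E4) := {h | ‖h‖ ≤ 1 ∧ ∀ x, c * ‖x‖ ≤ ‖h x‖}
  have hKc : IsCompact K := by
    refine (isCompact_closedBall (0 : E4 →L[ℝ] E4) 1).of_isClosed_subset ?_ ?_
    · have hK2 : K = {h : E4 →L[ℝ] E4 | ‖h‖ ≤ 1} ∩ ⋂ x : E4, {h | c * ‖x‖ ≤ ‖h x‖} := by
        ext h
        simp [K]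
      rw [hK2]
      refine (isClosed_le continuous_norm continuous_const).inter (isClosed_iInter fun x => ?_)
      exact isClosed_le continuous_const (by fun_prop)
    · intro h hh
      rw [mem_closedBall_zero_iff]
      exact hh.1
  have h1K : (1 : E4 →L[ℝ] E4) ∈ K := by
    refine ⟨ContinuousLinearMap.norm_id_le, fun x => ?_⟩
    show c * ‖x‖ ≤ ‖x‖
    nlinarith [norm_nonneg x]
  have hKd : ∀ h ∈ K, h.det ≠ 0 := fun h hh => det_ne h c hc0 hh.2
  have hcont : ContinuousOn (Psi μ) K := by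
    unfold Psi
    refine ContinuousOn.sub ?_ ?_
    · refine continuousOn_of_dominated (bound := fun _ => |Real.log (c ^ 2)|) ?_ ?_
        (integrable_const _) ?_
      · intro h _
        have hc : Continuous fun x => ‖h x‖ ^ 2 := by fun_prop
        exact (Real.measurable_log.comp hc.measurable).aestronglyMeasurable
      · intro h hh
        filter_upwards [h1] with x hx
        have a1 := hh.2 x
        have a2 := (h.le_opNorm x).trans (mul_le_mul_of_nonneg_right hh.1 (norm_nonneg x))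
        rw [hx, mul_one] at a1
        rw [hx, mul_one] at a2
        have a3 : c ^ 2 ≤ ‖h x‖ ^ 2 := pow_le_pow_left₀ hc0.le a1 2
        have a4 : ‖h x‖ ^ 2 ≤ 1 := pow_le_one₀ (norm_nonneg _) a2
        have a5 := Real.log_le_log (by positivity) a3
        have a6 : Real.log (‖h x‖ ^ 2) ≤ 0 := Real.log_nonpos (by positivity) a4
        rw [Real.norm_eq_abs, abs_of_nonpos a6]
        linarith [neg_abs_le (Real.log (c ^ 2))]
      · filter_upwards [h1] with x hx
        refine ContinuousOn.log (Continuous.continuousOn (by fun_prop)) ?_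
        intro h hh
        have a1 := hh.2 x
        rw [hx, mul_one] at a1
        have : 0 < ‖h x‖ := hc0.trans_le a1
        positivity
    · refine ContinuousOn.div_const (ContinuousOn.log ?_ ?_) _
      · exact (ContinuousLinearMap.continuous_det.pow 2).continuousOn
      · intro h hh
        exact pow_ne_zero 2 (hKd h hh)
  obtain ⟨h0, h0K, hmin⟩ := hKc.exists_isMinOn ⟨1, h1K⟩ hcont
  refine ⟨h0, hKd h0 h0K, fun h hd => ?_⟩
  have hone : Psi μ 1 ≤ 0 := by
    unfold Psi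
    have e1 : ∫ x, Real.log (‖(1 : E4 →L[ℝ] E4) x‖ ^ 2) ∂μ = 0 := by
      rw [← integral_zero E4 ℝ (μ := μ)]
      refine integral_congr_ae ?_
      filter_upwards [h1] with x hx
      rw [one_apply_eq_self, hx]
      simp
    have e2 : (1 : E4 →L[ℝ] E4).det = 1 := by
      show LinearMap.det (LinearMap.id : E4 →ₗ[ℝ] E4) = 1
      exact LinearMap.det_id
    rw [e1, e2]
    simp
  by_cases hneg : 0 ≤ Psi μ h
  · exact ((hmin h1K).trans hone).trans hneg
  · push Not at hneg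
    obtain ⟨L, M, hL, hM, hlo, hup, hlow⟩ := low μ h1 δ ε hδ hδ1 hgap h hd
    have hne : 0 < ‖h‖ := by
      rw [norm_pos_iff]
      rintro rfl
      apply hd
      show LinearMap.det (0 : E4 →ₗ[ℝ] E4) = 0
      rw [LinearMap.det_zero]
      simp
    have hsL : ‖h‖ ≤ Real.sqrt L := by
      refine h.opNorm_le_bound (Real.sqrt_nonneg _) fun x => ?_
      refine abs_le_of_sq_le_sq' ?_ (by positivity) |>.2
      rw [mul_pow, Real.sq_sqrt hL.le]
      exact hup x
    have hsM : ∀ x, Real.sqrt M * ‖x‖ ≤ ‖h x‖ := by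
      intro x
      refine abs_le_of_sq_le_sq' ?_ (norm_nonneg _) |>.2
      rw [mul_pow, Real.sq_sqrt hM.le]
      exact hlo x
    have hcLM : c * Real.sqrt L ≤ Real.sqrt M := by
      have e3 : Real.log L - Real.log M ≤ -(2 * Real.log δ / ε) := by
        rw [le_neg, div_le_iff₀ hε]
        nlinarith
      have e4 : c = Real.exp (Real.log δ / ε) := hc
      have e5 : Real.sqrt L = Real.exp (Real.log L / 2) := by
        rw [Real.exp_half, Real.exp_log hL]
      have e6 : Real.sqrt M = Real.exp (Real.log M / 2) := by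
        rw [Real.exp_half, Real.exp_log hM]
      rw [e4, e5, e6, ← Real.exp_add, Real.exp_le_exp]
      have e7 : 2 * Real.log δ / ε = 2 * (Real.log δ / ε) := by ring
      rw [e7] at e3
      linarith
    have hK' : (‖h‖⁻¹ • h) ∈ K := by
      refine ⟨?_, fun x => ?_⟩
      · rw [norm_smul, norm_inv, norm_norm, inv_mul_cancel₀ hne.ne']
      · rw [smul_apply, norm_smul, norm_inv, norm_norm, inv_mul_eq_div,
          le_div_iff₀ hne]
        calc c * ‖x‖ * ‖h‖ = (c * ‖h‖) * ‖x‖ := by ring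
          _ ≤ (c * Real.sqrt L) * ‖x‖ := by gcongr
          _ ≤ Real.sqrt M * ‖x‖ := by gcongr
          _ ≤ ‖h x‖ := hsM x
    have := hmin hK'
    rw [Set.mem_ofPred_eq, psi_smul μ h1 h hd _ (inv_pos.2 hne)] at this
    exact this

theorem unit_case (μ : Measure E4) [IsProbabilityMeasure μ] (h1 : ∀ᵐ x ∂μ, ‖x‖ = 1)
    (h0 : E4 →L[ℝ] E4) (hd : h0.det ≠ 0)
    (hmin : ∀ h : E4 →L[ℝ] E4, h.det ≠ 0 → Psi μ h0 ≤ Psi μ h) (v : E4) (hv : ‖v‖ = 1) :
    ∫ x, (inner ℝ v (‖h0 x‖⁻¹ • h0 x) : ℝ) ^ 2 ∂μ = 1 / 4 := by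
  set q : E4 → ℝ := fun x => (inner ℝ v (‖h0 x‖⁻¹ • h0 x) : ℝ) ^ 2 with hq
  have hq0 : ∀ x, 0 ≤ q x := fun x => sq_nonneg _
  have hpos : ∀ᵐ x ∂μ, 0 < ‖h0 x‖ := by
    obtain ⟨b, l, hl, ha, hh, -⟩ := eig h0 hd
    filter_upwards [h1] with x hx
    have h3 := (bds h0 b l ha hh x).1
    rw [hx, one_pow, mul_one] at h3
    have h4 := (hl 3).trans_le h3
    by_contra hcon
    have : ‖h0 x‖ = 0 := le_antisymm (not_lt.1 hcon) (norm_nonneg _)
    rw [this] at h4
    simp at h4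
  have hq1 : ∀ᵐ x ∂μ, q x ≤ 1 := by
    filter_upwards [hpos] with x hx
    have h5 : ‖‖h0 x‖⁻¹ • h0 x‖ = 1 := by
      rw [norm_smul, norm_inv, norm_norm, inv_mul_cancel₀ hx.ne']
    have h6 := abs_real_inner_le_norm v (‖h0 x‖⁻¹ • h0 x)
    rw [h5, hv, one_mul] at h6
    rw [hq]
    show (inner ℝ v (‖h0 x‖⁻¹ • h0 x) : ℝ) ^ 2 ≤ 1
    rw [← sq_abs]
    exact pow_le_one₀ (abs_nonneg _) h6
  have hqm : Measurable q := by
    have : Measurable fun x => ‖h0 x‖⁻¹ • h0 x :=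
      (h0.continuous.norm.measurable.inv).smul h0.continuous.measurable
    have h7 : Measurable fun y : E4 => (inner ℝ v y : ℝ) := by fun_prop
    exact (h7.comp this).pow_const 2
  have hqi : Integrable q μ := by
    refine Integrable.of_bound (C := 1) hqm.aestronglyMeasurable ?_
    filter_upwards [hq1] with x hx
    rw [Real.norm_eq_abs, abs_of_nonneg (hq0 x)]
    exact hx
  set I := ∫ x, q x ∂μ with hI
  have hI0 : 0 ≤ I := integral_nonneg hq0
  have key : ∀ t : ℝ, 0 < t → 1 - t⁻¹ ≤ 4 * ((t - 1) * I) := by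
    intro t ht
    set s : ℝ := Real.sqrt t - 1 with hs
    have hst : (1 + s) ^ 2 = t := by
      rw [hs]
      have : 1 + (Real.sqrt t - 1) = Real.sqrt t := by ring
      rw [this, Real.sq_sqrt ht.le]
    have hs1 : 0 < 1 + s := by
      rw [hs]
      have := Real.sqrt_pos.2 ht
      linarith
    let P : E4 →ₗ[ℝ] E4 := LinearMap.transvection (s • (innerₛₗ ℝ v)) v
    have hPd : LinearMap.det P = 1 + s := by
      rw [LinearMap.transvection.det]
      simp [hv]
    have hPn : ∀ y : E4, ‖P y‖ ^ 2 = ‖y‖ ^ 2 + (t - 1) * (inner ℝ v y : ℝ) ^ 2 := by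
      intro y
      have e1 : P y = y + (s * inner ℝ v y) • v := by
        simp [P, LinearMap.transvection.apply]
      rw [e1, norm_add_sq_real, inner_smul_right, norm_smul, hv, real_inner_comm y v,
        Real.norm_eq_abs, mul_one, sq_abs, ← hst]
      ring
    let h : E4 →L[ℝ] E4 := (LinearMap.toContinuousLinearMap P).comp h0
    have hdet : h.det = (1 + s) * h0.det := by
      have : h.det = LinearMap.det (P ∘ₗ (h0 : E4 →ₗ[ℝ] E4)) := rfl
      rw [this, LinearMap.det_comp, hPd]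
    have hd' : h.det ≠ 0 := by
      rw [hdet]
      exact mul_ne_zero hs1.ne' hd
    have h8 := hmin h hd'
    have h9 : ∫ x, Real.log (‖h x‖ ^ 2) ∂μ ≤
        ∫ x, Real.log (‖h0 x‖ ^ 2) ∂μ + (t - 1) * I := by
      rw [hI, ← integral_const_mul, ← integral_add (int_log μ h1 h0 hd) (hqi.const_mul _)]
      refine integral_mono_ae (int_log μ h1 h hd') ((int_log μ h1 h0 hd).add (hqi.const_mul _)) ?_
      filter_upwards [hpos, hq1] with x hx hx1
      show Real.log (‖h x‖ ^ 2) ≤ Real.log (‖h0 x‖ ^ 2) + (t - 1) * q x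
      have e2 : ‖h x‖ ^ 2 = ‖h0 x‖ ^ 2 * (1 + (t - 1) * q x) := by
        have e3 : h x = P (h0 x) := rfl
        have e4 : q x = (inner ℝ v (h0 x) : ℝ) ^ 2 / ‖h0 x‖ ^ 2 := by
          rw [hq]
          show (inner ℝ v (‖h0 x‖⁻¹ • h0 x) : ℝ) ^ 2 = _
          rw [inner_smul_right, mul_pow, inv_pow]
          ring
        rw [e3, hPn, e4]
        field_simp
      have e5 : 0 < 1 + (t - 1) * q x := by
        rcases (hq0 x).eq_or_lt with h0' | h0'
        · rw [← h0']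
          simp
        · nlinarith [mul_pos ht h0']
      rw [e2, Real.log_mul (by positivity) e5.ne']
      have := Real.log_le_sub_one_of_pos e5
      linarith
    unfold Psi at h8
    rw [hdet, mul_pow, hst, Real.log_mul ht.ne' (pow_ne_zero 2 hd)] at h8
    have h10 := Real.one_sub_inv_le_log_of_pos ht
    linarith
  have ht : 0 < 2 / (1 + 4 * I) := by positivity
  have h11 := key _ ht
  have h12 : (2 / (1 + 4 * I))⁻¹ = (1 + 4 * I) / 2 := by rw [inv_div]
  rw [h12] at h11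
  have h13 : (0 : ℝ) < 1 + 4 * I := by positivity
  have h14 : 2 / (1 + 4 * I) - 1 = (1 - 4 * I) / (1 + 4 * I) := by
    field_simp
    ring
  rw [h14] at h11
  have h15 : 4 * ((1 - 4 * I) / (1 + 4 * I) * I) = (4 * I * (1 - 4 * I)) / (1 + 4 * I) := by ring
  rw [h15, le_div_iff₀ h13] at h11
  nlinarith [sq_nonneg (1 - 4 * I)]

end Fo97

theorem stForster : StForster := by
  intro μ _ h1 hW
  obtain ⟨h0, hd, hmin⟩ := Fo97.exists_min μ h1 hW
  refine ⟨LinearMap.equivOfDetNeZero (h0 : E4 →ₗ[ℝ] E4) hd, fun v => ?_⟩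
  show ∫ x, (inner ℝ v (‖h0 x‖⁻¹ • h0 x) : ℝ) ^ 2 ∂μ = ‖v‖ ^ 2 / 4
  by_cases hv : v = 0
  · subst hv
    simp
  · have hn : 0 < ‖v‖ := norm_pos_iff.2 hv
    have h2 := Fo97.unit_case μ h1 h0 hd hmin (‖v‖⁻¹ • v) (by
      rw [norm_smul, norm_inv, norm_norm, inv_mul_cancel₀ hn.ne'])
    have h3 : ∀ x, (inner ℝ v (‖h0 x‖⁻¹ • h0 x) : ℝ) ^ 2 =
        ‖v‖ ^ 2 * (inner ℝ (‖v‖⁻¹ • v) (‖h0 x‖⁻¹ • h0 x) : ℝ) ^ 2 := by
      intro x
      rw [real_inner_smul_left, mul_pow, inv_pow]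
      field_simp
    simp_rw [h3]
    rw [integral_const_mul, h2]
    ring

end NPL
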