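import Pool.Agent.Lib.MP_4f1247_co.NL.Stmts14

/-!
# N15 (helper9): the frame of a neighborly polyhedron in the position given by a linear map
-/

set_option autoImplicit false

open Finset

namespace NPL

namespace Poly9

abbrev E3 := EuclideanSpace ℝ (Fin 3)

theorem lift_last (x : E3) : lift x (Fin.last 3) = 1 := by
  show (Fin.snoc (x : Fin 3 → ℝ) (1 : ℝ) : Fin 4 → ℝ) (Fin.last 3) = 1
  exact Fin.snoc_last (α := fun _ => ℝ) (1 : ℝ) (x : Fin 3 → ℝ)

theorem lift_cast (x : E3) (j : Fin 3) : lift x (Fin.castSucc j) = x j := by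
  show (Fin.snoc (x : Fin 3 → ℝ) (1 : ℝ) : Fin 4 → ℝ) (Fin.castSucc j) = x j
  exact Fin.snoc_castSucc (α := fun _ => ℝ) (1 : ℝ) (x : Fin 3 → ℝ) j

theorem lift_ne (x : E3) : lift x ≠ 0 := by
  intro h
  have h1 := lift_last x
  rw [h] at h1
  simp at h1

theorem pos (g : E4 ≃ₗ[ℝ] E4) (x : E3) : 0 < ‖g (lift x)‖ := by
  rw [norm_pos_iff]
  intro h
  exact lift_ne x ((LinearEquiv.map_eq_zero_iff g).1 h)

section

variable {n : ℕ} {p : Fin n → E3} {T : Finset (Finset (Fin n))}

/-- a face through two vertices -/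
theorem face (h : Poly p T) {i j : Fin n} (hij : i ≠ j) : ∃ t ∈ T, i ∈ t ∧ j ∈ t := by
  have h1 := h.2.1 i j hij
  have h2 : (T.filter (fun t => i ∈ t ∧ j ∈ t)).Nonempty := by
    rw [← Finset.card_pos, h1]
    norm_num
  obtain ⟨t, ht⟩ := h2
  rw [Finset.mem_filter] at ht
  exact ⟨t, ht.1, ht.2⟩

theorem p_inj (h : Poly p T) : Function.Injective p := by
  intro i j hp
  by_contra hij
  obtain ⟨t, ht, hi, hj⟩ := face h hij
  have h1 := (h.2.2.1 t ht).injective
  have h2 : (⟨i, hi⟩ : {i // i ∈ t}) = ⟨j, hj⟩ := h1 hp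
  exact hij (congrArg Subtype.val h2)

/-- a point with a positive weight at `x` in a face is not in the hull of vertices without `x` -/
theorem bary (h : Poly p T) {t₁ t₂ : Finset (Fin n)} (ht₁ : t₁ ∈ T) (ht₂ : t₂ ∈ T) {x y : Fin n}
    (hx : x ∉ t₁) (hx2 : x ∈ t₂) (hy2 : y ∈ t₂) {A B : ℝ} (hA : 0 < A) (hB : 0 ≤ B)
    (hAB : A + B = 1) (hP : A • p x + B • p y ∈ convexHull ℝ (p '' (t₁ : Set (Fin n)))) :
    False := by
  classical
  set P := A • p x + B • p y with hPd
  have h2 : P ∈ convexHull ℝ (p '' (t₂ : Set (Fin n))) :=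
    convex_convexHull ℝ _ (subset_convexHull ℝ _ (Set.mem_image_of_mem p hx2))
      (subset_convexHull ℝ _ (Set.mem_image_of_mem p hy2)) hA.le hB hAB
  have h3 : P ∈ convexHull ℝ (p '' ((t₁ ∩ t₂ : Finset (Fin n)) : Set (Fin n))) := by
    rw [← h.2.2.2 t₁ ht₁ t₂ ht₂]
    exact ⟨hP, h2⟩
  rw [← Finset.coe_image, Finset.mem_convexHull'] at h3
  obtain ⟨w, hw0, hw1, hw2⟩ := h3
  have hinj : Set.InjOn p ((t₁ ∩ t₂ : Finset (Fin n)) : Set (Fin n)) := (p_inj h).injOn
  rw [Finset.sum_image hinj] at hw1 hw2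
  -- weights on `t₂`
  set d : Fin n → ℝ := fun i => if i ∈ t₁ then w (p i) else 0 with hd
  have hfil : t₂.filter (fun i => i ∈ t₁) = t₁ ∩ t₂ := by
    ext i
    rw [Finset.mem_filter, Finset.mem_inter]
    tauto
  have d1 : ∑ i ∈ t₂, d i = 1 := by
    rw [hd, ← Finset.sum_filter, hfil]
    exact hw1
  have d2 : ∑ i ∈ t₂, d i • p i = P := by
    rw [← hw2, ← hfil, Finset.sum_filter]
    refine Finset.sum_congr rfl fun i _ => ?_
    rw [hd]
    dsimp only
    split_ifs
    · rfl
    · rw [zero_smul]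
  set c : Fin n → ℝ := fun i => (if i = x then A else 0) + (if i = y then B else 0) with hc
  have c1 : ∑ i ∈ t₂, c i = 1 := by
    rw [hc, Finset.sum_add_distrib, Finset.sum_ite_eq' , Finset.sum_ite_eq', if_pos hx2,
      if_pos hy2]
    exact hAB
  have c2 : ∑ i ∈ t₂, c i • p i = P := by
    have e : ∀ i ∈ t₂, c i • p i = (if i = x then A • p i else 0) +
        (if i = y then B • p i else 0) := by
      intro i _
      rw [hc]
      dsimp only
      rw [add_smul]
      congr 1
      · split_ifs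
        · rfl
        · rw [zero_smul]
      · split_ifs
        · rfl
        · rw [zero_smul]
    rw [Finset.sum_congr rfl e, Finset.sum_add_distrib, Finset.sum_ite_eq', Finset.sum_ite_eq',
      if_pos hx2, if_pos hy2]
  have hai := (affineIndependent_iff.1 (h.2.2.1 t₂ ht₂)) Finset.univ
    (fun i => c i.1 - d i.1) ?_ ?_ ⟨x, hx2⟩ (Finset.mem_univ _)
  · have e1 : d x = 0 := by
      rw [hd]
      exact if_neg hx
    have e2 : A ≤ c x := by
      rw [hc]
      dsimp only
      rw [if_pos rfl]
      split_ifs <;> linarith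
    dsimp only at hai
    linarith
  · rw [← Finset.attach_eq_univ, Finset.sum_attach t₂ (fun i => c i - d i),
      Finset.sum_sub_distrib, c1, d1, sub_self]
  · rw [← Finset.attach_eq_univ, Finset.sum_attach t₂ (fun i => (c i - d i) • p i)]
    have e : ∀ i ∈ t₂, (c i - d i) • p i = c i • p i - d i • p i := fun i _ => sub_smul _ _ _
    rw [Finset.sum_congr rfl e, Finset.sum_sub_distrib, c2, d2, sub_self]

end

end Poly9

open Poly9

theorem polyFr : StPolyFr := by
  classical
  intro n p T h hn g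
  set a : Fin n → E4 := fun i => ‖g (lift (p i))‖⁻¹ • g (lift (p i)) with ha
  have hpos : ∀ i, 0 < ‖g (lift (p i))‖ := fun i => pos g (p i)
  have hunit : ∀ i, ‖a i‖ = 1 := by
    intro i
    rw [ha]
    dsimp only
    rw [norm_smul, norm_inv, norm_norm]
    exact inv_mul_cancel₀ (hpos i).ne'
  refine ⟨⟨T, a, h.1, h.2.1, hunit, ?_, ?_⟩, rfl, fun i => rfl⟩
  · intro i j hij
    have h1 : lift (p i) = (‖g (lift (p i))‖ * ‖g (lift (p j))‖⁻¹) • lift (p j) := by
      apply g.injective
      rw [map_smul, mul_smul]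
      have h2 : ‖g (lift (p i))‖⁻¹ • g (lift (p i)) = ‖g (lift (p j))‖⁻¹ • g (lift (p j)) := hij
      rw [← h2, smul_smul, mul_inv_cancel₀ (hpos i).ne', one_smul]
    have h2 := congrArg (fun v : E4 => v (Fin.last 3)) h1
    have h3 : (1 : ℝ) = ‖g (lift (p i))‖ * ‖g (lift (p j))‖⁻¹ := by
      have h4 : lift (p i) (Fin.last 3) =
        (‖g (lift (p i))‖ * ‖g (lift (p j))‖⁻¹) * lift (p j) (Fin.last 3) := h2
      rw [lift_last, lift_last, mul_one] at h4
      exact h4
    rw [← h3, one_smul] at h1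
    apply p_inj h
    ext k
    have h5 := congrArg (fun v : E4 => v (Fin.castSucc k)) h1
    have h6 : lift (p i) (Fin.castSucc k) = lift (p j) (Fin.castSucc k) := h5
    rw [lift_cast, lift_cast] at h6
    exact h6
  · intro u v w x y huvw hxu hxv hxw α β r s t hα hβ hr hs ht heq
    have hx1 : x ∉ ({u, v, w} : Finset (Fin n)) := by
      simp only [Finset.mem_insert, Finset.mem_singleton, not_or]
      exact ⟨hxu, hxv, hxw⟩
    -- the weights of the lifts
    set κ : Fin n → ℝ := fun i => ‖g (lift (p i))‖⁻¹ with hκ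
    have hκ0 : ∀ i, 0 < κ i := fun i => inv_pos.2 (hpos i)
    have h1 : (α * κ x) • lift (p x) + (β * κ y) • lift (p y) =
        (r * κ u) • lift (p u) + (s * κ v) • lift (p v) + (t * κ w) • lift (p w) := by
      apply g.injective
      rw [map_add, map_add, map_add, map_smul, map_smul, map_smul, map_smul, map_smul]
      simp only [mul_smul]
      exact heq
    set α' := α * κ x with hα'
    set β' := β * κ y with hβ'
    set r' := r * κ u with hr'
    set s' := s * κ v with hs'
    set t' := t * κ w with ht'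
    have pα : 0 < α' := mul_pos hα (hκ0 x)
    have pβ : 0 ≤ β' := mul_nonneg hβ (hκ0 y).le
    have pr : 0 ≤ r' := mul_nonneg hr (hκ0 u).le
    have ps : 0 ≤ s' := mul_nonneg hs (hκ0 v).le
    have pt : 0 ≤ t' := mul_nonneg ht (hκ0 w).le
    have hl : α' + β' = r' + s' + t' := by
      have h2 := congrArg (fun v : E4 => v (Fin.last 3)) h1
      have h3 : α' * lift (p x) (Fin.last 3) + β' * lift (p y) (Fin.last 3) =
        r' * lift (p u) (Fin.last 3) + s' * lift (p v) (Fin.last 3) +
          t' * lift (p w) (Fin.last 3) := h2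
      rw [lift_last, lift_last, lift_last, lift_last, lift_last] at h3
      linarith
    have hp : α' • p x + β' • p y = r' • p u + s' • p v + t' • p w := by
      ext k
      have h2 := congrArg (fun v : E4 => v (Fin.castSucc k)) h1
      have h3 : α' * lift (p x) (Fin.castSucc k) + β' * lift (p y) (Fin.castSucc k) =
        r' * lift (p u) (Fin.castSucc k) + s' * lift (p v) (Fin.castSucc k) +
          t' * lift (p w) (Fin.castSucc k) := h2
      rw [lift_cast, lift_cast, lift_cast, lift_cast, lift_cast] at h3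
      exact h3
    set σ := α' + β' with hσ
    have pσ : 0 < σ := by linarith
    have hin : (α' / σ) • p x + (β' / σ) • p y ∈
        convexHull ℝ (p '' ((({u, v, w} : Finset (Fin n))) : Set (Fin n))) := by
      have e1 : (α' / σ) • p x + (β' / σ) • p y =
          (r' / σ) • p u + (s' / σ) • p v + (t' / σ) • p w := by
        have e2 := congrArg (fun z : E3 => σ⁻¹ • z) hp
        simp only [smul_add, smul_smul] at e2
        simp only [div_eq_inv_mul]
        exact e2
      rw [e1]
      have hmem : ∀ i ∈ ({u, v, w} : Finset (Fin n)), p i ∈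
          convexHull ℝ (p '' ((({u, v, w} : Finset (Fin n))) : Set (Fin n))) :=
        fun i hi => subset_convexHull ℝ _ ⟨i, hi, rfl⟩
      have h3 := (convex_convexHull ℝ
        (p '' ((({u, v, w} : Finset (Fin n))) : Set (Fin n)))).sum_mem
        (t := (Finset.univ : Finset (Fin 3))) (w := ![r' / σ, s' / σ, t' / σ])
        (z := ![p u, p v, p w]) ?_ ?_ ?_
      · rw [Fin.sum_univ_three] at h3
        exact h3
      · intro i _
        fin_cases i
        · exact div_nonneg pr pσ.le
        · exact div_nonneg ps pσ.le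
        · exact div_nonneg pt pσ.le
      · rw [Fin.sum_univ_three]
        show r' / σ + s' / σ + t' / σ = 1
        rw [← add_div, ← add_div, ← hl, div_self pσ.ne']
      · intro i _
        fin_cases i
        · exact hmem u (by simp)
        · exact hmem v (by simp)
        · exact hmem w (by simp)
    have hsum : α' / σ + β' / σ = 1 := by rw [← add_div, div_self pσ.ne']
    by_cases hxy : y = x
    · obtain ⟨t₂, ht₂, hx2, _⟩ := face h hxu
      rw [hxy] at hin
      exact bary h huvw ht₂ hx1 hx2 hx2 (div_pos pα pσ) (div_nonneg pβ pσ.le) hsum hin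
    · obtain ⟨t₂, ht₂, hx2, hy2⟩ := face h (Ne.symm hxy)
      exact bary h huvw ht₂ hx1 hx2 hy2 (div_pos pα pσ) (div_nonneg pβ pσ.le) hsum hin

end NPL
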