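import Pool.Agent.Lib.MP_4f1247_co.NL.StmtsB14
import Pool.Agent.Lib.MP_4f1247_co.NL.PolyFr9
import Pool.Agent.Lib.MP_4f1247_co.NL.Forster97

/-!
# N18 (helper57): isotropic positions exist

At most one, two, four vertices of a neighborly polyhedral surface lie on a point, line, plane.
-/

set_option autoImplicit false

open MeasureTheory Filter Topology
open scoped ENNReal

namespace NPL

namespace Iso57

/-- no crossing of segments -/
def NC {n : ℕ} (a : Fin n → E4) : Prop :=
  ∀ x y z w : Fin n, x ≠ z → x ≠ w → z ≠ w → ∀ α β r s : ℝ, 0 < α → 0 ≤ β → 0 ≤ r → 0 ≤ s →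
    α • a x + β • a y ≠ r • a z + s • a w

/-- one side of a hyperplane -/
def Side {n : ℕ} (a : Fin n → E4) : Prop := ∀ i, 0 < (a i) (Fin.last 3)

theorem fr_nc {n : ℕ} (F : Fr n) : NC F.a := by
  intro x y z w hxz hxw hzw α β r s hα hβ hr hs heq
  have h2 := F.two z w hzw
  obtain ⟨t, ht, hx⟩ : ∃ t ∈ F.T.filter (fun t => z ∈ t ∧ w ∈ t), x ∉ t := by
    by_contra hcon
    push Not at hcon
    have h1 : F.T.filter (fun t => z ∈ t ∧ w ∈ t) ⊆ {({x, z, w} : Finset (Fin n))} := by
      intro t ht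
      have hx := hcon t ht
      rw [Finset.mem_filter] at ht
      rw [Finset.mem_singleton]
      symm
      refine Finset.eq_of_subset_of_card_le ?_ ?_
      · intro i hi
        simp only [Finset.mem_insert, Finset.mem_singleton] at hi
        rcases hi with rfl | rfl | rfl
        · exact hx
        · exact ht.2.1
        · exact ht.2.2
      · rw [F.card3 t ht.1, Finset.card_eq_three.2 ⟨x, z, w, hxz, hxw, hzw, rfl⟩]
    have h3 := Finset.card_le_card h1
    rw [h2, Finset.card_singleton] at h3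
    omega
  rw [Finset.mem_filter] at ht
  obtain ⟨htT, hz, hw⟩ := ht
  obtain ⟨c, hc, hcz, hcw⟩ : ∃ c ∈ t, c ≠ z ∧ c ≠ w := by
    by_contra hcon
    push Not at hcon
    have h1 : t ⊆ {z, w} := by
      intro i hi
      simp only [Finset.mem_insert, Finset.mem_singleton]
      by_cases hiz : i = z
      · exact Or.inl hiz
      · exact Or.inr (hcon i hi hiz)
    have h3 := Finset.card_le_card h1
    rw [F.card3 t htT] at h3
    have h4 := Finset.card_le_two (a := z) (b := w)
    omega
  have hteq : ({z, w, c} : Finset (Fin n)) = t := by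
    refine Finset.eq_of_subset_of_card_le ?_ ?_
    · intro i hi
      simp only [Finset.mem_insert, Finset.mem_singleton] at hi
      rcases hi with rfl | rfl | rfl
      · exact hz
      · exact hw
      · exact hc
    · rw [F.card3 t htT, Finset.card_eq_three.2 ⟨z, w, c, hzw, hcz.symm, hcw.symm, rfl⟩]
  have hxc : x ≠ c := by
    rintro rfl
    exact hx hc
  refine F.nc z w c x y (hteq ▸ htT) hxz hxw hxc α β r s 0 hα hβ hr hs le_rfl ?_
  rw [zero_smul, add_zero]
  exact heq

section

variable {n : ℕ} {a : Fin n → E4}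

/-- three vertices are not collinear -/
theorem ind (h : NC a) (hS : Side a) {x y z : Fin n} (hxy : x ≠ y) (hxz : x ≠ z) (hyz : y ≠ z) :
    LinearIndependent ℝ ![a x, a y, a z] := by
  have key : ∀ c₁ c₂ c₃ : ℝ, c₁ • a x + c₂ • a y + c₃ • a z = 0 → c₁ = 0 ∧ c₂ = 0 ∧ c₃ = 0 := by
    intro c₁ c₂ c₃ hc
    have hx := hS x
    have hy := hS y
    have hz := hS z
    have hl : c₁ * a x (Fin.last 3) + c₂ * a y (Fin.last 3) + c₃ * a z (Fin.last 3) = 0 := by
      have := congrArg (fun v : E4 => v (Fin.last 3)) hc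
      exact this
    -- one coefficient positive, the others nonpositive: impossible
    have one : ∀ (i j k : Fin n) (b₁ b₂ b₃ : ℝ), i ≠ j → i ≠ k → j ≠ k →
        b₁ • a i + b₂ • a j + b₃ • a k = 0 → 0 < b₁ → b₂ ≤ 0 → b₃ ≤ 0 → False := by
      intro i j k b₁ b₂ b₃ hij hik hjk hb h1 h2 h3
      refine h i i j k hij hik hjk b₁ 0 (-b₂) (-b₃) h1 le_rfl (by linarith) (by linarith) ?_
      rw [zero_smul, add_zero, neg_smul, neg_smul]
      have : b₁ • a i = -(b₂ • a j) + -(b₃ • a k) +
        (b₁ • a i + b₂ • a j + b₃ • a k) := by abel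
      rw [this, hb, add_zero]
    have e1 : c₂ • a y + c₁ • a x + c₃ • a z = 0 := by rw [← hc]; abel
    have e2 : c₃ • a z + c₁ • a x + c₂ • a y = 0 := by rw [← hc]; abel
    have m0 : (-c₁) • a x + (-c₂) • a y + (-c₃) • a z = 0 := by
      rw [neg_smul, neg_smul, neg_smul, ← neg_add, ← neg_add, hc, neg_zero]
    have m1 : (-c₂) • a y + (-c₁) • a x + (-c₃) • a z = 0 := by rw [← m0]; abel
    have m2 : (-c₃) • a z + (-c₁) • a x + (-c₂) • a y = 0 := by rw [← m0]; abel
    have A := one x y z c₁ c₂ c₃ hxy hxz hyz hc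
    have B := one y x z c₂ c₁ c₃ hxy.symm hyz hxz e1
    have C := one z x y c₃ c₁ c₂ hxz.symm hyz.symm hxy e2
    have A' := one x y z (-c₁) (-c₂) (-c₃) hxy hxz hyz m0
    have B' := one y x z (-c₂) (-c₁) (-c₃) hxy.symm hyz hxz m1
    have C' := one z x y (-c₃) (-c₁) (-c₂) hxz.symm hyz.symm hxy m2
    rcases lt_trichotomy c₁ 0 with h1 | h1 | h1 <;> rcases lt_trichotomy c₂ 0 with h2 | h2 | h2 <;>
      rcases lt_trichotomy c₃ 0 with h3 | h3 | h3 <;>
      first
        | exact ⟨h1, h2, h3⟩
        | exact (A (by linarith) (by linarith) (by linarith)).elim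
        | exact (B (by linarith) (by linarith) (by linarith)).elim
        | exact (C (by linarith) (by linarith) (by linarith)).elim
        | exact (A' (by linarith) (by linarith) (by linarith)).elim
        | exact (B' (by linarith) (by linarith) (by linarith)).elim
        | exact (C' (by linarith) (by linarith) (by linarith)).elim
        | (exfalso; nlinarith [mul_pos hx hy])
  rw [Fintype.linearIndependent_iff]
  intro g hg
  rw [Fin.sum_univ_three] at hg
  obtain ⟨h1, h2, h3⟩ := key _ _ _ hg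
  intro i
  fin_cases i
  · exact h1
  · exact h2
  · exact h3

/-- signs of the coordinates of a fourth coplanar vertex -/
theorem signs (h : NC a) (hS : Side a) {x y z d : Fin n} (hxy : x ≠ y) (hxz : x ≠ z) (hyz : y ≠ z)
    (hdx : d ≠ x) (hdy : d ≠ y) (hdz : d ≠ z) {α β γ : ℝ}
    (hd : a d = α • a x + β • a y + γ • a z) :
    (0 < α ∧ 0 < β ∧ 0 < γ) ∨ (0 < α ∧ β < 0 ∧ γ < 0) ∨ (α < 0 ∧ 0 < β ∧ γ < 0) ∨
      (α < 0 ∧ β < 0 ∧ 0 < γ) := by
  have hx := hS x
  have hy := hS y
  have hz := hS z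
  have hd' := hS d
  have hl : a d (Fin.last 3) =
      α * a x (Fin.last 3) + β * a y (Fin.last 3) + γ * a z (Fin.last 3) := by
    have := congrArg (fun v : E4 => v (Fin.last 3)) hd
    exact this
  have c1 : ¬ (α ≤ 0 ∧ 0 ≤ β ∧ 0 ≤ γ) := by
    rintro ⟨h1, h2, h3⟩
    refine h d x y z hdy hdz hyz 1 (-α) β γ one_pos (by linarith) h2 h3 ?_
    rw [one_smul, hd, neg_smul]
    abel
  have c2 : ¬ (0 ≤ α ∧ β ≤ 0 ∧ 0 ≤ γ) := by
    rintro ⟨h1, h2, h3⟩
    refine h d y x z hdx hdz hxz 1 (-β) α γ one_pos (by linarith) h1 h3 ?_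
    rw [one_smul, hd, neg_smul]
    abel
  have c3 : ¬ (0 ≤ α ∧ 0 ≤ β ∧ γ ≤ 0) := by
    rintro ⟨h1, h2, h3⟩
    refine h d z x y hdx hdy hxy 1 (-γ) α β one_pos (by linarith) h1 h2 ?_
    rw [one_smul, hd, neg_smul]
    abel
  have c4 : ¬ (α ≤ 0 ∧ β ≤ 0 ∧ γ ≤ 0) := by
    rintro ⟨h1, h2, h3⟩
    have := mul_nonpos_of_nonpos_of_nonneg h1 hx.le
    have := mul_nonpos_of_nonpos_of_nonneg h2 hy.le
    have := mul_nonpos_of_nonpos_of_nonneg h3 hz.le
    linarith
  rcases lt_trichotomy α 0 with h1 | h1 | h1 <;> rcases lt_trichotomy β 0 with h2 | h2 | h2 <;>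
    rcases lt_trichotomy γ 0 with h3 | h3 | h3 <;>
    first
      | exact Or.inl ⟨h1, h2, h3⟩
      | exact Or.inr (Or.inl ⟨h1, h2, h3⟩)
      | exact Or.inr (Or.inr (Or.inl ⟨h1, h2, h3⟩))
      | exact Or.inr (Or.inr (Or.inr ⟨h1, h2, h3⟩))
      | exact (c1 ⟨by linarith, by linarith, by linarith⟩).elim
      | exact (c2 ⟨by linarith, by linarith, by linarith⟩).elim
      | exact (c3 ⟨by linarith, by linarith, by linarith⟩).elim
      | exact (c4 ⟨by linarith, by linarith, by linarith⟩).elim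

/-- both inside, sorted ratios -/
theorem caseG (h : NC a) {x y z d e : Fin n} (hdz : d ≠ z) (hez : e ≠ z) (hde : d ≠ e)
    {α β γ p q r : ℝ} (hd : a d = α • a x + β • a y + γ • a z)
    (he : a e = p • a x + q • a y + r • a z) (hβ : 0 < β) (hq : 0 < q)
    (h1 : α * q ≤ β * p) (h2 : β * r ≤ γ * q) : False := by
  refine h d x e z hde hdz hez q (β * p - α * q) β (γ * q - β * r) hq (by linarith) hβ.le
    (by linarith) ?_
  rw [hd, he]
  module

/-- one inside, one outside behind `x` -/
theorem caseH (h : NC a) {x y z d e : Fin n} (hxy : x ≠ y) (hxz : x ≠ z) (hdx : d ≠ x)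
    (hdy : d ≠ y) (hdz : d ≠ z) {α β γ p q r : ℝ}
    (hd : a d = α • a x + β • a y + γ • a z) (he : a e = p • a x + q • a y + r • a z)
    (hα : 0 < α) (hβ : 0 < β) (hγ : 0 < γ) (hp : 0 < p) (hq : q < 0) (hr : r < 0) : False := by
  by_cases hc : 0 ≤ γ * (-q) - β * (-r)
  · refine h d e x z hdx hdz hxz (-q) β (α * (-q) + β * p) (γ * (-q) - β * (-r)) (by linarith)
      hβ.le ?_ hc ?_
    · have := mul_pos hα (neg_pos.2 hq)
      have := mul_pos hβ hp
      linarith
    · rw [hd, he]
      module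
  · refine h d e x y hdx hdy hxy (-r) γ (α * (-r) + γ * p) (β * (-r) - γ * (-q)) (by linarith)
      hγ.le ?_ (by linarith) ?_
    · have := mul_pos hα (neg_pos.2 hr)
      have := mul_pos hγ hp
      linarith
    · rw [hd, he]
      module

/-- a vertex inside a triangle and a fifth vertex of the plane -/
theorem inner5 (h : NC a) (hS : Side a) {x y z d e : Fin n} (hxy : x ≠ y) (hxz : x ≠ z)
    (hyz : y ≠ z) (hdx : d ≠ x) (hdy : d ≠ y) (hdz : d ≠ z) (hex : e ≠ x) (hey : e ≠ y)
    (hez : e ≠ z) (hde : d ≠ e) {α β γ p q r : ℝ}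
    (hd : a d = α • a x + β • a y + γ • a z) (he : a e = p • a x + q • a y + r • a z)
    (hα : 0 < α) (hβ : 0 < β) (hγ : 0 < γ) : False := by
  have hd1 : a d = α • a x + γ • a z + β • a y := by rw [hd]; abel
  have hd2 : a d = β • a y + α • a x + γ • a z := by rw [hd]; abel
  have hd3 : a d = β • a y + γ • a z + α • a x := by rw [hd]; abel
  have hd4 : a d = γ • a z + α • a x + β • a y := by rw [hd]; abel
  have hd5 : a d = γ • a z + β • a y + α • a x := by rw [hd]; abel
  have he1 : a e = p • a x + r • a z + q • a y := by rw [he]; abel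
  have he2 : a e = q • a y + p • a x + r • a z := by rw [he]; abel
  have he3 : a e = q • a y + r • a z + p • a x := by rw [he]; abel
  have he4 : a e = r • a z + p • a x + q • a y := by rw [he]; abel
  have he5 : a e = r • a z + q • a y + p • a x := by rw [he]; abel
  rcases signs h hS hxy hxz hyz hex hey hez he with ⟨h1, h2, h3⟩ | ⟨h1, h2, h3⟩ | ⟨h1, h2, h3⟩ |
    ⟨h1, h2, h3⟩
  · rcases le_total (α * q) (β * p) with u | u
    · rcases le_total (β * r) (γ * q) with v | v
      · exact caseG h hdz hez hde hd he hβ h2 u v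
      · rcases le_total (α * r) (γ * p) with w | w
        · exact caseG h hdy hey hde hd1 he1 hγ h3 w (by linarith)
        · exact caseG h hdy hey hde hd4 he4 hα h1 (by linarith) (by linarith)
    · rcases le_total (β * r) (γ * q) with v | v
      · rcases le_total (α * r) (γ * p) with w | w
        · exact caseG h hdz hez hde hd2 he2 hα h1 (by linarith) (by linarith)
        · exact caseG h hdx hex hde hd3 he3 hγ h3 (by linarith) (by linarith)
      · exact caseG h hdx hex hde hd5 he5 hβ h2 (by linarith) (by linarith)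
  · exact caseH h hxy hxz hdx hdy hdz hd he hα hβ hγ h1 h2 h3
  · exact caseH h hxy.symm hyz hdy hdx hdz hd2 he2 hβ hα hγ h2 h1 h3
  · exact caseH h hxz.symm hyz.symm hdz hdx hdy hd4 he4 hγ hα hβ h3 h1 h2

/-- no five coplanar vertices, in coordinates -/
theorem five (h : NC a) (hS : Side a) {x y z d e : Fin n} (hxy : x ≠ y) (hxz : x ≠ z)
    (hyz : y ≠ z) (hdx : d ≠ x) (hdy : d ≠ y) (hdz : d ≠ z) (hex : e ≠ x) (hey : e ≠ y)
    (hez : e ≠ z) (hde : d ≠ e) {α β γ p q r : ℝ}
    (hd : a d = α • a x + β • a y + γ • a z) (he : a e = p • a x + q • a y + r • a z) :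
    False := by
  rcases signs h hS hxy hxz hyz hdx hdy hdz hd with ⟨h1, h2, h3⟩ | ⟨h1, h2, h3⟩ |
    ⟨h1, h2, h3⟩ | ⟨h1, h2, h3⟩
  · exact inner5 h hS hxy hxz hyz hdx hdy hdz hex hey hez hde hd he h1 h2 h3
  · -- `x` inside `d y z`
    have hx' : a x = (1 / α) • a d + (-β / α) • a y + (-γ / α) • a z := by
      have : α • a x = a d + (-β) • a y + (-γ) • a z := by rw [hd]; module
      rw [← inv_smul_smul₀ h1.ne' (a x), this]
      simp only [smul_add, smul_smul]
      congr 2
      · rw [one_div]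
      · rw [div_eq_inv_mul]
      · rw [div_eq_inv_mul]
    have he' : a e = (p / α) • a d + (q - p * β / α) • a y + (r - p * γ / α) • a z := by
      rw [he, hx']
      match_scalars <;> field_simp <;> ring
    exact inner5 h hS hdy hdz hyz hdx.symm hxy hxz hde.symm hey hez hex.symm hx' he'
      (by positivity) (div_pos (by linarith) h1) (div_pos (by linarith) h1)
  · have hx' : a y = (1 / β) • a d + (-α / β) • a x + (-γ / β) • a z := by
      have : β • a y = a d + (-α) • a x + (-γ) • a z := by rw [hd]; module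
      rw [← inv_smul_smul₀ h2.ne' (a y), this]
      simp only [smul_add, smul_smul]
      congr 2
      · rw [one_div]
      · rw [div_eq_inv_mul]
      · rw [div_eq_inv_mul]
    have he' : a e = (q / β) • a d + (p - q * α / β) • a x + (r - q * γ / β) • a z := by
      rw [he, hx']
      match_scalars <;> field_simp <;> ring
    exact inner5 h hS hdx hdz hxz hdy.symm hxy.symm hyz hde.symm hex hez hey.symm hx' he'
      (by positivity) (div_pos (by linarith) h2) (div_pos (by linarith) h2)
  · have hx' : a z = (1 / γ) • a d + (-α / γ) • a x + (-β / γ) • a y := by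
      have : γ • a z = a d + (-α) • a x + (-β) • a y := by rw [hd]; module
      rw [← inv_smul_smul₀ h3.ne' (a z), this]
      simp only [smul_add, smul_smul]
      congr 2
      · rw [one_div]
      · rw [div_eq_inv_mul]
      · rw [div_eq_inv_mul]
    have he' : a e = (r / γ) • a d + (p - r * α / γ) • a x + (q - r * β / γ) • a y := by
      rw [he, hx']
      match_scalars <;> field_simp <;> ring
    exact inner5 h hS hdx hdy hxy hdz.symm hxz.symm hyz.symm hde.symm hex hey hez.symm hx' he'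
      (by positivity) (div_pos (by linarith) h3) (div_pos (by linarith) h3)

/-- linear independence bounds the dimension -/
theorem card_le_of_li {m : ℕ} (W : Submodule ℝ E4) (v : Fin m → E4) (hv : LinearIndependent ℝ v)
    (hW : ∀ i, v i ∈ W) : m ≤ Module.finrank ℝ W := by
  have h1 := finrank_span_eq_card hv
  rw [Fintype.card_fin] at h1
  rw [← h1]
  refine Submodule.finrank_mono ?_
  rw [Submodule.span_le]
  rintro _ ⟨i, rfl⟩
  exact hW i

theorem emb {m : ℕ} (W : Submodule ℝ E4) (S : Finset (Fin n)) (hS : ∀ i ∈ S, a i ∈ W)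
    (hm : m ≤ S.card) : ∃ e : Fin m → Fin n, Function.Injective e ∧ ∀ j, a (e j) ∈ W := by
  refine ⟨fun j => S.orderEmbOfCardLe hm j, (S.orderEmbOfCardLe hm).injective, fun j => ?_⟩
  exact hS _ (Finset.orderEmbOfCardLe_mem S hm j)

theorem line (h : NC a) (hS : Side a) (hn : 3 ≤ n) (W : Submodule ℝ E4)
    (hW : Module.finrank ℝ W = 1) (S : Finset (Fin n)) (hSW : ∀ i ∈ S, a i ∈ W) : S.card ≤ 1 := by
  by_contra hc
  obtain ⟨e, he, hm⟩ := emb (a := a) (m := 2) W S hSW (by omega)
  have h01 : e 0 ≠ e 1 := fun h => by simpa using he h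
  obtain ⟨z, hz⟩ : ∃ z : Fin n, z ∉ ({e 0, e 1} : Finset (Fin n)) := by
    by_contra hcon
    push Not at hcon
    have h1 : (Finset.univ : Finset (Fin n)) ⊆ {e 0, e 1} := fun i _ => hcon i
    have h2 := Finset.card_le_card h1
    rw [Finset.card_univ, Fintype.card_fin] at h2
    have h4 := Finset.card_le_two (a := e 0) (b := e 1)
    omega
  simp only [Finset.mem_insert, Finset.mem_singleton, not_or] at hz
  have hli := ind h hS h01 (Ne.symm hz.1) (Ne.symm hz.2)
  have hli2 : LinearIndependent ℝ ![a (e 0), a (e 1)] := by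
    have := hli.comp (![0, 1] : Fin 2 → Fin 3) (by decide)
    convert this using 1
    ext i
    fin_cases i <;> rfl
  have := card_le_of_li W _ hli2 (by intro i; fin_cases i <;> [exact hm 0; exact hm 1])
  omega

theorem plane (h : NC a) (hS : Side a) (W : Submodule ℝ E4)
    (hW : Module.finrank ℝ W = 2) (S : Finset (Fin n)) (hSW : ∀ i ∈ S, a i ∈ W) : S.card ≤ 2 := by
  by_contra hc
  obtain ⟨e, he, hm⟩ := emb (a := a) (m := 3) W S hSW (by omega)
  have h01 : e 0 ≠ e 1 := fun h => by simpa using he h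
  have h02 : e 0 ≠ e 2 := fun h => by simpa using he h
  have h12 : e 1 ≠ e 2 := fun h => by simpa using he h
  have hli := ind h hS h01 h02 h12
  have := card_le_of_li W _ hli (by intro i; fin_cases i <;> [exact hm 0; exact hm 1; exact hm 2])
  omega

theorem space (h : NC a) (hS : Side a) (W : Submodule ℝ E4)
    (hW : Module.finrank ℝ W = 3) (S : Finset (Fin n)) (hSW : ∀ i ∈ S, a i ∈ W) : S.card ≤ 4 := by
  by_contra hc
  obtain ⟨e, he, hm⟩ := emb (a := a) (m := 5) W S hSW (by omega)
  have ne : ∀ i j : Fin 5, i ≠ j → e i ≠ e j := fun i j hij h => hij (he h)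
  have hli := ind h hS (ne 0 1 (by decide)) (ne 0 2 (by decide)) (ne 1 2 (by decide))
  have hsp : Submodule.span ℝ (Set.range ![a (e 0), a (e 1), a (e 2)]) = W := by
    refine Submodule.eq_of_le_of_finrank_eq ?_ ?_
    · rw [Submodule.span_le]
      rintro _ ⟨i, rfl⟩
      fin_cases i
      · exact hm 0
      · exact hm 1
      · exact hm 2
    · rw [finrank_span_eq_card hli, Fintype.card_fin, hW]
  have co : ∀ v ∈ W, ∃ α β γ : ℝ, v = α • a (e 0) + β • a (e 1) + γ • a (e 2) := by
    intro v hv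
    rw [← hsp, Submodule.mem_span_range_iff_exists_fun] at hv
    obtain ⟨c, hc⟩ := hv
    rw [Fin.sum_univ_three] at hc
    exact ⟨c 0, c 1, c 2, hc.symm⟩
  obtain ⟨α, β, γ, hd⟩ := co _ (hm 3)
  obtain ⟨p, q, r, he'⟩ := co _ (hm 4)
  exact five h hS (ne 0 1 (by decide)) (ne 0 2 (by decide)) (ne 1 2 (by decide))
    (ne 3 0 (by decide)) (ne 3 1 (by decide)) (ne 3 2 (by decide)) (ne 4 0 (by decide))
    (ne 4 1 (by decide)) (ne 4 2 (by decide)) (ne 3 4 (by decide)) hd he'

end

/-- the uniform measure on finitely many points -/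
noncomputable def um {n : ℕ} (a : Fin n → E4) : Measure E4 :=
  (n : ℝ≥0∞)⁻¹ • ∑ i, Measure.dirac (a i)

theorem um_apply {n : ℕ} (a : Fin n → E4) {s : Set E4} (hs : MeasurableSet s) :
    um a s = (n : ℝ≥0∞)⁻¹ * (({i | a i ∈ s}.ncard : ℕ) : ℝ≥0∞) := by
  classical
  rw [um, Measure.smul_apply, Measure.finsetSum_apply, smul_eq_mul]
  congr 1
  have h1 : ∀ i : Fin n, Measure.dirac (a i) s = if a i ∈ s then 1 else 0 := by
    intro i
    rw [Measure.dirac_apply' _ hs, Set.indicator_apply]
    rfl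
  rw [Finset.sum_congr rfl fun i _ => h1 i, Finset.sum_boole]
  congr 1
  rw [← Set.ncard_coe_finset]
  congr 1
  ext i
  simp

end Iso57

open Iso57

/-- N18. -/
theorem stIso : StIso := by
  classical
  intro n p T hP hn
  obtain ⟨F, hFT, hFa⟩ := polyFr n p T hP (by omega) (LinearEquiv.refl ℝ E4)
  have hnc := fr_nc F
  have hside : Side F.a := by
    intro i
    rw [hFa i]
    have h1 : (‖(LinearEquiv.refl ℝ E4) (lift (p i))‖⁻¹ • (LinearEquiv.refl ℝ E4) (lift (p i)))
        (Fin.last 3) = ‖(LinearEquiv.refl ℝ E4) (lift (p i))‖⁻¹ * (lift (p i)) (Fin.last 3) := rfl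
    rw [h1, Poly9.lift_last, mul_one]
    exact inv_pos.2 (Poly9.pos _ _)
  have hn0 : (n : ℝ≥0∞) ≠ 0 := by
    simp only [ne_eq, Nat.cast_eq_zero]
    omega
  have hnt : (n : ℝ≥0∞) ≠ ⊤ := ENNReal.natCast_ne_top n
  have : IsProbabilityMeasure (um F.a) := by
    constructor
    rw [um_apply _ MeasurableSet.univ]
    have : {i : Fin n | F.a i ∈ Set.univ} = Set.univ := by
      ext i
      simp
    rw [this, Set.ncard_univ, Nat.card_eq_fintype_card, Fintype.card_fin,
      ENNReal.inv_mul_cancel hn0 hnt]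
  have hun : ∀ᵐ x ∂(um F.a), ‖x‖ = 1 := by
    have hms : MeasurableSet {x : E4 | ¬ ‖x‖ = 1} :=
      ((isClosed_eq continuous_norm continuous_const).measurableSet).compl
    rw [ae_iff, um_apply _ hms]
    have : {i : Fin n | F.a i ∈ {x : E4 | ¬ ‖x‖ = 1}} = ∅ := by
      ext i
      simp [F.unit i]
    rw [this, Set.ncard_empty, Nat.cast_zero, mul_zero]
  have hsub : ∀ W : Submodule ℝ E4, Module.finrank ℝ W < 4 →
      um F.a W < ENNReal.ofReal (Module.finrank ℝ W / 4) ∨ W = ⊥ := by
    intro W hW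
    have hWm : MeasurableSet (W : Set E4) := (W.closed_of_finiteDimensional).measurableSet
    rw [um_apply _ hWm]
    set S : Finset (Fin n) := Finset.univ.filter (fun i => F.a i ∈ W) with hSd
    have hcard : {i : Fin n | F.a i ∈ (W : Set E4)}.ncard = S.card := by
      rw [← Set.ncard_coe_finset]
      congr 1
      ext i
      simp [hSd]
    have hSW : ∀ i ∈ S, F.a i ∈ W := by
      intro i hi
      rw [hSd, Finset.mem_filter] at hi
      exact hi.2
    rw [hcard]
    have hnR : (6 : ℝ) ≤ n := by exact_mod_cast hn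
    have fin : ∀ (c k : ℕ), S.card ≤ c → (c : ℝ) / 6 < (k : ℝ) / 4 →
        (n : ℝ≥0∞)⁻¹ * (S.card : ℝ≥0∞) < ENNReal.ofReal ((k : ℝ) / 4) := by
      intro c k hc hck
      have h1 : (n : ℝ≥0∞)⁻¹ * (S.card : ℝ≥0∞) = ENNReal.ofReal ((S.card : ℝ) / n) := by
        rw [ENNReal.ofReal_div_of_pos (by linarith), ENNReal.ofReal_natCast,
          ENNReal.ofReal_natCast, div_eq_mul_inv, mul_comm]
      rw [h1]
      refine ENNReal.ofReal_lt_ofReal_iff_of_nonneg (by positivity) |>.2 ?_
      refine lt_of_le_of_lt ?_ hck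
      have h2 : (S.card : ℝ) ≤ c := by exact_mod_cast hc
      exact div_le_div₀ (by positivity) h2 (by norm_num) hnR
    obtain hk | hk | hk | hk : Module.finrank ℝ W = 0 ∨ Module.finrank ℝ W = 1 ∨
        Module.finrank ℝ W = 2 ∨ Module.finrank ℝ W = 3 := by omega
    · exact Or.inr (Submodule.finrank_eq_zero.1 hk)
    · left
      rw [hk]
      exact fin 1 1 (line hnc hside (by omega) W hk S hSW) (by norm_num)
    · left
      rw [hk]
      exact fin 2 2 (plane hnc hside W hk S hSW) (by norm_num)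
    · left
      rw [hk]
      exact fin 4 3 (space hnc hside W hk S hSW) (by norm_num)
  obtain ⟨g, hg⟩ := stForster (um F.a) hun hsub
  refine ⟨g, fun v => ?_⟩
  have h1 := hg v
  rw [um, integral_smul_measure, integral_finsetSum_measure] at h1
  · have h2 : ∀ i : Fin n, ∫ x, (inner ℝ v (‖g x‖⁻¹ • g x) : ℝ) ^ 2 ∂(Measure.dirac (F.a i)) =
        (inner ℝ v (‖g (lift (p i))‖⁻¹ • g (lift (p i))) : ℝ) ^ 2 := by
      intro i
      rw [integral_dirac]
      have h3 : F.a i = ‖lift (p i)‖⁻¹ • lift (p i) := hFa i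
      have h4 : 0 < ‖lift (p i)‖ := norm_pos_iff.2 (Poly9.lift_ne _)
      rw [h3, map_smul, norm_smul, norm_inv, norm_norm, mul_inv, inv_inv, smul_smul,
        mul_right_comm, mul_inv_cancel₀ h4.ne', one_mul]
    rw [Finset.sum_congr rfl fun i _ => h2 i, ENNReal.toReal_inv, ENNReal.toReal_natCast,
      smul_eq_mul] at h1
    have hnR : (0 : ℝ) < n := by
      have : (0 : ℕ) < n := by omega
      exact_mod_cast this
    field_simp at h1 ⊢
    linarith
  · intro i _
    exact integrable_dirac (by simp)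

end NPL
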