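import Pool.Agent.Lib.MP_4f1247_co.NL.Stmts14

/-!
# Limits of large neighborly polyhedra: the limit theorem (energy argument)
-/

set_option autoImplicit false

open MeasureTheory Filter Topology
open scoped ENNReal

namespace NPL
namespace H63

/-- the position of a mark -/
noncomputable def ps (m : Mk) : E4 := (m.1 : E4)

lemma ps_cont : Continuous ps := continuous_subtype_val.comp continuous_fst

lemma ps_norm (m : Mk) : ‖ps m‖ = 1 := by
  simp [ps]

/-- the chosen marks -/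
def GG : Set Mk := {m | m.2.2 = true}

lemma GG_meas : MeasurableSet GG := by
  have : Measurable (fun m : Mk => m.2.2) := measurable_snd.comp measurable_snd
  exact this (measurableSet_singleton true)

/-- the squared inner product of the positions -/
noncomputable def ff (z : Mk × Mk) : ℝ := (inner ℝ (ps z.1) (ps z.2) : ℝ) ^ 2

lemma ff_cont : Continuous ff := by
  unfold ff
  exact ((ps_cont.comp continuous_fst).inner (ps_cont.comp continuous_snd)).pow 2

lemma ff_nonneg (z : Mk × Mk) : 0 ≤ ff z := by unfold ff; positivity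

lemma ff_le (z : Mk × Mk) : ff z ≤ 1 := by
  unfold ff
  have h := abs_real_inner_le_norm (ps z.1) (ps z.2)
  rw [ps_norm, ps_norm, one_mul] at h
  exact (sq_le_one_iff_abs_le_one _).2 h

lemma ff_int (μ : Measure (Mk × Mk)) [IsFiniteMeasure μ] : Integrable ff μ := by
  refine Integrable.of_bound ff_cont.measurable.aestronglyMeasurable 1 (Eventually.of_forall ?_)
  intro z
  rw [Real.norm_eq_abs, abs_of_nonneg (ff_nonneg z)]
  exact ff_le z

/-- covering: two random vertices are close with probability at least `κ` -/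
lemma cover : ∃ κ : ℝ, 0 < κ ∧ ∀ (ν : Measure Mk) [IsProbabilityMeasure ν],
    κ ≤ (ν.prod ν).real {z | 9 / 10 ≤ |(inner ℝ (ps z.1) (ps z.2) : ℝ)|} := by
  obtain ⟨t, -, htf, hcov⟩ := finite_cover_balls_of_compact (isCompact_univ : IsCompact (Set.univ : Set S3))
    (show (0 : ℝ) < 1 / 10 by norm_num)
  have hne : t.Nonempty := by
    by_contra h
    rw [Set.not_nonempty_iff_eq_empty] at h
    rw [h] at hcov
    have : (⟨EuclideanSpace.single 0 1, by simp⟩ : S3) ∈ (Set.univ : Set S3) := trivial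
    have := hcov this
    simp at this
  classical
  set T := htf.toFinset with hT
  have hTne : T.Nonempty := by
    obtain ⟨x, hx⟩ := hne
    exact ⟨x, htf.mem_toFinset.2 hx⟩
  have hM : (0 : ℝ) < T.card := by exact_mod_cast hTne.card_pos
  refine ⟨(1 / T.card) ^ 2, by positivity, ?_⟩
  intro ν _
  set B : S3 → Set Mk := fun c => {m | m.1 ∈ Metric.ball c (1 / 10)} with hB
  have hex : ∃ c ∈ T, 1 / (T.card : ℝ) ≤ ν.real (B c) := by
    by_contra hcon
    push Not at hcon
    have h1 : (1 : ℝ) ≤ ∑ c ∈ T, ν.real (B c) := by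
      have h2 : (Set.univ : Set Mk) ⊆ ⋃ c ∈ T, B c := by
        intro m _
        have := hcov (show m.1 ∈ (Set.univ : Set S3) from trivial)
        simp only [Set.mem_iUnion] at this ⊢
        obtain ⟨c, hc, hmc⟩ := this
        exact ⟨c, htf.mem_toFinset.2 hc, hmc⟩
      calc (1 : ℝ) = ν.real Set.univ := by simp
        _ ≤ ν.real (⋃ c ∈ T, B c) := measureReal_mono h2 (measure_ne_top _ _)
        _ ≤ ∑ c ∈ T, ν.real (B c) := measureReal_biUnion_finset_le _ _
    have h3 : ∑ c ∈ T, ν.real (B c) < ∑ c ∈ T, 1 / (T.card : ℝ) := Finset.sum_lt_sum_of_nonempty hTne hcon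
    rw [Finset.sum_const, nsmul_eq_mul, mul_one_div_cancel hM.ne'] at h3
    linarith
  obtain ⟨c, -, hc⟩ := hex
  have hsub : B c ×ˢ B c ⊆ {z : Mk × Mk | 9 / 10 ≤ |(inner ℝ (ps z.1) (ps z.2) : ℝ)|} := by
    rintro ⟨m, m'⟩ ⟨h1, h2⟩
    have h1' : ‖ps m - (c : E4)‖ < 1 / 10 := by
      have := Metric.mem_ball.1 h1
      rwa [Subtype.dist_eq, dist_eq_norm] at this
    have h2' : ‖ps m' - (c : E4)‖ < 1 / 10 := by
      have := Metric.mem_ball.1 h2
      rwa [Subtype.dist_eq, dist_eq_norm] at this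
    have h3 : ‖ps m - ps m'‖ < 2 / 10 := by
      have : ps m - ps m' = (ps m - (c : E4)) - (ps m' - (c : E4)) := by abel
      rw [this]
      calc _ ≤ ‖ps m - (c : E4)‖ + ‖ps m' - (c : E4)‖ := norm_sub_le _ _
        _ < 2 / 10 := by linarith
    have h4 := norm_sub_sq_real (ps m) (ps m')
    rw [ps_norm, ps_norm] at h4
    have h5 : ‖ps m - ps m'‖ ^ 2 ≤ (2 / 10) ^ 2 := by
      have := norm_nonneg (ps m - ps m')
      nlinarith
    have h6 : 9 / 10 ≤ (inner ℝ (ps m) (ps m') : ℝ) := by nlinarith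
    exact h6.trans (le_abs_self _)
  calc (1 / (T.card : ℝ)) ^ 2 ≤ ν.real (B c) * ν.real (B c) := by
        rw [sq]
        exact mul_le_mul hc hc (by positivity) measureReal_nonneg
    _ = (ν.prod ν).real (B c ×ˢ B c) := (measureReal_prod_prod _ _).symm
    _ ≤ _ := measureReal_mono hsub

/-- energy of a measure on the unit sphere of a three-dimensional space -/
lemma energy (ν : Measure Mk) [IsFiniteMeasure ν] (W : Submodule ℝ E4)
    (hW : Module.finrank ℝ W = 3) (hs : ∀ᵐ m ∂ν, ps m ∈ W) :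
    ν.real Set.univ ^ 2 / 3 ≤ ∫ z, ff z ∂(ν.prod ν) := by
  have b : OrthonormalBasis (Fin 3) ℝ W := (stdOrthonormalBasis ℝ W).reindex (finCongr hW)
  set φ : Fin 3 → Fin 3 → Mk → ℝ := fun i j m =>
    (inner ℝ (b i : E4) (ps m) : ℝ) * (inner ℝ (b j : E4) (ps m) : ℝ) - if i = j then 1 / 3 else 0 with hφ
  have hb : ∀ i, ‖(b i : E4)‖ = 1 := fun i => by
    calc ‖(b i : E4)‖ = ‖b i‖ := rfl
      _ = 1 := b.norm_eq_one i
  have hφm : ∀ i j, Continuous (φ i j) := by
    intro i j
    simp only [hφ]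
    exact ((continuous_const.inner ps_cont).mul (continuous_const.inner ps_cont)).sub continuous_const
  have hφb : ∀ i j m, |φ i j m| ≤ 2 := by
    intro i j m
    have h1 := abs_real_inner_le_norm (b i : E4) (ps m)
    have h2 := abs_real_inner_le_norm (b j : E4) (ps m)
    rw [hb, ps_norm, one_mul] at h1 h2
    have h3 : |(inner ℝ (b i : E4) (ps m) : ℝ) * (inner ℝ (b j : E4) (ps m) : ℝ)| ≤ 1 := by
      rw [abs_mul]
      calc _ ≤ (1 : ℝ) * 1 := mul_le_mul h1 h2 (abs_nonneg _) zero_le_one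
        _ = 1 := one_mul 1
    simp only [hφ]
    refine (abs_sub _ _).trans ?_
    split_ifs
    · rw [abs_of_pos (by norm_num : (0 : ℝ) < 1 / 3)]; linarith
    · rw [abs_zero]; linarith
  have hint : ∀ i j, Integrable (fun z : Mk × Mk => φ i j z.1 * φ i j z.2) (ν.prod ν) := by
    intro i j
    refine Integrable.of_bound
      (((hφm i j).comp continuous_fst).mul ((hφm i j).comp continuous_snd)).measurable.aestronglyMeasurable 4
      (Eventually.of_forall ?_)
    intro z
    rw [Real.norm_eq_abs, abs_mul]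
    calc _ ≤ (2 : ℝ) * 2 := mul_le_mul (hφb i j _) (hφb i j _) (abs_nonneg _) (by norm_num)
      _ = 4 := by norm_num
  have hpos : 0 ≤ ∫ z, (∑ i, ∑ j, φ i j z.1 * φ i j z.2) ∂(ν.prod ν) := by
    rw [integral_finsetSum _ (fun i _ => integrable_finsetSum _ (fun j _ => hint i j))]
    refine Finset.sum_nonneg (fun i _ => ?_)
    rw [integral_finsetSum _ (fun j _ => hint i j)]
    refine Finset.sum_nonneg (fun j _ => ?_)
    rw [integral_prod_mul]
    exact mul_self_nonneg _
  have hae : ∀ᵐ z ∂(ν.prod ν), ∑ i, ∑ j, φ i j z.1 * φ i j z.2 = ff z - 1 / 3 := by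
    have h1 : ∀ᵐ z ∂(ν.prod ν), ps z.1 ∈ W := Measure.quasiMeasurePreserving_fst.ae hs
    have h2 : ∀ᵐ z ∂(ν.prod ν), ps z.2 ∈ W := Measure.quasiMeasurePreserving_snd.ae hs
    filter_upwards [h1, h2] with z hz1 hz2
    have e1 := b.sum_inner_mul_inner ⟨ps z.1, hz1⟩ ⟨ps z.1, hz1⟩
    have e2 := b.sum_inner_mul_inner ⟨ps z.2, hz2⟩ ⟨ps z.2, hz2⟩
    have e3 := b.sum_inner_mul_inner ⟨ps z.1, hz1⟩ ⟨ps z.2, hz2⟩
    simp only [Submodule.coe_inner] at e1 e2 e3
    rw [real_inner_self_eq_norm_sq, ps_norm] at e1 e2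
    have c1 : ∀ i, (inner ℝ (ps z.1) (b i : E4) : ℝ) = inner ℝ (b i : E4) (ps z.1) :=
      fun i => real_inner_comm _ _
    have c2 : ∀ i, (inner ℝ (ps z.2) (b i : E4) : ℝ) = inner ℝ (b i : E4) (ps z.2) :=
      fun i => real_inner_comm _ _
    simp only [c1, c2, Fin.sum_univ_three] at e1 e2 e3
    simp only [hφ, ff, Fin.sum_univ_three]
    rw [← e3]
    simp only [Fin.isValue, Fin.reduceEq, if_true, if_false]
    set x0 : ℝ := inner ℝ (b 0 : E4) (ps z.1)
    set x1 : ℝ := inner ℝ (b 1 : E4) (ps z.1)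
    set x2 : ℝ := inner ℝ (b 2 : E4) (ps z.1)
    set y0 : ℝ := inner ℝ (b 0 : E4) (ps z.2)
    set y1 : ℝ := inner ℝ (b 1 : E4) (ps z.2)
    set y2 : ℝ := inner ℝ (b 2 : E4) (ps z.2)
    linear_combination (-(1 : ℝ) / 3) * e1 + (-(1 : ℝ) / 3) * e2
  rw [integral_congr_ae hae, integral_sub (ff_int _) (integrable_const _), integral_const] at hpos
  have h4 : (ν.prod ν).real Set.univ = ν.real Set.univ ^ 2 := by
    rw [← Set.univ_prod_univ, measureReal_prod_prod, sq]
  rw [h4, smul_eq_mul] at hpos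
  linarith

/-- the determinant as a linear functional of the last vector -/
lemma det_zero_iff (x y z w : E4) (h : LinearIndependent ℝ ![x, y, z]) :
    det4 x y z w = 0 ↔ w ∈ Submodule.span ℝ (Set.range ![x, y, z]) := by
  have h1 : LinearIndependent ℝ ![x, y, z, w] ↔ w ∉ Submodule.span ℝ (Set.range ![x, y, z]) := by
    have := linearIndependent_finSnoc (K := ℝ) (v := ![x, y, z]) (x := w)
    have e : (Fin.snoc ![x, y, z] w : Fin 4 → E4) = ![x, y, z, w] := by
      funext i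
      fin_cases i <;> rfl
    rw [e] at this
    rw [this]
    exact ⟨fun h' => h'.2, fun h' => ⟨h, h'⟩⟩
  have h2 : det4 x y z w ≠ 0 ↔ LinearIndependent ℝ ![x, y, z, w] := by
    unfold det4
    rw [← isUnit_iff_ne_zero, ← Matrix.isUnit_iff_isUnit_det, ← Matrix.linearIndependent_rows_iff_isUnit]
    have hl : (Matrix.of fun i j : Fin 4 => (![x, y, z, w] i) j).row
        = (WithLp.linearEquiv 2 ℝ (Fin 4 → ℝ)).toLinearMap ∘ ![x, y, z, w] := by
      funext i j
      rfl
    rw [hl]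
    exact LinearMap.linearIndependent_iff _ (LinearEquiv.ker _)
  rw [← not_iff_not, ← ne_eq, h2, h1]

/-- the charged planes -/
def CP (X : Lim) : Set (Submodule ℝ E4) := {W | Module.finrank ℝ W = 3 ∧ 0 < X.mu W}

/-- the chosen marks in a subspace -/
def AW (W : Submodule ℝ E4) : Set Mk := {m | m ∈ GG ∧ ps m ∈ W}

lemma AW_meas (W : Submodule ℝ E4) : MeasurableSet (AW W) :=
  GG_meas.inter (ps_cont.measurable W.closed_of_finiteDimensional.measurableSet)

lemma mu_W (X : Lim) (W : Submodule ℝ E4) : X.mu W = X.ν (AW W) := by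
  have h1 : X.mu = (X.ν.restrict GG).map ps := rfl
  rw [h1, Measure.map_apply ps_cont.measurable W.closed_of_finiteDimensional.measurableSet,
    Measure.restrict_apply (ps_cont.measurable W.closed_of_finiteDimensional.measurableSet)]
  congr 1
  ext m
  simp only [Set.mem_inter_iff, Set.mem_preimage, SetLike.mem_coe, AW, Set.mem_ofPred_eq]
  exact and_comm

/-- pairs of chosen marks in a common charged plane -/
def RR (X : Lim) : Set (Mk × Mk) := ⋃ W : CP X, AW W.1 ×ˢ AW W.1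

lemma RR_meas (X : Lim) (hc : (CP X).Countable) : MeasurableSet (RR X) := by
  have := hc.to_subtype
  exact MeasurableSet.iUnion (fun W => (AW_meas W.1).prod (AW_meas W.1))

lemma mem_RR (X : Lim) (W : Submodule ℝ E4) (hW : W ∈ CP X) (m m' : Mk) (h1 : m ∈ GG) (h2 : m' ∈ GG)
    (h3 : ps m ∈ W) (h4 : ps m' ∈ W) : (m, m') ∈ RR X :=
  Set.mem_iUnion.2 ⟨⟨W, hW⟩, ⟨h1, h3⟩, ⟨h2, h4⟩⟩

lemma energyR (X : Lim) (hc : (CP X).Countable)
    (hd : ∀ᵐ m ∂X.ν, m ∈ GG → ∀ W W' : Submodule ℝ E4, W ∈ CP X → W' ∈ CP X → ps m ∈ W →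
      ps m ∈ W' → W = W') :
    (X.ν.prod X.ν).real (RR X) / 3 ≤ ∫ z in RR X, ff z ∂(X.ν.prod X.ν) := by
  have := X.prob
  have := hc.to_subtype
  have hm : ∀ W : CP X, NullMeasurableSet (AW W.1 ×ˢ AW W.1) (X.ν.prod X.ν) :=
    fun W => ((AW_meas W.1).prod (AW_meas W.1)).nullMeasurableSet
  have hdis : Pairwise (Function.onFun (AEDisjoint (X.ν.prod X.ν)) fun W : CP X => AW W.1 ×ˢ AW W.1) := by
    intro W W' hne
    have h0 : X.ν (AW W.1 ∩ AW W'.1) = 0 := by
      refine measure_mono_null ?_ (ae_iff.1 hd)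
      rintro m ⟨⟨h1, h2⟩, -, h3⟩ hcon
      exact hne (Subtype.ext (hcon h1 W.1 W'.1 W.2 W'.2 h2 h3))
    change (X.ν.prod X.ν) ((AW W.1 ×ˢ AW W.1) ∩ (AW W'.1 ×ˢ AW W'.1)) = 0
    rw [Set.prod_inter_prod, Measure.prod_prod, h0, zero_mul]
  have H1 := hasSum_integral_iUnion_ae (f := ff) hm hdis (ff_int _).integrableOn
  have H2 := hasSum_integral_iUnion_ae (f := fun _ => (1 : ℝ) / 3) hm hdis
    (integrable_const (1 / 3 : ℝ)).integrableOn
  have H3 := hasSum_le (fun W : CP X => ?_) H2 H1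
  · have e : ∫ x in ⋃ W : CP X, AW W.1 ×ˢ AW W.1, (1 : ℝ) / 3 ∂(X.ν.prod X.ν)
        = (X.ν.prod X.ν).real (RR X) / 3 := by
      rw [setIntegral_const, smul_eq_mul]
      rw [mul_one_div]
      rfl
    rw [e] at H3
    exact H3
  · rw [setIntegral_const, smul_eq_mul, ← Measure.prod_restrict]
    have h5 := energy (X.ν.restrict (AW W.1)) W.1 W.2.1
      ((ae_restrict_iff' (AW_meas W.1)).2 (Eventually.of_forall (fun m hm => hm.2)))
    refine le_trans (le_of_eq ?_) h5
    rw [measureReal_prod_prod, measureReal_restrict_apply_univ]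
    ring

lemma ind_perm {x y z : E4} (σ : Fin 3 → Fin 3) (hσ : Function.Injective σ)
    (h : LinearIndependent ℝ ![x, y, z]) : LinearIndependent ℝ (![x, y, z] ∘ σ) := h.comp σ hσ

/-- the third vertex of a face is in the charged plane of the two others -/
lemma third (X : Lim) (x y z : E4)
    (hu : ∀ W W' : Submodule ℝ E4, W ∈ CP X → W' ∈ CP X → x ∈ W → x ∈ W' → W = W')
    (hi : LinearIndependent ℝ ![x, y])
    (hf : LinearIndependent ℝ ![x, y, z] → ∃ V ∈ CP X, x ∈ V ∧ y ∈ V ∧ z ∈ V) :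
    ∀ W ∈ CP X, x ∈ W → y ∈ W → z ∈ W := by
  intro W hW hx hy
  by_cases h : LinearIndependent ℝ ![x, y, z]
  · obtain ⟨V, hV, hxV, hyV, hzV⟩ := hf h
    rw [hu W V hW hV hx hxV]
    exact hzV
  · have := linearIndependent_finSnoc (K := ℝ) (v := ![x, y]) (x := z)
    have e : (Fin.snoc ![x, y] z : Fin 3 → E4) = ![x, y, z] := by
      funext i
      fin_cases i <;> rfl
    rw [e] at this
    have h2 : z ∈ Submodule.span ℝ (Set.range ![x, y]) := by
      by_contra hcon
      exact h (this.2 ⟨hi, hcon⟩)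
    refine (Submodule.span_le.2 ?_) h2
    rintro _ ⟨i, rfl⟩
    fin_cases i
    · exact hx
    · exact hy

/-- two unit vectors whose inner product is not `± 1` are independent -/
lemma ind_pair (x y : E4) (hx : ‖x‖ = 1) (hy : ‖y‖ = 1) (h : (inner ℝ x y : ℝ) ^ 2 ≠ 1) :
    LinearIndependent ℝ ![x, y] := by
  rw [LinearIndependent.pair_iff]
  intro s t hst
  have h1 : (inner ℝ x (s • x + t • y) : ℝ) = 0 := by rw [hst, inner_zero_right]
  have h2 : (inner ℝ y (s • x + t • y) : ℝ) = 0 := by rw [hst, inner_zero_right]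
  rw [inner_add_right, inner_smul_right, inner_smul_right, real_inner_self_eq_norm_sq, hx] at h1
  rw [inner_add_right, inner_smul_right, inner_smul_right, real_inner_self_eq_norm_sq, hy,
    real_inner_comm] at h2
  have h3 : t * (1 - (inner ℝ x y : ℝ) ^ 2) = 0 := by linear_combination h2 - (inner ℝ x y : ℝ) * h1
  have h4 : t = 0 := by
    rcases mul_eq_zero.1 h3 with h | h'
    · exact h
    · exact absurd (by linarith) h
  rw [h4] at h1
  exact ⟨by linarith, h4⟩

/-- unit vectors with inner product `± 1` are parallel -/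
lemma par_pair (x y : E4) (hx : ‖x‖ = 1) (hy : ‖y‖ = 1) (h : (inner ℝ x y : ℝ) ^ 2 = 1) :
    y = (inner ℝ x y : ℝ) • x := by
  have h1 : ‖y - (inner ℝ x y : ℝ) • x‖ ^ 2 = 0 := by
    rw [norm_sub_sq_real, norm_smul, mul_pow, hx, hy, inner_smul_right, real_inner_comm y x,
      Real.norm_eq_abs, sq_abs, real_inner_comm x y]
    linarith
  have h2 := norm_eq_zero.1 (pow_eq_zero_iff (two_ne_zero)|>.1 h1)
  exact sub_eq_zero.1 h2

end H63

open H63 in
/-- N13. the limit theorem -/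
theorem limThm (h10 : StThin) (h11 : StPlanes) (h12 : StFat) : StLimThm := by
  obtain ⟨κ, hκ, hcov⟩ := cover
  refine ⟨κ / 30, by positivity, ?_⟩
  intro X hiso hG hNL
  have := X.prob
  have := X.probΛ
  have hfin : IsFiniteMeasure X.mu := by
    unfold Lim.mu
    infer_instance
  obtain ⟨hcount0, huniq⟩ := h11 X.mu hNL
  have hcount : (CP X).Countable := hcount0
  have hmu : X.mu = (X.ν.restrict GG).map ps := rfl
  -- uniqueness
  have hu : ∀ᵐ m ∂X.ν, m ∈ GG → ∀ W W' : Submodule ℝ E4, W ∈ CP X → W' ∈ CP X → ps m ∈ W →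
      ps m ∈ W' → W = W' := by
    rw [hmu] at huniq
    have h1 := ae_of_ae_map ps_cont.measurable.aemeasurable huniq
    rw [ae_restrict_iff' GG_meas] at h1
    filter_upwards [h1] with m hm hmG W W' hW hW' hx hx'
    refine hm hmG W W' hW.1 hW'.1 ?_ ?_ hx hx'
    · rw [← hmu]; exact hW.2
    · rw [← hmu]; exact hW'.2
  -- marginals
  have p12 : X.Λ.map (fun t => (t.1, t.2.1)) = X.ν.prod X.ν := X.pair
  have mrot : Measurable (fun t : Mk × Mk × Mk => (t.2.1, t.2.2, t.1)) := by fun_prop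
  have mswap : Measurable (fun t : Mk × Mk × Mk => (t.2.1, t.1, t.2.2)) := by fun_prop
  have m12 : Measurable (fun t : Mk × Mk × Mk => (t.1, t.2.1)) := by fun_prop
  have m23 : Measurable (fun t : Mk × Mk × Mk => (t.2.1, t.2.2)) := by fun_prop
  have m13 : Measurable (fun t : Mk × Mk × Mk => (t.1, t.2.2)) := by fun_prop
  have p23 : X.Λ.map (fun t => (t.2.1, t.2.2)) = X.ν.prod X.ν := by
    rw [← p12]
    conv_rhs => rw [← X.rot]
    rw [Measure.map_map m12 mrot]
    rfl
  have p13 : X.Λ.map (fun t => (t.1, t.2.2)) = X.ν.prod X.ν := by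
    rw [← p23]
    conv_rhs => rw [← X.swap]
    rw [Measure.map_map m23 mswap]
    rfl
  -- independent pairs
  have hind : ∀ᵐ z ∂(X.ν.prod X.ν), z.1 ∈ GG → z.2 ∈ GG → LinearIndependent ℝ ![ps z.1, ps z.2] := by
    have hS : MeasurableSet {z : Mk × Mk | z.2 ∈ GG ∧ (inner ℝ (ps z.1) (ps z.2) : ℝ) ^ 2 = 1} := by
      refine (measurable_snd GG_meas).inter ?_
      exact ff_cont.measurable (measurableSet_singleton (1 : ℝ))
    have h0 : (X.ν.prod X.ν) {z : Mk × Mk | z.2 ∈ GG ∧ (inner ℝ (ps z.1) (ps z.2) : ℝ) ^ 2 = 1} = 0 := by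
      rw [Measure.measure_prod_null hS]
      refine Eventually.of_forall (fun m => ?_)
      obtain ⟨W, hW1, hW2⟩ : ∃ W : Submodule ℝ E4, Submodule.span ℝ {ps m} ≤ W ∧
          Module.finrank ℝ W = 2 := by
        have hne : ps m ≠ 0 := by
          intro h
          have := ps_norm m
          rw [h, norm_zero] at this
          exact zero_ne_one this
        obtain ⟨v, hv⟩ : ∃ v : E4, v ∉ Submodule.span ℝ {ps m} := by
          by_contra hcon
          push Not at hcon
          have h5 : Submodule.span ℝ {ps m} = ⊤ := Submodule.eq_top_iff'.2 hcon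
          have h6 := finrank_span_singleton (K := ℝ) hne
          rw [h5, finrank_top] at h6
          simp at h6
        have hl : LinearIndependent ℝ ![ps m, v] := by
          rw [LinearIndependent.pair_iff' hne]
          intro a ha
          apply hv
          rw [← ha]
          exact Submodule.smul_mem _ _ (Submodule.mem_span_singleton_self _)
        refine ⟨Submodule.span ℝ (Set.range ![ps m, v]), ?_, ?_⟩
        · rw [Submodule.span_singleton_le_iff_mem]
          exact Submodule.subset_span ⟨0, rfl⟩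
        · rw [finrank_span_eq_card hl]; rfl
      have h2 : X.ν (AW W) = 0 := by rw [← mu_W]; exact hNL W hW2
      refine measure_mono_null ?_ h2
      rintro m' ⟨h3, h4⟩
      refine ⟨h3, hW1 ?_⟩
      rw [par_pair (ps m) (ps m') (ps_norm _) (ps_norm _) h4]
      exact Submodule.smul_mem _ _ (Submodule.mem_span_singleton_self _)
    have h1 := measure_eq_zero_iff_ae_notMem.1 h0
    filter_upwards [h1] with z hz _ h2
    refine ind_pair _ _ (ps_norm _) (ps_norm _) (fun h3 => hz ⟨h2, h3⟩)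
  -- the facts about faces
  have hf1 : ∀ᵐ t ∂X.Λ, t.1 ∈ GG → ∀ W W' : Submodule ℝ E4, W ∈ CP X → W' ∈ CP X → ps t.1 ∈ W →
      ps t.1 ∈ W' → W = W' := by
    have h1 : ∀ᵐ z ∂(X.Λ.map (fun t => (t.1, t.2.1))), z.1 ∈ GG → ∀ W W' : Submodule ℝ E4,
        W ∈ CP X → W' ∈ CP X → ps z.1 ∈ W → ps z.1 ∈ W' → W = W' := by
      rw [p12]
      exact Measure.quasiMeasurePreserving_fst.ae hu
    exact ae_of_ae_map m12.aemeasurable h1
  have hf2 : ∀ᵐ t ∂X.Λ, t.2.1 ∈ GG → ∀ W W' : Submodule ℝ E4, W ∈ CP X → W' ∈ CP X →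
      ps t.2.1 ∈ W → ps t.2.1 ∈ W' → W = W' := by
    have h1 : ∀ᵐ z ∂(X.Λ.map (fun t => (t.2.1, t.2.2))), z.1 ∈ GG → ∀ W W' : Submodule ℝ E4,
        W ∈ CP X → W' ∈ CP X → ps z.1 ∈ W → ps z.1 ∈ W' → W = W' := by
      rw [p23]
      exact Measure.quasiMeasurePreserving_fst.ae hu
    exact ae_of_ae_map m23.aemeasurable h1
  have hi12 : ∀ᵐ t ∂X.Λ, t.1 ∈ GG → t.2.1 ∈ GG → LinearIndependent ℝ ![ps t.1, ps t.2.1] := by
    have h1 : ∀ᵐ z ∂(X.Λ.map (fun t => (t.1, t.2.1))), z.1 ∈ GG → z.2 ∈ GG →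
        LinearIndependent ℝ ![ps z.1, ps z.2] := by
      rw [p12]; exact hind
    exact ae_of_ae_map m12.aemeasurable h1
  have hi23 : ∀ᵐ t ∂X.Λ, t.2.1 ∈ GG → t.2.2 ∈ GG → LinearIndependent ℝ ![ps t.2.1, ps t.2.2] := by
    have h1 : ∀ᵐ z ∂(X.Λ.map (fun t => (t.2.1, t.2.2))), z.1 ∈ GG → z.2 ∈ GG →
        LinearIndependent ℝ ![ps z.1, ps z.2] := by
      rw [p23]; exact hind
    exact ae_of_ae_map m23.aemeasurable h1
  have hi13 : ∀ᵐ t ∂X.Λ, t.1 ∈ GG → t.2.2 ∈ GG → LinearIndependent ℝ ![ps t.1, ps t.2.2] := by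
    have h1 : ∀ᵐ z ∂(X.Λ.map (fun t => (t.1, t.2.2))), z.1 ∈ GG → z.2 ∈ GG →
        LinearIndependent ℝ ![ps z.1, ps z.2] := by
      rw [p13]; exact hind
    exact ae_of_ae_map m13.aemeasurable h1
  have hfat := h12 X hNL
  set K2 : Set (Mk × Mk) := {z | 9 / 10 ≤ |(inner ℝ (ps z.1) (ps z.2) : ℝ)|} with hK2
  have hK2m : MeasurableSet K2 := by
    have h1 : Continuous (fun z : Mk × Mk => |(inner ℝ (ps z.1) (ps z.2) : ℝ)|) :=
      ((ps_cont.comp continuous_fst).inner (ps_cont.comp continuous_snd)).abs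
    exact measurableSet_le measurable_const h1.measurable
  set K : Set (Mk × Mk × Mk) := {t | 9 / 10 ≤ |(inner ℝ (ps t.1) (ps t.2.1) : ℝ)|} with hK
  set N : Set (Mk × Mk × Mk) := {t | (t.1 ∈ GG ∧ t.2.1 ∈ GG ∧ t.2.2 ∈ GG) ∧ (t.1, t.2.1) ∉ RR X} with hN
  have hRm := RR_meas X hcount
  have hKm : MeasurableSet K := by
    exact m12 hK2m
  have hNm : MeasurableSet N := by
    refine MeasurableSet.inter ((measurable_fst GG_meas).inter
      (((measurable_fst.comp measurable_snd) GG_meas).inter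
      ((measurable_snd.comp measurable_snd) GG_meas))) ?_
    exact (m12 hRm).compl
  -- the pointwise inequality
  have hpt : ∀ᵐ t ∂X.Λ, 3 / 4 * N.indicator (fun _ => (1 : ℝ)) t
      + 16 / 100 * (N ∩ K).indicator (fun _ => (1 : ℝ)) t
      + (RR X).indicator ff (t.1, t.2.1) + (RR X).indicator ff (t.2.1, t.2.2)
      + (RR X).indicator ff (t.1, t.2.2) ≤ ff (t.1, t.2.1) + ff (t.2.1, t.2.2) + ff (t.1, t.2.2) := by
    filter_upwards [hf1, hf2, hi12, hi23, hi13, hfat] with t a1 a2 b12 b23 b13 c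
    have hle : ∀ z, (RR X).indicator ff z ≤ ff z := fun z =>
      Set.indicator_le_self' (fun _ _ => ff_nonneg _) z
    by_cases htN : t ∈ N
    · obtain ⟨⟨g1, g2, g3⟩, hnR⟩ := htN
      have hf0 : LinearIndependent ℝ ![ps t.1, ps t.2.1, ps t.2.2] → ∃ V ∈ CP X,
          ps t.1 ∈ V ∧ ps t.2.1 ∈ V ∧ ps t.2.2 ∈ V := by
        intro hl
        have hc := c g1 g2 g3 hl
        refine ⟨Submodule.span ℝ (Set.range ![ps t.1, ps t.2.1, ps t.2.2]), ⟨?_, ?_⟩,
          Submodule.subset_span ⟨0, rfl⟩, Submodule.subset_span ⟨1, rfl⟩,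
          Submodule.subset_span ⟨2, rfl⟩⟩
        · rw [finrank_span_eq_card hl]; rfl
        · refine lt_of_lt_of_le hc (measure_mono ?_)
          intro w hw
          exact (det_zero_iff _ _ _ _ hl).1 hw
      have n23 : (t.2.1, t.2.2) ∉ RR X := by
        intro h
        obtain ⟨W, ⟨-, hy⟩, -, hz⟩ := Set.mem_iUnion.1 h
        have hx := third X (ps t.2.1) (ps t.2.2) (ps t.1) (a2 g2) (b23 g2 g3) (fun hl => by
          obtain ⟨V, hV, q1, q2, q3⟩ := hf0 (by
            have := ind_perm ![2, 0, 1] (by decide) hl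
            convert this using 1
            funext i
            fin_cases i <;> rfl)
          exact ⟨V, hV, q2, q3, q1⟩) W.1 W.2 hy hz
        exact hnR (mem_RR X W.1 W.2 _ _ g1 g2 hx hy)
      have n13 : (t.1, t.2.2) ∉ RR X := by
        intro h
        obtain ⟨W, ⟨-, hx⟩, -, hz⟩ := Set.mem_iUnion.1 h
        have hy := third X (ps t.1) (ps t.2.2) (ps t.2.1) (a1 g1) (b13 g1 g3) (fun hl => by
          obtain ⟨V, hV, q1, q2, q3⟩ := hf0 (by
            have := ind_perm ![0, 2, 1] (by decide) hl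
            convert this using 1
            funext i
            fin_cases i <;> rfl)
          exact ⟨V, hV, q1, q3, q2⟩) W.1 W.2 hx hz
        exact hnR (mem_RR X W.1 W.2 _ _ g1 g2 hx hy)
      have hthin := h10 (ps t.1) (ps t.2.1) (ps t.2.2) (ps_norm _) (ps_norm _) (ps_norm _) (by
        intro hl
        obtain ⟨V, hV, q1, q2, q3⟩ := hf0 hl
        exact hnR (mem_RR X V hV _ _ g1 g2 q1 q2))
      have hs : ff (t.1, t.2.1) + ff (t.2.1, t.2.2) + ff (t.1, t.2.2)
          = ssq (ps t.1) (ps t.2.1) (ps t.2.2) := rfl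
      have htN : t ∈ N := ⟨⟨g1, g2, g3⟩, hnR⟩
      rw [Set.indicator_of_notMem hnR, Set.indicator_of_notMem n23, Set.indicator_of_notMem n13, hs,
        Set.indicator_of_mem htN]
      by_cases hk : t ∈ K
      · rw [Set.indicator_of_mem (show t ∈ N ∩ K from ⟨htN, hk⟩)]
        have := hthin.2 hk
        linarith
      · rw [Set.indicator_of_notMem (fun h => hk h.2)]
        have := hthin.1
        linarith
    · rw [Set.indicator_of_notMem htN, Set.indicator_of_notMem (fun h => htN h.1)]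
      have q1 := hle (t.1, t.2.1)
      have q2 := hle (t.2.1, t.2.2)
      have q3 := hle (t.1, t.2.2)
      linarith
  -- the integrals
  have hffint : ∫ z, ff z ∂(X.ν.prod X.ν) = 1 / 4 := by
    rw [integral_prod _ (ff_int _)]
    have : ∀ m : Mk, ∫ m', ff (m, m') ∂X.ν = 1 / 4 := by
      intro m
      have := hiso (ps m)
      rw [ps_norm, one_pow] at this
      exact this
    simp only [this]
    simp
  set e : ℝ := ∫ z in RR X, ff z ∂(X.ν.prod X.ν) with he
  have key : ∀ (φ : Mk × Mk × Mk → Mk × Mk), Measurable φ → X.Λ.map φ = X.ν.prod X.ν →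
      Integrable (fun t => ff (φ t)) X.Λ ∧ ∫ t, ff (φ t) ∂X.Λ = 1 / 4 ∧
      Integrable (fun t => (RR X).indicator ff (φ t)) X.Λ ∧ ∫ t, (RR X).indicator ff (φ t) ∂X.Λ = e := by
    intro φ hφ hmap
    have i1 : Integrable ff (X.Λ.map φ) := by rw [hmap]; exact ff_int _
    have i2 : Integrable ((RR X).indicator ff) (X.Λ.map φ) := i1.indicator hRm
    refine ⟨(integrable_map_measure i1.aestronglyMeasurable hφ.aemeasurable).1 i1, ?_,
      (integrable_map_measure i2.aestronglyMeasurable hφ.aemeasurable).1 i2, ?_⟩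
    · rw [← integral_map hφ.aemeasurable i1.aestronglyMeasurable, hmap]
      exact hffint
    · rw [← integral_map hφ.aemeasurable i2.aestronglyMeasurable, hmap, integral_indicator hRm]
  obtain ⟨k1, k2, k3, k4⟩ := key _ m12 p12
  obtain ⟨l1, l2, l3, l4⟩ := key _ m23 p23
  obtain ⟨q1, q2, q3, q4⟩ := key _ m13 p13
  have iN : Integrable (N.indicator (fun _ => (1 : ℝ))) X.Λ := (integrable_const 1).indicator hNm
  have iK : Integrable ((N ∩ K).indicator (fun _ => (1 : ℝ))) X.Λ :=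
    (integrable_const 1).indicator (hNm.inter hKm)
  have hineq := integral_mono_ae
    (((((iN.const_mul (3 / 4)).add (iK.const_mul (16 / 100))).add k3).add l3).add q3)
    ((k1.add l1).add q1) hpt
  rw [integral_add' (((((iN.const_mul (3 / 4)).add (iK.const_mul (16 / 100))).add k3).add l3)) q3,
    integral_add' ((((iN.const_mul (3 / 4)).add (iK.const_mul (16 / 100))).add k3)) l3,
    integral_add' (((iN.const_mul (3 / 4)).add (iK.const_mul (16 / 100)))) k3,
    integral_add' (iN.const_mul (3 / 4)) (iK.const_mul (16 / 100)),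
    integral_add' (k1.add l1) q1, integral_add' k1 l1, integral_const_mul, integral_const_mul,
    integral_indicator_const _ hNm, integral_indicator_const _ (hNm.inter hKm),
    k2, k4, l2, l4, q2, q4] at hineq
  have hER : (X.ν.prod X.ν).real (RR X) / 3 ≤ e := energyR X hcount hu
  have hGc : X.ν.real GGᶜ ≤ κ / 30 := by
    have h1 : GGᶜ = {m : Mk | m.2.2 = false} := by
      ext m
      simp [GG]
    rw [h1, measureReal_def]
    exact ENNReal.toReal_le_of_le_ofReal (by positivity) hG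
  have mapR : ∀ (φ : Mk × Mk × Mk → Mk × Mk), Measurable φ → X.Λ.map φ = X.ν.prod X.ν →
      ∀ S, MeasurableSet S → X.Λ.real (φ ⁻¹' S) = (X.ν.prod X.ν).real S := by
    intro φ hφ hmap S hS
    rw [← hmap, map_measureReal_apply hφ hS]
  have hB1 : X.Λ.real ((fun t : Mk × Mk × Mk => (t.1, t.2.1)) ⁻¹' (GGᶜ ×ˢ Set.univ)) ≤ κ / 30 := by
    rw [mapR _ m12 p12 _ (GG_meas.compl.prod MeasurableSet.univ), measureReal_prod_prod]
    simpa using hGc
  have hB2 : X.Λ.real ((fun t : Mk × Mk × Mk => (t.1, t.2.1)) ⁻¹' (Set.univ ×ˢ GGᶜ)) ≤ κ / 30 := by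
    rw [mapR _ m12 p12 _ (MeasurableSet.univ.prod GG_meas.compl), measureReal_prod_prod]
    simpa using hGc
  have hB3 : X.Λ.real ((fun t : Mk × Mk × Mk => (t.1, t.2.2)) ⁻¹' (Set.univ ×ˢ GGᶜ)) ≤ κ / 30 := by
    rw [mapR _ m13 p13 _ (MeasurableSet.univ.prod GG_meas.compl), measureReal_prod_prod]
    simpa using hGc
  have hB4 : X.Λ.real ((fun t : Mk × Mk × Mk => (t.1, t.2.1)) ⁻¹' (RR X))
      = (X.ν.prod X.ν).real (RR X) := mapR _ m12 p12 _ hRm
  have hS : ∀ S : Set (Mk × Mk × Mk), X.Λ.real S ≤ X.Λ.real (N ∩ S) + κ / 30 + κ / 30 + κ / 30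
      + (X.ν.prod X.ν).real (RR X) := by
    intro S
    have hsub : S ⊆ ((((N ∩ S) ∪ (fun t : Mk × Mk × Mk => (t.1, t.2.1)) ⁻¹' (GGᶜ ×ˢ Set.univ))
        ∪ (fun t : Mk × Mk × Mk => (t.1, t.2.1)) ⁻¹' (Set.univ ×ˢ GGᶜ))
        ∪ (fun t : Mk × Mk × Mk => (t.1, t.2.2)) ⁻¹' (Set.univ ×ˢ GGᶜ))
        ∪ (fun t : Mk × Mk × Mk => (t.1, t.2.1)) ⁻¹' (RR X) := by
      intro t ht
      by_cases g1 : t.1 ∈ GG
      · by_cases g2 : t.2.1 ∈ GG
        · by_cases g3 : t.2.2 ∈ GG
          · by_cases g4 : (t.1, t.2.1) ∈ RR X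
            · exact Or.inr g4
            · exact Or.inl (Or.inl (Or.inl (Or.inl ⟨⟨⟨g1, g2, g3⟩, g4⟩, ht⟩)))
          · exact Or.inl (Or.inr ⟨trivial, g3⟩)
        · exact Or.inl (Or.inl (Or.inr ⟨trivial, g2⟩))
      · exact Or.inl (Or.inl (Or.inl (Or.inr ⟨g1, trivial⟩)))
    refine (measureReal_mono hsub (measure_ne_top _ _)).trans ?_
    refine (measureReal_union_le _ _).trans ?_
    refine add_le_add ((measureReal_union_le _ _).trans ?_) hB4.le
    refine add_le_add ((measureReal_union_le _ _).trans ?_) hB3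
    refine add_le_add ((measureReal_union_le _ _).trans ?_) hB2
    exact add_le_add le_rfl hB1
  have hS1 := hS Set.univ
  have hS2 := hS K
  rw [Set.inter_univ, probReal_univ] at hS1
  have hKκ : κ ≤ X.Λ.real K := by
    have h1 := hcov X.ν
    have h2 : X.Λ.real K = (X.ν.prod X.ν).real K2 := mapR _ m12 p12 _ hK2m
    rw [h2]
    exact h1
  have hρ : 0 ≤ (X.ν.prod X.ν).real (RR X) := measureReal_nonneg
  simp only [smul_eq_mul, mul_one] at hineq
  linarith

end NPL
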