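import Pool.Agent.Lib.MP_4f1247_co.NL.Stmts14

/-!
# Limits of large neighborly polyhedra: rows N2, N3 (helper11)
-/

set_option autoImplicit false

open MeasureTheory Filter Topology
open scoped ENNReal

namespace NPL

namespace Loc11

theorem det4_exp (u v w x : E4) : det4 u v w x =
    u 0 * (v 1 * (w 2 * x 3 - w 3 * x 2) - v 2 * (w 1 * x 3 - w 3 * x 1) +
      v 3 * (w 1 * x 2 - w 2 * x 1)) -
    u 1 * (v 0 * (w 2 * x 3 - w 3 * x 2) - v 2 * (w 0 * x 3 - w 3 * x 0) +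
      v 3 * (w 0 * x 2 - w 2 * x 0)) +
    u 2 * (v 0 * (w 1 * x 3 - w 3 * x 1) - v 1 * (w 0 * x 3 - w 3 * x 0) +
      v 3 * (w 0 * x 1 - w 1 * x 0)) -
    u 3 * (v 0 * (w 1 * x 2 - w 2 * x 1) - v 1 * (w 0 * x 2 - w 2 * x 0) +
      v 2 * (w 0 * x 1 - w 1 * x 0)) := by
  unfold det4
  rw [Matrix.det_succ_row_zero]
  simp [Fin.sum_univ_succ, Matrix.det_fin_three, Fin.succAbove, Matrix.submatrix]
  ring

/-- Cramer -/
theorem cramer (u a b e x : E4) : det4 u a b e • x =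
    det4 x a b e • u + det4 u x b e • a + det4 u a x e • b + det4 u a b x • e := by
  ext i
  simp only [PiLp.add_apply, PiLp.smul_apply, smul_eq_mul, det4_exp]
  fin_cases i <;> simp <;> ring

/-- continuity of determinants of continuous vectors -/
theorem cont4 {X : Type} [TopologicalSpace X] {f1 f2 f3 f4 : X → E4} (h1 : Continuous f1)
    (h2 : Continuous f2) (h3 : Continuous f3) (h4 : Continuous f4) :
    Continuous fun z => det4 (f1 z) (f2 z) (f3 z) (f4 z) := by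
  simp_rw [det4_exp]
  fun_prop

theorem det4_neg (u v w x : E4) : det4 u v w (-x) = -det4 u v w x := by
  simp only [det4_exp, PiLp.neg_apply]; ring

attribute [local irreducible] det4

/-- a property which holds near a point of `E4 ^ 5` -/
theorem near5 {P : E4 → E4 → E4 → E4 → E4 → Prop} {u a b e x : E4}
    (h : ∀ᶠ z : E4 × E4 × E4 × E4 × E4 in 𝓝 (u, a, b, e, x),
      P z.1 z.2.1 z.2.2.1 z.2.2.2.1 z.2.2.2.2) :
    ∃ η : ℝ, 0 < η ∧ ∀ u' a' b' e' x' : E4, dist u' u < η → dist a' a < η → dist b' b < η →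
      dist e' e < η → dist x' x < η → P u' a' b' e' x' := by
  obtain ⟨η, hη, hh⟩ := Metric.eventually_nhds_iff.1 h
  refine ⟨η, hη, fun u' a' b' e' x' h1 h2 h3 h4 h5 => ?_⟩
  refine @hh (u', a', b', e', x') ?_
  simp only [Prod.dist_eq, max_lt_iff]
  exact ⟨h1, h2, h3, h4, h5⟩

/-- the algebra of N2 -/
theorem hit2 {u a b f x : E4} {τ : ℝ} (hτ : 0 < τ) (h1 : 0 < det4 u x b f * det4 u a b f)
    (h2 : 0 < det4 u a x f * det4 u a b f) (h3 : det4 u a b x * det4 u a b f < 0)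
    (h4 : τ * |det4 x a b f * det4 u a b f| ≤ -(det4 u a b x * det4 u a b f)) :
    Hit (u + τ • f) x u a b := by
  have hc := cramer u a b f x
  set D := det4 u a b f with hD
  set A0 := det4 x a b f
  set A1 := det4 u x b f
  set A2 := det4 u a x f
  set A3 := det4 u a b x
  refine ⟨-(A3 * D) / τ, D ^ 2, A0 * D - A3 * D / τ, A1 * D, A2 * D, ?_, sq_nonneg _, ?_, h1.le,
    h2.le, ?_⟩
  · exact div_pos (by linarith) hτ
  · have h5 : A3 * D / τ ≤ -|A0 * D| := by
      rw [div_le_iff₀ hτ]; linarith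
    have h6 := neg_abs_le (A0 * D)
    linarith
  · have h7 : D ^ 2 • x = (A0 * D) • u + (A1 * D) • a + (A2 * D) • b + (A3 * D) • f := by
      have : D ^ 2 • x = D • (D • x) := by rw [smul_smul]; ring_nf
      rw [this, hc]
      module
    have h8 : (-(A3 * D) / τ) • (τ • f) = (-(A3 * D)) • f := by
      rw [smul_smul, div_mul_cancel₀ _ hτ.ne']
    rw [smul_add, h8, h7]
    have h9 : (A0 * D - A3 * D / τ) • u = (A0 * D) • u + (-(A3 * D) / τ) • u := by
      rw [← add_smul]; ring_nf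
    rw [h9]
    module

theorem core2 {u a b e x : E4} (h1 : 0 < det4 u x b e * det4 u a b e)
    (h2 : 0 < det4 u a x e * det4 u a b e) (h3 : det4 u a b x * det4 u a b e < 0) :
    ∃ η : ℝ, 0 < η ∧ ∀ u' a' b' f x' : E4, dist u' u < η → dist a' a < η → dist b' b < η →
      dist f e < η → dist x' x < η → ∀ τ : ℝ, 0 < τ → τ < η → Hit (u' + τ • f) x' u' a' b' := by
  set m : ℝ := -(det4 u a b x * det4 u a b e) / 2 with hm
  have hm0 : 0 < m := by rw [hm]; linarith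
  set M : ℝ := |det4 x a b e * det4 u a b e| + 1 with hM
  have hM0 : 0 < M := by positivity
  have c1 : Continuous fun z : E4 × E4 × E4 × E4 × E4 =>
      det4 z.1 z.2.2.2.2 z.2.2.1 z.2.2.2.1 * det4 z.1 z.2.1 z.2.2.1 z.2.2.2.1 :=
    (cont4 (by fun_prop) (by fun_prop) (by fun_prop) (by fun_prop)).mul
      (cont4 (by fun_prop) (by fun_prop) (by fun_prop) (by fun_prop))
  have c2 : Continuous fun z : E4 × E4 × E4 × E4 × E4 =>
      det4 z.1 z.2.1 z.2.2.2.2 z.2.2.2.1 * det4 z.1 z.2.1 z.2.2.1 z.2.2.2.1 :=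
    (cont4 (by fun_prop) (by fun_prop) (by fun_prop) (by fun_prop)).mul
      (cont4 (by fun_prop) (by fun_prop) (by fun_prop) (by fun_prop))
  have c3 : Continuous fun z : E4 × E4 × E4 × E4 × E4 =>
      -(det4 z.1 z.2.1 z.2.2.1 z.2.2.2.2 * det4 z.1 z.2.1 z.2.2.1 z.2.2.2.1) :=
    ((cont4 (by fun_prop) (by fun_prop) (by fun_prop) (by fun_prop)).mul
      (cont4 (by fun_prop) (by fun_prop) (by fun_prop) (by fun_prop))).neg
  have c4 : Continuous fun z : E4 × E4 × E4 × E4 × E4 =>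
      |det4 z.2.2.2.2 z.2.1 z.2.2.1 z.2.2.2.1 * det4 z.1 z.2.1 z.2.2.1 z.2.2.2.1| :=
    ((cont4 (by fun_prop) (by fun_prop) (by fun_prop) (by fun_prop)).mul
      (cont4 (by fun_prop) (by fun_prop) (by fun_prop) (by fun_prop))).abs
  have hev : ∀ᶠ z : E4 × E4 × E4 × E4 × E4 in 𝓝 (u, a, b, e, x),
      (0 < det4 z.1 z.2.2.2.2 z.2.2.1 z.2.2.2.1 * det4 z.1 z.2.1 z.2.2.1 z.2.2.2.1) ∧
      (0 < det4 z.1 z.2.1 z.2.2.2.2 z.2.2.2.1 * det4 z.1 z.2.1 z.2.2.1 z.2.2.2.1) ∧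
      (m < -(det4 z.1 z.2.1 z.2.2.1 z.2.2.2.2 * det4 z.1 z.2.1 z.2.2.1 z.2.2.2.1)) ∧
      (|det4 z.2.2.2.2 z.2.1 z.2.2.1 z.2.2.2.1 * det4 z.1 z.2.1 z.2.2.1 z.2.2.2.1| < M) := by
    refine (c1.continuousAt.eventually (lt_mem_nhds h1)).and
      ((c2.continuousAt.eventually (lt_mem_nhds h2)).and
      ((c3.continuousAt.eventually (lt_mem_nhds ?_)).and
        (c4.continuousAt.eventually (gt_mem_nhds ?_))))
    · rw [hm]; linarith
    · rw [hM]; linarith
  obtain ⟨η, hη, hh⟩ := near5 (P := fun u' a' b' f x' =>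
      (0 < det4 u' x' b' f * det4 u' a' b' f) ∧ (0 < det4 u' a' x' f * det4 u' a' b' f) ∧
      (m < -(det4 u' a' b' x' * det4 u' a' b' f)) ∧ (|det4 x' a' b' f * det4 u' a' b' f| < M)) hev
  refine ⟨min η (m / M), lt_min hη (by positivity), ?_⟩
  intro u' a' b' f x' d1 d2 d3 d4 d5 τ hτ hτ2
  rw [lt_min_iff] at d1 d2 d3 d4 d5 hτ2
  obtain ⟨g1, g2, g3, g4⟩ := hh u' a' b' f x' d1.1 d2.1 d3.1 d4.1 d5.1
  refine hit2 hτ g1 g2 (by linarith) ?_
  have h5 : τ * |det4 x' a' b' f * det4 u' a' b' f| ≤ (m / M) * M :=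
    mul_le_mul hτ2.2.le g4.le (abs_nonneg _) (by positivity)
  rw [div_mul_cancel₀ _ hM0.ne'] at h5
  linarith

end Loc11

/-- N2 -/
theorem luneLoc : StLuneLoc := by
  intro u e a b x hL
  obtain ⟨h1, h2, h3⟩ := hL
  have hD : det4 u a b e ≠ 0 := by
    intro h0
    rw [h0, mul_zero] at h1
    exact lt_irrefl _ h1
  have hne : det4 u a b x * det4 u a b e ≠ 0 := mul_ne_zero h3 hD
  rcases lt_or_gt_of_ne hne with h | h
  · obtain ⟨η, hη, hh⟩ := Loc11.core2 h1 h2 h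
    refine ⟨η / 2, by positivity, ?_⟩
    intro u' e' a' b' x' p q d1 d2 d3 d4 d5 hp _
    left
    obtain ⟨τ, f, t1, t2, _, t4, rfl⟩ := hp
    refine hh u' a' b' f x' (by linarith) (by linarith) (by linarith) ?_ (by linarith) τ t1
      (by linarith)
    calc dist f e ≤ dist f e' + dist e' e := dist_triangle _ _ _
      _ < η := by linarith
  · have k1 : 0 < det4 u x b (-e) * det4 u a b (-e) := by
      rw [Loc11.det4_neg, Loc11.det4_neg]; linarith
    have k2 : 0 < det4 u a x (-e) * det4 u a b (-e) := by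
      rw [Loc11.det4_neg, Loc11.det4_neg]; linarith
    have k3 : det4 u a b x * det4 u a b (-e) < 0 := by
      rw [Loc11.det4_neg]; linarith
    obtain ⟨η, hη, hh⟩ := Loc11.core2 k1 k2 k3
    refine ⟨η / 2, by positivity, ?_⟩
    intro u' e' a' b' x' p q d1 d2 d3 d4 d5 _ hq
    right
    obtain ⟨τ, f, t1, t2, _, t4, rfl⟩ := hq
    refine hh u' a' b' f x' (by linarith) (by linarith) (by linarith) ?_ (by linarith) τ t1
      (by linarith)
    calc dist f (-e) ≤ dist f (-e') + dist (-e') (-e) := dist_triangle _ _ _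
      _ < η := by rw [dist_neg_neg]; linarith

namespace Loc11

attribute [local irreducible] det4

/-- the algebra of N3 -/
theorem hit3 {u a b f x : E4} {τ : ℝ} (hτ : 0 < τ) (h1 : 0 < det4 u f b x * det4 u a b x)
    (h2 : 0 < det4 u a f x * det4 u a b x) (h3 : det4 u a b f * det4 u a b x ≤ 0)
    (h4 : τ * |det4 f a b x * det4 u a b x| ≤ det4 u a b x ^ 2) :
    Hit (u + τ • f) x u a b := by
  have hc := cramer u a b x f
  have hD0 : det4 u a b x ≠ 0 := by
    intro h0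
    rw [h0, mul_zero] at h1
    exact lt_irrefl _ h1
  set D := det4 u a b x with hD
  set B0 := det4 f a b x
  set B1 := det4 u f b x
  set B2 := det4 u a f x
  set B3 := det4 u a b f
  refine ⟨D ^ 2, -(τ * (B3 * D)), D ^ 2 + τ * (B0 * D), τ * (B1 * D), τ * (B2 * D), ?_, ?_, ?_,
    ?_, ?_, ?_⟩
  · positivity
  · have := mul_nonneg hτ.le (neg_nonneg.2 h3)
    linarith
  · have h5 : -(τ * |B0 * D|) ≤ τ * (B0 * D) := by
      have := mul_le_mul_of_nonneg_left (neg_abs_le (B0 * D)) hτ.le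
      linarith
    linarith
  · exact (mul_pos hτ h1).le
  · exact (mul_pos hτ h2).le
  · have h7 : D ^ 2 • f = (B0 * D) • u + (B1 * D) • a + (B2 * D) • b + (B3 * D) • x := by
      have : D ^ 2 • f = D • (D • f) := by rw [smul_smul]; ring_nf
      rw [this, hc]
      module
    have h8 : D ^ 2 • (u + τ • f) = D ^ 2 • u + τ • (D ^ 2 • f) := by module
    rw [h8, h7]
    module

theorem core3 {u a b e x : E4} (h1 : 0 < det4 u e b x * det4 u a b x)
    (h2 : 0 < det4 u a e x * det4 u a b x) :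
    ∃ η : ℝ, 0 < η ∧ ∀ u' a' b' f x' : E4, dist u' u < η → dist a' a < η → dist b' b < η →
      dist f e < η → dist x' x < η → 0 < det4 u' a' b' x' * det4 u a b x ∧
      ∀ τ : ℝ, 0 < τ → τ < η → det4 u' a' b' f * det4 u' a' b' x' ≤ 0 →
        Hit (u' + τ • f) x' u' a' b' := by
  have hD0 : det4 u a b x ≠ 0 := by
    intro h0
    rw [h0, mul_zero] at h1
    exact lt_irrefl _ h1
  set m : ℝ := det4 u a b x ^ 2 / 2 with hm
  have hm0 : 0 < m := by positivity
  set M : ℝ := |det4 e a b x * det4 u a b x| + 1 with hM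
  have hM0 : 0 < M := by positivity
  have c1 : Continuous fun z : E4 × E4 × E4 × E4 × E4 =>
      det4 z.1 z.2.2.2.1 z.2.2.1 z.2.2.2.2 * det4 z.1 z.2.1 z.2.2.1 z.2.2.2.2 :=
    (cont4 (by fun_prop) (by fun_prop) (by fun_prop) (by fun_prop)).mul
      (cont4 (by fun_prop) (by fun_prop) (by fun_prop) (by fun_prop))
  have c2 : Continuous fun z : E4 × E4 × E4 × E4 × E4 =>
      det4 z.1 z.2.1 z.2.2.2.1 z.2.2.2.2 * det4 z.1 z.2.1 z.2.2.1 z.2.2.2.2 :=
    (cont4 (by fun_prop) (by fun_prop) (by fun_prop) (by fun_prop)).mul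
      (cont4 (by fun_prop) (by fun_prop) (by fun_prop) (by fun_prop))
  have c3 : Continuous fun z : E4 × E4 × E4 × E4 × E4 =>
      det4 z.1 z.2.1 z.2.2.1 z.2.2.2.2 ^ 2 :=
    (cont4 (by fun_prop) (by fun_prop) (by fun_prop) (by fun_prop)).pow 2
  have c4 : Continuous fun z : E4 × E4 × E4 × E4 × E4 =>
      |det4 z.2.2.2.1 z.2.1 z.2.2.1 z.2.2.2.2 * det4 z.1 z.2.1 z.2.2.1 z.2.2.2.2| :=
    ((cont4 (by fun_prop) (by fun_prop) (by fun_prop) (by fun_prop)).mul
      (cont4 (by fun_prop) (by fun_prop) (by fun_prop) (by fun_prop))).abs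
  have c5 : Continuous fun z : E4 × E4 × E4 × E4 × E4 =>
      det4 z.1 z.2.1 z.2.2.1 z.2.2.2.2 * det4 u a b x :=
    (cont4 (by fun_prop) (by fun_prop) (by fun_prop) (by fun_prop)).mul continuous_const
  have hev : ∀ᶠ z : E4 × E4 × E4 × E4 × E4 in 𝓝 (u, a, b, e, x),
      (0 < det4 z.1 z.2.2.2.1 z.2.2.1 z.2.2.2.2 * det4 z.1 z.2.1 z.2.2.1 z.2.2.2.2) ∧
      (0 < det4 z.1 z.2.1 z.2.2.2.1 z.2.2.2.2 * det4 z.1 z.2.1 z.2.2.1 z.2.2.2.2) ∧
      (m < det4 z.1 z.2.1 z.2.2.1 z.2.2.2.2 ^ 2) ∧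
      (|det4 z.2.2.2.1 z.2.1 z.2.2.1 z.2.2.2.2 * det4 z.1 z.2.1 z.2.2.1 z.2.2.2.2| < M) ∧
      (0 < det4 z.1 z.2.1 z.2.2.1 z.2.2.2.2 * det4 u a b x) := by
    refine (c1.continuousAt.eventually (lt_mem_nhds h1)).and
      ((c2.continuousAt.eventually (lt_mem_nhds h2)).and
      ((c3.continuousAt.eventually (lt_mem_nhds ?_)).and
        ((c4.continuousAt.eventually (gt_mem_nhds ?_)).and
          (c5.continuousAt.eventually (lt_mem_nhds ?_)))))
    · have : 0 < det4 u a b x ^ 2 := by positivity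
      rw [hm]; linarith
    · rw [hM]; linarith
    · have : 0 < det4 u a b x ^ 2 := by positivity
      nlinarith
  obtain ⟨η, hη, hh⟩ := near5 (P := fun u' a' b' f x' =>
      (0 < det4 u' f b' x' * det4 u' a' b' x') ∧ (0 < det4 u' a' f x' * det4 u' a' b' x') ∧
      (m < det4 u' a' b' x' ^ 2) ∧ (|det4 f a' b' x' * det4 u' a' b' x'| < M) ∧
      (0 < det4 u' a' b' x' * det4 u a b x)) hev
  refine ⟨min η (m / M), lt_min hη (by positivity), ?_⟩
  intro u' a' b' f x' d1 d2 d3 d4 d5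
  rw [lt_min_iff] at d1 d2 d3 d4 d5
  obtain ⟨g1, g2, g3, g4, g5⟩ := hh u' a' b' f x' d1.1 d2.1 d3.1 d4.1 d5.1
  refine ⟨g5, fun τ hτ hτ2 hneg => ?_⟩
  rw [lt_min_iff] at hτ2
  refine hit3 hτ g1 g2 hneg ?_
  have h5 : τ * |det4 f a' b' x' * det4 u' a' b' x'| ≤ (m / M) * M :=
    mul_le_mul hτ2.2.le g4.le (abs_nonneg _) (by positivity)
  rw [div_mul_cancel₀ _ hM0.ne'] at h5
  linarith

/-- the two sided version -/
theorem core3' {u a b e x y : E4} (h1 : 0 < det4 u e b x * det4 u a b x)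
    (h2 : 0 < det4 u a e x * det4 u a b x) (h1' : 0 < det4 u e b y * det4 u a b y)
    (h2' : 0 < det4 u a e y * det4 u a b y) (hxy : det4 u a b x * det4 u a b y < 0) :
    ∃ η : ℝ, 0 < η ∧ ∀ u' a' b' f x' y' : E4, dist u' u < η → dist a' a < η → dist b' b < η →
      dist f e < η → dist x' x < η → dist y' y < η → ∀ τ : ℝ, 0 < τ → τ < η →
      Hit (u' + τ • f) x' u' a' b' ∨ Hit (u' + τ • f) y' u' a' b' := by
  obtain ⟨η1, hη1, k1⟩ := core3 h1 h2
  obtain ⟨η2, hη2, k2⟩ := core3 h1' h2'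
  refine ⟨min η1 η2, lt_min hη1 hη2, ?_⟩
  intro u' a' b' f x' y' d1 d2 d3 d4 d5 d6 τ hτ hτ2
  rw [lt_min_iff] at d1 d2 d3 d4 d5 d6 hτ2
  obtain ⟨s1, t1⟩ := k1 u' a' b' f x' d1.1 d2.1 d3.1 d4.1 d5.1
  obtain ⟨s2, t2⟩ := k2 u' a' b' f y' d1.2 d2.2 d3.2 d4.2 d6.2
  by_cases h : det4 u' a' b' f * det4 u' a' b' x' ≤ 0
  · exact Or.inl (t1 τ hτ hτ2.1 h)
  · refine Or.inr (t2 τ hτ hτ2.2 ?_)
    push Not at h
    have h5 : 0 < (det4 u' a' b' x' * det4 u a b x) * (det4 u' a' b' y' * det4 u a b y) :=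
      mul_pos s1 s2
    have h6 : det4 u' a' b' x' * det4 u' a' b' y' < 0 := by
      by_contra hc
      push Not at hc
      have h7 : (det4 u' a' b' x' * det4 u' a' b' y') * (det4 u a b x * det4 u a b y) ≤ 0 :=
        mul_nonpos_of_nonneg_of_nonpos hc hxy.le
      nlinarith
    by_contra hc
    push Not at hc
    have h8 : 0 < (det4 u' a' b' f * det4 u' a' b' x') * (det4 u' a' b' f * det4 u' a' b' y') :=
      mul_pos h hc
    have h9 : 0 ≤ det4 u' a' b' f ^ 2 := sq_nonneg _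
    have h10 : det4 u' a' b' f ^ 2 * (det4 u' a' b' x' * det4 u' a' b' y') ≤ 0 :=
      mul_nonpos_of_nonneg_of_nonpos h9 h6.le
    nlinarith

theorem det_b (u a b x : E4) (c s t : ℝ) :
    det4 u (c • u + s • a + t • b) b x = s * det4 u a b x := by
  simp only [det4_exp, PiLp.add_apply, PiLp.smul_apply, smul_eq_mul]; ring

theorem det_a (u a b x : E4) (c s t : ℝ) :
    det4 u a (c • u + s • a + t • b) x = t * det4 u a b x := by
  simp only [det4_exp, PiLp.add_apply, PiLp.smul_apply, smul_eq_mul]; ring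

theorem enter_pos {u a b x y : E4} {c s t : ℝ} (hs : 0 < s) (ht : 0 < t)
    (hxy : det4 u a b x * det4 u a b y < 0) :
    ∃ η : ℝ, 0 < η ∧ ∀ u' a' b' f x' y' : E4, dist u' u < η → dist a' a < η → dist b' b < η →
      dist f (c • u + s • a + t • b) < η → dist x' x < η → dist y' y < η → ∀ τ : ℝ, 0 < τ →
      τ < η → Hit (u' + τ • f) x' u' a' b' ∨ Hit (u' + τ • f) y' u' a' b' := by
  have hx : det4 u a b x ≠ 0 := by
    intro h0
    rw [h0, zero_mul] at hxy
    exact lt_irrefl _ hxy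
  have hy : det4 u a b y ≠ 0 := by
    intro h0
    rw [h0, mul_zero] at hxy
    exact lt_irrefl _ hxy
  refine core3' ?_ ?_ ?_ ?_ hxy
  · rw [det_b, mul_assoc]; exact mul_pos hs (mul_self_pos.2 hx)
  · rw [det_a, mul_assoc]; exact mul_pos ht (mul_self_pos.2 hx)
  · rw [det_b, mul_assoc]; exact mul_pos hs (mul_self_pos.2 hy)
  · rw [det_a, mul_assoc]; exact mul_pos ht (mul_self_pos.2 hy)

end Loc11

/-- N3 -/
theorem enterLoc : StEnterLoc := by
  intro u e a b x y hE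
  obtain ⟨⟨c, s, t, hst, rfl⟩, hxy⟩ := hE
  rcases mul_pos_iff.1 hst with ⟨hs, ht⟩ | ⟨hs, ht⟩
  · obtain ⟨η, hη, hh⟩ := Loc11.enter_pos (c := c) hs ht hxy
    refine ⟨η / 2, by positivity, ?_⟩
    intro u' e' a' b' x' y' p q d1 d2 d3 d4 d5 d6 hp _
    obtain ⟨τ, f, t1, t2, _, t4, rfl⟩ := hp
    have h := hh u' a' b' f x' y' (by linarith) (by linarith) (by linarith) (by
      calc dist f (c • u + s • a + t • b) ≤ dist f e' + dist e' (c • u + s • a + t • b) :=
            dist_triangle _ _ _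
        _ < η := by linarith) (by linarith) (by linarith) τ t1 (by linarith)
    rcases h with h | h
    · exact Or.inl h
    · exact Or.inr (Or.inl h)
  · obtain ⟨η, hη, hh⟩ := Loc11.enter_pos (c := -c) (neg_pos.2 hs) (neg_pos.2 ht) hxy
    refine ⟨η / 2, by positivity, ?_⟩
    intro u' e' a' b' x' y' p q d1 d2 d3 d4 d5 d6 _ hq
    obtain ⟨τ, f, t1, t2, _, t4, rfl⟩ := hq
    have hneg : (-c) • u + (-s) • a + (-t) • b = -(c • u + s • a + t • b) := by module
    have h := hh u' a' b' f x' y' (by linarith) (by linarith) (by linarith) (by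
      rw [hneg]
      calc dist f (-(c • u + s • a + t • b)) ≤ dist f (-e') +
            dist (-e') (-(c • u + s • a + t • b)) := dist_triangle _ _ _
        _ < η := by rw [dist_neg_neg]; linarith) (by linarith) (by linarith) τ t1 (by linarith)
    rcases h with h | h
    · exact Or.inr (Or.inr (Or.inl h))
    · exact Or.inr (Or.inr (Or.inr h))

end NPL
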