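import Pool.Agent.Lib.MP_4f1247_co.NL.Stmts14

/-!
# N14: the main theorem for frames in isotropic position
-/

set_option autoImplicit false

open MeasureTheory Filter Topology
open scoped ENNReal

namespace NPL

theorem mu_W_le (X : Lim) (W : Submodule ℝ E4) (r : ℝ) (hr : 0 < r) :
    X.mu W ≤ X.ν {m | (m.1, m.2.2) ∈
      {x : S3 × Bool | x.2 = true ∧ Metric.infDist (x.1 : E4) (W : Set E4) < r}} := by
  have hWm : MeasurableSet (W : Set E4) := (W.closed_of_finiteDimensional).measurableSet
  have hm : Measurable (fun m : Mk => (m.1 : E4)) := measurable_subtype_coe.comp measurable_fst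
  rw [Lim.mu, Measure.map_apply hm hWm, Measure.restrict_apply (hm hWm)]
  refine measure_mono ?_
  rintro m ⟨h1, h2⟩
  refine ⟨h2, ?_⟩
  have : Metric.infDist (m.1 : E4) (W : Set E4) = 0 :=
    Metric.infDist_zero_of_mem h1
  simpa [this] using hr

theorem stMain (hL : StLimit) (hT : StLimThm) : StMain := by
  obtain ⟨c₀, hc₀, hT⟩ := hT
  refine ⟨c₀, hc₀, ?_⟩
  intro ω hω
  by_contra hcon
  push Not at hcon
  choose N hN F hF G hG hW using hcon
  have hNt : Tendsto N atTop atTop := tendsto_atTop_mono hN tendsto_id
  have hNu : Tendsto N (hyperfilter ℕ : Filter ℕ) atTop :=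
    hNt.mono_left (by rw [← Nat.cofinite_eq_atTop]; exact hyperfilter_le_cofinite)
  obtain ⟨X, hX1, hX2⟩ := hL (hyperfilter ℕ) N F G hNu
  refine hT X ?_ ?_ ?_
  · intro v
    have hcont : Continuous (fun x : S3 × Bool => (inner ℝ v (x.1 : E4) : ℝ) ^ 2) := by fun_prop
    apply le_antisymm
    · refine hX2 (fun x => (inner ℝ v (x.1 : E4) : ℝ) ^ 2) (‖v‖ ^ 2 / 4) hcont ?_
      refine Eventually.of_forall fun k => ?_
      have := hF k v
      simp only [Fr.pt]
      rw [this]
      apply le_of_eq; ring
    · have h := hX2 (fun x => -((inner ℝ v (x.1 : E4) : ℝ) ^ 2)) (-(‖v‖ ^ 2 / 4)) hcont.neg ?_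
      · rw [integral_neg] at h
        linarith
      refine Eventually.of_forall fun k => ?_
      have := hF k v
      simp only [Fr.pt, Finset.sum_neg_distrib]
      rw [this]
      apply le_of_eq; ring
  · have hU : IsOpen {x : S3 × Bool | x.2 = false} :=
      (isOpen_discrete ({false} : Set Bool)).preimage continuous_snd
    have := hX1 _ c₀ hU (Eventually.of_forall fun k => ?_)
    · simpa using this
    have hset : {i | ((F k).pt i, decide (i ∈ G k)) ∈ {x : S3 × Bool | x.2 = false}} =
        ((G k)ᶜ : Finset (Fin (N k))) := by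
      ext i
      simp
    rw [hset, Set.ncard_coe_finset, Finset.card_compl, Fintype.card_fin]
    have h1 := hG k
    have h2 : (G k).card ≤ N k := by simpa using Finset.card_le_univ (G k)
    rw [Nat.cast_sub h2]
    nlinarith
  · intro W hWr
    have key : ∀ r : ℝ, 0 < r → X.mu W ≤ ENNReal.ofReal (ω r) := by
      intro r hr
      refine (mu_W_le X W r hr).trans ?_
      have hU : IsOpen {x : S3 × Bool | x.2 = true ∧ Metric.infDist (x.1 : E4) (W : Set E4) < r} := by
        apply IsOpen.inter
        · exact (isOpen_discrete ({true} : Set Bool)).preimage continuous_snd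
        · have hc : Continuous (fun x : S3 × Bool => Metric.infDist (x.1 : E4) (W : Set E4)) :=
            (Metric.continuous_infDist_pt _).comp (continuous_subtype_val.comp continuous_fst)
          exact isOpen_lt hc continuous_const
      refine hX1 _ (ω r) hU (Eventually.of_forall fun k => ?_)
      refine le_trans ?_ (hW k W r hWr hr)
      have : {i | ((F k).pt i, decide (i ∈ G k)) ∈
            {x : S3 × Bool | x.2 = true ∧ Metric.infDist (x.1 : E4) (W : Set E4) < r}} ⊆
          {i | i ∈ G k ∧ Metric.infDist ((F k).a i) W ≤ r} := by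
        intro i hi
        simp only [Set.mem_ofPred_eq, decide_eq_true_eq] at hi
        exact ⟨hi.1, hi.2.le⟩
      exact_mod_cast Set.ncard_le_ncard this (Set.toFinite _)
    have hlim : Tendsto (fun r => ENNReal.ofReal (ω r)) (𝓝[>] 0) (𝓝 0) := by
      have := (ENNReal.continuous_ofReal.tendsto 0).comp hω
      rw [ENNReal.ofReal_zero] at this
      exact this
    have : X.mu W ≤ 0 := by
      refine ge_of_tendsto hlim ?_
      filter_upwards [self_mem_nhdsWithin] with r hr using key r hr
    exact le_antisymm this zero_le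

end NPL
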