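import Pool.Agent.Lib.MP_4f1247_co.NL.Stmts14

/-!
# Two-sided needles (N1)
-/

set_option autoImplicit false

namespace NPL

namespace Needle57

/-- a finite net of the sphere, with a choice of a near point of the net -/
theorem exists_net {η : ℝ} (hη : 0 < η) : ∃ (t : Finset E4) (cl : E4 → E4),
    (∀ x ∈ t, ‖x‖ = 1) ∧ ∀ v : E4, ‖v‖ = 1 → cl v ∈ t ∧ dist v (cl v) < η / 2 := by
  classical
  obtain ⟨t, ht, hfin, hcov⟩ :=
    (isCompact_sphere (0 : E4) 1).finite_cover_balls (half_pos hη)
  have h : ∀ v : E4, ‖v‖ = 1 → ∃ x ∈ t, dist v x < η / 2 := by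
    intro v hv
    have hv' : v ∈ Metric.sphere (0 : E4) 1 := by simpa using hv
    obtain ⟨x, hx, hd⟩ := Set.mem_iUnion₂.1 (hcov hv')
    exact ⟨x, hx, hd⟩
  refine ⟨hfin.toFinset, fun v => if hv : ‖v‖ = 1 then (h v hv).choose else 0, ?_, ?_⟩
  · intro x hx
    have := ht (hfin.mem_toFinset.1 hx)
    simpa using this
  · intro v hv
    simp only [dif_pos hv, Set.Finite.mem_toFinset]
    exact (h v hv).choose_spec

/-- direction of a pair -/
noncomputable def dir (x y : E4) : E4 := ‖y - x‖⁻¹ • (y - x)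

theorem norm_dir {x y : E4} (h : x ≠ y) : ‖dir x y‖ = 1 := by
  unfold dir
  rw [norm_smul, norm_inv, norm_norm, inv_mul_cancel₀]
  exact norm_ne_zero_iff.2 (sub_ne_zero.2 h.symm)

theorem dir_comm (x y : E4) : dir y x = -dir x y := by
  unfold dir
  rw [norm_sub_rev, ← smul_neg, neg_sub]

theorem eq_add_dir {x y : E4} (h : x ≠ y) : y = x + ‖y - x‖ • dir x y := by
  unfold dir
  rw [smul_smul, mul_inv_cancel₀ (norm_ne_zero_iff.2 (sub_ne_zero.2 h.symm)), one_smul]
  abel

/-- twins in the direction of the net -/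
theorem tw {x y e : E4} {η : ℝ} (hη : 0 < η) (hxy : x ≠ y) (hd : dist x y < η)
    (he : dist (dir x y) e < η / 2) : Tw x y e η := by
  refine ⟨‖y - x‖, dir x y, norm_pos_iff.2 (sub_ne_zero.2 hxy.symm), ?_, norm_dir hxy,
    by linarith, eq_add_dir hxy⟩
  rwa [← dist_eq_norm, dist_comm]

theorem tw_neg {x y e : E4} {η : ℝ} (hη : 0 < η) (hxy : x ≠ y) (hd : dist x y < η)
    (he : dist (dir x y) e < η / 2) : Tw y x (-e) η := by
  refine ⟨‖x - y‖, dir y x, norm_pos_iff.2 (sub_ne_zero.2 hxy), ?_, norm_dir hxy.symm, ?_,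
    eq_add_dir hxy.symm⟩
  · rwa [← dist_eq_norm]
  · rw [dir_comm, dist_neg_neg]
    linarith

end Needle57

open Needle57 in
theorem stNeedle57 : StNeedle := by
  classical
  intro η hη
  obtain ⟨t, cl, ht, hcl⟩ := exists_net hη
  refine ⟨2 ^ t.card * t.card, fun n a ha hinj => ?_⟩
  set B : Finset (Fin n) := Finset.univ.filter fun i => ¬ ∃ e : E4, ‖e‖ = 1 ∧ Nd a i e η
    with hB
  refine ⟨B, ?_, fun i hi => ?_⟩
  · have himg : B.image (fun i => cl (a i)) ⊆ t := by
      intro x hx
      obtain ⟨i, _, rfl⟩ := Finset.mem_image.1 hx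
      exact (hcl (a i) (ha i)).1
    refine (Finset.card_le_mul_card_image (f := fun i => cl (a i)) B (2 ^ t.card) ?_).trans
      (Nat.mul_le_mul_left _ (Finset.card_le_card himg))
    intro x _
    set P := B.filter fun i => cl (a i) = x with hP
    have key : ∀ i ∈ P, ∀ j ∈ P, i < j →
        (P.filter (i < ·)).image (fun l => cl (dir (a i) (a l))) ≠
          (P.filter (j < ·)).image (fun l => cl (dir (a j) (a l))) := by
      intro i hi j hj hij heq
      have hmem : cl (dir (a i) (a j)) ∈
          (P.filter (i < ·)).image (fun l => cl (dir (a i) (a l))) :=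
        Finset.mem_image.2 ⟨j, Finset.mem_filter.2 ⟨hj, hij⟩, rfl⟩
      rw [heq] at hmem
      obtain ⟨l, hl, hcl'⟩ := Finset.mem_image.1 hmem
      obtain ⟨hlP, hjl⟩ := Finset.mem_filter.1 hl
      have near : ∀ p ∈ P, ∀ q ∈ P, dist (a p) (a q) < η := by
        intro p hp q hq
        have hp1 := (Finset.mem_filter.1 hp).2
        have hq1 := (Finset.mem_filter.1 hq).2
        have h1 := (hcl (a p) (ha p)).2
        have h2 := (hcl (a q) (ha q)).2
        rw [hp1] at h1
        rw [hq1] at h2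
        have h3 := dist_triangle (a p) x (a q)
        rw [dist_comm x] at h3
        linarith
      have nij : a i ≠ a j := fun h => hij.ne (hinj h)
      have njl : a j ≠ a l := fun h => hjl.ne (hinj h)
      have d1 := hcl _ (norm_dir nij)
      have d2 := hcl _ (norm_dir njl)
      rw [hcl'] at d2
      have hjB : j ∈ B := (Finset.mem_filter.1 hj).1
      rw [hB, Finset.mem_filter] at hjB
      exact hjB.2 ⟨cl (dir (a i) (a j)), ht _ d1.1, l, i, tw hη njl (near j hj l hlP) d2.2,
        tw_neg hη nij (near i hi j hj) d1.2⟩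
    rw [← Finset.card_powerset]
    refine Finset.card_le_card_of_injOn
      (fun i => (P.filter (i < ·)).image fun l => cl (dir (a i) (a l))) ?_ ?_
    · intro i _
      rw [Finset.mem_coe, Finset.mem_powerset]
      intro y hy
      obtain ⟨l, hl, rfl⟩ := Finset.mem_image.1 hy
      have hil : i < l := (Finset.mem_filter.1 hl).2
      exact (hcl _ (norm_dir fun h => hil.ne (hinj h))).1
    · intro i hi j hj h
      by_contra hne
      rcases lt_or_gt_of_ne hne with hlt | hlt
      · exact key i hi j hj hlt h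
      · exact key j hj i hi hlt h.symm
  · by_contra hne
    exact hi (Finset.mem_filter.2 ⟨Finset.mem_univ i, hne⟩)

end NPL
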