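import Pool.Agent.Lib.MP_4f1247_co.NL.Stmts14

/-!
# Charged planes (N11)
-/

set_option autoImplicit false

open MeasureTheory

namespace NPL

namespace Planes57

/-- two different three-dimensional subspaces meet in a two-dimensional one -/
theorem inf_finrank {W W' : Submodule ℝ E4} (h : Module.finrank ℝ W = 3)
    (h' : Module.finrank ℝ W' = 3) (hne : W ≠ W') :
    Module.finrank ℝ (W ⊓ W' : Submodule ℝ E4) = 2 := by
  have h1 := Submodule.finrank_sup_add_finrank_inf_eq W W'
  have h2 : Module.finrank ℝ (W ⊔ W' : Submodule ℝ E4) ≤ 4 := by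
    have := Submodule.finrank_le (W ⊔ W' : Submodule ℝ E4)
    rwa [finrank_euclideanSpace_fin] at this
  have h3 : Module.finrank ℝ (W ⊓ W' : Submodule ℝ E4) ≠ 3 := by
    intro h4
    have h5 : W ⊓ W' = W :=
      Submodule.eq_of_le_of_finrank_eq inf_le_left (h4.trans h.symm)
    have h6 : W ⊓ W' = W' :=
      Submodule.eq_of_le_of_finrank_eq inf_le_right (h4.trans h'.symm)
    exact hne (h5.symm.trans h6)
  have h7 : Module.finrank ℝ (W ⊓ W' : Submodule ℝ E4) ≤ 3 := by
    have := Submodule.finrank_mono (inf_le_left : W ⊓ W' ≤ W)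
    rwa [h] at this
  omega

end Planes57

open Planes57 in
theorem stPlanes57 : StPlanes := by
  intro μ _ hμ
  have hc : {W : Submodule ℝ E4 | Module.finrank ℝ W = 3 ∧ 0 < μ W}.Countable := by
    have h := Measure.countable_meas_pos_of_disjoint_iUnion₀ (μ := μ)
      (As := fun W : {W : Submodule ℝ E4 // Module.finrank ℝ W = 3} => (W.1 : Set E4))
      (fun W => (W.1.closed_of_finiteDimensional.measurableSet).nullMeasurableSet)
      (by
        intro W W' hne
        have h1 : (W.1 : Set E4) ∩ (W'.1 : Set E4) = ((W.1 ⊓ W'.1 : Submodule ℝ E4) : Set E4) :=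
          Submodule.coe_inf.symm
        show μ ((W.1 : Set E4) ∩ (W'.1 : Set E4)) = 0
        rw [h1]
        exact hμ _ (inf_finrank W.2 W'.2 fun h => hne (Subtype.ext h)))
    refine (h.image Subtype.val).mono ?_
    rintro W ⟨hW, hpos⟩
    exact ⟨⟨W, hW⟩, hpos, rfl⟩
  refine ⟨hc, ?_⟩
  set S := {W : Submodule ℝ E4 | Module.finrank ℝ W = 3 ∧ 0 < μ W} with hS
  have hae : ∀ᵐ u ∂μ, ∀ p ∈ S ×ˢ S, p.1 ≠ p.2 → u ∉ ((p.1 ⊓ p.2 : Submodule ℝ E4) : Set E4) := by
    rw [ae_ball_iff (hc.prod hc)]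
    intro p hp
    by_cases hne : p.1 = p.2
    · exact Filter.Eventually.of_forall fun u hu => absurd hne hu
    · have h0 : μ ((p.1 ⊓ p.2 : Submodule ℝ E4) : Set E4) = 0 :=
        hμ _ (inf_finrank hp.1.1 hp.2.1 hne)
      have := measure_eq_zero_iff_ae_notMem.1 h0
      filter_upwards [this] with u hu _ using hu
  filter_upwards [hae] with u hu W W' hW hW' hp hp' huW huW'
  by_contra hne
  exact hu (W, W') ⟨⟨hW, hp⟩, ⟨hW', hp'⟩⟩ hne (Submodule.mem_inf.2 ⟨huW, huW'⟩)

end NPL
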