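import Pool.Agent.Lib.MP_4f1247_co.NL.Stmts14

/-!
# N7: the measurable removal lemma
-/

set_option autoImplicit false

open MeasureTheory Filter Topology Set
open scoped ENNReal symmDiff

namespace NPL

section

variable {Ω : Type} [MeasurableSpace Ω]

/-- sets which are unions of rectangles of a finite partition -/
def Simp52 (S : Set (Ω × Ω)) : Prop :=
  ∃ (ι : Type) (_ : Fintype ι) (f : Ω → ι) (G : Set (ι × ι)),
    (∀ i, MeasurableSet (f ⁻¹' {i})) ∧ S = {p | (f p.1, f p.2) ∈ G}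

theorem simp52_alg : IsSetAlgebra {S : Set (Ω × Ω) | Simp52 S} where
  empty_mem := ⟨Unit, inferInstance, fun _ => (), ∅, fun i => by
    have : (fun _ : Ω => ()) ⁻¹' {i} = univ := by ext x; simp
    rw [this]; exact MeasurableSet.univ, by simp⟩
  compl_mem := by
    rintro s ⟨ι, hι, f, G, hf, rfl⟩
    exact ⟨ι, hι, f, Gᶜ, hf, by ext p; simp⟩
  union_mem := by
    rintro s t ⟨ι, hι, f, G, hf, rfl⟩ ⟨κ, hκ, g, H, hg, rfl⟩
    refine ⟨ι × κ, inferInstance, fun x => (f x, g x),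
      {p | (p.1.1, p.2.1) ∈ G ∨ (p.1.2, p.2.2) ∈ H}, ?_, ?_⟩
    · rintro ⟨i, j⟩
      have : (fun x => (f x, g x)) ⁻¹' {(i, j)} = f ⁻¹' {i} ∩ g ⁻¹' {j} := by
        ext x; simp
      rw [this]; exact (hf i).inter (hg j)
    · ext p; simp

theorem simp52_meas {ι : Type} [Fintype ι] {f : Ω → ι} (hf : ∀ i, MeasurableSet (f ⁻¹' {i}))
    (G : Set (ι × ι)) : MeasurableSet {p : Ω × Ω | (f p.1, f p.2) ∈ G} := by
  classical
  have : {p : Ω × Ω | (f p.1, f p.2) ∈ G} =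
      ⋃ b ∈ (Finset.univ.filter fun b : ι × ι => b ∈ G), (f ⁻¹' {b.1}) ×ˢ (f ⁻¹' {b.2}) := by
    ext p
    simp only [mem_ofPred_eq, mem_iUnion, mem_prod, mem_preimage, mem_singleton_iff,
      Finset.mem_filter, Finset.mem_univ, true_and]
    constructor
    · intro h
      exact ⟨(f p.1, f p.2), h, rfl, rfl⟩
    · rintro ⟨b, hb, h1, h2⟩
      rw [h1, h2]; exact hb
  rw [this]
  exact Finset.measurableSet_biUnion _ fun b _ => (hf b.1).prod (hf b.2)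

theorem dec52 {s : Set Ω} (hs : MeasurableSet s) [DecidablePred (· ∈ s)] (i : Bool) :
    MeasurableSet {x | decide (x ∈ s) = i} := by
  cases i
  · have : {x | decide (x ∈ s) = false} = sᶜ := by ext x; simp
    rw [this]; exact hs.compl
  · have : {x | decide (x ∈ s) = true} = s := by ext x; simp
    rw [this]; exact hs

theorem simp52_gen : (inferInstance : MeasurableSpace (Ω × Ω)) =
    MeasurableSpace.generateFrom {S : Set (Ω × Ω) | Simp52 S} := by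
  classical
  apply le_antisymm
  · rw [← generateFrom_prod]
    apply MeasurableSpace.generateFrom_le
    rintro _ ⟨s, hs, t, ht, rfl⟩
    apply MeasurableSpace.measurableSet_generateFrom
    refine ⟨Bool × Bool, inferInstance, fun x => (decide (x ∈ s), decide (x ∈ t)),
      {p | p.1.1 = true ∧ p.2.2 = true}, ?_, ?_⟩
    · rintro ⟨i, j⟩
      have : (fun x => (decide (x ∈ s), decide (x ∈ t))) ⁻¹' {(i, j)} =
          {x | decide (x ∈ s) = i} ∩ {x | decide (x ∈ t) = j} := by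
        ext x; simp
      rw [this]
      exact (dec52 hs i).inter (dec52 ht j)
    · ext p; simp
  · apply MeasurableSpace.generateFrom_le
    rintro _ ⟨ι, hι, f, G, hf, rfl⟩
    exact simp52_meas hf G


theorem sum_fib52 {α ι : Type} [MeasurableSpace α] [Fintype ι] (μ : Measure α) (F : α → ι)
    (hF : ∀ i, MeasurableSet (F ⁻¹' {i})) (A : Set α) :
    ∑ i, μ (A ∩ F ⁻¹' {i}) = μ A := by
  have h := sum_measure_preimage_singleton (μ := μ.restrict A) (Finset.univ : Finset ι)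
    (f := F) (fun i _ => hF i)
  rw [Finset.coe_univ, preimage_univ, Measure.restrict_apply_univ] at h
  rw [← h]
  refine Finset.sum_congr rfl fun i _ => ?_
  rw [Measure.restrict_apply (hF i), inter_comm]

/-- the rectangle of the cells `i`, `j` -/
def rec52 {ι : Type} (f : Ω → ι) (i j : ι) : Set (Ω × Ω) := (f ⁻¹' {i}) ×ˢ (f ⁻¹' {j})

/-- the rectangle is filled to nine tenths -/
def good52 {ι : Type} (ρ : Measure (Ω × Ω)) (f : Ω → ι) (E : Set (Ω × Ω)) (i j : ι) : Prop :=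
  0 < ρ (rec52 f i j) ∧ 9 * ρ (rec52 f i j) ≤ 10 * ρ (E ∩ rec52 f i j)

theorem bad_le52 {ι : Type} [Fintype ι] (ρ : Measure (Ω × Ω)) [IsFiniteMeasure ρ] (f : Ω → ι)
    (hf : ∀ i, MeasurableSet (f ⁻¹' {i})) (E : Set (Ω × Ω)) (hE : MeasurableSet E)
    (G : Set (ι × ι)) :
    ρ {p | p ∈ E ∧ ¬ good52 ρ f E (f p.1) (f p.2)} ≤
      10 * ρ (E ∆ {p | (f p.1, f p.2) ∈ G}) := by
  classical
  set S : Set (Ω × Ω) := {p | (f p.1, f p.2) ∈ G} with hS
  have hSm : MeasurableSet S := simp52_meas hf G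
  set F : Ω × Ω → ι × ι := fun p => (f p.1, f p.2) with hF
  have hFib : ∀ b : ι × ι, F ⁻¹' {b} = rec52 f b.1 b.2 := by
    intro b; ext p
    simp only [hF, rec52, mem_preimage, mem_singleton_iff, mem_prod, Prod.ext_iff]
  have hFm : ∀ b, MeasurableSet (F ⁻¹' {b}) := by
    intro b; rw [hFib]; exact (hf b.1).prod (hf b.2)
  rw [← sum_fib52 ρ F hFm {p | p ∈ E ∧ ¬ good52 ρ f E (f p.1) (f p.2)},
    ← sum_fib52 ρ F hFm (E ∆ S), Finset.mul_sum]
  refine Finset.sum_le_sum fun b _ => ?_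
  by_cases hg : good52 ρ f E b.1 b.2
  · have : {p | p ∈ E ∧ ¬ good52 ρ f E (f p.1) (f p.2)} ∩ F ⁻¹' {b} = ∅ := by
      ext p
      simp only [mem_inter_iff, mem_preimage, mem_singleton_iff, mem_empty_iff_false, iff_false]
      rintro ⟨⟨_, h2⟩, h3⟩
      apply h2
      have h4 : f p.1 = b.1 := congrArg Prod.fst h3
      have h5 : f p.2 = b.2 := congrArg Prod.snd h3
      rw [h4, h5]; exact hg
    rw [this, measure_empty]; exact bot_le
  · have hsub : {p | p ∈ E ∧ ¬ good52 ρ f E (f p.1) (f p.2)} ∩ F ⁻¹' {b} ⊆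
        E ∩ rec52 f b.1 b.2 := by
      rintro p ⟨⟨h1, _⟩, h3⟩
      rw [hFib] at h3
      exact ⟨h1, h3⟩
    refine (measure_mono hsub).trans ?_
    rw [hFib]
    by_cases hb : b ∈ G
    · -- the cell is contained in `S`
      have hsub2 : rec52 f b.1 b.2 \ E ⊆ (E ∆ S) ∩ rec52 f b.1 b.2 := by
        rintro p ⟨h1, h2⟩
        refine ⟨Or.inr ⟨?_, h2⟩, h1⟩
        have h3 : F p = b := by
          have : p ∈ F ⁻¹' {b} := by rw [hFib]; exact h1
          exact this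
        change F p ∈ G
        rw [h3]; exact hb
      refine le_trans ?_ (mul_le_mul_right (measure_mono hsub2) _)
      have hsum : ρ (rec52 f b.1 b.2) = ρ (E ∩ rec52 f b.1 b.2) + ρ (rec52 f b.1 b.2 \ E) := by
        rw [inter_comm]; exact (measure_inter_add_sdiff _ hE).symm
      by_cases h0 : ρ (rec52 f b.1 b.2) = 0
      · have : ρ (E ∩ rec52 f b.1 b.2) = 0 := measure_mono_null inter_subset_right h0
        rw [this]; exact bot_le
      · have hlt : 10 * ρ (E ∩ rec52 f b.1 b.2) < 9 * ρ (rec52 f b.1 b.2) := by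
          by_contra hcon
          exact hg ⟨pos_iff_ne_zero.2 h0, not_lt.1 hcon⟩
        rw [hsum, mul_add] at hlt
        have hfin : ρ (E ∩ rec52 f b.1 b.2) ≠ ⊤ := measure_ne_top _ _
        have hfin2 : ρ (rec52 f b.1 b.2 \ E) ≠ ⊤ := measure_ne_top _ _
        lift ρ (E ∩ rec52 f b.1 b.2) to NNReal using hfin with x
        lift ρ (rec52 f b.1 b.2 \ E) to NNReal using hfin2 with y
        norm_cast at hlt ⊢
        have h1 : (10 * x : ℝ) < 9 * x + 9 * y := by exact_mod_cast hlt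
        have h2 : (x : ℝ) ≤ 10 * y := by
          have : (0 : ℝ) ≤ y := y.2
          linarith
        exact_mod_cast h2
    · have hsub2 : E ∩ rec52 f b.1 b.2 ⊆ (E ∆ S) ∩ rec52 f b.1 b.2 := by
        rintro p ⟨h1, h2⟩
        refine ⟨Or.inl ⟨h1, ?_⟩, h2⟩
        have h3 : F p = b := by
          have : p ∈ F ⁻¹' {b} := by rw [hFib]; exact h2
          exact this
        intro h4
        apply hb
        rw [← h3]; exact h4
      refine (measure_mono hsub2).trans ?_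
      calc ρ ((E ∆ S) ∩ rec52 f b.1 b.2) = 1 * ρ ((E ∆ S) ∩ rec52 f b.1 b.2) := (one_mul _).symm
        _ ≤ 10 * ρ ((E ∆ S) ∩ rec52 f b.1 b.2) := by
          gcongr; norm_num

/-- in a good rectangle at most a tenth is missing -/
theorem miss52 {ι : Type} (ρ : Measure (Ω × Ω)) [IsFiniteMeasure ρ] (f : Ω → ι)
    (E : Set (Ω × Ω)) (hE : MeasurableSet E) {i j : ι} (h : good52 ρ f E i j) :
    10 * ρ (rec52 f i j \ E) ≤ ρ (rec52 f i j) := by
  have hsum : ρ (rec52 f i j) = ρ (E ∩ rec52 f i j) + ρ (rec52 f i j \ E) := by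
    rw [inter_comm]; exact (measure_inter_add_sdiff _ hE).symm
  have h2 := h.2
  rw [hsum, mul_add] at h2
  rw [hsum]
  have hfin : ρ (E ∩ rec52 f i j) ≠ ⊤ := measure_ne_top _ _
  have hfin2 : ρ (rec52 f i j \ E) ≠ ⊤ := measure_ne_top _ _
  lift ρ (E ∩ rec52 f i j) to NNReal using hfin with x
  lift ρ (rec52 f i j \ E) to NNReal using hfin2 with y
  norm_cast at h2 ⊢
  have h1 : (9 * x + 9 * y : ℝ) ≤ 10 * x := by exact_mod_cast h2
  have h3 : (10 * y : ℝ) ≤ x + y := by linarith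
  exact_mod_cast h3

variable (ν : Measure Ω) [IsFiniteMeasure ν]

theorem mp12_52 : MeasurePreserving (fun t : Ω × Ω × Ω => ((t.1, t.2.1), t.2.2))
    (ν.prod (ν.prod ν)) ((ν.prod ν).prod ν) :=
  (measurePreserving_prodAssoc ν ν ν).symm MeasurableEquiv.prodAssoc

theorem mp13_52 : MeasurePreserving (fun t : Ω × Ω × Ω => ((t.1, t.2.2), t.2.1))
    (ν.prod (ν.prod ν)) ((ν.prod ν).prod ν) := by
  have h := (mp12_52 ν).comp ((MeasurePreserving.id ν).prod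
    (Measure.measurePreserving_swap (μ := ν) (ν := ν)))
  exact h

/-- three good rectangles contain a positive measure of triangles -/
theorem tri_pos52 {ι : Type} (f : Ω → ι) (hf : ∀ i, MeasurableSet (f ⁻¹' {i}))
    (E₁ E₂ E₃ : Set (Ω × Ω)) (h₁ : MeasurableSet E₁) (h₂ : MeasurableSet E₂)
    (h₃ : MeasurableSet E₃) {i j k : ι} (g₁ : good52 (ν.prod ν) f E₁ i j)
    (g₂ : good52 (ν.prod ν) f E₂ i k) (g₃ : good52 (ν.prod ν) f E₃ j k) :
    0 < (ν.prod (ν.prod ν))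
      {t | (t.1, t.2.1) ∈ E₁ ∧ (t.1, t.2.2) ∈ E₂ ∧ (t.2.1, t.2.2) ∈ E₃} := by
  set A := f ⁻¹' {i} with hA
  set B := f ⁻¹' {j} with hB
  set C := f ⁻¹' {k} with hC
  set T := {t : Ω × Ω × Ω | (t.1, t.2.1) ∈ E₁ ∧ (t.1, t.2.2) ∈ E₂ ∧ (t.2.1, t.2.2) ∈ E₃} with hT
  have hAm : MeasurableSet A := hf i
  have hBm : MeasurableSet B := hf j
  have hCm : MeasurableSet C := hf k
  set P := ν.prod (ν.prod ν) with hP
  -- the three bad parts of the cell
  have d1 : P {t | (t.1, t.2.1) ∈ (A ×ˢ B) \ E₁ ∧ t.2.2 ∈ C} =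
      (ν.prod ν) ((A ×ˢ B) \ E₁) * ν C := by
    have := (mp12_52 ν).measure_preimage
      ((((hAm.prod hBm).diff h₁).prod hCm).nullMeasurableSet)
    rw [Measure.prod_prod] at this
    exact this
  have d2 : P {t | (t.1, t.2.2) ∈ (A ×ˢ C) \ E₂ ∧ t.2.1 ∈ B} =
      (ν.prod ν) ((A ×ˢ C) \ E₂) * ν B := by
    have := (mp13_52 ν).measure_preimage
      ((((hAm.prod hCm).diff h₂).prod hBm).nullMeasurableSet)
    rw [Measure.prod_prod] at this
    exact this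
  have d3 : P (A ×ˢ ((B ×ˢ C) \ E₃)) = ν A * (ν.prod ν) ((B ×ˢ C) \ E₃) := by
    rw [hP, Measure.prod_prod]
  have dc : P (A ×ˢ (B ×ˢ C)) = ν A * (ν B * ν C) := by
    rw [hP, Measure.prod_prod, Measure.prod_prod]
  have hcov : A ×ˢ (B ×ˢ C) ⊆ T ∪ ({t | (t.1, t.2.1) ∈ (A ×ˢ B) \ E₁ ∧ t.2.2 ∈ C} ∪
      ({t | (t.1, t.2.2) ∈ (A ×ˢ C) \ E₂ ∧ t.2.1 ∈ B} ∪ A ×ˢ ((B ×ˢ C) \ E₃))) := by
    rintro ⟨x, y, z⟩ ⟨hx, hy, hz⟩
    by_cases q1 : (x, y) ∈ E₁
    · by_cases q2 : (x, z) ∈ E₂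
      · by_cases q3 : (y, z) ∈ E₃
        · exact Or.inl ⟨q1, q2, q3⟩
        · exact Or.inr (Or.inr (Or.inr ⟨hx, ⟨hy, hz⟩, q3⟩))
      · exact Or.inr (Or.inr (Or.inl ⟨⟨⟨hx, hz⟩, q2⟩, hy⟩))
    · exact Or.inr (Or.inl ⟨⟨⟨hx, hy⟩, q1⟩, hz⟩)
  have m1 := miss52 (ν.prod ν) f E₁ h₁ g₁
  have m2 := miss52 (ν.prod ν) f E₂ h₂ g₂
  have m3 := miss52 (ν.prod ν) f E₃ h₃ g₃
  have p1 := g₁.1
  have p2 := g₂.1
  simp only [rec52, ← hA, ← hB, ← hC, Measure.prod_prod] at m1 m2 m3 p1 p2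
  by_contra hcon
  have hT0 : P T = 0 := by
    by_contra h
    exact hcon (pos_iff_ne_zero.2 h)
  have hle : P (A ×ˢ (B ×ˢ C)) ≤ (ν.prod ν) ((A ×ˢ B) \ E₁) * ν C +
      ((ν.prod ν) ((A ×ˢ C) \ E₂) * ν B + ν A * (ν.prod ν) ((B ×ˢ C) \ E₃)) := by
    calc P (A ×ˢ (B ×ˢ C)) ≤ P T + (P {t | (t.1, t.2.1) ∈ (A ×ˢ B) \ E₁ ∧ t.2.2 ∈ C} +
        (P {t | (t.1, t.2.2) ∈ (A ×ˢ C) \ E₂ ∧ t.2.1 ∈ B} + P (A ×ˢ ((B ×ˢ C) \ E₃)))) := by
          refine (measure_mono hcov).trans ((measure_union_le _ _).trans ?_)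
          gcongr
          refine (measure_union_le _ _).trans ?_
          gcongr
          exact measure_union_le _ _
      _ = _ := by rw [hT0, d1, d2, d3, zero_add]
  rw [dc] at hle
  have fa : ν A ≠ ⊤ := measure_ne_top _ _
  have fb : ν B ≠ ⊤ := measure_ne_top _ _
  have fc : ν C ≠ ⊤ := measure_ne_top _ _
  have f1 : (ν.prod ν) ((A ×ˢ B) \ E₁) ≠ ⊤ := measure_ne_top _ _
  have f2 : (ν.prod ν) ((A ×ˢ C) \ E₂) ≠ ⊤ := measure_ne_top _ _
  have f3 : (ν.prod ν) ((B ×ˢ C) \ E₃) ≠ ⊤ := measure_ne_top _ _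
  generalize ν A = a at *
  generalize ν B = b at *
  generalize ν C = c at *
  generalize (ν.prod ν) ((A ×ˢ B) \ E₁) = u at *
  generalize (ν.prod ν) ((A ×ˢ C) \ E₂) = v at *
  generalize (ν.prod ν) ((B ×ˢ C) \ E₃) = w at *
  lift a to NNReal using fa
  lift b to NNReal using fb
  lift c to NNReal using fc
  lift u to NNReal using f1
  lift v to NNReal using f2
  lift w to NNReal using f3
  norm_cast at m1 m2 m3 p1 p2 hle
  have r1 : (10 * u : ℝ) ≤ a * b := by exact_mod_cast m1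
  have r2 : (10 * v : ℝ) ≤ a * c := by exact_mod_cast m2
  have r3 : (10 * w : ℝ) ≤ b * c := by exact_mod_cast m3
  have r4 : (0 : ℝ) < a * b := by exact_mod_cast p1
  have r5 : (0 : ℝ) < a * c := by exact_mod_cast p2
  have r6 : (a * (b * c) : ℝ) ≤ u * c + (v * b + a * w) := by exact_mod_cast hle
  have a0 : (0 : ℝ) ≤ a := a.2
  have b0 : (0 : ℝ) ≤ b := b.2
  have c0 : (0 : ℝ) ≤ c := c.2
  have ha : (0 : ℝ) < a := lt_of_le_of_ne a0 fun h => by rw [← h] at r4; simp at r4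
  have hb : (0 : ℝ) < b := lt_of_le_of_ne b0 fun h => by rw [← h] at r4; simp at r4
  have hc : (0 : ℝ) < c := lt_of_le_of_ne c0 fun h => by rw [← h] at r5; simp at r5
  have s1 : (10 * u : ℝ) * c ≤ a * b * c := by gcongr
  have s2 : (10 * v : ℝ) * b ≤ a * c * b := by gcongr
  have s3 : (a : ℝ) * (10 * w) ≤ a * (b * c) := by gcongr
  have hpos : (0 : ℝ) < a * (b * c) := by positivity
  nlinarith

/-- approximation by unions of rectangles -/
theorem approx52 (ρ : Measure (Ω × Ω)) [IsFiniteMeasure ρ] (E : Set (Ω × Ω))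
    (hE : MeasurableSet E) (ε : ℝ) (hε : 0 < ε) :
    ∃ (ι : Type) (_ : Fintype ι) (f : Ω → ι) (G : Set (ι × ι)),
      (∀ i, MeasurableSet (f ⁻¹' {i})) ∧
      ρ (E ∆ {p | (f p.1, f p.2) ∈ G}) < ENNReal.ofReal ε := by
  have h := Measure.MeasureDense.of_generateFrom_isSetAlgebra_finite (μ := ρ) simp52_alg
    simp52_gen
  obtain ⟨S, ⟨ι, hι, f, G, hf, rfl⟩, hS⟩ := h.approx E hE (measure_ne_top _ _) ε hε
  exact ⟨ι, hι, f, G, hf, hS⟩

omit [IsFiniteMeasure ν] in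
theorem pair_le52 (Λ : Measure (Ω × Ω × Ω)) (g : Ω × Ω × Ω → Ω × Ω) (hg : Measurable g)
    (hΛ : Λ.map g ≤ ν.prod ν) (D : Set (Ω × Ω)) (hD : MeasurableSet D) :
    Λ {t | g t ∈ D} ≤ (ν.prod ν) D := by
  have h := hΛ D
  rw [Measure.map_apply hg hD] at h
  exact h

theorem bad_meas52 {ι : Type} [Fintype ι] (ρ : Measure (Ω × Ω)) (f : Ω → ι)
    (hf : ∀ i, MeasurableSet (f ⁻¹' {i})) (E : Set (Ω × Ω)) (hE : MeasurableSet E) :
    MeasurableSet {p | p ∈ E ∧ ¬ good52 ρ f E (f p.1) (f p.2)} :=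
  hE.inter (simp52_meas hf {b | ¬ good52 ρ f E b.1 b.2})

end

theorem rem52 : StRem := by
  intro Ω _ ν _ Λ _ E₁ E₂ E₃ h₁ h₂ h₃ q₁ q₂ q₃ hT
  set T := {t : Ω × Ω × Ω | (t.1, t.2.1) ∈ E₁ ∧ (t.1, t.2.2) ∈ E₂ ∧ (t.2.1, t.2.2) ∈ E₃} with hTd
  have key : ∀ ε : ℝ, 0 < ε → Λ T ≤ ENNReal.ofReal (30 * ε) := by
    intro ε hε
    obtain ⟨ι₁, _, f₁, G₁, hf₁, e₁⟩ := approx52 (ν.prod ν) E₁ h₁ ε hε
    obtain ⟨ι₂, _, f₂, G₂, hf₂, e₂⟩ := approx52 (ν.prod ν) E₂ h₂ ε hε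
    obtain ⟨ι₃, _, f₃, G₃, hf₃, e₃⟩ := approx52 (ν.prod ν) E₃ h₃ ε hε
    let f : Ω → ι₁ × ι₂ × ι₃ := fun x => (f₁ x, f₂ x, f₃ x)
    have hf : ∀ i, MeasurableSet (f ⁻¹' {i}) := by
      rintro ⟨i, j, k⟩
      have : f ⁻¹' {(i, j, k)} = f₁ ⁻¹' {i} ∩ (f₂ ⁻¹' {j} ∩ f₃ ⁻¹' {k}) := by
        ext x; simp [f]
      rw [this]; exact (hf₁ i).inter ((hf₂ j).inter (hf₃ k))
    have b₁ := bad_le52 (ν.prod ν) f hf E₁ h₁ {b | (b.1.1, b.2.1) ∈ G₁}
    have b₂ := bad_le52 (ν.prod ν) f hf E₂ h₂ {b | (b.1.2.1, b.2.2.1) ∈ G₂}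
    have b₃ := bad_le52 (ν.prod ν) f hf E₃ h₃ {b | (b.1.2.2, b.2.2.2) ∈ G₃}
    have c₁ := pair_le52 ν Λ (fun t => (t.1, t.2.1)) (by fun_prop) q₁ _
      (bad_meas52 (ν.prod ν) f hf E₁ h₁)
    have c₂ := pair_le52 ν Λ (fun t => (t.1, t.2.2)) (by fun_prop) q₂ _
      (bad_meas52 (ν.prod ν) f hf E₂ h₂)
    have c₃ := pair_le52 ν Λ (fun t => (t.2.1, t.2.2)) (by fun_prop) q₃ _
      (bad_meas52 (ν.prod ν) f hf E₃ h₃)
    have hcov : T ⊆ {t | (t.1, t.2.1) ∈ {p | p ∈ E₁ ∧ ¬ good52 (ν.prod ν) f E₁ (f p.1) (f p.2)}} ∪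
        ({t | (t.1, t.2.2) ∈ {p | p ∈ E₂ ∧ ¬ good52 (ν.prod ν) f E₂ (f p.1) (f p.2)}} ∪
        {t | (t.2.1, t.2.2) ∈ {p | p ∈ E₃ ∧ ¬ good52 (ν.prod ν) f E₃ (f p.1) (f p.2)}}) := by
      rintro ⟨x, y, z⟩ ⟨t1, t2, t3⟩
      by_contra hcon
      simp only [mem_union, mem_ofPred_eq, not_or, not_and, not_not] at hcon
      have g₁ := hcon.1 t1
      have g₂ := hcon.2.1 t2
      have g₃ := hcon.2.2 t3
      exact absurd hT (ne_of_gt (tri_pos52 ν f hf E₁ E₂ E₃ h₁ h₂ h₃ g₁ g₂ g₃))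
    have e₁' : (ν.prod ν) (E₁ ∆ {p | (f p.1, f p.2) ∈ {b | (b.1.1, b.2.1) ∈ G₁}}) ≤
      ENNReal.ofReal ε := e₁.le
    have e₂' : (ν.prod ν) (E₂ ∆ {p | (f p.1, f p.2) ∈ {b | (b.1.2.1, b.2.2.1) ∈ G₂}}) ≤
      ENNReal.ofReal ε := e₂.le
    have e₃' : (ν.prod ν) (E₃ ∆ {p | (f p.1, f p.2) ∈ {b | (b.1.2.2, b.2.2.2) ∈ G₃}}) ≤
      ENNReal.ofReal ε := e₃.le
    calc Λ T ≤ 10 * ENNReal.ofReal ε + (10 * ENNReal.ofReal ε + 10 * ENNReal.ofReal ε) := by
          refine (measure_mono hcov).trans ((measure_union_le _ _).trans ?_)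
          refine add_le_add (c₁.trans (b₁.trans (by gcongr))) ?_
          refine (measure_union_le _ _).trans ?_
          exact add_le_add (c₂.trans (b₂.trans (by gcongr))) (c₃.trans (b₃.trans (by gcongr)))
      _ = ENNReal.ofReal (30 * ε) := by
          rw [ENNReal.ofReal_mul (by norm_num)]
          have : ENNReal.ofReal 30 = 30 := by norm_num
          rw [this]; ring
  by_contra hne
  have hfin : Λ T ≠ ⊤ := measure_ne_top _ _
  have hpos : 0 < (Λ T).toReal := ENNReal.toReal_pos hne hfin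
  have := key ((Λ T).toReal / 60) (by positivity)
  have h2 := (ENNReal.le_ofReal_iff_toReal_le hfin (by positivity)).1 this
  linarith

end NPL
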