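import Pool.Agent.Lib.MP_4f1247_co.NL.MainR14
import Pool.Agent.Lib.MP_4f1247_co.NL.Slab19

/-!
# The slab theorem with a lower bound for the width
-/

set_option autoImplicit false

open MeasureTheory Filter Topology
open scoped ENNReal

namespace NPL
namespace Slab19

/-- every proper subspace is null for the chosen vertices -/
theorem ker_nullR {N : ℕ → ℕ} (𝒰 : Ultrafilter ℕ) (h𝒰 : (𝒰 : Filter ℕ) ≤ atTop) (F : ∀ k, Fr (N k))
    (G : ∀ k, Finset (Fin (N k))) (X : Lim)
    (hX : ∀ (U : Set (S3 × Bool)) (c : ℝ), IsOpen U →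
        (∀ᶠ k in (𝒰 : Filter ℕ),
          ({i | ((F k).pt i, decide (i ∈ G k)) ∈ U}.ncard : ℝ) ≤ c * N k) →
        X.ν {m | (m.1, m.2.2) ∈ U} ≤ ENNReal.ofReal c)
    (p : ∀ k, Fin (N k) → EuclideanSpace ℝ (Fin 3)) (hp : ∀ k i, ‖p k i‖ ≤ 1)
    (g : E4 ≃ₗ[ℝ] E4)
    (hF : ∀ k i, (F k).a i = ‖g (lift (p k i))‖⁻¹ • g (lift (p k i)))
    (ω : ℝ → ℝ) (hω : Tendsto ω (𝓝[>] 0) (𝓝 0))
    (hs : ∀ (k : ℕ) (e : EuclideanSpace ℝ (Fin 3)) (s r : ℝ), ‖e‖ = 1 → ((k : ℝ) + 1)⁻¹ ≤ r →
      ({i | i ∈ G k ∧ |inner ℝ e (p k i) - s| ≤ r}.ncard : ℝ) ≤ ω r * N k)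
    (φ : E4 →ₗ[ℝ] ℝ) (hφ : φ ≠ 0) : X.mu {y | φ y = 0} = 0 := by
  have hφc : Continuous φ := φ.continuous_of_finiteDimensional
  have hmS : MeasurableSet {y : E4 | φ y = 0} :=
    (isClosed_eq hφc continuous_const).measurableSet
  set g' : E4 →L[ℝ] E4 := LinearMap.toContinuousLinearMap (g : E4 →ₗ[ℝ] E4) with hg'
  set M : ℝ := 2 * ‖g'‖ + 1 with hM
  have hM0 : 0 < M := by positivity
  have hgM : ∀ k i, ‖g (lift (p k i))‖ ≤ M := by
    intro k i
    have h1 : ‖g' (lift (p k i))‖ ≤ ‖g'‖ * ‖lift (p k i)‖ := g'.le_opNorm _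
    have h2 := norm_lift_le (p k i) (hp k i)
    have h3 : ‖g'‖ * ‖lift (p k i)‖ ≤ ‖g'‖ * 2 :=
      mul_le_mul_of_nonneg_left h2 (norm_nonneg _)
    have h4 : g' (lift (p k i)) = g (lift (p k i)) := rfl
    rw [h4] at h1
    linarith
  have hg0 : ∀ k i, 0 < ‖g (lift (p k i))‖ := by
    intro k i
    rw [norm_pos_iff]
    intro h
    exact lift_ne _ ((LinearEquiv.map_eq_zero_iff g).1 h)
  set ψ : E4 →ₗ[ℝ] ℝ := φ.comp (g : E4 →ₗ[ℝ] E4) with hψ
  set v : EuclideanSpace ℝ (Fin 3) := WithLp.toLp 2 ![ψ (EuclideanSpace.single 0 1),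
      ψ (EuclideanSpace.single 1 1), ψ (EuclideanSpace.single 2 1)] with hv
  set w : ℝ := ψ (EuclideanSpace.single 3 1) with hw
  have hval : ∀ k i, φ ((F k).a i) * ‖g (lift (p k i))‖ = inner ℝ v (p k i) + w := by
    intro k i
    have h1 : ψ (lift (p k i)) = inner ℝ v (p k i) + w := psi_lift ψ _
    rw [hF, map_smul, smul_eq_mul, ← h1, hψ]
    have := (hg0 k i).ne'
    simp only [LinearMap.comp_apply, LinearEquiv.coe_coe]
    field_simp
  -- the open sets
  have hopen : ∀ δ : ℝ, IsOpen {z : S3 × Bool | |φ (z.1 : E4)| < δ ∧ z.2 = true} := by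
    intro δ
    apply IsOpen.inter
    · exact isOpen_lt (hφc.comp (continuous_subtype_val.comp continuous_fst)).abs
        continuous_const
    · exact (isOpen_discrete ({true} : Set Bool)).preimage continuous_snd
  have hbd : ∀ δ c : ℝ, 0 < δ → (∀ᶠ k in (𝒰 : Filter ℕ), ({i | i ∈ G k ∧ |inner ℝ v (p k i) + w| < δ * M}.ncard : ℝ)
      ≤ c * N k) → X.mu {y | φ y = 0} ≤ ENNReal.ofReal c := by
    intro δ c hδ hc
    refine (mu_le X _ hmS {z : S3 × Bool | |φ (z.1 : E4)| < δ ∧ z.2 = true} ?_).trans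
      (hX _ c (hopen δ) (hc.mono fun k hk => le_trans ?_ hk))
    · intro x hx
      refine ⟨?_, rfl⟩
      have hx' : φ (x : E4) = 0 := hx
      simp only [hx', abs_zero]
      exact hδ
    · norm_cast
      apply Set.ncard_le_ncard _ (Set.toFinite _)
      intro i hi
      obtain ⟨h1, h2⟩ := hi
      simp only [decide_eq_true_eq] at h2
      refine ⟨h2, ?_⟩
      have h3 : |φ ((F k).a i)| < δ := h1
      rw [← hval k i, abs_mul, abs_of_pos (hg0 k i)]
      exact mul_lt_mul h3 (hgM k i) (hg0 k i) hδ.le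
  by_cases hv0 : v = 0
  · have hw0 : w ≠ 0 := by
      intro hw0
      apply hφ
      have h0 : ψ = 0 := by
        apply LinearMap.ext
        intro y
        have hy : y = y 0 • EuclideanSpace.single 0 (1 : ℝ) + y 1 • EuclideanSpace.single 1 (1 : ℝ)
            + y 2 • EuclideanSpace.single 2 (1 : ℝ) + y 3 • EuclideanSpace.single 3 (1 : ℝ) := by
          ext j
          fin_cases j <;> simp
        have e0 : ψ (EuclideanSpace.single 0 1) = 0 := by
          have := congrFun (congrArg WithLp.ofLp hv0) 0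
          simpa [hv] using this
        have e1 : ψ (EuclideanSpace.single 1 1) = 0 := by
          have := congrFun (congrArg WithLp.ofLp hv0) 1
          simpa [hv] using this
        have e2 : ψ (EuclideanSpace.single 2 1) = 0 := by
          have := congrFun (congrArg WithLp.ofLp hv0) 2
          simpa [hv] using this
        rw [hy]
        simp only [map_add, map_smul, e0, e1, e2, ← hw, hw0, smul_zero, add_zero,
          LinearMap.zero_apply]
      apply LinearMap.ext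
      intro y
      have : φ y = ψ (g.symm y) := by simp [hψ]
      rw [this, h0]
      simp
    have hδ : 0 < |w| / M := by positivity
    have := hbd (|w| / M) 0 hδ (by
      refine Eventually.of_forall fun k => ?_
      have he : {i | i ∈ G k ∧ |inner ℝ v (p k i) + w| < |w| / M * M} = ∅ := by
        apply Set.eq_empty_of_forall_notMem
        rintro i ⟨_, h2⟩
        rw [hv0, inner_zero_left, zero_add, div_mul_cancel₀ _ hM0.ne'] at h2
        exact lt_irrefl _ h2
      rw [he]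
      simp)
    simpa using this
  · have hvn : 0 < ‖v‖ := norm_pos_iff.2 hv0
    have hle : ∀ r : ℝ, 0 < r → X.mu {y | φ y = 0} ≤ ENNReal.ofReal (ω r) := by
      intro r hr
      refine hbd (r * ‖v‖ / M) (ω r) (by positivity) ((ev_inv h𝒰 hr).mono fun k hk => le_trans ?_
        (hs k (‖v‖⁻¹ • v) (-(w / ‖v‖)) r (by rw [norm_smul, norm_inv, norm_norm,
          inv_mul_cancel₀ hvn.ne']) hk))
      norm_cast
      apply Set.ncard_le_ncard _ (Set.toFinite _)
      rintro i ⟨h1, h2⟩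
      refine ⟨h1, ?_⟩
      rw [div_mul_cancel₀ _ hM0.ne'] at h2
      rw [real_inner_smul_left]
      have h3 : ‖v‖⁻¹ * inner ℝ v (p k i) - -(w / ‖v‖) = (inner ℝ v (p k i) + w) / ‖v‖ := by
        field_simp
        ring
      rw [h3, abs_div, abs_of_pos hvn, div_le_iff₀ hvn]
      exact h2.le
    have ht : Tendsto (fun r => ENNReal.ofReal (ω r)) (𝓝[>] 0) (𝓝 (ENNReal.ofReal 0)) :=
      ENNReal.tendsto_ofReal hω
    rw [ENNReal.ofReal_zero] at ht
    have := ge_of_tendsto ht (eventually_nhdsWithin_of_forall (fun r hr => hle r hr))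
    exact le_antisymm this bot_le

end Slab19

open Slab19

/-- the slab theorem -/
theorem stSlabR (hL : StLimit) (hT : StLimThm) (hP : StPolyFr) (hFo : StForster) :
    StSlabR := by
  obtain ⟨c₁, hc₁, hT⟩ := hT
  refine ⟨min c₁ (1 / 8), lt_min hc₁ (by norm_num), ?_⟩
  intro ω hω
  by_contra hcon
  push Not at hcon
  have hcon' : ∀ k : ℕ, ∃ n, k + 3 ≤ n ∧ ∃ (p : Fin n → EuclideanSpace ℝ (Fin 3))
      (T : Finset (Finset (Fin n))), Poly p T ∧ (∀ i, ‖p i‖ ≤ 1) ∧ ∃ G : Finset (Fin n),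
      (1 - min c₁ (1 / 8)) * n ≤ G.card ∧
      ∀ (e : EuclideanSpace ℝ (Fin 3)) (s r : ℝ), ‖e‖ = 1 → ((k : ℝ) + 1)⁻¹ ≤ r →
        ({i | i ∈ G ∧ |inner ℝ e (p i) - s| ≤ r}.ncard : ℝ) ≤ ω r * n :=
    fun k => hcon (k + 3) ((k : ℝ) + 1)⁻¹ (by positivity)
  choose N hN p T hPo hp1 G hG hs using hcon'
  set 𝒰 : Ultrafilter ℕ := hyperfilter ℕ with h𝒰
  have hNt : Tendsto N (𝒰 : Filter ℕ) atTop := by
    have h1 : Tendsto N atTop atTop :=
      tendsto_atTop_mono (fun k => by have := hN k; simp only [id]; omega) tendsto_id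
    exact h1.mono_left Nat.hyperfilter_le_atTop
  have hlim : ∀ g : E4 ≃ₗ[ℝ] E4, ∃ (F : ∀ k, Fr (N k)) (X : Lim),
      (∀ k i, (F k).a i = ‖g (lift (p k i))‖⁻¹ • g (lift (p k i))) ∧
      (∀ (f : S3 × Bool → ℝ) (c : ℝ), Continuous f →
        (∀ᶠ k in (𝒰 : Filter ℕ), ∑ i, f ((F k).pt i, decide (i ∈ G k)) ≤ c * N k) →
        ∫ m, f (m.1, m.2.2) ∂X.ν ≤ c) ∧
      (∀ φ : E4 →ₗ[ℝ] ℝ, φ ≠ 0 → X.mu {y | φ y = 0} = 0) ∧
      X.ν {m | m.2.2 = false} ≤ ENNReal.ofReal (min c₁ (1 / 8)) := by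
    intro g
    have hF : ∀ k, ∃ F : Fr (N k), F.T = T k ∧
        ∀ i, F.a i = ‖g (lift (p k i))‖⁻¹ • g (lift (p k i)) :=
      fun k => hP (N k) (p k) (T k) (hPo k) (by have := hN k; omega) g
    choose F hFT hFa using hF
    obtain ⟨X, hX1, hX2⟩ := hL 𝒰 N F G hNt
    refine ⟨F, X, hFa, hX2, ?_, ?_⟩
    · exact fun φ hφ => ker_nullR 𝒰 Nat.hyperfilter_le_atTop F G X hX1 p hp1 g hFa ω hω hs φ hφ
    · refine hX1 {z | z.2 = false} _ ((isOpen_discrete ({false} : Set Bool)).preimage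
        continuous_snd) (Eventually.of_forall fun k => ?_)
      have h1 : {i | ((F k).pt i, decide (i ∈ G k)) ∈ {z : S3 × Bool | z.2 = false}} =
          (((G k)ᶜ : Finset (Fin (N k))) : Set (Fin (N k))) := by
        ext i
        simp
      rw [h1, Set.ncard_coe_finset, Finset.card_compl, Fintype.card_fin,
        Nat.cast_sub (by simpa using Finset.card_le_univ (G k))]
      have := hG k
      linarith
  obtain ⟨F, X, hFa, hX2, hX3, hX4⟩ := hlim (LinearEquiv.refl ℝ E4)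
  have := X.prob
  have : IsProbabilityMeasure (X.ν.map (fun m : Mk => (m.1 : E4))) :=
    Measure.isProbabilityMeasure_map (by fun_prop)
  obtain ⟨g, hg⟩ := hFo (X.ν.map (fun m : Mk => (m.1 : E4))) (by
    rw [ae_map_iff (by fun_prop) (measurableSet_eq_fun (by fun_prop) (by fun_prop))]
    filter_upwards with m
    simp) (by
    intro W hW
    by_cases hW0 : W = ⊥
    · right
      exact hW0
    · left
      refine (nu_le X hX3 _ hX4 W hW).trans_lt ?_
      have h1 : 1 ≤ Module.finrank ℝ W := by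
        rw [Nat.one_le_iff_ne_zero]
        intro h0
        exact hW0 (Submodule.finrank_eq_zero.1 h0)
      have h2 : (1 : ℝ) ≤ Module.finrank ℝ W := by exact_mod_cast h1
      have h3 : min c₁ (1 / 8) ≤ (1 / 8 : ℝ) := min_le_right _ _
      apply (ENNReal.ofReal_lt_ofReal_iff (by positivity)).2
      linarith)
  obtain ⟨F', Y, hFa', hY2, hY3, hY4⟩ := hlim g
  have := Y.prob
  have hgc : Continuous g := (LinearMap.toContinuousLinearMap (g : E4 →ₗ[ℝ] E4)).continuous
  have hgne : ∀ x : S3, ‖g (x : E4)‖ ≠ 0 := by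
    intro x h
    rw [norm_eq_zero, LinearEquiv.map_eq_zero_iff] at h
    have := x.2
    rw [h] at this
    simp at this
  -- transfer of averages
  have htr : ∀ h h' : S3 → ℝ, Continuous h → Continuous h' →
      (∀ k i, h' ((F' k).pt i) = h ((F k).pt i)) → ∫ m, h' m.1 ∂Y.ν ≤ ∫ m, h m.1 ∂X.ν := by
    intro h h' hc hc' he
    apply le_of_forall_pos_le_add
    intro ε hε
    have key : ∀ᶠ k in (𝒰 : Filter ℕ), ∑ i, h ((F k).pt i) ≤
        (∫ m, h m.1 ∂X.ν + ε) * N k := by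
      by_contra hne
      have hne' := Ultrafilter.eventually_not.2 hne
      have h3 := hX2 (fun z => - h z.1) (-(∫ m, h m.1 ∂X.ν + ε)) (by fun_prop)
        (hne'.mono (fun k hk => by
          push Not at hk
          rw [Finset.sum_neg_distrib]
          linarith))
      rw [integral_neg] at h3
      linarith
    exact hY2 (fun z => h' z.1) _ (by fun_prop) (key.mono (fun k hk => by simpa [he] using hk))
  have hpt : ∀ k i, ((F' k).pt i : E4) = ‖g ((F k).pt i : E4)‖⁻¹ • g ((F k).pt i : E4) := by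
    intro k i
    change (F' k).a i = ‖g ((F k).a i)‖⁻¹ • g ((F k).a i)
    rw [hFa' k i, hFa k i]
    have h1 : 0 < ‖lift (p k i)‖ := norm_pos_iff.2 (lift_ne _)
    simp only [LinearEquiv.refl_apply, map_smul, norm_smul, norm_inv, norm_norm]
    rw [smul_smul]
    congr 1
    field_simp
  have hiso : ∀ v : E4, ∫ m, (inner ℝ v (m.1 : E4) : ℝ) ^ 2 ∂Y.ν = ‖v‖ ^ 2 / 4 := by
    intro v
    have hh : Continuous (fun x : S3 => (inner ℝ v (‖g (x : E4)‖⁻¹ • g (x : E4)) : ℝ) ^ 2) := by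
      have h1 : Continuous (fun x : S3 => g (x : E4)) := hgc.comp continuous_subtype_val
      have h2 : Continuous (fun x : S3 => ‖g (x : E4)‖⁻¹) := h1.norm.inv₀ hgne
      exact (continuous_const.inner (h2.smul h1)).pow 2
    have hh' : Continuous (fun x : S3 => (inner ℝ v (x : E4) : ℝ) ^ 2) := by fun_prop
    have hI : ∫ m, (inner ℝ v (‖g (m.1 : E4)‖⁻¹ • g (m.1 : E4)) : ℝ) ^ 2 ∂X.ν = ‖v‖ ^ 2 / 4 := by
      rw [← hg v, integral_map (by fun_prop)]
      have h1 : Measurable (fun x : E4 => ‖g x‖⁻¹) := hgc.norm.measurable.inv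
      exact ((measurable_const.inner (h1.smul hgc.measurable)).pow_const 2).aestronglyMeasurable
    apply le_antisymm
    · rw [← hI]
      exact htr _ _ hh hh' (fun k i => by simp only [hpt])
    · rw [← hI]
      have h3 := htr (fun x => -((inner ℝ v (‖g (x : E4)‖⁻¹ • g (x : E4)) : ℝ) ^ 2))
        (fun x => -((inner ℝ v (x : E4) : ℝ) ^ 2)) hh.neg hh'.neg (fun k i => by simp only [hpt])
      rw [integral_neg, integral_neg] at h3
      linarith
  refine hT Y hiso (hY4.trans (ENNReal.ofReal_le_ofReal (min_le_left _ _))) ?_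
  intro W hW
  exact sub_null hY3 W (by omega)

end NPL
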