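import Pool.Agent.Lib.MP_4f1247_co.NL.Stmts14

/-!
# Three dependent unit vectors (N10)
-/

set_option autoImplicit false

namespace NPL

namespace Thin57

/-- the Gram determinant of three dependent unit vectors vanishes -/
theorem gram_zero {x y z : E4} (hx : ‖x‖ = 1) (hy : ‖y‖ = 1) (hz : ‖z‖ = 1)
    (h : ¬ LinearIndependent ℝ ![x, y, z]) :
    1 + 2 * ((inner ℝ x y : ℝ) * inner ℝ y z * inner ℝ x z) - (inner ℝ x y : ℝ) ^ 2 -
      (inner ℝ y z : ℝ) ^ 2 - (inner ℝ x z : ℝ) ^ 2 = 0 := by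
  rw [Fintype.not_linearIndependent_iff] at h
  obtain ⟨g, hg, i, hi⟩ := h
  simp only [Fin.sum_univ_three, Matrix.cons_val_zero, Matrix.cons_val_one,
    Matrix.cons_val_two, Matrix.head_cons, Matrix.tail_cons] at hg
  have xx : (inner ℝ x x : ℝ) = 1 := by rw [real_inner_self_eq_norm_sq, hx]; norm_num
  have yy : (inner ℝ y y : ℝ) = 1 := by rw [real_inner_self_eq_norm_sq, hy]; norm_num
  have zz : (inner ℝ z z : ℝ) = 1 := by rw [real_inner_self_eq_norm_sq, hz]; norm_num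
  have yx : (inner ℝ y x : ℝ) = inner ℝ x y := real_inner_comm _ _
  have zx : (inner ℝ z x : ℝ) = inner ℝ x z := real_inner_comm _ _
  have zy : (inner ℝ z y : ℝ) = inner ℝ y z := real_inner_comm _ _
  have e1 : (inner ℝ x (g 0 • x + g 1 • y + g 2 • z) : ℝ) = 0 := by rw [hg, inner_zero_right]
  have e2 : (inner ℝ y (g 0 • x + g 1 • y + g 2 • z) : ℝ) = 0 := by rw [hg, inner_zero_right]
  have e3 : (inner ℝ z (g 0 • x + g 1 • y + g 2 • z) : ℝ) = 0 := by rw [hg, inner_zero_right]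
  simp only [inner_add_right, real_inner_smul_right, xx, yy, zz, yx, zx, zy, mul_one] at e1 e2 e3
  set a : ℝ := inner ℝ x y
  set b : ℝ := inner ℝ y z with hb
  set c : ℝ := inner ℝ x z with hc
  have d0 : (1 + 2 * (a * b * c) - a ^ 2 - b ^ 2 - c ^ 2) * g 0 = 0 := by
    linear_combination (1 - b ^ 2) * e1 + (b * c - a) * e2 + (a * b - c) * e3
  have d1 : (1 + 2 * (a * b * c) - a ^ 2 - b ^ 2 - c ^ 2) * g 1 = 0 := by
    linear_combination (b * c - a) * e1 + (1 - c ^ 2) * e2 + (a * c - b) * e3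
  have d2 : (1 + 2 * (a * b * c) - a ^ 2 - b ^ 2 - c ^ 2) * g 2 = 0 := by
    linear_combination (a * b - c) * e1 + (a * c - b) * e2 + (1 - a ^ 2) * e3
  fin_cases i
  · exact (mul_eq_zero.1 d0).resolve_right hi
  · exact (mul_eq_zero.1 d1).resolve_right hi
  · exact (mul_eq_zero.1 d2).resolve_right hi

/-- the lower bound in terms of one inner product -/
theorem bound {a b c : ℝ} (ha : |a| ≤ 1)
    (h : 1 + 2 * (a * b * c) - a ^ 2 - b ^ 2 - c ^ 2 = 0) :
    |a| ^ 2 + 1 - |a| ≤ a ^ 2 + b ^ 2 + c ^ 2 := by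
  have ha0 : 0 ≤ |a| := abs_nonneg a
  have h1 : -(2 * (a * b * c)) ≤ |a| * (b ^ 2 + c ^ 2) := by
    have h2 : -(2 * (a * b * c)) ≤ |2 * (a * b * c)| := neg_le_abs _
    have h3 : |2 * (a * b * c)| = |a| * (2 * |b * c|) := by
      rw [mul_assoc a, abs_mul, abs_mul a]
      norm_num
      ring
    have h4 : 2 * |b * c| ≤ b ^ 2 + c ^ 2 := by
      rw [abs_mul]
      have := sq_nonneg (|b| - |c|)
      have hb := sq_abs b
      have hc := sq_abs c
      nlinarith
    rw [h3] at h2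
    exact h2.trans (mul_le_mul_of_nonneg_left h4 ha0)
  have h5 : 1 - |a| ^ 2 ≤ (1 + |a|) * (b ^ 2 + c ^ 2) := by
    rw [sq_abs]
    linarith
  have h6 : 1 - |a| ≤ b ^ 2 + c ^ 2 := by
    have h7 : (1 + |a|) * (1 - |a|) ≤ (1 + |a|) * (b ^ 2 + c ^ 2) := by
      calc (1 + |a|) * (1 - |a|) = 1 - |a| ^ 2 := by ring
        _ ≤ _ := h5
    exact le_of_mul_le_mul_left h7 (by linarith)
  rw [sq_abs]
  linarith

end Thin57

open Thin57 in
theorem stThin57 : StThin := by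
  intro x y z hx hy hz h
  have hg := gram_zero hx hy hz h
  have ha : |(inner ℝ x y : ℝ)| ≤ 1 := by
    have := abs_real_inner_le_norm x y
    rwa [hx, hy, mul_one] at this
  have hb := bound ha hg
  have ha0 : 0 ≤ |(inner ℝ x y : ℝ)| := abs_nonneg _
  unfold ssq
  refine ⟨?_, fun h9 => ?_⟩
  · have := sq_nonneg (|(inner ℝ x y : ℝ)| - 1 / 2)
    nlinarith
  · nlinarith

end NPL
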