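import Pool.Agent.Lib.MP_4f1247_co.NL.LimitB14
import Pool.Agent.Lib.MP_4f1247_co.NL.Loc11
import Pool.Agent.Lib.MP_4f1247_co.NL.Needle57
import Pool.Agent.Lib.MP_4f1247_co.NL.Az23
import Pool.Agent.Lib.MP_4f1247_co.NL.Rem52
import Pool.Agent.Lib.MP_4f1247_co.NL.Conc7
import Pool.Agent.Lib.MP_4f1247_co.NL.Thin57
import Pool.Agent.Lib.MP_4f1247_co.NL.Planes57
import Pool.Agent.Lib.MP_4f1247_co.NL.LimThm63
import Pool.Agent.Lib.MP_4f1247_co.NL.Main71
import Pool.Agent.Lib.MP_4f1247_co.NL.PolyFr9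
import Pool.Agent.Lib.MP_4f1247_co.NL.Forster97
import Pool.Agent.Lib.MP_4f1247_co.NL.Fat52
import Pool.Agent.Lib.MP_4f1247_co.NL.Slab19
import Pool.Agent.Lib.MP_4f1247_co.NL.Iso57
import Pool.Agent.Lib.MP_4f1247_co.NL.DichR14
import Pool.Agent.Lib.MP_4f1247_co.NL.SlabR14

/-!
# Limits of large neighborly polyhedra: assembly
-/

set_option autoImplicit false

open MeasureTheory Filter Topology
open scoped ENNReal

namespace NPL.All14

open Emp14 Loc11 Needle57 Az23 Conc7 Thin57 Planes57 H63 Poly9 Fo97 Slab19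

theorem a_limit : StLimit := limit14 stNeedle57 luneLoc enterLoc

theorem a_limThm : StLimThm :=
  limThm stThin57 stPlanes57 (fat52 az_23 hp_23 rem52 conc ceva stPlanes57)

theorem a_mainR : StMainR := stMainR a_limit a_limThm

theorem a_slabR : StSlabR := stSlabR a_limit a_limThm polyFr stForster

theorem a_iso : StIso := stIso

theorem a_dichR : StDichR := stDichR a_limit a_limThm stForster

end NPL.All14
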