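import Mathlib

/-!
# Limits of large neighborly polyhedra: definitions

A frame of a neighborly polyhedral surface is the set of its vertices as unit vectors of a
four-dimensional space (`u` stands for the ray `ℝ₊ u`, a point of the projective extension of
three-space), with the faces as cones over three of them.
-/

set_option autoImplicit false

open MeasureTheory Filter Topology
open scoped ENNReal

namespace NPL

/-- the space of the lifts -/
abbrev E4 := EuclideanSpace ℝ (Fin 4)

/-- unit vectors -/
abbrev S3 := Metric.sphere (0 : E4) 1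

/-- marks of a vertex: position, direction of its needle, a bit (`true`: the vertex belongs to the
chosen set) -/
abbrev Mk := S3 × S3 × Bool

/-- determinant of four vectors -/
noncomputable def det4 (u v w x : E4) : ℝ :=
  Matrix.det (Matrix.of fun i j : Fin 4 => (![u, v, w, x] i) j)

/-- a frame: the faces `T` of a neighborly surface and the lifts of its vertices -/
structure Fr (n : ℕ) where
  T : Finset (Finset (Fin n))
  a : Fin n → E4
  card3 : ∀ t ∈ T, t.card = 3
  two : ∀ i j : Fin n, i ≠ j → (T.filter (fun t => i ∈ t ∧ j ∈ t)).card = 2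
  unit : ∀ i, ‖a i‖ = 1
  inj : Function.Injective a
  /-- no segment `x y` with `x` not a vertex of the face `u v w` meets the face in a point
  different from `y` -/
  nc : ∀ u v w x y : Fin n, ({u, v, w} : Finset (Fin n)) ∈ T → x ≠ u → x ≠ v → x ≠ w →
    ∀ α β r s t : ℝ, 0 < α → 0 ≤ β → 0 ≤ r → 0 ≤ s → 0 ≤ t →
      α • a x + β • a y ≠ r • a u + s • a v + t • a w

/-- `α p + ξ x` lies in the cone over `u, a, b` for some `α > 0`, `ξ ≥ 0`: the segment `p x` meets
the face `u a b` in a point different from `x` -/
def Hit (p x u a b : E4) : Prop :=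
  ∃ α ξ r s t : ℝ, 0 < α ∧ 0 ≤ ξ ∧ 0 ≤ r ∧ 0 ≤ s ∧ 0 ≤ t ∧
    α • p + ξ • x = r • u + s • a + t • b

/-- `p` is seen from `u` at distance less than `η` in a direction `η`-near `e` -/
def Tw (u p e : E4) (η : ℝ) : Prop :=
  ∃ (τ : ℝ) (f : E4), 0 < τ ∧ τ < η ∧ ‖f‖ = 1 ∧ dist f e < η ∧ p = u + τ • f

/-- the vertex `i` has twins at distance `< η` in directions `η`-near `e` and `-e` -/
def Nd {n : ℕ} (a : Fin n → E4) (i : Fin n) (e : E4) (η : ℝ) : Prop :=
  ∃ j l : Fin n, Tw (a i) (a j) e η ∧ Tw (a i) (a l) (-e) η

/-- `x` is in the open lune of `a, b` around the axis `u e` and not on the plane `u a b` -/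
def Lune (u e a b x : E4) : Prop :=
  0 < det4 u x b e * det4 u a b e ∧ 0 < det4 u a x e * det4 u a b e ∧ det4 u a b x ≠ 0

/-- the needle `u e` enters the face `u a b` -/
def Ent (u e a b : E4) : Prop :=
  ∃ c s t : ℝ, 0 < s * t ∧ e = c • u + s • a + t • b

/-- the needle `u e` enters the face `u a b` whose plane separates `x` from `y` -/
def Enter (u e a b x y : E4) : Prop :=
  Ent u e a b ∧ det4 u a b x * det4 u a b y < 0

end NPL
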