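import Pool.Agent.Lib.MP_4f1247_co.NL.Stmts14

/-!
# Empirical measures
-/

set_option autoImplicit false

open MeasureTheory Filter Topology
open scoped ENNReal

namespace NPL

open TopologicalSpace

instance i1 : BorelSpace Mk := inferInstance
instance i2 : SecondCountableTopology Mk := inferInstance
instance i3 : BorelSpace (Mk × Mk) := Prod.borelSpace
instance i4 : BorelSpace (Mk × Mk × Mk) := Prod.borelSpace
instance i5 : SecondCountableTopology (Mk × Mk) := inferInstance
instance i6 : SecondCountableTopology (Mk × Mk × Mk) := inferInstance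
instance i7 : CompactSpace Mk := inferInstance
instance i8 : CompactSpace (Mk × Mk × Mk) := inferInstance
instance i9 : OpensMeasurableSpace (Mk × Mk × Mk) := inferInstance
instance i10 : OpensMeasurableSpace (Mk × Mk) := inferInstance
instance i11 : PseudoMetrizableSpace Mk := inferInstance
instance i12 : PseudoMetrizableSpace (Mk × Mk) := inferInstance
instance i13 : PseudoMetrizableSpace (Mk × Mk × Mk) := inferInstance
instance i14 : SecondCountableTopology ((Mk × Mk × Mk) × Mk) := inferInstance
instance i15 : SecondCountableTopology ((Mk × Mk × Mk) × (Mk × Mk)) := inferInstance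

end NPL

namespace NPL.Emp14

/-- the law of `f i` for a random element `i` of `s` -/
noncomputable def em {ι Y : Type*} [MeasurableSpace Y] (s : Finset ι) (f : ι → Y) : Measure Y :=
  (s.card : ℝ≥0∞)⁻¹ • ∑ i ∈ s, Measure.dirac (f i)

variable {ι κ Y Z : Type*} [MeasurableSpace Y] [MeasurableSpace Z]

open Classical in
lemma em_apply (s : Finset ι) (f : ι → Y) {A : Set Y} (hA : MeasurableSet A) :
    em s f A = (s.card : ℝ≥0∞)⁻¹ * ((s.filter (fun i => f i ∈ A)).card : ℝ≥0∞) := by
  unfold em
  rw [Measure.smul_apply, Measure.coe_finsetSum, Finset.sum_apply, smul_eq_mul]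
  congr 1
  rw [Finset.card_filter, Nat.cast_sum]
  refine Finset.sum_congr rfl fun i _ => ?_
  rw [Measure.dirac_apply' _ hA]
  by_cases h : f i ∈ A <;> simp [h]

lemma em_prob (s : Finset ι) (hs : s.Nonempty) (f : ι → Y) : IsProbabilityMeasure (em s f) := by
  constructor
  classical
  rw [em_apply s f MeasurableSet.univ]
  simp only [Set.mem_univ, Finset.filter_true]
  refine ENNReal.inv_mul_cancel ?_ (ENNReal.natCast_ne_top _)
  exact_mod_cast hs.card_pos.ne'

lemma em_map (s : Finset ι) (f : ι → Y) {g : Y → Z} (hg : Measurable g) :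
    (em s f).map g = em s (fun i => g (f i)) := by
  classical
  ext A hA
  rw [Measure.map_apply hg hA, em_apply _ _ (hg hA), em_apply _ _ hA]
  rfl

lemma em_prod (s : Finset ι) (t : Finset κ) (f : ι → Y) (g : κ → Z) (hs : s.Nonempty)
    (ht : t.Nonempty) :
    (em s f).prod (em t g) = em (s ×ˢ t) (fun p => (f p.1, g p.2)) := by
  have := em_prob s hs f
  have := em_prob t ht g
  classical
  symm
  refine Measure.prod_eq ?_ |>.symm
  intro A B hA hB
  rw [em_apply _ _ (hA.prod hB), em_apply _ _ hA, em_apply _ _ hB]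
  have key : ((s ×ˢ t).filter (fun p => (f p.1, g p.2) ∈ A ×ˢ B)).card =
      (s.filter (fun i => f i ∈ A)).card * (t.filter (fun i => g i ∈ B)).card := by
    rw [← Finset.card_product]
    congr 1
    ext p
    simp only [Finset.mem_filter, Finset.mem_product, Set.mem_prod]
    tauto
  have key' := congrArg (fun z : ℕ => ((s.card : ℝ≥0∞)⁻¹ * (t.card : ℝ≥0∞)⁻¹) * (z : ℝ≥0∞)) key
  rw [Finset.card_product]
  push_cast at key' ⊢
  rw [ENNReal.mul_inv (Or.inr (ENNReal.natCast_ne_top _)) (Or.inl (ENNReal.natCast_ne_top _))]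
  convert key' using 1
  · congr!
  · ring

lemma em_integral (s : Finset ι) (f : ι → Y) {h : Y → ℝ} (hh : StronglyMeasurable h) :
    ∫ y, h y ∂(em s f) = (s.card : ℝ)⁻¹ * ∑ i ∈ s, h (f i) := by
  unfold em
  rw [integral_smul_measure, integral_finsetSum_measure]
  · simp only [integral_dirac' _ _ hh, ENNReal.toReal_inv, ENNReal.toReal_natCast, smul_eq_mul]
  · intro i _
    exact integrable_dirac' hh (by simp)

lemma em_reindex (s : Finset ι) (t : Finset κ) (f : ι → Y) (g : κ → Y) (φ : ι → κ)
    (h1 : ∀ i ∈ s, φ i ∈ t) (h2 : ∀ i ∈ s, ∀ j ∈ s, φ i = φ j → i = j)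
    (h3 : ∀ k ∈ t, ∃ i ∈ s, φ i = k) (h4 : ∀ i ∈ s, f i = g (φ i)) : em s f = em t g := by
  unfold em
  have hc : s.card = t.card := Finset.card_bij (fun i _ => φ i) h1 (fun i hi j hj h => h2 i hi j hj h)
    (fun k hk => by obtain ⟨i, hi, e⟩ := h3 k hk; exact ⟨i, hi, e⟩)
  rw [hc]
  congr 1
  refine Finset.sum_bij (fun i _ => φ i) h1 (fun i hi j hj h => h2 i hi j hj h)
    (fun k hk => by obtain ⟨i, hi, e⟩ := h3 k hk; exact ⟨i, hi, e⟩) (fun i hi => by rw [h4 i hi])

end NPL.Emp14
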