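import Pool.Agent.Lib.MP_4f1247_co.NL.Stmts14

/-!
# N12, part 1: determinants of four vectors
-/

set_option autoImplicit false

open MeasureTheory Filter Topology Set
open scoped ENNReal

namespace NPL

theorem det4_exp52 (u v w x : E4) : det4 u v w x =
    u 0 * (v 1 * (w 2 * x 3 - w 3 * x 2) - v 2 * (w 1 * x 3 - w 3 * x 1)
      + v 3 * (w 1 * x 2 - w 2 * x 1))
    - u 1 * (v 0 * (w 2 * x 3 - w 3 * x 2) - v 2 * (w 0 * x 3 - w 3 * x 0)
      + v 3 * (w 0 * x 2 - w 2 * x 0))
    + u 2 * (v 0 * (w 1 * x 3 - w 3 * x 1) - v 1 * (w 0 * x 3 - w 3 * x 0)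
      + v 3 * (w 0 * x 1 - w 1 * x 0))
    - u 3 * (v 0 * (w 1 * x 2 - w 2 * x 1) - v 1 * (w 0 * x 2 - w 2 * x 0)
      + v 2 * (w 0 * x 1 - w 1 * x 0)) := by
  unfold det4
  simp only [Matrix.det_succ_row_zero, Fin.sum_univ_succ, Matrix.of_apply, Matrix.submatrix_apply,
    Fin.succAbove, Matrix.det_unique, Fin.default_eq_zero, Matrix.cons_val_zero,
    Matrix.cons_val_succ, Finset.univ_unique, Finset.sum_singleton]
  simp [Fin.succ_zero_eq_one, Fin.castSucc, Fin.lt_def]
  ring

theorem cont_det4_52 {α : Type*} [TopologicalSpace α] {u v w x : α → E4} (hu : Continuous u)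
    (hv : Continuous v) (hw : Continuous w) (hx : Continuous x) :
    Continuous fun a => det4 (u a) (v a) (w a) (x a) := by
  have h : ∀ (f : α → E4), Continuous f → ∀ i, Continuous fun a => f a i := by
    intro f hf i
    exact (PiLp.continuous_apply 2 (fun _ : Fin 4 => ℝ) i).comp hf
  simp only [det4_exp52]
  have u0 := h u hu 0
  have u1 := h u hu 1
  have u2 := h u hu 2
  have u3 := h u hu 3
  have v0 := h v hv 0
  have v1 := h v hv 1
  have v2 := h v hv 2
  have v3 := h v hv 3
  have w0 := h w hw 0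
  have w1 := h w hw 1
  have w2 := h w hw 2
  have w3 := h w hw 3
  have x0 := h x hx 0
  have x1 := h x hx 1
  have x2 := h x hx 2
  have x3 := h x hx 3
  fun_prop

/-- `det4` as a linear form in the last vector -/
noncomputable def dl52 (u v w : E4) : E4 →ₗ[ℝ] ℝ where
  toFun x := det4 u v w x
  map_add' x y := by
    simp only [det4_exp52, PiLp.add_apply]; ring
  map_smul' c x := by
    simp only [det4_exp52, PiLp.smul_apply, smul_eq_mul, RingHom.id_apply]; ring

theorem det_swap34_52 (u v w x : E4) : det4 u v x w = -det4 u v w x := by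
  simp only [det4_exp52]; ring

theorem det_swap23_52 (u v w x : E4) : det4 u w v x = -det4 u v w x := by
  simp only [det4_exp52]; ring

theorem det_swap12_52 (u v w x : E4) : det4 v u w x = -det4 u v w x := by
  simp only [det4_exp52]; ring

theorem det_self34_52 (u v w : E4) : det4 u v w w = 0 := by
  simp only [det4_exp52]; ring

theorem det_self24_52 (u v w : E4) : det4 u v w v = 0 := by
  simp only [det4_exp52]; ring

theorem det_self14_52 (u v w : E4) : det4 u v w u = 0 := by
  simp only [det4_exp52]; ring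

/-- the Pluecker relation modulo the plane `u e` -/
theorem pluck52 (u e a b q x : E4) :
    det4 u a q e * det4 u x b e = det4 u x q e * det4 u a b e + det4 u a x e * det4 u q b e := by
  simp only [det4_exp52]; ring

theorem li_iff52 (u v w x : E4) : LinearIndependent ℝ ![u, v, w, x] ↔ det4 u v w x ≠ 0 := by
  have hb := (EuclideanSpace.basisFun (Fin 4) ℝ).toBasis.is_basis_iff_det
    (v := ![u, v, w, x])
  have hdet : (EuclideanSpace.basisFun (Fin 4) ℝ).toBasis.det ![u, v, w, x] = det4 u v w x := by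
    rw [Module.Basis.det_apply, ← Matrix.det_transpose]
    unfold det4
    congr 1
  rw [hdet, isUnit_iff_ne_zero] at hb
  rw [← hb]
  constructor
  · intro h
    refine ⟨h, h.span_eq_top_of_card_eq_finrank' ?_⟩
    simp
  · exact fun h => h.1

/-- a vector in the hyperplane of three independent vectors -/
theorem comb52 {x y z e : E4} (h : LinearIndependent ℝ ![x, y, z]) (h0 : det4 x y z e = 0) :
    ∃ α β γ : ℝ, e = α • x + β • y + γ • z := by
  by_contra hcon
  have hnot : e ∉ Submodule.span ℝ (range ![x, y, z]) := by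
    intro hmem
    apply hcon
    rw [Submodule.mem_span_range_iff_exists_fun] at hmem
    obtain ⟨c, hc⟩ := hmem
    refine ⟨c 0, c 1, c 2, ?_⟩
    rw [← hc, Fin.sum_univ_three]
    rfl
  have h4 : LinearIndependent ℝ (Fin.snoc ![x, y, z] e : Fin 4 → E4) :=
    linearIndependent_finSnoc.2 ⟨h, hnot⟩
  have he : (Fin.snoc ![x, y, z] e : Fin 4 → E4) = ![x, y, z, e] := by
    ext i j
    fin_cases i <;> rfl
  rw [he, li_iff52] at h4
  exact h4 h0

theorem fin3_52 {u v w x : E4} (h : det4 u v w x ≠ 0) :
    Module.finrank ℝ (LinearMap.ker (dl52 u v w)) = 3 := by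
  have hne : dl52 u v w ≠ 0 := by
    intro h0
    apply h
    have := LinearMap.congr_fun h0 x
    exact this
  have h1 := Module.Dual.finrank_ker_add_one_of_ne_zero (f := dl52 u v w) hne
  have h2 : Module.finrank ℝ E4 = 4 := by simp
  omega

theorem mem_ker52 {u v w x : E4} : x ∈ LinearMap.ker (dl52 u v w) ↔ det4 u v w x = 0 := by
  rw [LinearMap.mem_ker]; rfl

theorem coe_ker52 (u v w : E4) :
    ((LinearMap.ker (dl52 u v w) : Submodule ℝ E4) : Set E4) = {x | det4 u v w x = 0} := by
  ext x
  exact mem_ker52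

theorem li3_52 {u v w x : E4} (h : det4 u v w x ≠ 0) : LinearIndependent ℝ ![u, v, w] := by
  have h4 := (li_iff52 u v w x).2 h
  have he : (Fin.snoc ![u, v, w] x : Fin 4 → E4) = ![u, v, w, x] := by
    ext i j
    fin_cases i <;> rfl
  rw [← he] at h4
  exact (linearIndependent_finSnoc.1 h4).1

end NPL
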