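import Pool.Agent.Lib.MP_4f1247_co.NL.FatA52

/-!
# N12, part 2: the two local statements at a fat face
-/

set_option autoImplicit false

open MeasureTheory Filter Topology Set
open scoped ENNReal

namespace NPL

/-- position of a mark -/
abbrev ps52 (m : Mk) : E4 := (m.1 : E4)

/-- needle of a mark -/
abbrev ed52 (m : Mk) : E4 := (m.2.1 : E4)

/-- the mark is chosen -/
abbrev ch52 (m : Mk) : Prop := m.2.2 = true

theorem cont_ps52 : Continuous ps52 := continuous_subtype_val.comp continuous_fst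

theorem cont_ed52 : Continuous ed52 :=
  continuous_subtype_val.comp (continuous_fst.comp continuous_snd)

theorem meas_ch52 : MeasurableSet {m : Mk | ch52 m} := by
  have : Measurable fun m : Mk => m.2.2 := by fun_prop
  exact this (measurableSet_singleton true)

theorem norm_ps52 (m : Mk) : ‖ps52 m‖ = 1 := by
  simp

theorem norm_ed52 (m : Mk) : ‖ed52 m‖ = 1 := by
  simp

theorem pair_li52 {x e : E4} (hx : ‖x‖ = 1) (he : ‖e‖ = 1) (h : inner ℝ x e = 0) :
    LinearIndependent ℝ ![x, e] := by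
  rw [LinearIndependent.pair_iff]
  intro s t hst
  have h1 : inner ℝ x (s • x + t • e) = 0 := by rw [hst, inner_zero_right]
  have h2 : inner ℝ e (s • x + t • e) = 0 := by rw [hst, inner_zero_right]
  rw [inner_add_right, inner_smul_right, inner_smul_right, h, real_inner_self_eq_norm_sq, hx] at h1
  rw [inner_add_right, inner_smul_right, inner_smul_right, real_inner_comm, h,
    real_inner_self_eq_norm_sq, he] at h2
  constructor
  · linarith
  · linarith

namespace Lim

variable (X : Lim)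

instance i52 : IsProbabilityMeasure X.ν := X.prob
instance iL52 : IsProbabilityMeasure X.Λ := X.probΛ

instance im52 : IsFiniteMeasure X.mu := by
  unfold Lim.mu; infer_instance

theorem mu_app52 {S : Set E4} (hS : MeasurableSet S) :
    X.mu S = X.ν {m | ch52 m ∧ ps52 m ∈ S} := by
  unfold Lim.mu
  rw [Measure.map_apply (by fun_prop) hS, Measure.restrict_apply]
  · congr 1
    ext m
    simp only [mem_inter_iff, mem_preimage, mem_ofPred_eq]
    exact and_comm
  · exact cont_ps52.measurable hS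

theorem ae_mu52 {P : E4 → Prop} (h : ∀ᵐ x ∂X.mu, P x) :
    ∀ᵐ m ∂X.ν, ch52 m → P (ps52 m) := by
  unfold Lim.mu at h
  have h1 := ae_of_ae_map (by fun_prop) h
  exact (ae_restrict_iff' meas_ch52).1 h1

theorem ae_pair52 {P : Mk × Mk → Prop} (h : ∀ᵐ p ∂X.ν.prod X.ν, P p) :
    ∀ᵐ t ∂X.Λ, P (t.1, t.2.1) := by
  rw [← X.pair] at h
  exact ae_of_ae_map (by fun_prop) h

theorem ae_fst52 {P : Mk → Prop} (h : ∀ᵐ m ∂X.ν, P m) : ∀ᵐ t ∂X.Λ, P t.1 := by
  have h1 : ∀ᵐ p ∂X.ν.prod X.ν, P p.1 := Measure.quasiMeasurePreserving_fst.ae h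
  exact X.ae_pair52 h1

theorem ae_swap52 {P : Mk × Mk × Mk → Prop} (h : ∀ᵐ t ∂X.Λ, P t) :
    ∀ᵐ t ∂X.Λ, P (t.2.1, t.1, t.2.2) := by
  rw [← X.swap] at h
  exact ae_of_ae_map (by fun_prop) h

theorem ae_rot52 {P : Mk × Mk × Mk → Prop} (h : ∀ᵐ t ∂X.Λ, P t) :
    ∀ᵐ t ∂X.Λ, P (t.2.1, t.2.2, t.1) := by
  rw [← X.rot] at h
  exact ae_of_ae_map (by fun_prop) h

/-- swap of the last two -/
theorem ae_swap23_52 {P : Mk × Mk × Mk → Prop} (h : ∀ᵐ t ∂X.Λ, P t) :
    ∀ᵐ t ∂X.Λ, P (t.1, t.2.2, t.2.1) := by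
  filter_upwards [X.ae_rot52 (X.ae_rot52 (X.ae_swap52 h))] with t ht
  exact ht

theorem ae_orth52 : ∀ᵐ m ∂X.ν, LinearIndependent ℝ ![ps52 m, ed52 m] := by
  filter_upwards [X.orth] with m hm
  exact pair_li52 (norm_ps52 m) (norm_ed52 m) hm

end Lim

/-- the open lune -/
def cone52 (u e a b : E4) : Set E4 :=
  {x | 0 < det4 u x b e * det4 u a b e ∧ 0 < det4 u a x e * det4 u a b e}

theorem cone_sub52 {u e a b q : E4} (h0 : det4 u a b e ≠ 0) (hq : q ∈ cone52 u e a b) :
    det4 u a q e ≠ 0 ∧ cone52 u e a q ⊆ cone52 u e a b := by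
  obtain ⟨h1, h2⟩ := hq
  have hne : det4 u a q e ≠ 0 := by
    intro h; rw [h] at h2; simp at h2
  refine ⟨hne, ?_⟩
  rintro x ⟨h3, h4⟩
  have hp := pluck52 u e a b q x
  have hsq : 0 < det4 u a q e * det4 u a q e := mul_self_pos.2 hne
  have hsD : 0 < det4 u a b e * det4 u a b e := mul_self_pos.2 h0
  constructor
  · have e1 : (det4 u a q e * det4 u a q e) * (det4 u x b e * det4 u a b e) =
        (det4 u x q e * det4 u a q e) * (det4 u a b e * det4 u a b e) +
        (det4 u a x e * det4 u a q e) * (det4 u q b e * det4 u a b e) := by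
      linear_combination (det4 u a q e * det4 u a b e) * hp
    have e2 : 0 < (det4 u a q e * det4 u a q e) * (det4 u x b e * det4 u a b e) := by
      rw [e1]; positivity
    exact (pos_iff_pos_of_mul_pos e2).1 hsq
  · have e2 : 0 < (det4 u a q e * det4 u a q e) * (det4 u a x e * det4 u a b e) := by
      have : (det4 u a q e * det4 u a q e) * (det4 u a x e * det4 u a b e) =
        (det4 u a x e * det4 u a q e) * (det4 u a q e * det4 u a b e) := by ring
      rw [this]; positivity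
    exact (pos_iff_pos_of_mul_pos e2).1 hsq

theorem isOpen_cone52 (u e a b : E4) : IsOpen (cone52 u e a b) := by
  have h1 : Continuous fun x => det4 u x b e * det4 u a b e :=
    (cont_det4_52 continuous_const continuous_id continuous_const continuous_const).mul
      continuous_const
  have h2 : Continuous fun x => det4 u a x e * det4 u a b e :=
    (cont_det4_52 continuous_const continuous_const continuous_id continuous_const).mul
      continuous_const
  exact (isOpen_lt continuous_const h1).inter (isOpen_lt continuous_const h2)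

theorem cone_ne52 {u e a b : E4} (h0 : det4 u a b e ≠ 0) : (cone52 u e a b).Nonempty := by
  refine ⟨a + b, ?_, ?_⟩
  · have : det4 u (a + b) b e = det4 u a b e := by
      simp only [det4_exp52, PiLp.add_apply]; ring
    rw [this]; exact mul_self_pos.2 h0
  · have : det4 u a (a + b) e = det4 u a b e := by
      simp only [det4_exp52, PiLp.add_apply]; ring
    rw [this]; exact mul_self_pos.2 h0

theorem cone_symm52 (u e a b : E4) : cone52 u e b a = cone52 u e a b := by
  ext x
  unfold cone52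
  simp only [mem_ofPred_eq]
  rw [det_swap23_52 u a x e, det_swap23_52 u a b e, det_swap23_52 u x b e]
  constructor
  · rintro ⟨h1, h2⟩; exact ⟨by nlinarith, by nlinarith⟩
  · rintro ⟨h1, h2⟩; exact ⟨by nlinarith, by nlinarith⟩

/-- measurable form of the azimuth lemma -/
def P5_52 (μ : Measure E4) (Q : Set E4) (u e a : E4) : Prop :=
  0 < μ {x | det4 u e a x = 0} ∨ ∀ q ∈ Q, det4 u a q e ≠ 0 → 0 < μ (cone52 u e a q)

theorem P5_all52 {μ : Measure E4} {Q : Set E4} (hQ : Dense Q) {u e a : E4}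
    (h : P5_52 μ Q u e a) : 0 < μ {x | det4 u e a x = 0} ∨ ∀ b : E4, det4 u a b e ≠ 0 →
      0 < μ (cone52 u e a b) := by
  rcases h with h | h
  · exact Or.inl h
  · right
    intro b hb
    obtain ⟨q, hq1, hq2⟩ := hQ.inter_open_nonempty _ (isOpen_cone52 u e a b) (cone_ne52 hb)
    obtain ⟨h1, h2⟩ := cone_sub52 hb hq1
    exact (h q hq2 h1).trans_le (measure_mono h2)

theorem meas_pos52 {α : Type*} [MeasurableSpace α] (μ : Measure E4) [IsFiniteMeasure μ]
    {S : Set (α × E4)} (hS : MeasurableSet S) : MeasurableSet {a | 0 < μ {x | (a, x) ∈ S}} :=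
  measurableSet_lt measurable_const (measurable_measure_prodMk_left hS)

theorem meas_P5_52 (μ : Measure E4) [IsFiniteMeasure μ] {Q : Set E4} (hQ : Q.Countable) :
    MeasurableSet {p : Mk × Mk | P5_52 μ Q (ps52 p.1) (ed52 p.1) (ps52 p.2)} := by
  have cu : Continuous fun z : (Mk × Mk) × E4 => ps52 z.1.1 :=
    cont_ps52.comp (continuous_fst.comp continuous_fst)
  have ce : Continuous fun z : (Mk × Mk) × E4 => ed52 z.1.1 :=
    cont_ed52.comp (continuous_fst.comp continuous_fst)
  have ca : Continuous fun z : (Mk × Mk) × E4 => ps52 z.1.2 :=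
    cont_ps52.comp (continuous_snd.comp continuous_fst)
  have cx : Continuous fun z : (Mk × Mk) × E4 => z.2 := continuous_snd
  have h1 : MeasurableSet {p : Mk × Mk | 0 < μ {x | det4 (ps52 p.1) (ed52 p.1) (ps52 p.2) x = 0}} := by
    have hS : MeasurableSet {z : (Mk × Mk) × E4 |
        det4 (ps52 z.1.1) (ed52 z.1.1) (ps52 z.1.2) z.2 = 0} :=
      (isClosed_eq (cont_det4_52 cu ce ca cx) continuous_const).measurableSet
    exact meas_pos52 μ hS
  have h2 : ∀ q : E4, MeasurableSet {p : Mk × Mk | det4 (ps52 p.1) (ps52 p.2) q (ed52 p.1) ≠ 0 →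
      0 < μ (cone52 (ps52 p.1) (ed52 p.1) (ps52 p.2) q)} := by
    intro q
    have hS : MeasurableSet {z : (Mk × Mk) × E4 |
        z.2 ∈ cone52 (ps52 z.1.1) (ed52 z.1.1) (ps52 z.1.2) q} := by
      have c1 : Continuous fun z : (Mk × Mk) × E4 =>
          det4 (ps52 z.1.1) z.2 q (ed52 z.1.1) * det4 (ps52 z.1.1) (ps52 z.1.2) q (ed52 z.1.1) :=
        (cont_det4_52 cu cx continuous_const ce).mul (cont_det4_52 cu ca continuous_const ce)
      have c2 : Continuous fun z : (Mk × Mk) × E4 =>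
          det4 (ps52 z.1.1) (ps52 z.1.2) z.2 (ed52 z.1.1) *
            det4 (ps52 z.1.1) (ps52 z.1.2) q (ed52 z.1.1) :=
        (cont_det4_52 cu ca cx ce).mul (cont_det4_52 cu ca continuous_const ce)
      exact ((isOpen_lt continuous_const c1).inter (isOpen_lt continuous_const c2)).measurableSet
    have hA := meas_pos52 μ hS
    have hB : MeasurableSet {p : Mk × Mk | det4 (ps52 p.1) (ps52 p.2) q (ed52 p.1) ≠ 0} := by
      have c3 : Continuous fun p : Mk × Mk => det4 (ps52 p.1) (ps52 p.2) q (ed52 p.1) :=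
        cont_det4_52 (cont_ps52.comp continuous_fst) (cont_ps52.comp continuous_snd)
          continuous_const (cont_ed52.comp continuous_fst)
      exact (isOpen_ne_fun c3 continuous_const).measurableSet
    have : {p : Mk × Mk | det4 (ps52 p.1) (ps52 p.2) q (ed52 p.1) ≠ 0 →
      0 < μ (cone52 (ps52 p.1) (ed52 p.1) (ps52 p.2) q)} =
      {p : Mk × Mk | det4 (ps52 p.1) (ps52 p.2) q (ed52 p.1) ≠ 0}ᶜ ∪
      {p | 0 < μ {x | (p, x) ∈ {z : (Mk × Mk) × E4 |
        z.2 ∈ cone52 (ps52 z.1.1) (ed52 z.1.1) (ps52 z.1.2) q}}} := by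
      ext p
      simp only [mem_ofPred_eq, mem_union, mem_compl_iff]
      rw [imp_iff_not_or]
      rfl
    rw [this]
    exact hB.compl.union hA
  have h3 : {p : Mk × Mk | P5_52 μ Q (ps52 p.1) (ed52 p.1) (ps52 p.2)} =
      {p : Mk × Mk | 0 < μ {x | det4 (ps52 p.1) (ed52 p.1) (ps52 p.2) x = 0}} ∪
      ⋂ q ∈ Q, {p : Mk × Mk | det4 (ps52 p.1) (ps52 p.2) q (ed52 p.1) ≠ 0 →
        0 < μ (cone52 (ps52 p.1) (ed52 p.1) (ps52 p.2) q)} := by
    ext p
    simp only [P5_52, mem_ofPred_eq, mem_union, mem_iInter]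
  rw [h3]
  exact h1.union (MeasurableSet.biInter hQ fun q _ => h2 q)

/-- measurable form of the half space lemma -/
def P6_52 (μ : Measure E4) (u e a : E4) : Prop :=
  0 < μ {x | det4 u e a x = 0} ∨
      (0 < μ {x | 0 < det4 u e a x} ∧ 0 < μ {x | det4 u e a x < 0})

theorem meas_P6_52 (μ : Measure E4) [IsFiniteMeasure μ] :
    MeasurableSet {p : Mk × Mk | P6_52 μ (ps52 p.1) (ed52 p.1) (ps52 p.2)} := by
  have cu : Continuous fun z : (Mk × Mk) × E4 => ps52 z.1.1 :=
    cont_ps52.comp (continuous_fst.comp continuous_fst)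
  have ce : Continuous fun z : (Mk × Mk) × E4 => ed52 z.1.1 :=
    cont_ed52.comp (continuous_fst.comp continuous_fst)
  have ca : Continuous fun z : (Mk × Mk) × E4 => ps52 z.1.2 :=
    cont_ps52.comp (continuous_snd.comp continuous_fst)
  have cx : Continuous fun z : (Mk × Mk) × E4 => z.2 := continuous_snd
  have c := cont_det4_52 cu ce ca cx
  have h1 : MeasurableSet {z : (Mk × Mk) × E4 |
      det4 (ps52 z.1.1) (ed52 z.1.1) (ps52 z.1.2) z.2 = 0} :=
    (isClosed_eq c continuous_const).measurableSet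
  have h2 : MeasurableSet {z : (Mk × Mk) × E4 |
      0 < det4 (ps52 z.1.1) (ed52 z.1.1) (ps52 z.1.2) z.2} :=
    (isOpen_lt continuous_const c).measurableSet
  have h3 : MeasurableSet {z : (Mk × Mk) × E4 |
      det4 (ps52 z.1.1) (ed52 z.1.1) (ps52 z.1.2) z.2 < 0} :=
    (isOpen_lt c continuous_const).measurableSet
  exact (meas_pos52 μ h1).union ((meas_pos52 μ h2).inter (meas_pos52 μ h3))

namespace Lim

variable (X : Lim)

theorem ae_P5_52 (hAz : StAz) {Q : Set E4} (hQ : Q.Countable) :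
    ∀ᵐ p ∂X.ν.prod X.ν, ch52 p.2 → P5_52 X.mu Q (ps52 p.1) (ed52 p.1) (ps52 p.2) := by
  have hm : MeasurableSet {p : Mk × Mk | ch52 p.2 →
      P5_52 X.mu Q (ps52 p.1) (ed52 p.1) (ps52 p.2)} := by
    have h1 : MeasurableSet {p : Mk × Mk | ch52 p.2} := measurable_snd meas_ch52
    have : {p : Mk × Mk | ch52 p.2 → P5_52 X.mu Q (ps52 p.1) (ed52 p.1) (ps52 p.2)} =
        {p : Mk × Mk | ch52 p.2}ᶜ ∪ {p | P5_52 X.mu Q (ps52 p.1) (ed52 p.1) (ps52 p.2)} := by
      ext p
      simp only [mem_ofPred_eq, mem_union, mem_compl_iff]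
      exact imp_iff_not_or
    rw [this]
    exact h1.compl.union (meas_P5_52 X.mu hQ)
  rw [Measure.ae_prod_iff_ae_ae hm]
  filter_upwards [X.ae_orth52] with m hm1
  have h2 := X.ae_mu52 (hAz X.mu (ps52 m) (ed52 m) hm1)
  filter_upwards [h2] with m' hm' hc
  rcases hm' hc with h | h
  · exact Or.inl h
  · right
    intro q _ hq
    exact h q hq

theorem ae_P6_52 (hHp : StHp) :
    ∀ᵐ p ∂X.ν.prod X.ν, ch52 p.2 → P6_52 X.mu (ps52 p.1) (ed52 p.1) (ps52 p.2) := by
  have hm : MeasurableSet {p : Mk × Mk | ch52 p.2 →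
      P6_52 X.mu (ps52 p.1) (ed52 p.1) (ps52 p.2)} := by
    have h1 : MeasurableSet {p : Mk × Mk | ch52 p.2} := measurable_snd meas_ch52
    have : {p : Mk × Mk | ch52 p.2 → P6_52 X.mu (ps52 p.1) (ed52 p.1) (ps52 p.2)} =
        {p : Mk × Mk | ch52 p.2}ᶜ ∪ {p | P6_52 X.mu (ps52 p.1) (ed52 p.1) (ps52 p.2)} := by
      ext p
      simp only [mem_ofPred_eq, mem_union, mem_compl_iff]
      exact imp_iff_not_or
    rw [this]
    exact h1.compl.union (meas_P6_52 X.mu)
  rw [Measure.ae_prod_iff_ae_ae hm]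
  filter_upwards [X.ae_orth52] with m hm1
  exact X.ae_mu52 (hHp X.mu (ps52 m) (ed52 m) hm1)

/-- the lune of a face is empty of chosen marks -/
theorem ae_lune52 : ∀ᵐ t ∂X.Λ, X.mu {x | Lune (ps52 t.1) (ed52 t.1) (ps52 t.2.1) (ps52 t.2.2) x}
    = 0 := by
  have h := Measure.ae_ae_of_ae_prod X.lune
  filter_upwards [h] with t ht
  have hS : MeasurableSet {x | Lune (ps52 t.1) (ed52 t.1) (ps52 t.2.1) (ps52 t.2.2) x} := by
    have c1 : IsOpen {x | det4 (ps52 t.1) (ps52 t.2.1) (ps52 t.2.2) x ≠ 0} :=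
      isOpen_ne_fun (cont_det4_52 continuous_const continuous_const continuous_const
        continuous_id) continuous_const
    have c2 := isOpen_cone52 (ps52 t.1) (ed52 t.1) (ps52 t.2.1) (ps52 t.2.2)
    have : {x | Lune (ps52 t.1) (ed52 t.1) (ps52 t.2.1) (ps52 t.2.2) x} =
        cone52 (ps52 t.1) (ed52 t.1) (ps52 t.2.1) (ps52 t.2.2) ∩
        {x | det4 (ps52 t.1) (ps52 t.2.1) (ps52 t.2.2) x ≠ 0} := by
      ext x
      simp only [Lune, cone52, mem_inter_iff, mem_ofPred_eq, and_assoc]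
    rw [this]
    exact (c2.inter c1).measurableSet
  rw [X.mu_app52 hS]
  have h2 : ∀ᵐ m ∂X.ν, ¬ (ch52 m ∧ ps52 m ∈ {x | Lune (ps52 t.1) (ed52 t.1) (ps52 t.2.1)
      (ps52 t.2.2) x}) := by
    filter_upwards [ht] with m hm hc
    exact hm hc.2
  exact measure_eq_zero_iff_ae_notMem.2 h2

/-- the needle of a fat face not in a charged plane lies in the plane of the face -/
theorem flat52 (hAz : StAz) (hPl : StPlanes) (hN : NoLine X.mu) :
    ∀ᵐ t ∂X.Λ, ch52 t.1 → ch52 t.2.1 → ch52 t.2.2 →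
      X.mu {w | det4 (ps52 t.1) (ps52 t.2.1) (ps52 t.2.2) w = 0} = 0 →
      det4 (ps52 t.1) (ps52 t.2.1) (ps52 t.2.2) (ed52 t.1) = 0 := by
  obtain ⟨Q, hQc, hQd⟩ := TopologicalSpace.exists_countable_dense E4
  have k1 := X.ae_pair52 (X.ae_P5_52 hAz hQc)
  have k2 := X.ae_swap23_52 k1
  have k3 := X.ae_fst52 (X.ae_mu52 (hPl X.mu hN).2)
  filter_upwards [k1, k2, k3, X.ae_lune52] with t h1 h2 h3 h4 c1 c2 c3 hpl
  by_contra hD
  set u := ps52 t.1
  set e := ed52 t.1
  set a := ps52 t.2.1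
  set b := ps52 t.2.2
  have hcone : X.mu (cone52 u e a b) = 0 := by
    refine measure_mono_null (t := {x | Lune u e a b x} ∪ {w | det4 u a b w = 0}) ?_
      (measure_union_null h4 hpl)
    intro x hx
    by_cases h0 : det4 u a b x = 0
    · exact Or.inr h0
    · exact Or.inl ⟨hx.1, hx.2, h0⟩
  have w1 : 0 < X.mu {x | det4 u e a x = 0} := by
    rcases P5_all52 hQd (h1 c2) with h | h
    · exact h
    · exact absurd hcone (h b hD).ne'
  have w2 : 0 < X.mu {x | det4 u e b x = 0} := by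
    rcases P5_all52 hQd (h2 c3) with h | h
    · exact h
    · have hba : det4 u b a e ≠ 0 := by
        rw [det_swap23_52]; exact neg_ne_zero.2 hD
      have := h a hba
      rw [cone_symm52] at this
      exact absurd hcone this.ne'
  have e1 : det4 u e a b = det4 u a b e := by
    simp only [det4_exp52]; ring
  have hab : det4 u e a b ≠ 0 := by rw [e1]; exact hD
  have hba : det4 u e b a ≠ 0 := by
    rw [det_swap34_52]; exact neg_ne_zero.2 hab
  have q1 := fin3_52 hab
  have q2 := fin3_52 hba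
  rw [← coe_ker52] at w1 w2
  have heq := h3 c1 _ _ q1 q2 w1 w2 (mem_ker52.2 (det_self14_52 u e a))
    (mem_ker52.2 (det_self14_52 u e b))
  have hb : b ∈ LinearMap.ker (dl52 u e b) := mem_ker52.2 (det_self34_52 u e b)
  rw [← heq] at hb
  exact hab (mem_ker52.1 hb)

/-- the needle does not enter a fat face which is not in a charged plane -/
theorem noent52 (hHp : StHp) :
    ∀ᵐ t ∂X.Λ, ch52 t.1 → ch52 t.2.1 → ch52 t.2.2 →
      X.mu {w | det4 (ps52 t.1) (ps52 t.2.1) (ps52 t.2.2) w = 0} = 0 →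
      ¬ Ent (ps52 t.1) (ed52 t.1) (ps52 t.2.1) (ps52 t.2.2) := by
  have k1 := X.ae_pair52 (X.ae_P6_52 hHp)
  have k4 := Measure.ae_ae_of_ae_prod X.enter
  filter_upwards [k1, k4] with t h1 h4 c1 c2 c3 hpl hent
  set u := ps52 t.1
  set e := ed52 t.1
  set a := ps52 t.2.1
  set b := ps52 t.2.2
  obtain ⟨c, s, r, hsr, he⟩ := id hent
  have hr : r ≠ 0 := by rintro rfl; simp at hsr
  have hdet : ∀ x, det4 u e a x = -r * det4 u a b x := by
    intro x
    rw [he]
    simp only [det4_exp52, PiLp.add_apply, PiLp.smul_apply, smul_eq_mul]; ring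
  have hz : X.mu {x | det4 u e a x = 0} = 0 := by
    refine measure_mono_null ?_ hpl
    intro x hx
    have hx' : det4 u e a x = 0 := hx
    rw [hdet] at hx'
    rcases mul_eq_zero.1 hx' with h | h
    · exact absurd (neg_eq_zero.1 h) hr
    · exact h
  rcases h1 c2 with h | ⟨hp, hn⟩
  · exact absurd hz h.ne'
  · have m1 : MeasurableSet {x | 0 < det4 u e a x} :=
      (isOpen_lt continuous_const (cont_det4_52 continuous_const continuous_const
        continuous_const continuous_id)).measurableSet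
    have m2 : MeasurableSet {x | det4 u e a x < 0} :=
      (isOpen_lt (cont_det4_52 continuous_const continuous_const
        continuous_const continuous_id) continuous_const).measurableSet
    rw [X.mu_app52 m1] at hp
    rw [X.mu_app52 m2] at hn
    have hprod : (X.ν.prod X.ν) ({m | ch52 m ∧ ps52 m ∈ {x | 0 < det4 u e a x}} ×ˢ
        {m | ch52 m ∧ ps52 m ∈ {x | det4 u e a x < 0}}) ≠ 0 := by
      rw [Measure.prod_prod]
      exact mul_ne_zero hp.ne' hn.ne'
    apply hprod
    have h5 : ∀ᵐ z ∂X.ν.prod X.ν, z ∉ ({m | ch52 m ∧ ps52 m ∈ {x | 0 < det4 u e a x}} ×ˢ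
        {m | ch52 m ∧ ps52 m ∈ {x | det4 u e a x < 0}}) := by
      filter_upwards [h4] with z hz hmem
      apply hz
      refine ⟨hent, ?_⟩
      obtain ⟨⟨_, g1⟩, ⟨_, g2⟩⟩ := hmem
      have g1' : 0 < det4 u e a (ps52 z.1) := g1
      have g2' : det4 u e a (ps52 z.2) < 0 := g2
      rw [hdet] at g1' g2'
      have hrr : 0 < r * r := mul_self_pos.2 hr
      have hprod2 : (-r * det4 u a b (ps52 z.1)) * (-r * det4 u a b (ps52 z.2)) < 0 :=
        mul_neg_of_pos_of_neg g1' g2'
      have hprod3 : (r * r) * (det4 u a b (ps52 z.1) * det4 u a b (ps52 z.2)) < 0 := by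
        nlinarith
      exact (pos_iff_neg_of_mul_neg hprod3).1 hrr
    exact measure_eq_zero_iff_ae_notMem.2 h5

end Lim

end NPL
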