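import Pool.Agent.Lib.MP_4f1247_co.NL.FatB52

/-!
# N12, part 3: classes of needles through one point
-/

set_option autoImplicit false

open MeasureTheory Filter Topology Set
open scoped ENNReal

namespace NPL

theorem li_swap12_52 {x y z : E4} (h : LinearIndependent ℝ ![x, y, z]) :
    LinearIndependent ℝ ![y, x, z] := by
  have h1 := h.comp ![1, 0, 2] (by intro i j; fin_cases i <;> fin_cases j <;> simp)
  have : ![x, y, z] ∘ ![1, 0, 2] = ![y, x, z] := by
    ext i j; fin_cases i <;> rfl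
  rwa [this] at h1

theorem li_rot52 {x y z : E4} (h : LinearIndependent ℝ ![x, y, z]) :
    LinearIndependent ℝ ![y, z, x] := by
  have h1 := h.comp ![1, 2, 0] (by intro i j; fin_cases i <;> fin_cases j <;> simp)
  have : ![x, y, z] ∘ ![1, 2, 0] = ![y, z, x] := by
    ext i j; fin_cases i <;> rfl
  rwa [this] at h1

theorem ex_w52 {x y z : E4} (h : LinearIndependent ℝ ![x, y, z]) :
    ∃ w, det4 x y z w ≠ 0 := by
  have hfin : Module.finrank ℝ (Submodule.span ℝ (range ![x, y, z])) = 3 := by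
    rw [finrank_span_eq_card h]; simp
  have hne : Submodule.span ℝ (range ![x, y, z]) ≠ ⊤ := by
    intro h0
    rw [h0, finrank_top] at hfin
    simp at hfin
  obtain ⟨w, hw⟩ : ∃ w, w ∉ Submodule.span ℝ (range ![x, y, z]) := by
    by_contra hcon
    push Not at hcon
    exact hne (Submodule.eq_top_iff'.2 hcon)
  refine ⟨w, ?_⟩
  have h4 : LinearIndependent ℝ (Fin.snoc ![x, y, z] w : Fin 4 → E4) :=
    linearIndependent_finSnoc.2 ⟨h, hw⟩
  have he : (Fin.snoc ![x, y, z] w : Fin 4 → E4) = ![x, y, z, w] := by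
    ext i j
    fin_cases i <;> rfl
  rwa [he, li_iff52] at h4

/-- marks whose needle passes through the line `L` -/
def C52 (L : Submodule ℝ E4) : Set Mk :=
  {m | ch52 m ∧ inner ℝ (ps52 m) (ed52 m) = 0 ∧ L ≤ Submodule.span ℝ {ps52 m, ed52 m}}

theorem gen52 {L : Submodule ℝ E4} (hL : Module.finrank ℝ L = 1) :
    ∃ O : E4, O ≠ 0 ∧ L = Submodule.span ℝ {O} := by
  have hne : L ≠ ⊥ := by
    rintro rfl
    simp at hL
  obtain ⟨O, hOL, hO⟩ := Submodule.exists_mem_ne_zero_of_ne_bot hne
  refine ⟨O, hO, (Submodule.eq_of_le_of_finrank_eq ?_ ?_).symm⟩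
  · rw [Submodule.span_singleton_le_iff_mem]; exact hOL
  · rw [finrank_span_singleton hO, hL]

theorem meas_C52 {L : Submodule ℝ E4} (hL : Module.finrank ℝ L = 1) :
    MeasurableSet (C52 L) := by
  obtain ⟨O, hO, rfl⟩ := gen52 hL
  have h : C52 (Submodule.span ℝ {O}) = {m : Mk | ch52 m} ∩
      ({m | inner ℝ (ps52 m) (ed52 m) = 0} ∩
      {m | O = (inner ℝ (ps52 m) O : ℝ) • ps52 m + (inner ℝ (ed52 m) O : ℝ) • ed52 m}) := by
    ext m
    simp only [C52, mem_ofPred_eq, mem_inter_iff, Submodule.span_singleton_le_iff_mem]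
    refine and_congr_right fun _ => and_congr_right fun h0 => ?_
    rw [Submodule.mem_span_pair]
    constructor
    · rintro ⟨a, b, rfl⟩
      have h1 : inner ℝ (ps52 m) (a • ps52 m + b • ed52 m) = a := by
        rw [inner_add_right, inner_smul_right, inner_smul_right, h0,
          real_inner_self_eq_norm_sq, norm_ps52]; ring
      have h2 : inner ℝ (ed52 m) (a • ps52 m + b • ed52 m) = b := by
        rw [inner_add_right, inner_smul_right, inner_smul_right, real_inner_comm, h0,
          real_inner_self_eq_norm_sq, norm_ed52]; ring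
      rw [h1, h2]
    · intro h1
      exact ⟨_, _, h1.symm⟩
  rw [h]
  refine meas_ch52.inter (MeasurableSet.inter ?_ ?_)
  · have c : Continuous fun m : Mk => (inner ℝ (ps52 m) (ed52 m) : ℝ) :=
      cont_ps52.inner cont_ed52
    exact (isClosed_eq c continuous_const).measurableSet
  · have c : Continuous fun m : Mk => (inner ℝ (ps52 m) O : ℝ) • ps52 m +
        (inner ℝ (ed52 m) O : ℝ) • ed52 m := by
      have h1 : Continuous fun m : Mk => (inner ℝ (ps52 m) O : ℝ) :=
        cont_ps52.inner continuous_const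
      have h2 : Continuous fun m : Mk => (inner ℝ (ed52 m) O : ℝ) :=
        cont_ed52.inner continuous_const
      exact (h1.smul cont_ps52).add (h2.smul cont_ed52)
    exact (isClosed_eq continuous_const c).measurableSet

theorem fin_sup52 {L L' : Submodule ℝ E4} (hL : Module.finrank ℝ L = 1)
    (hL' : Module.finrank ℝ L' = 1) (hne : L ≠ L') :
    Module.finrank ℝ (L ⊔ L' : Submodule ℝ E4) = 2 := by
  have h := Submodule.finrank_sup_add_finrank_inf_eq L L'
  have h1 : Module.finrank ℝ (L ⊓ L' : Submodule ℝ E4) = 0 := by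
    by_contra hcon
    have hle : Module.finrank ℝ (L ⊓ L' : Submodule ℝ E4) ≤ 1 := by
      rw [← hL]; exact Submodule.finrank_mono inf_le_left
    have h2 : Module.finrank ℝ (L ⊓ L' : Submodule ℝ E4) = 1 := by omega
    apply hne
    have e1 : L ⊓ L' = L := Submodule.eq_of_le_of_finrank_eq inf_le_left (by rw [h2, hL])
    have e2 : L ⊓ L' = L' := Submodule.eq_of_le_of_finrank_eq inf_le_right (by rw [h2, hL'])
    rw [← e1, e2]
  omega

theorem fin_span52 {x e : E4} (h : LinearIndependent ℝ ![x, e]) :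
    Module.finrank ℝ (Submodule.span ℝ {x, e}) = 2 := by
  have h1 := finrank_span_eq_card h
  have h2 : range ![x, e] = {x, e} := by simp [Set.pair_comm]
  rw [h2] at h1
  simpa using h1

namespace Lim

variable (X : Lim)

theorem noline_ae52 (hN : NoLine X.mu) {W : Submodule ℝ E4} (hW : Module.finrank ℝ W = 2) :
    ∀ᵐ m ∂X.ν, ch52 m → ps52 m ∉ W := by
  have h := hN W hW
  have hWm : MeasurableSet (W : Set E4) := W.closed_of_finiteDimensional.measurableSet
  rw [X.mu_app52 hWm] at h
  have h2 := measure_eq_zero_iff_ae_notMem.1 h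
  filter_upwards [h2] with m hm hc hW2
  exact hm ⟨hc, hW2⟩

theorem disj_C52 (hN : NoLine X.mu) {L L' : Submodule ℝ E4} (hL : Module.finrank ℝ L = 1)
    (hL' : Module.finrank ℝ L' = 1) (hne : L ≠ L') : X.ν (C52 L ∩ C52 L') = 0 := by
  rw [measure_eq_zero_iff_ae_notMem]
  filter_upwards [X.noline_ae52 hN (fin_sup52 hL hL' hne)] with m hm hmem
  obtain ⟨⟨hc, h0, h1⟩, ⟨_, _, h2⟩⟩ := hmem
  apply hm hc
  have hle : L ⊔ L' ≤ Submodule.span ℝ {ps52 m, ed52 m} := sup_le h1 h2
  have heq : L ⊔ L' = Submodule.span ℝ {ps52 m, ed52 m} := by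
    refine Submodule.eq_of_le_of_finrank_eq hle ?_
    rw [fin_sup52 hL hL' hne, fin_span52 (pair_li52 (norm_ps52 m) (norm_ed52 m) h0)]
  rw [heq]
  exact Submodule.subset_span (by simp)

/-- the charged classes -/
def K52 : Set (Submodule ℝ E4) := {L | Module.finrank ℝ L = 1 ∧ 0 < X.ν (C52 L)}

theorem K_countable52 (hN : NoLine X.mu) : X.K52.Countable := by
  have h := Measure.countable_meas_pos_of_disjoint_iUnion₀ (μ := X.ν)
    (As := fun i : {L : Submodule ℝ E4 // Module.finrank ℝ L = 1} => C52 i.1)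
    (fun i => (meas_C52 i.2).nullMeasurableSet)
    (fun i j hij => X.disj_C52 hN i.2 j.2 (fun h => hij (Subtype.ext h)))
  have h2 := h.image Subtype.val
  refine h2.mono ?_
  rintro L ⟨h3, h4⟩
  exact ⟨⟨L, h3⟩, h4, rfl⟩

theorem K_uniq52 (hN : NoLine X.mu) : ∀ᵐ m ∂X.ν, ∀ L ∈ X.K52, ∀ L' ∈ X.K52,
    m ∈ C52 L → m ∈ C52 L' → L = L' := by
  have hK := X.K_countable52 hN
  rw [ae_ball_iff hK]
  intro L hL
  rw [ae_ball_iff hK]
  intro L' hL'
  by_cases hne : L = L'
  · exact Filter.Eventually.of_forall fun m _ _ => hne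
  · have := measure_eq_zero_iff_ae_notMem.1 (X.disj_C52 hN hL.1 hL'.1 hne)
    filter_upwards [this] with m hm h1 h2
    exact absurd ⟨h1, h2⟩ hm

end Lim

end NPL
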