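import Pool.Agent.Lib.MP_4f1247_co.NL.StmtsC14

/-!
# A frame moved by a linear map
-/

set_option autoImplicit false

namespace NPL

/-- a frame moved by a linear isomorphism is a frame -/
theorem Fr.comp {n : ℕ} (F : Fr n) (g : E4 ≃ₗ[ℝ] E4) :
    ∃ F' : Fr n, ∀ i, F'.a i = ‖g (F.a i)‖⁻¹ • g (F.a i) := by
  have hne : ∀ i, F.a i ≠ 0 := by
    intro i h
    have := F.unit i
    rw [h, norm_zero] at this
    exact zero_ne_one this
  have hpos : ∀ i, 0 < ‖g (F.a i)‖ := by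
    intro i
    rw [norm_pos_iff]
    intro h
    exact hne i ((LinearEquiv.map_eq_zero_iff g).1 h)
  refine ⟨⟨F.T, fun i => ‖g (F.a i)‖⁻¹ • g (F.a i), F.card3, F.two, ?_, ?_, ?_⟩, fun i => rfl⟩
  · intro i
    rw [norm_smul, norm_inv, norm_norm, inv_mul_cancel₀ (hpos i).ne']
  · intro i j hij
    apply F.inj
    have h1 : ‖g (F.a i)‖⁻¹ • F.a i = ‖g (F.a j)‖⁻¹ • F.a j := by
      apply g.injective
      simpa only [map_smul] using hij
    have h2 : ‖g (F.a i)‖⁻¹ = ‖g (F.a j)‖⁻¹ := by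
      have := congrArg norm h1
      rwa [norm_smul, norm_smul, F.unit, F.unit, mul_one, mul_one, norm_inv, norm_inv, norm_norm,
        norm_norm] at this
    rw [h2] at h1
    exact smul_right_injective _ (inv_ne_zero (hpos j).ne') h1
  · intro u v w x y hT hxu hxv hxw α β r s t hα hβ hr hs ht h
    refine F.nc u v w x y hT hxu hxv hxw (α * ‖g (F.a x)‖⁻¹) (β * ‖g (F.a y)‖⁻¹)
      (r * ‖g (F.a u)‖⁻¹) (s * ‖g (F.a v)‖⁻¹) (t * ‖g (F.a w)‖⁻¹)
      (mul_pos hα (inv_pos.2 (hpos x))) (mul_nonneg hβ (inv_nonneg.2 (norm_nonneg _)))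
      (mul_nonneg hr (inv_nonneg.2 (norm_nonneg _))) (mul_nonneg hs (inv_nonneg.2 (norm_nonneg _)))
      (mul_nonneg ht (inv_nonneg.2 (norm_nonneg _))) ?_
    apply g.injective
    simpa only [map_add, map_smul, mul_smul] using h

end NPL
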