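import Pool.Agent.Lib.MP_4f1247_co.NL.Mark14

/-!
# The limit of a sequence of frames
-/

set_option autoImplicit false

open MeasureTheory Filter Topology
open scoped ENNReal

namespace NPL.Emp14

lemma ulim {X : Type*} [TopologicalSpace X] [CompactSpace X] (𝒰 : Ultrafilter ℕ) (f : ℕ → X) :
    ∃ x, Tendsto f 𝒰 (𝓝 x) := by
  obtain ⟨x, -, hx⟩ := isCompact_univ.ultrafilter_le_nhds (𝒰.map f) (by simp)
  exact ⟨x, hx⟩

lemma open_le {Y : Type*} [MeasurableSpace Y] [TopologicalSpace Y] [OpensMeasurableSpace Y]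
    [HasOuterApproxClosed Y] {μ : ProbabilityMeasure Y} {μs : ℕ → ProbabilityMeasure Y}
    {L : Filter ℕ} [L.NeBot] (h : Tendsto μs L (𝓝 μ)) {U : Set Y} (hU : IsOpen U) {c : ℝ≥0∞}
    (hb : ∀ᶠ k in L, (μs k : Measure Y) U ≤ c) : (μ : Measure Y) U ≤ c := by
  refine (ProbabilityMeasure.le_liminf_measure_open_of_tendsto h hU).trans ?_
  refine (liminf_le_limsup).trans ?_
  exact limsup_le_of_le (by isBoundedDefault) hb

lemma open_null {Y : Type*} [MeasurableSpace Y] [TopologicalSpace Y] [OpensMeasurableSpace Y]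
    [HasOuterApproxClosed Y] {μ : ProbabilityMeasure Y} {μs : ℕ → ProbabilityMeasure Y}
    {L : Filter ℕ} [L.NeBot] (h : Tendsto μs L (𝓝 μ)) {U : Set Y} (hU : IsOpen U)
    (hb : ∀ ε : ℝ, 0 < ε → ∀ᶠ k in L, (μs k : Measure Y) U ≤ ENNReal.ofReal ε) :
    (μ : Measure Y) U = 0 := by
  by_contra hne
  have hpos : 0 < (μ : Measure Y) U := pos_iff_ne_zero.2 hne
  have htop : (μ : Measure Y) U ≠ ∞ := measure_ne_top _ _
  have := open_le h hU (hb (((μ : Measure Y) U).toReal / 2) (half_pos (ENNReal.toReal_pos hne htop)))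
  rw [ENNReal.le_ofReal_iff_toReal_le htop (half_pos (ENNReal.toReal_pos hne htop)).le] at this
  linarith [ENNReal.toReal_pos hne htop]

lemma det4_zero_left (u b e : E4) : det4 u u b e = 0 := by
  unfold det4
  exact Matrix.det_zero_of_row_eq (i := 0) (j := 1) (by decide) (by ext j; simp)

lemma det4_zero_mid (u a e : E4) : det4 u a u e = 0 := by
  unfold det4
  exact Matrix.det_zero_of_row_eq (i := 0) (j := 2) (by decide) (by ext j; simp)

lemma fs_bad {n : ℕ} (hn : 2 ≤ n) (F : Fr n) (B : Finset (Fin n)) {κ Y Z : Type*}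
    [MeasurableSpace Y] [MeasurableSpace Z] (s : Finset κ) (hs : s.Nonempty)
    (f : Fin n × Fin n × Fin n → Y) (g : κ → Z) (U : Set (Y × Z)) (hU : MeasurableSet U)
    (h : ∀ t ∈ fs F, ∀ x ∈ s, (f t, g x) ∈ U → t.1 ∈ B) :
    em (fs F ×ˢ s) (fun p => (f p.1, g p.2)) U ≤ ENNReal.ofReal (2 * (B.card / n : ℝ)) := by
  classical
  rw [em_apply _ _ hU]
  have h1 : ((fs F ×ˢ s).filter (fun p => (f p.1, g p.2) ∈ U)) ⊆
      ((fs F).filter (fun t => t.1 ∈ B)) ×ˢ s := by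
    intro p hp
    simp only [Finset.mem_filter, Finset.mem_product] at hp ⊢
    exact ⟨⟨hp.1.1, h _ hp.1.1 _ hp.1.2 hp.2⟩, hp.1.2⟩
  have h2 := Finset.card_le_card h1
  rw [Finset.card_product, fib_sum F (fun i _ => i ∈ B)] at h2
  have h3 : (((Finset.univ : Finset (Fin n)).offDiag.filter (fun p => p.1 ∈ B)).card) ≤
      B.card * n := by
    have : ((Finset.univ : Finset (Fin n)).offDiag.filter (fun p => p.1 ∈ B)) ⊆
        B ×ˢ Finset.univ := by
      intro p hp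
      simp only [Finset.mem_filter, Finset.mem_product, Finset.mem_univ, and_true] at hp ⊢
      exact hp.2
    simpa [Finset.card_product] using Finset.card_le_card this
  have hcard : ((fs F).card : ℝ) = 2 * (n * (n - 1)) := by
    rw [card_fs, Finset.offDiag_card]
    simp only [Finset.card_univ, Fintype.card_fin]
    rw [Nat.cast_mul, Nat.cast_sub (Nat.le_mul_self n)]
    push_cast
    ring
  have hn2 : (2 : ℝ) ≤ n := by exact_mod_cast hn
  have hs' : (0 : ℝ) < s.card := by exact_mod_cast hs.card_pos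
  have hf' : (0 : ℝ) < (fs F).card := by
    rw [hcard]
    have : (0 : ℝ) < n - 1 := by linarith
    positivity
  have e1 : ((fs F ×ˢ s).card : ℝ≥0∞)⁻¹ *
      (((fs F ×ˢ s).filter (fun p => (f p.1, g p.2) ∈ U)).card : ℝ≥0∞) =
      ENNReal.ofReal ((((fs F ×ˢ s).filter (fun p => (f p.1, g p.2) ∈ U)).card : ℝ) /
        ((fs F).card * s.card)) := by
    rw [ENNReal.ofReal_div_of_pos (mul_pos hf' hs'), ENNReal.div_eq_inv_mul,
      ENNReal.ofReal_natCast, ← Nat.cast_mul, ENNReal.ofReal_natCast, Finset.card_product]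
  rw [e1]
  apply ENNReal.ofReal_le_ofReal
  rw [div_le_iff₀ (mul_pos hf' hs')]
  have h4 : ((((fs F ×ˢ s).filter (fun p => (f p.1, g p.2) ∈ U)).card : ℕ) : ℝ) ≤
      2 * (B.card * n) * s.card := by
    refine le_trans (Nat.cast_le.2 h2) ?_
    push_cast
    have : ((((Finset.univ : Finset (Fin n)).offDiag.filter (fun p => p.1 ∈ B)).card : ℕ) : ℝ) ≤
      B.card * n := by exact_mod_cast h3
    gcongr
  refine h4.trans ?_
  rw [hcard]
  have hB : (0 : ℝ) ≤ B.card := Nat.cast_nonneg _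
  have hn0 : (0 : ℝ) < n := by linarith
  have e2 : 2 * ((B.card : ℝ) / n) * (2 * (n * (n - 1)) * s.card) =
      4 * B.card * (n - 1) * s.card := by
    field_simp
    ring
  rw [e2]
  have : (n : ℝ) ≤ 2 * (n - 1) := by linarith
  nlinarith [mul_nonneg hB hs'.le, mul_le_mul_of_nonneg_left this (mul_nonneg hB hs'.le)]

lemma tw_mono {u p e : E4} {η ρ : ℝ} (h : Tw u p e η) (hr : η ≤ ρ) : Tw u p e ρ := by
  obtain ⟨τ, f, h1, h2, h3, h4, h5⟩ := h
  exact ⟨τ, f, h1, h2.trans_le hr, h3, h4.trans_le hr, h5⟩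

lemma no_hit {n : ℕ} (F : Fr n) {t : Fin n × Fin n × Fin n} (ht : t ∈ fs F) {e u a b : E4}
    {η ρ : ℝ} {j : Fin n} (htw : Tw (F.a t.1) (F.a j) e η) (hu : dist (F.a t.1) u < ρ)
    (ha : dist (F.a t.2.1) a < ρ) (hb : dist (F.a t.2.2) b < ρ) (hη : η ≤ ρ)
    (h1 : 3 * ρ ≤ dist u a) (h2 : 3 * ρ ≤ dist u b) (x : Fin n) :
    ¬ Hit (F.a j) (F.a x) (F.a t.1) (F.a t.2.1) (F.a t.2.2) := by
  rintro ⟨α, ξ, r, s, w, hα, hξ, hr, hs, hw, he⟩
  obtain ⟨τ, f, hτ, hτη, hf, -, hj⟩ := htw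
  have hd : dist (F.a t.1) (F.a j) = τ := by
    rw [hj, dist_eq_norm, sub_add_cancel_left, norm_neg, norm_smul, hf, mul_one,
      Real.norm_of_nonneg hτ.le]
  rw [mem_fs] at ht
  refine F.nc t.1 t.2.1 t.2.2 j x ht.2.2.2 ?_ ?_ ?_ α ξ r s w hα hξ hr hs hw he
  · rintro rfl
    rw [dist_self] at hd
    exact hτ.ne hd
  · rintro rfl
    have := dist_triangle4 u (F.a t.1) (F.a t.2.1) a
    rw [dist_comm u (F.a t.1)] at this
    linarith
  · rintro rfl
    have := dist_triangle4 u (F.a t.1) (F.a t.2.2) b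
    rw [dist_comm u (F.a t.1)] at this
    linarith

end NPL.Emp14
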