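import Pool.Agent.Lib.MP_4f1247_co.NL.Limit14

/-!
# The limit of a sequence of frames: construction
-/

set_option autoImplicit false

open MeasureTheory Filter Topology
open scoped ENNReal

namespace NPL.Emp14

/-- a default mark -/
noncomputable def d0 : Mk := (s0, s0, false)

/-- the marks of the vertices -/
noncomputable def mks {n : ℕ} (F : Fr n) (G : Finset (Fin n)) (e : Fin n → S3) (i : Fin n) : Mk :=
  (F.pt i, e i, decide (i ∈ G))

lemma univ_ne {n : ℕ} (h : 2 ≤ n) : (Finset.univ : Finset (Fin n)).Nonempty :=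
  ⟨⟨0, by omega⟩, Finset.mem_univ _⟩

lemma fs_ne {n : ℕ} (h : 2 ≤ n) (F : Fr n) : (fs F).Nonempty := by
  rw [← Finset.card_pos, card_fs, Finset.offDiag_card]
  simp only [Finset.card_univ, Fintype.card_fin]
  have : n < n * n := by nlinarith
  omega

/-- law of a vertex -/
noncomputable def pv {n : ℕ} (F : Fr n) (G : Finset (Fin n)) (e : Fin n → S3) :
    ProbabilityMeasure Mk :=
  if h : 2 ≤ n then ⟨em Finset.univ (mks F G e), em_prob _ (univ_ne h) _⟩
  else ⟨Measure.dirac d0, inferInstance⟩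

/-- law of a face -/
noncomputable def pf {n : ℕ} (F : Fr n) (G : Finset (Fin n)) (e : Fin n → S3) :
    ProbabilityMeasure (Mk × Mk × Mk) :=
  if h : 2 ≤ n then ⟨em (fs F) (fun t => (mks F G e t.1, mks F G e t.2.1, mks F G e t.2.2)),
    em_prob _ (fs_ne h F) _⟩
  else ⟨Measure.dirac (d0, d0, d0), inferInstance⟩

lemma pv_coe {n : ℕ} (h : 2 ≤ n) (F : Fr n) (G : Finset (Fin n)) (e : Fin n → S3) :
    (pv F G e : Measure Mk) = em Finset.univ (mks F G e) := by simp [pv, h]

lemma pf_coe {n : ℕ} (h : 2 ≤ n) (F : Fr n) (G : Finset (Fin n)) (e : Fin n → S3) :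
    (pf F G e : Measure (Mk × Mk × Mk)) =
      em (fs F) (fun t => (mks F G e t.1, mks F G e t.2.1, mks F G e t.2.2)) := by simp [pf, h]

lemma pf_swap {n : ℕ} (h : 2 ≤ n) (F : Fr n) (G : Finset (Fin n)) (e : Fin n → S3) :
    (pf F G e : Measure (Mk × Mk × Mk)).map (fun t => (t.2.1, t.1, t.2.2)) =
      (pf F G e : Measure (Mk × Mk × Mk)) := by
  rw [pf_coe h, em_map _ _ (by fun_prop)]
  refine em_reindex _ _ _ _ (fun t => (t.2.1, t.1, t.2.2)) ?_ ?_ ?_ ?_
  · intro t ht
    rw [mem_fs] at ht ⊢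
    refine ⟨ht.1.symm, ht.2.2.1, ht.2.1, ?_⟩
    have := ht.2.2.2
    rwa [Finset.insert_comm] at this
  · intro t _ t' _ he
    simp only [Prod.mk.injEq] at he
    exact Prod.ext he.2.1 (Prod.ext he.1 he.2.2)
  · intro t ht
    refine ⟨(t.2.1, t.1, t.2.2), ?_, rfl⟩
    rw [mem_fs] at ht ⊢
    refine ⟨ht.1.symm, ht.2.2.1, ht.2.1, ?_⟩
    have := ht.2.2.2
    rwa [Finset.insert_comm] at this
  · intro t _
    rfl

lemma set3_rot {α : Type*} [DecidableEq α] (a b c : α) : ({b, c, a} : Finset α) = {a, b, c} := by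
  ext x
  simp only [Finset.mem_insert, Finset.mem_singleton]
  tauto

lemma pf_rot {n : ℕ} (h : 2 ≤ n) (F : Fr n) (G : Finset (Fin n)) (e : Fin n → S3) :
    (pf F G e : Measure (Mk × Mk × Mk)).map (fun t => (t.2.1, t.2.2, t.1)) =
      (pf F G e : Measure (Mk × Mk × Mk)) := by
  rw [pf_coe h, em_map _ _ (by fun_prop)]
  refine em_reindex _ _ _ _ (fun t => (t.2.1, t.2.2, t.1)) ?_ ?_ ?_ ?_
  · intro t ht
    rw [mem_fs] at ht ⊢
    refine ⟨ht.2.2.1, ht.1.symm, ht.2.1.symm, ?_⟩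
    rw [set3_rot]
    exact ht.2.2.2
  · intro t _ t' _ he
    simp only [Prod.mk.injEq] at he
    exact Prod.ext he.2.2 (Prod.ext he.1 he.2.1)
  · intro t ht
    refine ⟨(t.2.2, t.1, t.2.1), ?_, rfl⟩
    rw [mem_fs] at ht ⊢
    refine ⟨ht.2.1.symm, ht.2.2.1.symm, ht.1, ?_⟩
    have := ht.2.2.2
    rw [← set3_rot, ← set3_rot] at this
    exact this
  · intro t _
    rfl

lemma pair_close {n : ℕ} (h : 2 ≤ n) (F : Fr n) (G : Finset (Fin n)) (e : Fin n → S3)
    (f : BoundedContinuousFunction (Mk × Mk) ℝ) :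
    |(∫ z, f z ∂((pf F G e : Measure (Mk × Mk × Mk)).map (fun t => (t.1, t.2.1)))) -
      ∫ z, f z ∂((pv F G e : Measure Mk).prod (pv F G e : Measure Mk))| ≤ 2 * ‖f‖ / n := by
  rw [pf_coe h, pv_coe h, em_map _ _ (by fun_prop), em_prod _ _ _ _ (univ_ne h) (univ_ne h),
    em_pair F (mks F G e), em_integral _ _ f.continuous.stronglyMeasurable,
    em_integral _ _ f.continuous.stronglyMeasurable]
  exact offDiag_close h (fun i j => f (mks F G e i, mks F G e j)) ‖f‖
    (fun i j => f.norm_coe_le_norm _)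

theorem limit14 (h1 : StNeedle) (h2 : StLuneLoc) (h3 : StEnterLoc) : StLimit := by
  obtain ⟨η, δ, hη, hδ, hηp, hm⟩ := marks h1
  intro 𝒰 N F G hN
  choose e B hB hBn using fun k => hm (N k) (F k)
  have hk2 : ∀ᶠ k in (𝒰 : Filter ℕ), 2 ≤ N k := hN.eventually_ge_atTop 2
  have hηt : Tendsto (fun k => η (N k)) 𝒰 (𝓝 0) := hη.comp hN
  have hδt : Tendsto (fun k => δ (N k)) 𝒰 (𝓝 0) := hδ.comp hN
  obtain ⟨ν, hν⟩ := ulim 𝒰 (fun k => pv (F k) (G k) (e k))
  obtain ⟨Λ, hΛ⟩ := ulim 𝒰 (fun k => pf (F k) (G k) (e k))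
  -- fraction of bad vertices
  have hbad : ∀ k, 2 ≤ N k → ((B k).card / N k : ℝ) ≤ δ (N k) := by
    intro k hk
    have : (0 : ℝ) < N k := by exact_mod_cast (by omega : 0 < N k)
    rw [div_le_iff₀ this]
    exact hB k
  -- open sets whose points have a bad first vertex
  have hnull : ∀ (Z : Type) [TopologicalSpace Z] [MeasurableSpace Z] [BorelSpace Z]
      [SecondCountableTopology Z] [TopologicalSpace.PseudoMetrizableSpace Z]
      (κ : ℕ → Type) (s : ∀ k, Finset (κ k)) (g : ∀ k, κ k → Z)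
      (ρ : ProbabilityMeasure Z) (ρs : ℕ → ProbabilityMeasure Z), Tendsto ρs 𝒰 (𝓝 ρ) →
      (∀ᶠ k in (𝒰 : Filter ℕ), (s k).Nonempty ∧ (ρs k : Measure Z) = em (s k) (g k)) →
      ∀ U : Set ((Mk × Mk × Mk) × Z), IsOpen U →
      (∀ᶠ k in (𝒰 : Filter ℕ), ∀ t ∈ fs (F k), ∀ x ∈ s k,
        ((mks (F k) (G k) (e k) t.1, mks (F k) (G k) (e k) t.2.1, mks (F k) (G k) (e k) t.2.2),
          g k x) ∈ U → t.1 ∈ B k) →
      ((Λ : Measure (Mk × Mk × Mk)).prod (ρ : Measure Z)) U = 0 := by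
    intro Z _ _ _ _ _ κ s g ρ ρs hρ hs U hU hbU
    have ht : Tendsto (fun k => (pf (F k) (G k) (e k)).prod (ρs k)) 𝒰 (𝓝 (Λ.prod ρ)) :=
      (ProbabilityMeasure.continuous_prod.tendsto (Λ, ρ)).comp (hΛ.prodMk_nhds hρ)
    have := open_null ht hU ?_
    · simpa using this
    intro ε hε
    have hδε : ∀ᶠ k in (𝒰 : Filter ℕ), 2 * δ (N k) < ε := by
      have : Tendsto (fun k => 2 * δ (N k)) 𝒰 (𝓝 (2 * 0)) := hδt.const_mul 2
      rw [mul_zero] at this
      exact this.eventually_lt_const hε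
    filter_upwards [hk2, hs, hbU, hδε] with k hk hsk hbk hδk
    rw [ProbabilityMeasure.toMeasure_prod, hsk.2, pf_coe hk, em_prod _ _ _ _ (fs_ne hk _) hsk.1]
    refine (fs_bad hk (F k) (B k) (s k) hsk.1 _ _ U hU.measurableSet hbk).trans ?_
    apply ENNReal.ofReal_le_ofReal
    linarith [hbad k hk]
  have hνs : ∀ᶠ k in (𝒰 : Filter ℕ), (Finset.univ : Finset (Fin (N k))).Nonempty ∧
      (pv (F k) (G k) (e k) : Measure Mk) = em Finset.univ (mks (F k) (G k) (e k)) := by
    filter_upwards [hk2] with k hk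
    exact ⟨univ_ne hk, pv_coe hk _ _ _⟩
  refine ⟨⟨ν, Λ, ν.2, Λ.2, ?_, ?_, ?_, ?_, ?_, ?_⟩, ?_, ?_⟩
  · -- swap
    have hc : Continuous (fun t : Mk × Mk × Mk => (t.2.1, t.1, t.2.2)) := by fun_prop
    have t1 := ProbabilityMeasure.tendsto_map_of_tendsto_of_continuous _ Λ hΛ hc
    have t2 : Tendsto (fun k => (pf (F k) (G k) (e k)).map hc.measurable.aemeasurable) 𝒰 (𝓝 Λ) := by
      refine hΛ.congr' ?_
      filter_upwards [hk2] with k hk
      apply ProbabilityMeasure.toMeasure_injective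
      rw [ProbabilityMeasure.toMeasure_map]
      exact (pf_swap hk _ _ _).symm
    have := tendsto_nhds_unique t1 t2
    have := congrArg (fun z : ProbabilityMeasure (Mk × Mk × Mk) => (z : Measure (Mk × Mk × Mk))) this
    simpa using this
  · -- rot
    have hc : Continuous (fun t : Mk × Mk × Mk => (t.2.1, t.2.2, t.1)) := by fun_prop
    have t1 := ProbabilityMeasure.tendsto_map_of_tendsto_of_continuous _ Λ hΛ hc
    have t2 : Tendsto (fun k => (pf (F k) (G k) (e k)).map hc.measurable.aemeasurable) 𝒰 (𝓝 Λ) := by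
      refine hΛ.congr' ?_
      filter_upwards [hk2] with k hk
      apply ProbabilityMeasure.toMeasure_injective
      rw [ProbabilityMeasure.toMeasure_map]
      exact (pf_rot hk _ _ _).symm
    have := tendsto_nhds_unique t1 t2
    have := congrArg (fun z : ProbabilityMeasure (Mk × Mk × Mk) => (z : Measure (Mk × Mk × Mk))) this
    simpa using this
  · -- pair
    have hc : Continuous (fun t : Mk × Mk × Mk => (t.1, t.2.1)) := by fun_prop
    have t1 := ProbabilityMeasure.tendsto_map_of_tendsto_of_continuous _ Λ hΛ hc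
    have t3 : Tendsto (fun k => (pv (F k) (G k) (e k)).prod (pv (F k) (G k) (e k))) 𝒰
        (𝓝 (ν.prod ν)) :=
      (ProbabilityMeasure.continuous_prod.tendsto (ν, ν)).comp (hν.prodMk_nhds hν)
    have t2 : Tendsto (fun k => (pf (F k) (G k) (e k)).map hc.measurable.aemeasurable) 𝒰
        (𝓝 (ν.prod ν)) := by
      rw [ProbabilityMeasure.tendsto_iff_forall_integral_tendsto] at t3 ⊢
      intro f
      have h4 := t3 f
      have h5 : Tendsto (fun k => 2 * ‖f‖ / (N k : ℝ)) 𝒰 (𝓝 0) := by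
        have : Tendsto (fun k => (N k : ℝ)) 𝒰 atTop := tendsto_natCast_atTop_atTop.comp hN
        exact tendsto_const_nhds.div_atTop this
      have h6 : Tendsto (fun k =>
          (∫ z, f z ∂((pf (F k) (G k) (e k)).map hc.measurable.aemeasurable :
            Measure (Mk × Mk))) -
          ∫ z, f z ∂((pv (F k) (G k) (e k)).prod (pv (F k) (G k) (e k)) : Measure (Mk × Mk))) 𝒰
          (𝓝 0) := by
        refine squeeze_zero_norm' ?_ h5
        filter_upwards [hk2] with k hk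
        rw [Real.norm_eq_abs]
        exact pair_close hk (F k) (G k) (e k) f
      have h7 := h6.add h4
      rw [zero_add] at h7
      refine h7.congr fun k => ?_
      ring
    have := tendsto_nhds_unique t1 t2
    have := congrArg (fun z : ProbabilityMeasure (Mk × Mk) => (z : Measure (Mk × Mk))) this
    simpa using this
  · -- orth
    rw [ae_iff]
    refine measure_null_of_locally_null _ fun m hmne => ?_
    have hne : inner ℝ (m.1 : E4) (m.2.1 : E4) ≠ (0 : ℝ) := hmne
    set c := |(inner ℝ (m.1 : E4) (m.2.1 : E4) : ℝ)| with hc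
    have hcp : 0 < c := abs_pos.2 hne
    set U : Set Mk := {m' | c / 2 < |(inner ℝ (m'.1 : E4) (m'.2.1 : E4) : ℝ)|} with hU
    have hUo : IsOpen U := isOpen_lt continuous_const (by fun_prop)
    refine ⟨U, mem_nhdsWithin_of_mem_nhds (hUo.mem_nhds (by simp only [hU, Set.mem_ofPred_eq]; linarith)), ?_⟩
    refine open_null hν hUo ?_
    intro ε hε
    have hδε : ∀ᶠ k in (𝒰 : Filter ℕ), δ (N k) < ε := hδt.eventually_lt_const hε
    have hηε : ∀ᶠ k in (𝒰 : Filter ℕ), η (N k) < c / 4 :=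
      hηt.eventually_lt_const (by positivity)
    filter_upwards [hk2, hδε, hηε] with k hk hδk hηk
    classical
    rw [pv_coe hk, em_apply _ _ hUo.measurableSet]
    have hsub : (Finset.univ.filter (fun i => mks (F k) (G k) (e k) i ∈ U)) ⊆ B k := by
      intro i hi
      by_contra hib
      simp only [Finset.mem_filter, Finset.mem_univ, true_and] at hi
      have hi' : c / 2 < |(inner ℝ ((F k).a i) (e k i : E4) : ℝ)| := hi
      obtain ⟨j, l, ⟨τ, f, hτ, hτη, hf, hfe, hj⟩, _⟩ := hBn k i hib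
      have hui := (F k).unit i
      have huj := (F k).unit j
      have e1 : ‖(F k).a i + τ • f‖ ^ 2 = 1 := by rw [← hj, huj]; norm_num
      rw [norm_add_sq_real, hui, norm_smul, hf, inner_smul_right, Real.norm_eq_abs] at e1
      have e2 : τ * (2 * inner ℝ ((F k).a i) f + τ) = 0 := by
        have := sq_abs τ
        nlinarith
      have e3 : (inner ℝ ((F k).a i) f : ℝ) = -τ / 2 := by
        rcases mul_eq_zero.1 e2 with h | h
        · exact absurd h hτ.ne'
        · linarith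
      have e4 : (inner ℝ ((F k).a i) (e k i : E4) : ℝ) =
          inner ℝ ((F k).a i) f - inner ℝ ((F k).a i) (f - (e k i : E4)) := by
        rw [inner_sub_right]; ring
      have e5 : |(inner ℝ ((F k).a i) (f - (e k i : E4)) : ℝ)| ≤ η (N k) := by
        refine (abs_real_inner_le_norm _ _).trans ?_
        rw [hui, one_mul, ← dist_eq_norm]
        exact hfe.le
      rw [e4, e3] at hi'
      have := abs_sub (-τ / 2) (inner ℝ ((F k).a i) (f - (e k i : E4)) : ℝ)
      have e6 : |(-τ / 2 : ℝ)| = τ / 2 := by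
        rw [neg_div, abs_neg, abs_of_pos (half_pos hτ)]
      linarith
    have hcard := Finset.card_le_card hsub
    have hn0 : (0 : ℝ) < N k := by exact_mod_cast (by omega : 0 < N k)
    have e1 : ((Finset.univ : Finset (Fin (N k))).card : ℝ≥0∞)⁻¹ *
        ((Finset.univ.filter (fun i => mks (F k) (G k) (e k) i ∈ U)).card : ℝ≥0∞) =
        ENNReal.ofReal (((Finset.univ.filter (fun i => mks (F k) (G k) (e k) i ∈ U)).card : ℝ) /
          N k) := by
      rw [ENNReal.ofReal_div_of_pos hn0, ENNReal.div_eq_inv_mul, ENNReal.ofReal_natCast,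
        ENNReal.ofReal_natCast]
      simp
    rw [e1]
    apply ENNReal.ofReal_le_ofReal
    have : ((Finset.univ.filter (fun i => mks (F k) (G k) (e k) i ∈ U)).card : ℝ) / N k ≤
        (B k).card / N k := div_le_div_of_nonneg_right (by exact_mod_cast hcard) hn0.le
    linarith [hbad k hk]
  · -- lune
    rw [ae_iff]
    refine measure_null_of_locally_null _ fun z hz => ?_
    have hz' : Lune (z.1.1.1 : E4) (z.1.1.2.1 : E4) (z.1.2.1.1 : E4) (z.1.2.2.1 : E4)
      (z.2.1 : E4) := by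
      by_contra h
      exact hz h
    obtain ⟨ρ₀, hρ₀, hloc⟩ := h2 _ _ _ _ _ hz'
    have hua : (z.1.1.1 : E4) ≠ (z.1.2.1.1 : E4) := by
      intro h
      have := hz'.1
      rw [← h, det4_zero_left, mul_zero] at this
      exact lt_irrefl _ this
    have hub : (z.1.1.1 : E4) ≠ (z.1.2.2.1 : E4) := by
      intro h
      have := hz'.1
      rw [← h, det4_zero_mid _ (z.1.2.1.1 : E4), mul_zero] at this
      exact lt_irrefl _ this
    set ρ := min ρ₀ (min (dist (z.1.1.1 : E4) (z.1.2.1.1 : E4) / 3)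
      (dist (z.1.1.1 : E4) (z.1.2.2.1 : E4) / 3)) with hρdef
    have hρ : 0 < ρ := lt_min hρ₀ (lt_min (by have := dist_pos.2 hua; positivity)
      (by have := dist_pos.2 hub; positivity))
    have hr0 : ρ ≤ ρ₀ := min_le_left _ _
    have hr1 : 3 * ρ ≤ dist (z.1.1.1 : E4) (z.1.2.1.1 : E4) := by
      have : ρ ≤ dist (z.1.1.1 : E4) (z.1.2.1.1 : E4) / 3 :=
        (min_le_right _ _).trans (min_le_left _ _)
      linarith
    have hr2 : 3 * ρ ≤ dist (z.1.1.1 : E4) (z.1.2.2.1 : E4) := by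
      have : ρ ≤ dist (z.1.1.1 : E4) (z.1.2.2.1 : E4) / 3 :=
        (min_le_right _ _).trans (min_le_right _ _)
      linarith
    set U : Set ((Mk × Mk × Mk) × Mk) := {z' | dist (z'.1.1.1 : E4) (z.1.1.1 : E4) < ρ ∧
      dist (z'.1.1.2.1 : E4) (z.1.1.2.1 : E4) < ρ ∧ dist (z'.1.2.1.1 : E4) (z.1.2.1.1 : E4) < ρ ∧
      dist (z'.1.2.2.1 : E4) (z.1.2.2.1 : E4) < ρ ∧ dist (z'.2.1 : E4) (z.2.1 : E4) < ρ} with hU
    have hUo : IsOpen U := by
      refine IsOpen.and (isOpen_lt (by fun_prop) continuous_const) (IsOpen.and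
        (isOpen_lt (by fun_prop) continuous_const) (IsOpen.and
        (isOpen_lt (by fun_prop) continuous_const) (IsOpen.and
        (isOpen_lt (by fun_prop) continuous_const) (isOpen_lt (by fun_prop) continuous_const))))
    have hzU : z ∈ U := by
      simp only [hU, Set.mem_ofPred_eq, dist_self]
      exact ⟨hρ, hρ, hρ, hρ, hρ⟩
    refine ⟨U, mem_nhdsWithin_of_mem_nhds (hUo.mem_nhds hzU), ?_⟩
    refine hnull Mk (fun k => Fin (N k)) (fun k => Finset.univ)
      (fun k => mks (F k) (G k) (e k)) ν _ hν hνs U hUo ?_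
    have hηε : ∀ᶠ k in (𝒰 : Filter ℕ), η (N k) < ρ := hηt.eventually_lt_const hρ
    filter_upwards [hηε] with k hηk t ht x _ hmem
    by_contra hib
    obtain ⟨j, l, hj, hl⟩ := hBn k t.1 hib
    obtain ⟨m1, m2, m3, m4, m5⟩ := hmem
    rcases hloc _ _ _ _ _ _ _ (m1.trans_le hr0) (m2.trans_le hr0) (m3.trans_le hr0)
      (m4.trans_le hr0) (m5.trans_le hr0) (tw_mono hj (hηk.le.trans hr0))
      (tw_mono hl (hηk.le.trans hr0)) with h | h
    · exact no_hit (F k) ht hj m1 m3 m4 hηk.le hr1 hr2 x h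
    · exact no_hit (F k) ht hl m1 m3 m4 hηk.le hr1 hr2 x h
  · -- enter
    rw [ae_iff]
    refine measure_null_of_locally_null _ fun z hz => ?_
    have hz' : Enter (z.1.1.1 : E4) (z.1.1.2.1 : E4) (z.1.2.1.1 : E4) (z.1.2.2.1 : E4)
      (z.2.1.1 : E4) (z.2.2.1 : E4) := by
      by_contra h
      exact hz h
    obtain ⟨ρ₀, hρ₀, hloc⟩ := h3 _ _ _ _ _ _ hz'
    have hua : (z.1.1.1 : E4) ≠ (z.1.2.1.1 : E4) := by
      intro h
      have := hz'.2
      rw [← h, det4_zero_left, zero_mul] at this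
      exact lt_irrefl _ this
    have hub : (z.1.1.1 : E4) ≠ (z.1.2.2.1 : E4) := by
      intro h
      have := hz'.2
      rw [← h, det4_zero_mid _ (z.1.2.1.1 : E4), zero_mul] at this
      exact lt_irrefl _ this
    set ρ := min ρ₀ (min (dist (z.1.1.1 : E4) (z.1.2.1.1 : E4) / 3)
      (dist (z.1.1.1 : E4) (z.1.2.2.1 : E4) / 3)) with hρdef
    have hρ : 0 < ρ := lt_min hρ₀ (lt_min (by have := dist_pos.2 hua; positivity)
      (by have := dist_pos.2 hub; positivity))
    have hr0 : ρ ≤ ρ₀ := min_le_left _ _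
    have hr1 : 3 * ρ ≤ dist (z.1.1.1 : E4) (z.1.2.1.1 : E4) := by
      have : ρ ≤ dist (z.1.1.1 : E4) (z.1.2.1.1 : E4) / 3 :=
        (min_le_right _ _).trans (min_le_left _ _)
      linarith
    have hr2 : 3 * ρ ≤ dist (z.1.1.1 : E4) (z.1.2.2.1 : E4) := by
      have : ρ ≤ dist (z.1.1.1 : E4) (z.1.2.2.1 : E4) / 3 :=
        (min_le_right _ _).trans (min_le_right _ _)
      linarith
    set U : Set ((Mk × Mk × Mk) × (Mk × Mk)) := {z' | dist (z'.1.1.1 : E4) (z.1.1.1 : E4) < ρ ∧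
      dist (z'.1.1.2.1 : E4) (z.1.1.2.1 : E4) < ρ ∧ dist (z'.1.2.1.1 : E4) (z.1.2.1.1 : E4) < ρ ∧
      dist (z'.1.2.2.1 : E4) (z.1.2.2.1 : E4) < ρ ∧ dist (z'.2.1.1 : E4) (z.2.1.1 : E4) < ρ ∧
      dist (z'.2.2.1 : E4) (z.2.2.1 : E4) < ρ} with hU
    have hUo : IsOpen U := by
      refine IsOpen.and (isOpen_lt (by fun_prop) continuous_const) (IsOpen.and
        (isOpen_lt (by fun_prop) continuous_const) (IsOpen.and
        (isOpen_lt (by fun_prop) continuous_const) (IsOpen.and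
        (isOpen_lt (by fun_prop) continuous_const) (IsOpen.and
        (isOpen_lt (by fun_prop) continuous_const) (isOpen_lt (by fun_prop) continuous_const)))))
    have hzU : z ∈ U := by
      simp only [hU, Set.mem_ofPred_eq, dist_self]
      exact ⟨hρ, hρ, hρ, hρ, hρ, hρ⟩
    refine ⟨U, mem_nhdsWithin_of_mem_nhds (hUo.mem_nhds hzU), ?_⟩
    have hν2 : Tendsto (fun k => (pv (F k) (G k) (e k)).prod (pv (F k) (G k) (e k))) 𝒰
        (𝓝 (ν.prod ν)) :=
      (ProbabilityMeasure.continuous_prod.tendsto (ν, ν)).comp (hν.prodMk_nhds hν)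
    have hνs2 : ∀ᶠ k in (𝒰 : Filter ℕ),
        ((Finset.univ : Finset (Fin (N k))) ×ˢ (Finset.univ : Finset (Fin (N k)))).Nonempty ∧
        (((pv (F k) (G k) (e k)).prod (pv (F k) (G k) (e k)) : ProbabilityMeasure (Mk × Mk)) :
          Measure (Mk × Mk)) = em (Finset.univ ×ˢ Finset.univ)
            (fun p => (mks (F k) (G k) (e k) p.1, mks (F k) (G k) (e k) p.2)) := by
      filter_upwards [hk2] with k hk
      refine ⟨(univ_ne hk).product (univ_ne hk), ?_⟩
      rw [ProbabilityMeasure.toMeasure_prod, pv_coe hk, em_prod _ _ _ _ (univ_ne hk) (univ_ne hk)]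
    have hfin := hnull (Mk × Mk) (fun k => Fin (N k) × Fin (N k))
      (fun k => Finset.univ ×ˢ Finset.univ)
      (fun k p => (mks (F k) (G k) (e k) p.1, mks (F k) (G k) (e k) p.2)) (ν.prod ν) _ hν2 hνs2
      U hUo ?_
    · simpa using hfin
    have hηε : ∀ᶠ k in (𝒰 : Filter ℕ), η (N k) < ρ := hηt.eventually_lt_const hρ
    filter_upwards [hηε] with k hηk t ht x _ hmem
    by_contra hib
    obtain ⟨j, l, hj, hl⟩ := hBn k t.1 hib
    obtain ⟨m1, m2, m3, m4, m5, m6⟩ := hmem
    rcases hloc _ _ _ _ _ _ _ _ (m1.trans_le hr0) (m2.trans_le hr0) (m3.trans_le hr0)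
      (m4.trans_le hr0) (m5.trans_le hr0) (m6.trans_le hr0) (tw_mono hj (hηk.le.trans hr0))
      (tw_mono hl (hηk.le.trans hr0)) with h | h | h | h
    · exact no_hit (F k) ht hj m1 m3 m4 hηk.le hr1 hr2 x.1 h
    · exact no_hit (F k) ht hj m1 m3 m4 hηk.le hr1 hr2 x.2 h
    · exact no_hit (F k) ht hl m1 m3 m4 hηk.le hr1 hr2 x.1 h
    · exact no_hit (F k) ht hl m1 m3 m4 hηk.le hr1 hr2 x.2 h
  · -- transfer of open sets
    intro U c hU hc
    have hU' : IsOpen {m : Mk | (m.1, m.2.2) ∈ U} := hU.preimage (by fun_prop)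
    refine open_le hν hU' ?_
    filter_upwards [hk2, hc] with k hk hck
    classical
    rw [pv_coe hk, em_apply _ _ hU'.measurableSet]
    have hn0 : (0 : ℝ) < N k := by exact_mod_cast (by omega : 0 < N k)
    have e1 : ((Finset.univ : Finset (Fin (N k))).card : ℝ≥0∞)⁻¹ *
        ((Finset.univ.filter (fun i => mks (F k) (G k) (e k) i ∈
          {m : Mk | (m.1, m.2.2) ∈ U})).card : ℝ≥0∞) =
        ENNReal.ofReal (((Finset.univ.filter (fun i => mks (F k) (G k) (e k) i ∈
          {m : Mk | (m.1, m.2.2) ∈ U})).card : ℝ) / N k) := by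
      rw [ENNReal.ofReal_div_of_pos hn0, ENNReal.div_eq_inv_mul, ENNReal.ofReal_natCast,
        ENNReal.ofReal_natCast]
      simp
    rw [e1]
    apply ENNReal.ofReal_le_ofReal
    rw [div_le_iff₀ hn0]
    refine le_trans ?_ hck
    rw [Set.ncard_eq_toFinset_card']
    apply Nat.cast_le.2
    apply Finset.card_le_card
    intro i hi
    simp only [Finset.mem_filter, Finset.mem_univ, true_and] at hi
    simp only [Set.mem_toFinset]
    exact hi
  · -- transfer of integrals
    intro f c hf hc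
    have hcont : Continuous (fun m : Mk => f (m.1, m.2.2)) := by fun_prop
    have ht := (ProbabilityMeasure.tendsto_iff_forall_integral_tendsto.1 hν)
      (BoundedContinuousFunction.mkOfCompact ⟨fun m : Mk => f (m.1, m.2.2), hcont⟩)
    refine le_of_tendsto ht ?_
    filter_upwards [hk2, hc] with k hk hck
    have hn0 : (0 : ℝ) < N k := by exact_mod_cast (by omega : 0 < N k)
    rw [pv_coe hk]
    simp only [BoundedContinuousFunction.mkOfCompact_apply, ContinuousMap.coe_mk]
    rw [em_integral _ _ hcont.stronglyMeasurable, inv_mul_le_iff₀ (by simpa using hn0)]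
    simp only [Finset.card_univ, Fintype.card_fin]
    rw [mul_comm]
    exact hck

end NPL.Emp14
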