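import Pool.Agent.Lib.MP_4f1247_co.NL.Emp14

/-!
# Choice of the needles; ordered faces
-/

set_option autoImplicit false

open MeasureTheory Filter Topology
open scoped ENNReal

namespace NPL.Emp14

/-- a point of the sphere -/
noncomputable def s0 : S3 := ⟨EuclideanSpace.single 0 1, by simp⟩

theorem marks (h : StNeedle) : ∃ (η δ : ℕ → ℝ), Tendsto η atTop (𝓝 0) ∧
    Tendsto δ atTop (𝓝 0) ∧ (∀ n, 0 < η n) ∧
    ∀ (n : ℕ) (F : Fr n), ∃ (e : Fin n → S3) (B : Finset (Fin n)), (B.card : ℝ) ≤ δ n * n ∧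
      ∀ i ∉ B, Nd F.a i (e i) (η n) := by
  classical
  have h' : ∀ j : ℕ, ∃ C : ℕ, ∀ (n : ℕ) (a : Fin n → E4), (∀ i, ‖a i‖ = 1) →
    Function.Injective a → ∃ B : Finset (Fin n), B.card ≤ C ∧ ∀ i ∉ B, ∃ e : E4, ‖e‖ = 1 ∧
      Nd a i e (1 / ((j : ℝ) + 1)) := fun j => h _ (by positivity)
  choose C hC using h'
  set J : ℕ → ℕ := fun n => Nat.findGreatest (fun j => C j * (j + 1) ≤ n) n with hJ
  have hJt : Tendsto J atTop atTop := by
    rw [tendsto_atTop]
    intro j
    filter_upwards [eventually_ge_atTop (max j (C j * (j + 1)))] with n hn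
    exact Nat.le_findGreatest (le_trans (le_max_left _ _) hn) (le_trans (le_max_right _ _) hn)
  have hJs : ∀ᶠ n in atTop, C (J n) * (J n + 1) ≤ n := by
    filter_upwards [eventually_ge_atTop (C 0 * (0 + 1))] with n hn
    exact Nat.findGreatest_spec (P := fun j => C j * (j + 1) ≤ n) (m := 0) (Nat.zero_le _) hn
  have hη : Tendsto (fun n => 1 / ((J n : ℝ) + 1)) atTop (𝓝 0) :=
    tendsto_one_div_add_atTop_nhds_zero_nat.comp hJt
  refine ⟨fun n => 1 / ((J n : ℝ) + 1), fun n => (C (J n) : ℝ) / n, hη, ?_, ?_, ?_⟩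
  · refine squeeze_zero' (Eventually.of_forall fun n => by positivity) ?_ hη
    filter_upwards [hJs, eventually_gt_atTop 0] with n hn h0
    rw [div_le_div_iff₀ (by exact_mod_cast h0) (by positivity)]
    have : ((C (J n) * (J n + 1) : ℕ) : ℝ) ≤ n := by exact_mod_cast hn
    push_cast at this
    linarith
  · intro n
    positivity
  · intro n F
    obtain ⟨B, hB, hB2⟩ := hC (J n) n F.a F.unit F.inj
    have : ∀ i : Fin n, ∃ e : S3, i ∉ B → Nd F.a i (e : E4) (1 / ((J n : ℝ) + 1)) := by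
      intro i
      by_cases hi : i ∈ B
      · exact ⟨s0, fun h => absurd hi h⟩
      · obtain ⟨e, he, hn⟩ := hB2 i hi
        exact ⟨⟨e, by simp [he]⟩, fun _ => hn⟩
    choose e he using this
    refine ⟨e, B, ?_, fun i hi => he i hi⟩
    rcases Nat.eq_zero_or_pos n with h0 | h0
    · subst h0
      have : B = ∅ := Finset.eq_empty_of_isEmpty B
      simp [this]
    · have : (0 : ℝ) < n := by exact_mod_cast h0
      rw [div_mul_cancel₀ _ this.ne']
      exact_mod_cast hB

/-- the ordered faces -/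
def fs {n : ℕ} (F : Fr n) : Finset (Fin n × Fin n × Fin n) :=
  Finset.univ.filter (fun t => t.1 ≠ t.2.1 ∧ t.1 ≠ t.2.2 ∧ t.2.1 ≠ t.2.2 ∧
    ({t.1, t.2.1, t.2.2} : Finset (Fin n)) ∈ F.T)

lemma mem_fs {n : ℕ} (F : Fr n) (t : Fin n × Fin n × Fin n) :
    t ∈ fs F ↔ t.1 ≠ t.2.1 ∧ t.1 ≠ t.2.2 ∧ t.2.1 ≠ t.2.2 ∧
      ({t.1, t.2.1, t.2.2} : Finset (Fin n)) ∈ F.T := by
  simp [fs]

lemma fib {n : ℕ} (F : Fr n) (i j : Fin n) (hij : i ≠ j) :
    (Finset.univ.filter (fun l => (i, j, l) ∈ fs F)).card = 2 := by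
  rw [← F.two i j hij]
  refine Finset.card_bij (fun l _ => ({i, j, l} : Finset (Fin n))) ?_ ?_ ?_
  · intro l hl
    simp only [Finset.mem_filter, Finset.mem_univ, true_and, mem_fs] at hl
    simp [hl.2.2.2]
  · intro l hl l' hl' he
    simp only [Finset.mem_filter, Finset.mem_univ, true_and, mem_fs] at hl hl'
    have : l ∈ ({i, j, l'} : Finset (Fin n)) := by rw [← he]; simp
    simp only [Finset.mem_insert, Finset.mem_singleton] at this
    rcases this with h | h | h
    · exact absurd h.symm hl.2.1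
    · exact absurd h.symm hl.2.2.1
    · exact h
  · intro t ht
    simp only [Finset.mem_filter] at ht
    obtain ⟨htT, hi, hj⟩ := ht
    have h3 := F.card3 t htT
    have hsub : ({i, j} : Finset (Fin n)) ⊆ t := by
      intro x hx
      simp only [Finset.mem_insert, Finset.mem_singleton] at hx
      rcases hx with rfl | rfl <;> assumption
    have h1 : (t \ {i, j}).card = 1 := by
      rw [Finset.card_sdiff_of_subset hsub, h3, Finset.card_pair hij]
    obtain ⟨l, hl⟩ := Finset.card_eq_one.1 h1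
    have hl' : l ∈ t \ {i, j} := by rw [hl]; simp
    simp only [Finset.mem_sdiff, Finset.mem_insert, Finset.mem_singleton, not_or] at hl'
    have hte : ({i, j, l} : Finset (Fin n)) = t := by
      have := Finset.union_sdiff_of_subset hsub
      rw [hl] at this
      rw [← this]
      ext x
      simp
    refine ⟨l, ?_, hte⟩
    simp only [Finset.mem_filter, Finset.mem_univ, true_and, mem_fs]
    exact ⟨hij, Ne.symm hl'.2.1, Ne.symm hl'.2.2, hte ▸ htT⟩

lemma fib_sum {n : ℕ} (F : Fr n) (P : Fin n → Fin n → Prop) [∀ i j, Decidable (P i j)] :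
    ((fs F).filter (fun t => P t.1 t.2.1)).card =
      2 * ((Finset.univ : Finset (Fin n)).offDiag.filter (fun p => P p.1 p.2)).card := by
  rw [Finset.card_eq_sum_card_fiberwise (f := fun t : Fin n × Fin n × Fin n => (t.1, t.2.1))
    (t := (Finset.univ : Finset (Fin n)).offDiag.filter (fun p => P p.1 p.2))]
  · rw [mul_comm, ← smul_eq_mul, ← Finset.sum_const]
    refine Finset.sum_congr rfl fun p hp => ?_
    simp only [Finset.mem_filter, Finset.mem_offDiag, Finset.mem_univ, true_and] at hp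
    rw [← fib F p.1 p.2 hp.1]
    refine Finset.card_bij (fun t _ => t.2.2) ?_ ?_ ?_
    · intro t ht
      simp only [Finset.mem_filter] at ht
      obtain ⟨⟨h1, _⟩, h3⟩ := ht
      simp only [Finset.mem_filter, Finset.mem_univ, true_and]
      rw [← h3]
      exact h1
    · intro t ht t' ht' he
      simp only [Finset.mem_filter] at ht ht'
      have e1 := ht.2.trans ht'.2.symm
      simp only [Prod.mk.injEq] at e1
      exact Prod.ext e1.1 (Prod.ext e1.2 he)
    · intro l hl
      simp only [Finset.mem_filter, Finset.mem_univ, true_and] at hl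
      exact ⟨(p.1, p.2, l), by simp [hl, hp.2], rfl⟩
  · intro t ht
    simp only [Finset.coe_filter, Set.mem_ofPred_eq, mem_fs] at ht
    simp only [Finset.coe_filter, Finset.mem_offDiag, Finset.mem_univ, true_and, Set.mem_ofPred_eq]
    exact ⟨ht.1.1, ht.2⟩

lemma card_fs {n : ℕ} (F : Fr n) : (fs F).card = 2 * (Finset.univ : Finset (Fin n)).offDiag.card := by
  classical
  have := fib_sum F (fun _ _ => True)
  simpa using this

lemma em_pair {n : ℕ} (F : Fr n) {Y : Type*} [MeasurableSpace Y] (m : Fin n → Y) :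
    em (fs F) (fun t => (m t.1, m t.2.1)) =
      em (Finset.univ : Finset (Fin n)).offDiag (fun p => (m p.1, m p.2)) := by
  classical
  ext A hA
  rw [em_apply _ _ hA, em_apply _ _ hA, card_fs, fib_sum F (fun i j => (m i, m j) ∈ A)]
  push_cast
  rw [ENNReal.mul_inv (Or.inl two_ne_zero) (Or.inl ENNReal.ofNat_ne_top)]
  rw [mul_mul_mul_comm, ENNReal.inv_mul_cancel two_ne_zero ENNReal.ofNat_ne_top, one_mul]

lemma offDiag_close {n : ℕ} (hn : 2 ≤ n) (f : Fin n → Fin n → ℝ) (C : ℝ) (hC : ∀ i j, |f i j| ≤ C) :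
    |(((Finset.univ : Finset (Fin n)).offDiag.card : ℝ)⁻¹ *
        ∑ p ∈ (Finset.univ : Finset (Fin n)).offDiag, f p.1 p.2) -
      (((Finset.univ : Finset (Fin n)) ×ˢ (Finset.univ : Finset (Fin n))).card : ℝ)⁻¹ *
        ∑ p ∈ (Finset.univ : Finset (Fin n)) ×ˢ (Finset.univ : Finset (Fin n)), f p.1 p.2| ≤
      2 * C / n := by
  have hn0 : (0 : ℝ) < n := by exact_mod_cast (by omega : 0 < n)
  have hn1 : (0 : ℝ) < n - 1 := by
    have : (2 : ℝ) ≤ n := by exact_mod_cast hn
    linarith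
  have hcard : ((Finset.univ : Finset (Fin n)).offDiag.card : ℝ) = n * (n - 1) := by
    rw [Finset.offDiag_card]
    simp only [Finset.card_univ, Fintype.card_fin]
    rw [Nat.cast_sub (Nat.le_mul_self n)]
    push_cast
    ring
  have hcard2 : (((Finset.univ : Finset (Fin n)) ×ˢ (Finset.univ : Finset (Fin n))).card : ℝ) =
      n * n := by
    rw [Finset.card_product]
    simp
  set S := ∑ p ∈ (Finset.univ : Finset (Fin n)).offDiag, f p.1 p.2 with hS
  set D := ∑ p ∈ (Finset.univ : Finset (Fin n)).diag, f p.1 p.2 with hD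
  have hsum : ∑ p ∈ (Finset.univ : Finset (Fin n)) ×ˢ (Finset.univ : Finset (Fin n)), f p.1 p.2 =
      D + S := by
    rw [← Finset.diag_union_offDiag, Finset.sum_union (Finset.disjoint_diag_offDiag _)]
  have hSb : |S| ≤ C * (n * (n - 1)) := by
    rw [← hcard]
    refine (Finset.abs_sum_le_sum_abs _ _).trans ?_
    refine (Finset.sum_le_card_nsmul _ _ C fun p _ => hC _ _).trans ?_
    rw [nsmul_eq_mul, mul_comm]
  have hDb : |D| ≤ C * n := by
    refine (Finset.abs_sum_le_sum_abs _ _).trans ?_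
    refine (Finset.sum_le_card_nsmul _ _ C fun p _ => hC _ _).trans ?_
    rw [nsmul_eq_mul, Finset.diag_card, mul_comm]
    simp
  rw [hcard, hcard2, hsum]
  have e : (n * (n - 1) : ℝ)⁻¹ * S - (n * n : ℝ)⁻¹ * (D + S) =
      S / (n * (n - 1)) / n - D / n / n := by
    field_simp
    ring
  rw [e]
  have h1 : |S / (n * (n - 1)) / n| ≤ C / n := by
    rw [abs_div, abs_div, abs_of_pos hn0, abs_of_pos (mul_pos hn0 hn1)]
    exact div_le_div_of_nonneg_right ((div_le_iff₀ (mul_pos hn0 hn1)).2 hSb) hn0.le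
  have h2 : |D / n / n| ≤ C / n := by
    rw [abs_div, abs_div, abs_of_pos hn0]
    exact div_le_div_of_nonneg_right ((div_le_iff₀ hn0).2 hDb) hn0.le
  calc |S / (n * (n - 1)) / n - D / n / n| ≤ |S / (n * (n - 1)) / n| + |D / n / n| := abs_sub _ _
    _ ≤ C / n + C / n := add_le_add h1 h2
    _ = 2 * C / n := by ring

end NPL.Emp14
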