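import Pool.Agent.Lib.MP_4f1247_co.NL.Basic14

/-!
# Limits of large neighborly polyhedra: statements
-/

set_option autoImplicit false

open MeasureTheory Filter Topology
open scoped ENNReal

namespace NPL

/-- the position of the vertex `i` as a point of the sphere -/
def Fr.pt {n : ℕ} (F : Fr n) (i : Fin n) : S3 := ⟨F.a i, by simp [F.unit i]⟩

/-- N1. all but boundedly many vertices have a two-sided needle of quality `η` -/
def StNeedle : Prop :=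
  ∀ η : ℝ, 0 < η → ∃ C : ℕ, ∀ (n : ℕ) (a : Fin n → E4), (∀ i, ‖a i‖ = 1) →
    Function.Injective a → ∃ B : Finset (Fin n), B.card ≤ C ∧ ∀ i ∉ B, ∃ e : E4, ‖e‖ = 1 ∧
      Nd a i e η

/-- N2. a configuration in the lune is stabbed, with all its neighbours -/
def StLuneLoc : Prop :=
  ∀ u e a b x : E4, Lune u e a b x → ∃ η : ℝ, 0 < η ∧ ∀ u' e' a' b' x' p q : E4,
    dist u' u < η → dist e' e < η → dist a' a < η → dist b' b < η → dist x' x < η →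
    Tw u' p e' η → Tw u' q (-e') η → Hit p x' u' a' b' ∨ Hit q x' u' a' b'

/-- N3. the same when the needle enters the face -/
def StEnterLoc : Prop :=
  ∀ u e a b x y : E4, Enter u e a b x y → ∃ η : ℝ, 0 < η ∧ ∀ u' e' a' b' x' y' p q : E4,
    dist u' u < η → dist e' e < η → dist a' a < η → dist b' b < η → dist x' x < η →
    dist y' y < η → Tw u' p e' η → Tw u' q (-e') η →
    Hit p x' u' a' b' ∨ Hit p y' u' a' b' ∨ Hit q x' u' a' b' ∨ Hit q y' u' a' b'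

/-- a limit of frames: `ν` is the law of a random vertex, `Λ` the law of a random (ordered) face -/
structure Lim where
  ν : Measure Mk
  Λ : Measure (Mk × Mk × Mk)
  prob : IsProbabilityMeasure ν
  probΛ : IsProbabilityMeasure Λ
  swap : Λ.map (fun t => (t.2.1, t.1, t.2.2)) = Λ
  rot : Λ.map (fun t => (t.2.1, t.2.2, t.1)) = Λ
  pair : Λ.map (fun t => (t.1, t.2.1)) = ν.prod ν
  orth : ∀ᵐ m ∂ν, inner ℝ (m.1 : E4) (m.2.1 : E4) = 0
  lune : ∀ᵐ z ∂(Λ.prod ν), ¬ Lune (z.1.1.1 : E4) (z.1.1.2.1 : E4) (z.1.2.1.1 : E4)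
    (z.1.2.2.1 : E4) (z.2.1 : E4)
  enter : ∀ᵐ z ∂(Λ.prod (ν.prod ν)), ¬ Enter (z.1.1.1 : E4) (z.1.1.2.1 : E4) (z.1.2.1.1 : E4)
    (z.1.2.2.1 : E4) (z.2.1.1 : E4) (z.2.2.1 : E4)

/-- N4. a sequence of frames with `n → ∞` and with chosen sets `G k` of vertices has a limit along
every ultrafilter -/
def StLimit : Prop :=
  ∀ (𝒰 : Ultrafilter ℕ) (N : ℕ → ℕ) (F : ∀ k, Fr (N k)) (G : ∀ k, Finset (Fin (N k))),
    Tendsto N 𝒰 atTop → ∃ X : Lim,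
      (∀ (U : Set (S3 × Bool)) (c : ℝ), IsOpen U →
        (∀ᶠ k in (𝒰 : Filter ℕ),
          ({i | ((F k).pt i, decide (i ∈ G k)) ∈ U}.ncard : ℝ) ≤ c * N k) →
        X.ν {m | (m.1, m.2.2) ∈ U} ≤ ENNReal.ofReal c) ∧
      (∀ (f : S3 × Bool → ℝ) (c : ℝ), Continuous f →
        (∀ᶠ k in (𝒰 : Filter ℕ), ∑ i, f ((F k).pt i, decide (i ∈ G k)) ≤ c * N k) →
        ∫ m, f (m.1, m.2.2) ∂X.ν ≤ c)

/-- N5. azimuth lemma: the lune of `a` and any `b` is charged unless the plane `u e a` is -/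
def StAz : Prop :=
  ∀ (μ : Measure E4) [IsFiniteMeasure μ] (u e : E4), LinearIndependent ℝ ![u, e] →
    ∀ᵐ a ∂μ, 0 < μ {x | det4 u e a x = 0} ∨ ∀ b : E4, det4 u a b e ≠ 0 →
      0 < μ {x | 0 < det4 u x b e * det4 u a b e ∧ 0 < det4 u a x e * det4 u a b e}

/-- N6. half spaces: both sides of the plane `u e a` are charged unless the plane is -/
def StHp : Prop :=
  ∀ (μ : Measure E4) [IsFiniteMeasure μ] (u e : E4), LinearIndependent ℝ ![u, e] →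
    ∀ᵐ a ∂μ, 0 < μ {x | det4 u e a x = 0} ∨
      (0 < μ {x | 0 < det4 u e a x} ∧ 0 < μ {x | det4 u e a x < 0})

/-- N7. measurable removal lemma -/
def StRem : Prop :=
  ∀ (Ω : Type) [MeasurableSpace Ω] (ν : Measure Ω) [IsFiniteMeasure ν]
    (Λ : Measure (Ω × Ω × Ω)) [IsFiniteMeasure Λ] (E₁ E₂ E₃ : Set (Ω × Ω)),
    MeasurableSet E₁ → MeasurableSet E₂ → MeasurableSet E₃ →
    Λ.map (fun t => (t.1, t.2.1)) ≤ ν.prod ν → Λ.map (fun t => (t.1, t.2.2)) ≤ ν.prod ν →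
    Λ.map (fun t => (t.2.1, t.2.2)) ≤ ν.prod ν →
    (ν.prod (ν.prod ν)) {t | (t.1, t.2.1) ∈ E₁ ∧ (t.1, t.2.2) ∈ E₂ ∧ (t.2.1, t.2.2) ∈ E₃} = 0 →
    Λ {t | (t.1, t.2.1) ∈ E₁ ∧ (t.1, t.2.2) ∈ E₂ ∧ (t.2.1, t.2.2) ∈ E₃} = 0

/-- N8. three lines which meet pairwise, not in a plane, are concurrent -/
def StConc : Prop :=
  ∀ a ea b eb u eu : E4, LinearIndependent ℝ ![a, ea, b] → LinearIndependent ℝ ![b, eb] →
    LinearIndependent ℝ ![u, eu] → det4 a ea b eb = 0 → det4 u eu a ea = 0 →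
    det4 u eu b eb = 0 → det4 a ea b u ≠ 0 →
    ∃ O : E4, O ≠ 0 ∧ O ∈ Submodule.span ℝ {a, ea} ∧ O ∈ Submodule.span ℝ {b, eb} ∧
      O ∈ Submodule.span ℝ {u, eu}

/-- N9. Ceva: one of three concurrent needles of a face enters the face -/
def StCeva : Prop :=
  ∀ x ex y ey z ez O : E4, LinearIndependent ℝ ![x, y, z] → LinearIndependent ℝ ![x, ex] →
    LinearIndependent ℝ ![y, ey] → LinearIndependent ℝ ![z, ez] → det4 x y z ex = 0 →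
    O ≠ 0 → O ∈ Submodule.span ℝ {x, ex} → O ∈ Submodule.span ℝ {y, ey} →
    O ∈ Submodule.span ℝ {z, ez} → y ∉ Submodule.span ℝ {x, ex} →
    z ∉ Submodule.span ℝ {x, ex} → x ∉ Submodule.span ℝ {y, ey} →
    z ∉ Submodule.span ℝ {y, ey} → x ∉ Submodule.span ℝ {z, ez} →
    y ∉ Submodule.span ℝ {z, ez} → Ent x ex y z ∨ Ent y ey z x ∨ Ent z ez x y

/-- sum of the squares of the three inner products -/
noncomputable def ssq (x y z : E4) : ℝ :=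
  inner ℝ x y ^ 2 + inner ℝ y z ^ 2 + inner ℝ x z ^ 2

/-- N10. three dependent unit vectors -/
def StThin : Prop :=
  ∀ x y z : E4, ‖x‖ = 1 → ‖y‖ = 1 → ‖z‖ = 1 → ¬ LinearIndependent ℝ ![x, y, z] →
    3 / 4 ≤ ssq x y z ∧ (9 / 10 ≤ |(inner ℝ x y : ℝ)| → 91 / 100 ≤ ssq x y z)

/-- the law of the position of the vertices of the chosen set -/
noncomputable def Lim.mu (X : Lim) : Measure E4 :=
  (X.ν.restrict {m | m.2.2 = true}).map (fun m => (m.1 : E4))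

/-- no line is charged -/
def NoLine (μ : Measure E4) : Prop :=
  ∀ W : Submodule ℝ E4, Module.finrank ℝ W = 2 → μ W = 0

/-- N11. at most countably many planes are charged and almost every point is in at most one of
them -/
def StPlanes : Prop :=
  ∀ (μ : Measure E4) [IsFiniteMeasure μ], NoLine μ →
    {W : Submodule ℝ E4 | Module.finrank ℝ W = 3 ∧ 0 < μ W}.Countable ∧
    ∀ᵐ u ∂μ, ∀ W W' : Submodule ℝ E4, Module.finrank ℝ W = 3 → Module.finrank ℝ W' = 3 →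
      0 < μ W → 0 < μ W' → u ∈ W → u ∈ W' → W = W'

/-- N12. almost every fat face with chosen vertices is in a charged plane -/
def StFat : Prop :=
  ∀ X : Lim, NoLine X.mu →
    ∀ᵐ t ∂X.Λ, t.1.2.2 = true → t.2.1.2.2 = true → t.2.2.2.2 = true →
      LinearIndependent ℝ ![(t.1.1 : E4), (t.2.1.1 : E4), (t.2.2.1 : E4)] →
      0 < X.mu {w | det4 (t.1.1 : E4) (t.2.1.1 : E4) (t.2.2.1 : E4) w = 0}

/-- N13. the limit theorem -/
def StLimThm : Prop :=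
  ∃ c₀ : ℝ, 0 < c₀ ∧ ∀ X : Lim, (∀ v : E4, ∫ m, (inner ℝ v (m.1 : E4) : ℝ) ^ 2 ∂X.ν =
      ‖v‖ ^ 2 / 4) → X.ν {m | m.2.2 = false} ≤ ENNReal.ofReal c₀ → ¬ NoLine X.mu

/-- N14. the main theorem for frames in isotropic position -/
def StMain : Prop :=
  ∃ c₀ : ℝ, 0 < c₀ ∧ ∀ ω : ℝ → ℝ, Tendsto ω (𝓝[>] 0) (𝓝 0) → ∃ n₀ : ℕ, ∀ n : ℕ, n₀ ≤ n →
    ∀ F : Fr n, (∀ v : E4, ∑ i, (inner ℝ v (F.a i) : ℝ) ^ 2 = n * ‖v‖ ^ 2 / 4) →
    ∀ G : Finset (Fin n), (1 - c₀) * n ≤ G.card →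
    ∃ (W : Submodule ℝ E4) (r : ℝ), Module.finrank ℝ W = 2 ∧ 0 < r ∧
      ω r * n < ({i | i ∈ G ∧ Metric.infDist (F.a i) W ≤ r}.ncard : ℝ)

/-- the lift of a point of three-space -/
noncomputable def lift (x : EuclideanSpace ℝ (Fin 3)) : E4 := WithLp.toLp 2 (Fin.snoc x 1)

/-- the faces and vertices of a neighborly polyhedral surface -/
def Poly {n : ℕ} (p : Fin n → EuclideanSpace ℝ (Fin 3)) (T : Finset (Finset (Fin n))) : Prop :=
  (∀ t ∈ T, t.card = 3) ∧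
  (∀ i j : Fin n, i ≠ j → (T.filter (fun t => i ∈ t ∧ j ∈ t)).card = 2) ∧
  (∀ t ∈ T, AffineIndependent ℝ (fun x : {i // i ∈ t} => p x.1)) ∧
  (∀ t₁ ∈ T, ∀ t₂ ∈ T,
    convexHull ℝ (p '' (t₁ : Set (Fin n))) ∩ convexHull ℝ (p '' (t₂ : Set (Fin n)))
      = convexHull ℝ (p '' ((t₁ ∩ t₂ : Finset (Fin n)) : Set (Fin n))))

/-- N15. the frame of a polyhedron in the position given by a linear map -/
def StPolyFr : Prop :=
  ∀ (n : ℕ) (p : Fin n → EuclideanSpace ℝ (Fin 3)) (T : Finset (Finset (Fin n))), Poly p T →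
    3 ≤ n → ∀ g : E4 ≃ₗ[ℝ] E4, ∃ F : Fr n, F.T = T ∧ ∀ i, F.a i = ‖g (lift (p i))‖⁻¹ • g (lift (p i))

/-- N16. isotropic position of a measure -/
def StForster : Prop :=
  ∀ (μ : Measure E4) [IsProbabilityMeasure μ], (∀ᵐ x ∂μ, ‖x‖ = 1) →
    (∀ W : Submodule ℝ E4, Module.finrank ℝ W < 4 → μ W < ENNReal.ofReal (Module.finrank ℝ W / 4) ∨
      W = ⊥) →
    ∃ g : E4 ≃ₗ[ℝ] E4, ∀ v : E4, ∫ x, (inner ℝ v (‖g x‖⁻¹ • g x) : ℝ) ^ 2 ∂μ = ‖v‖ ^ 2 / 4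

/-- N17. the slab theorem in three-space -/
def StSlab : Prop :=
  ∃ c₀ : ℝ, 0 < c₀ ∧ ∀ ω : ℝ → ℝ, Tendsto ω (𝓝[>] 0) (𝓝 0) → ∃ n₀ : ℕ, ∀ n : ℕ, n₀ ≤ n →
    ∀ (p : Fin n → EuclideanSpace ℝ (Fin 3)) (T : Finset (Finset (Fin n))), Poly p T →
    (∀ i, ‖p i‖ ≤ 1) → ∀ G : Finset (Fin n), (1 - c₀) * n ≤ G.card →
    ∃ (e : EuclideanSpace ℝ (Fin 3)) (s r : ℝ), ‖e‖ = 1 ∧ 0 < r ∧
      ω r * n < ({i | i ∈ G ∧ |inner ℝ e (p i) - s| ≤ r}.ncard : ℝ)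

end NPL
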