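import Pool.Agent.Lib.MP_4f1247_co.NL.Stmts14

/-!
# Isotropic positions exist
-/

set_option autoImplicit false

open MeasureTheory Filter Topology
open scoped ENNReal

namespace NPL

/-- N18. every neighborly polyhedral surface with at least six vertices has an isotropic position
(at most four vertices are coplanar and no three collinear) -/
def StIso : Prop :=
  ∀ (n : ℕ) (p : Fin n → EuclideanSpace ℝ (Fin 3)) (T : Finset (Finset (Fin n))), Poly p T →
    6 ≤ n → ∃ g : E4 ≃ₗ[ℝ] E4, ∀ v : E4,
      ∑ i, (inner ℝ v (‖g (lift (p i))‖⁻¹ • g (lift (p i))) : ℝ) ^ 2 = n * ‖v‖ ^ 2 / 4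

end NPL
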