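import Pool.Agent.Lib.MP_4f1247_co.NL.Stmts14

/-!
# The dichotomy in arbitrary position
-/

set_option autoImplicit false

open MeasureTheory Filter Topology
open scoped ENNReal

namespace NPL

/-- N19. in every projective position either a line is charged by the chosen vertices or some
plane has almost three quarters of the vertices near it -/
def StDich : Prop :=
  ∃ c₀ : ℝ, 0 < c₀ ∧ ∀ ω : ℝ → ℝ, Tendsto ω (𝓝[>] 0) (𝓝 0) → ∀ δ : ℝ, 0 < δ →
    ∀ θ : ℝ, θ < 3 / 4 → ∃ n₀ : ℕ, ∀ n : ℕ, n₀ ≤ n → ∀ F : Fr n, ∀ G : Finset (Fin n),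
    (1 - c₀) * n ≤ G.card →
    (∃ (W : Submodule ℝ E4) (r : ℝ), Module.finrank ℝ W = 2 ∧ 0 < r ∧
      ω r * n < ({i | i ∈ G ∧ Metric.infDist (F.a i) W ≤ r}.ncard : ℝ)) ∨
    ∃ W : Submodule ℝ E4, Module.finrank ℝ W = 3 ∧
      θ * n < ({i | Metric.infDist (F.a i) W ≤ δ}.ncard : ℝ)

end NPL
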