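import Pool.Agent.Lib.MP_4f1247_co.NL.StmtsC14

/-!
# Final statements, with a lower bound for the radius

Without a lower bound for `r` a bound `ω r * n < ...` is no restriction (two points are on a line
and `ω r * n < 2` for small `r`). Here the radius is at least `r₀`, which depends on `ω` only.
-/

set_option autoImplicit false

open MeasureTheory Filter Topology
open scoped ENNReal

namespace NPL

/-- the main theorem for frames in isotropic position -/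
def StMainR : Prop :=
  ∃ c₀ : ℝ, 0 < c₀ ∧ ∀ ω : ℝ → ℝ, Tendsto ω (𝓝[>] 0) (𝓝 0) → ∃ (n₀ : ℕ) (r₀ : ℝ), 0 < r₀ ∧
    ∀ n : ℕ, n₀ ≤ n →
    ∀ F : Fr n, (∀ v : E4, ∑ i, (inner ℝ v (F.a i) : ℝ) ^ 2 = n * ‖v‖ ^ 2 / 4) →
    ∀ G : Finset (Fin n), (1 - c₀) * n ≤ G.card →
    ∃ (W : Submodule ℝ E4) (r : ℝ), Module.finrank ℝ W = 2 ∧ r₀ ≤ r ∧
      ω r * n < ({i | i ∈ G ∧ Metric.infDist (F.a i) W ≤ r}.ncard : ℝ)

/-- in every projective position either a line is charged by the chosen vertices or some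
plane has almost three quarters of the vertices near it -/
def StDichR : Prop :=
  ∃ c₀ : ℝ, 0 < c₀ ∧ ∀ ω : ℝ → ℝ, Tendsto ω (𝓝[>] 0) (𝓝 0) → ∀ δ : ℝ, 0 < δ →
    ∀ θ : ℝ, θ < 3 / 4 → ∃ (n₀ : ℕ) (r₀ : ℝ), 0 < r₀ ∧
    ∀ n : ℕ, n₀ ≤ n → ∀ F : Fr n, ∀ G : Finset (Fin n),
    (1 - c₀) * n ≤ G.card →
    (∃ (W : Submodule ℝ E4) (r : ℝ), Module.finrank ℝ W = 2 ∧ r₀ ≤ r ∧
      ω r * n < ({i | i ∈ G ∧ Metric.infDist (F.a i) W ≤ r}.ncard : ℝ)) ∨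
    ∃ W : Submodule ℝ E4, Module.finrank ℝ W = 3 ∧
      θ * n < ({i | Metric.infDist (F.a i) W ≤ δ}.ncard : ℝ)

/-- the slab theorem in three-space -/
def StSlabR : Prop :=
  ∃ c₀ : ℝ, 0 < c₀ ∧ ∀ ω : ℝ → ℝ, Tendsto ω (𝓝[>] 0) (𝓝 0) → ∃ (n₀ : ℕ) (r₀ : ℝ), 0 < r₀ ∧
    ∀ n : ℕ, n₀ ≤ n →
    ∀ (p : Fin n → EuclideanSpace ℝ (Fin 3)) (T : Finset (Finset (Fin n))), Poly p T →
    (∀ i, ‖p i‖ ≤ 1) → ∀ G : Finset (Fin n), (1 - c₀) * n ≤ G.card →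
    ∃ (e : EuclideanSpace ℝ (Fin 3)) (s r : ℝ), ‖e‖ = 1 ∧ r₀ ≤ r ∧
      ω r * n < ({i | i ∈ G ∧ |inner ℝ e (p i) - s| ≤ r}.ncard : ℝ)

end NPL
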